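import Pool.Agent.H63.Sey.FinDef

/-!
# Finite facts: R12 plus two elements, R10 (job SEY-F3)

Use `not_regular_of_cert`, `not_regular_of_certD`; certificates: scratch python `team-store
h63_sey_cert.py`.
-/

set_option autoImplicit false

namespace Pool.Agent.H63.Sey

universe u

variable {α : Type u} [DecidableEq α]

/-- data of a certificate for a Fano minor -/
private structure CCert (n r : ℕ) where
  w : Fin r → ZMod 2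
  cs : List (Fin (n + 1))
  T : Fin r → Fin 3 → ZMod 2
  s : Fin 7 → Fin (n + 1)

/-- the conditions of `MinorCert` -/
private def CCert.Ok {n r : ℕ} (d : CCert n r) (v : Fin n → Fin r → ZMod 2) : Prop :=
  (∀ i j, d.s i = d.s j → i = j) ∧ (∀ c ∈ d.cs, ∀ i, d.s i ≠ c) ∧
    (∀ c ∈ d.cs, ∀ k, ∑ j, snocv v d.w c j * d.T j k = 0) ∧
    (∀ i k, ∑ j, snocv v d.w (d.s i) j * d.T j k = fano i k) ∧
    ∀ φ : Fin r → ZMod 2, (∀ c ∈ d.cs, ∑ j, φ j * snocv v d.w c j = 0) →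
      ∃ ψ : Fin 3 → ZMod 2, ∀ j, φ j = ∑ k, ψ k * d.T j k

private instance {n r : ℕ} (d : CCert n r) (v : Fin n → Fin r → ZMod 2) : Decidable (d.Ok v) := by
  unfold CCert.Ok
  infer_instance

private theorem CCert.Ok.not_regular {n r : ℕ} {d : CCert n r} {v : Fin n → Fin r → ZMod 2}
    (h : d.Ok v) {ι : Fin (n + 1) → α} (hι : Function.Injective ι) :
    ¬ Regular (conc (snocv v d.w) ι) := by
  obtain ⟨h1, h2, h3, h4, h5⟩ := h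
  exact not_regular_of_cert (s := d.s) (cs := d.cs) (T := d.T)
    ⟨fun i j => h1 i j, h2, h3, h4, h5⟩ hι

/-- the certificates for `l_i` -/
private def lcert : Fin 3 → CCert 13 7 :=
  ![⟨![1, 0, 1, 0, 0, 0, 1], [1, 4, 6, 9],
      ![![1, 0, 0], ![0, 0, 0], ![0, 1, 0], ![0, 0, 0], ![0, 0, 0], ![0, 0, 0], ![0, 0, 1]],
      ![2, 5, 7, 12, 0, 3, 13]⟩,
    ⟨![0, 1, 0, 1, 0, 0, 1], [0, 3, 6, 9],
      ![![0, 0, 1], ![1, 0, 0], ![0, 0, 1], ![0, 1, 0], ![0, 0, 0], ![0, 0, 0], ![0, 0, 1]],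
      ![1, 4, 7, 12, 2, 5, 13]⟩,
    ⟨![1, 1, 1, 1, 0, 0, 1], [0, 3, 6, 9],
      ![![0, 0, 1], ![1, 0, 0], ![0, 0, 1], ![0, 1, 0], ![0, 0, 0], ![0, 0, 0], ![0, 0, 1]],
      ![1, 4, 7, 12, 2, 5, 13]⟩]

/-- the certificate for `kappa` -/
private def kcert : CCert 13 7 :=
  ⟨![0, 0, 0, 0, 1, 1, 1], [0, 1, 3, 13],
      ![![0, 0, 1], ![0, 0, 0], ![0, 0, 1], ![1, 0, 0], ![0, 1, 1], ![0, 1, 0], ![0, 0, 1]],
      ![4, 9, 10, 2, 5, 6, 7]⟩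

private theorem lcert_ok : ∀ i, (lcert i).Ok r13 := by
  decide +kernel

private theorem lcert_w : ∀ i, (lcert i).w = Fin.snoc (lvec i) 1 := by
  decide +kernel

private theorem kcert_ok : kcert.Ok r13 := by
  decide +kernel

private theorem kcert_w : kcert.w = Fin.snoc kap 1 := by
  decide +kernel

/-- (SEY-F3) three certificates (vectors 69, 74, 79): `(l_i, 1)` is not a regular extension -/
theorem r13_lvec_not_regular (i : Fin 3) {ι : Fin 14 → α} (hι : Function.Injective ι) :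
    ¬ Regular (conc (snocv r13 (Fin.snoc (lvec i) 1)) ι) := by
  rw [← lcert_w i]
  exact (lcert_ok i).not_regular hι

/-- (SEY-F3) one certificate (vector 112): `(kappa, 1)` is not a regular extension -/
theorem r13_kap_not_regular {ι : Fin 14 → α} (hι : Function.Injective ι) :
    ¬ Regular (conc (snocv r13 (Fin.snoc kap 1)) ι) := by
  rw [← kcert_w]
  exact kcert_ok.not_regular hι

/-- the 21 certificates for `R10` -/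
private def tcerts : List (CCert 10 5) :=
  [⟨![1, 0, 0, 0, 0], [0, 5],
      ![![0, 1, 1], ![1, 1, 1], ![1, 0, 0], ![0, 1, 0], ![0, 0, 1]],
      ![8, 7, 1, 6, 2, 10, 9]⟩,
    ⟨![0, 1, 0, 0, 0], [0, 3],
      ![![1, 1, 0], ![0, 1, 0], ![1, 0, 0], ![0, 1, 0], ![0, 0, 1]],
      ![6, 10, 1, 8, 2, 4, 7]⟩,
    ⟨![1, 1, 0, 0, 0], [0, 1],
      ![![1, 1, 0], ![1, 0, 0], ![0, 1, 0], ![0, 1, 0], ![0, 0, 1]],
      ![6, 10, 3, 9, 4, 2, 7]⟩,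
    ⟨![0, 0, 1, 0, 0], [0, 1],
      ![![1, 1, 0], ![1, 0, 0], ![0, 1, 0], ![0, 1, 0], ![0, 0, 1]],
      ![6, 10, 3, 9, 4, 2, 7]⟩,
    ⟨![1, 0, 1, 0, 0], [0, 3],
      ![![1, 1, 0], ![0, 1, 0], ![1, 0, 0], ![0, 1, 0], ![0, 0, 1]],
      ![6, 10, 1, 8, 2, 4, 7]⟩,
    ⟨![0, 1, 1, 0, 0], [0, 5],
      ![![0, 1, 1], ![1, 1, 1], ![1, 0, 0], ![0, 1, 0], ![0, 0, 1]],
      ![8, 7, 1, 6, 2, 10, 9]⟩,
    ⟨![0, 0, 0, 1, 0], [0, 1],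
      ![![1, 1, 0], ![1, 0, 0], ![0, 1, 0], ![0, 1, 0], ![0, 0, 1]],
      ![6, 10, 3, 9, 4, 2, 7]⟩,
    ⟨![1, 0, 0, 1, 0], [1, 3],
      ![![1, 1, 0], ![1, 0, 0], ![1, 0, 0], ![0, 1, 0], ![0, 0, 1]],
      ![10, 6, 0, 7, 5, 2, 8]⟩,
    ⟨![0, 1, 0, 1, 0], [1, 4],
      ![![1, 0, 1], ![1, 1, 1], ![1, 0, 0], ![0, 1, 0], ![0, 0, 1]],
      ![8, 7, 0, 6, 10, 2, 9]⟩,
    ⟨![0, 0, 1, 1, 0], [2, 3],
      ![![1, 1, 0], ![1, 1, 1], ![1, 0, 0], ![0, 1, 0], ![0, 0, 1]],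
      ![8, 7, 10, 6, 0, 1, 9]⟩,
    ⟨![1, 1, 1, 1, 0], [0, 1],
      ![![1, 1, 0], ![1, 0, 0], ![0, 1, 0], ![0, 1, 0], ![0, 0, 1]],
      ![6, 10, 3, 9, 4, 2, 7]⟩,
    ⟨![0, 0, 0, 0, 1], [0, 2],
      ![![1, 0, 1], ![1, 0, 0], ![0, 0, 1], ![0, 1, 0], ![0, 0, 1]],
      ![7, 9, 3, 10, 4, 1, 6]⟩,
    ⟨![1, 0, 0, 0, 1], [2, 4],
      ![![1, 0, 1], ![1, 0, 0], ![1, 0, 0], ![0, 1, 0], ![0, 0, 1]],
      ![10, 6, 5, 7, 0, 1, 8]⟩,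
    ⟨![0, 1, 0, 0, 1], [2, 3],
      ![![1, 1, 0], ![1, 1, 1], ![1, 0, 0], ![0, 1, 0], ![0, 0, 1]],
      ![8, 7, 10, 6, 0, 1, 9]⟩,
    ⟨![0, 0, 1, 0, 1], [1, 4],
      ![![1, 0, 1], ![1, 1, 1], ![1, 0, 0], ![0, 1, 0], ![0, 0, 1]],
      ![8, 7, 0, 6, 10, 2, 9]⟩,
    ⟨![1, 1, 1, 0, 1], [0, 2],
      ![![1, 0, 1], ![1, 0, 0], ![0, 0, 1], ![0, 1, 0], ![0, 0, 1]],
      ![7, 9, 3, 10, 4, 1, 6]⟩,
    ⟨![0, 0, 0, 1, 1], [0, 5],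
      ![![0, 1, 1], ![1, 1, 1], ![1, 0, 0], ![0, 1, 0], ![0, 0, 1]],
      ![8, 7, 1, 6, 2, 10, 9]⟩,
    ⟨![1, 1, 0, 1, 1], [1, 2],
      ![![1, 0, 1], ![1, 0, 0], ![0, 1, 0], ![0, 0, 1], ![0, 0, 1]],
      ![8, 9, 3, 10, 5, 0, 6]⟩,
    ⟨![1, 0, 1, 1, 1], [3, 4],
      ![![0, 1, 1], ![1, 0, 0], ![0, 1, 0], ![0, 0, 1], ![0, 0, 1]],
      ![8, 9, 1, 10, 0, 5, 6]⟩,
    ⟨![0, 1, 1, 1, 1], [6, 7],
      ![![1, 0, 0], ![0, 1, 1], ![0, 1, 0], ![0, 0, 1], ![0, 0, 1]],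
      ![5, 9, 1, 10, 0, 8, 3]⟩,
    ⟨![1, 1, 1, 1, 1], [0, 5],
      ![![0, 1, 1], ![1, 1, 1], ![1, 0, 0], ![0, 1, 0], ![0, 0, 1]],
      ![8, 7, 1, 6, 2, 10, 9]⟩]

private theorem tcerts_ok : ∀ d ∈ tcerts, d.Ok r10 := by
  decide +kernel

private theorem tcerts_cover :
    ∀ w : Fin 5 → ZMod 2, (w = 0 ∨ ∃ i, w = r10 i) ∨ ∃ d ∈ tcerts, d.w = w := by
  decide +kernel

/-- (SEY-F3) the only regular extensions of `R10` are by loops and parallel elements -/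
theorem r10_extension {w : Fin 5 → ZMod 2} {ι : Fin 11 → α} (hι : Function.Injective ι)
    (h : Regular (conc (snocv r10 w) ι)) : w = 0 ∨ ∃ i, w = r10 i := by
  rcases tcerts_cover w with hw | ⟨d, hd, rfl⟩
  · exact hw
  · exact absurd h ((tcerts_ok d hd).not_regular hι)

/-- the isomorphism of `R10` with its dual -/
private def r10perm : Equiv.Perm (Fin 10) where
  toFun := ![0, 1, 5, 8, 2, 9, 7, 3, 6, 4]
  invFun := ![0, 1, 4, 7, 9, 2, 8, 6, 3, 5]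
  left_inv := by decide
  right_inv := by decide

private theorem r10_orth : ∀ j k, ∑ i, r10 i j * r10 (r10perm i) k = 0 := by
  decide +kernel

private theorem r10_perp : ∀ y : Fin 10 → ZMod 2, (∀ j, ∑ i, r10 i j * y i = 0) →
    ∃ ψ : Fin 5 → ZMod 2, ∀ i, y i = ∑ k, ψ k * r10 (r10perm i) k := by
  decide +kernel

/-- (SEY-F3) `R10` is self-dual -/
theorem isR10_dual {M : BM α} (h : IsR10 M) : IsR10 M.dual := by
  obtain ⟨ι, hι, rfl⟩ := h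
  refine ⟨ι ∘ r10perm.symm, hι.comp r10perm.symm.injective, ?_⟩
  rw [← conc_comp r10 (ι := ι ∘ r10perm.symm) r10perm]
  have e : (ι ∘ r10perm.symm) ∘ r10perm = ι := by
    funext i
    simp
  rw [e]
  exact conc_dual hι r10_orth r10_perp

end Pool.Agent.H63.Sey
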