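import Pool.Agent.H63.Sey.PtDef

/-!
# Parts as minors: criteria (job SEY-P5)
-/

set_option autoImplicit false

namespace Pool.Agent.H63.Sey

open Pool.Agent.H87.Sey

universe u

variable {α : Type u} [DecidableEq α]

private lemma ptD_res {M N : BM α} {A : Finset α}
    (hres : N.D.map (res (ZMod 2) A) = M.D.map (res (ZMod 2) A)) {w : α → ZMod 2}
    (hw : w ∈ N.D) : ∃ y ∈ M.D, ∀ a ∈ A, w a = y a := by
  have h1 : res (ZMod 2) A w ∈ N.D.map (res (ZMod 2) A) := Submodule.mem_map_of_mem hw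
  rw [hres] at h1
  obtain ⟨y, hy, hyw⟩ := h1
  refine ⟨y, hy, fun a ha => ?_⟩
  have h2 := congrFun hyw a
  rw [res_apply, res_apply, if_pos ha, if_pos ha] at h2
  exact h2.symm

/-- Criterion for a minor to be a part. Proof of `mem`: if `w ∈ N.D` then `w` vanishes outside
`N.E`; by `hres` there is `y ∈ M.D` with `w = y` on `A` (`mem` of the two `map (res A)`), and
`w (z i) = ∑ a ∈ R i, w a = ∑ a ∈ R i, y a` since `R i ⊆ A`. Conversely, given `w` and `y`, take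
`w' ∈ N.D` with `w' = y` on `A`; then `w' (z i) = ∑ a ∈ R i, w' a = w (z i)`, so `w = w'`. -/
theorem isPart_of_res {k : ℕ} {M N : BM α} {A : Finset α} {z : Fin k → α} {R : Fin k → Finset α}
    (hz : Function.Injective z) (hzA : ∀ i, z i ∉ A) (hE : N.E = A ∪ Finset.univ.image z)
    (hR : ∀ i, R i ⊆ A) (hres : N.D.map (res (ZMod 2) A) = M.D.map (res (ZMod 2) A))
    (hN : ∀ i, ∀ y ∈ N.D, y (z i) = ∑ a ∈ R i, y a) : IsPart M N A z R := by
  refine ⟨hz, hzA, hE, fun w => ⟨fun hw => ⟨N.supp w hw, ?_⟩, ?_⟩⟩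
  · obtain ⟨y, hy, hyw⟩ := ptD_res hres hw
    refine ⟨y, hy, hyw, fun i => ?_⟩
    rw [hN i w hw]
    exact Finset.sum_congr rfl fun a ha => hyw a (hR i ha)
  · rintro ⟨hw0, y, hy, hyw, hwz⟩
    obtain ⟨w', hw', hyw'⟩ := ptD_res hres.symm hy
    have h1 : w = w' := by
      funext a
      by_cases ha : a ∈ N.E
      · rw [hE, Finset.mem_union, Finset.mem_image] at ha
        rcases ha with ha | ⟨i, -, rfl⟩
        · rw [hyw a ha, hyw' a ha]
        · rw [hwz i, hN i w' hw']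
          exact Finset.sum_congr rfl fun a ha => hyw' a (hR i ha)
      · rw [hw0 a ha, N.supp w' hw' a ha]
    rw [h1]
    exact hw' 

/-- If `N` is a minor of `M`, `A ⊆ N.E`, `N.D` and `M.D` have the same restriction to `A`, and
`t ∈ N.E \ A` is in the closure of `A` in `N` and is not a loop of `N`, then `t` is a guts point.

Proof. By `exists_sum_of_inCl` there is `R₀ ⊆ A` with `y t = ∑ a ∈ R₀, y a` for `y ∈ N.D`. Write
`N = (M.con C).del D`, `C, D ⊆ M.E \ N.E` disjoint (`IsMinor.exists_indep`). For all `y ∈ M.D`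
vanishing on `C`: `∑ a ∈ R₀, y a = y t` (`mem_con`, `mem_del`). By `exists_sum_of_vanish` with
`Y := insert t R₀` (disjoint) there is `C₀ ⊆ C` with
`∑ a ∈ R₀, y a + y t = ∑ a ∈ C₀, y a` for all `y ∈ M.D`. So `∑ a ∈ R₀, y a = ∑ a ∈ S₀, y a` with
`S₀ = insert t C₀ ⊆ M.E \ A` (characteristic 2; `t ∉ C₀`). Use `Guts.full`. In the first case
`∑ a ∈ R₀, y a = 0` on `M.D`, so on `N.D` by `hres`, so `t` is a loop of `N`; excluded. In the
second case `∑ a ∈ R₀, y a = ∑ a ∈ R i, y a` on `M.D`, so on `N.D` by `hres`. -/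
theorem guts_point {k : ℕ} {M N : BM α} {A : Finset α} {R S : Fin k → Finset α}
    (hG : Guts M A R S) (hN : N.IsMinor M) (hA : A ⊆ N.E)
    (hres : N.D.map (res (ZMod 2) A) = M.D.map (res (ZMod 2) A)) {t : α} (ht : t ∈ N.E \ A)
    (hcl : N.InCl A t) (hnl : ∃ y ∈ N.D, y t ≠ 0) :
    ∃ i, ∀ y ∈ N.D, y t = ∑ a ∈ R i, y a := by
  have two : ∀ a : ZMod 2, a + a = 0 := by decide
  obtain ⟨htE, htA⟩ := Finset.mem_sdiff.1 ht
  obtain ⟨R₀, hR₀A, hR₀⟩ := exists_sum_of_inCl N hcl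
  obtain ⟨C, D, hCD, hCDE, hNeq, -, -⟩ := hN.exists_indep
  have hC : ∀ a ∈ C, a ∈ M.E ∧ a ∉ N.E := fun a ha =>
    Finset.mem_sdiff.1 (hCDE ▸ Finset.mem_union_left D ha)
  have hD : ∀ a ∈ D, a ∈ M.E ∧ a ∉ N.E := fun a ha =>
    Finset.mem_sdiff.1 (hCDE ▸ Finset.mem_union_right C ha)
  have hNM : N.E ⊆ M.E := by
    rw [hNeq]
    exact Finset.sdiff_subset.trans Finset.sdiff_subset
  have htR : t ∉ R₀ := fun h => htA (hR₀A h)
  have hvan : ∀ y ∈ M.D, (∀ b ∈ C, y b = 0) → ∑ a ∈ insert t R₀, y a = 0 := by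
    intro y hy hyC
    have hx : (fun a => if a ∈ D then 0 else y a) ∈ N.D := by
      rw [hNeq, LM.mem_del]
      refine ⟨fun a ha => by rw [if_pos ha], y, ?_, fun a ha => by rw [if_neg ha]⟩
      rw [LM.mem_con]
      exact ⟨hy, hyC⟩
    have h1 := hR₀ _ hx
    rw [if_neg fun h => (hD t h).2 htE] at h1
    have h2 : ∑ b ∈ R₀, (if b ∈ D then 0 else y b) = ∑ b ∈ R₀, y b :=
      Finset.sum_congr rfl fun b hb => if_neg fun h => (hD b h).2 (hA (hR₀A hb))
    rw [h2] at h1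
    rw [Finset.sum_insert htR, h1]
    exact two _
  obtain ⟨C₀, hC₀, hC₀s⟩ := exists_sum_of_vanish M hvan
  have htC : t ∉ C₀ := fun h => (hC t (hC₀ h)).2 htE
  have hS₀ : insert t C₀ ⊆ M.E \ A := by
    apply Finset.insert_subset
    · exact Finset.mem_sdiff.2 ⟨hNM htE, htA⟩
    · intro a ha
      have h3 := hC a (hC₀ ha)
      exact Finset.mem_sdiff.2 ⟨h3.1, fun h4 => h3.2 (hA h4)⟩
  have hfull := hG.full R₀ hR₀A (insert t C₀) hS₀ (by
    intro y hy
    have h1 := hC₀s y hy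
    rw [Finset.sum_insert htR] at h1
    rw [Finset.sum_insert htC, ← h1, ← add_assoc, two, zero_add])
  rcases hfull with h1 | ⟨i, hi⟩
  · exfalso
    obtain ⟨y, hy, hyt⟩ := hnl
    obtain ⟨y2, hy2, hyy⟩ := ptD_res hres hy
    apply hyt
    rw [hR₀ y hy, ← h1 y2 hy2]
    exact Finset.sum_congr rfl fun a ha => hyy a (hR₀A ha)
  · refine ⟨i, fun y hy => ?_⟩
    obtain ⟨y2, hy2, hyy⟩ := ptD_res hres hy
    rw [hR₀ y hy, Finset.sum_congr rfl fun a ha => hyy a (hR₀A ha), hi y2 hy2]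
    exact (Finset.sum_congr rfl fun a ha => hyy a (hG.R_sub i ha)).symm

end Pool.Agent.H63.Sey
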