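import Pool.Agent.H63.Sey.PtC
import Pool.Agent.H63.Sey.PtD

/-!
# Parts of 2- and 3-separations as minors (job SEY-P6)
-/

set_option autoImplicit false

namespace Pool.Agent.H63.Sey

open Pool.Agent.H87.Sey

universe u

variable {α : Type u} [DecidableEq α]

namespace PtEAux

lemma lam_minor_le {K : Type} [Field K] {M N : LM K α} {A : Finset α} (hN : N.IsMinor M)
    (hA : A ⊆ N.E) : N.lam A ≤ M.lam A := by
  obtain ⟨C, D, -, rfl⟩ := hN
  have hD : A \ D = A := by
    ext a
    simp only [Finset.mem_sdiff]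
    refine ⟨fun h => h.1, fun h => ⟨h, ?_⟩⟩
    have := hA h
    simp only [LM.del_E, Finset.mem_sdiff] at this
    exact this.2
  have hC : A \ C = A := by
    ext a
    simp only [Finset.mem_sdiff]
    refine ⟨fun h => h.1, fun h => ⟨h, ?_⟩⟩
    have := hA h
    simp only [LM.del_E, LM.con_E, Finset.mem_sdiff] at this
    exact this.1.2
  have h1 := (M.con C).lam_del_le A D
  have h2 := M.lam_con_le A C
  rw [hD] at h1
  rw [hC] at h2
  exact h1.trans h2

lemma not_loop {K : Type} [Field K] {N : LM K α} {t : α} (h : 1 ≤ N.rk {t}) :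
    ∃ y ∈ N.D, y t ≠ 0 := by
  by_contra hcon
  push Not at hcon
  have h1 : N.InCl ∅ t := fun x hx _ => hcon x hx
  rw [N.inCl_iff_rk, N.rk_empty] at h1
  have h2 : (insert t (∅ : Finset α)) = {t} := rfl
  rw [h2] at h1
  omega

lemma sdiff_union {A T : Finset α} (h : Disjoint A T) : (A ∪ T) \ A = T := by
  ext a
  simp only [Finset.mem_sdiff, Finset.mem_union]
  constructor
  · rintro ⟨h1 | h1, h2⟩
    · exact absurd h1 h2
    · exact h1
  · intro h1
    exact ⟨Or.inr h1, fun h2 => Finset.disjoint_left.1 h h2 h1⟩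

end PtEAux

open PtEAux

/-- The part of a 3-separation of a 3-connected binary matroid is a minor.

Proof. `lam A = 2` (`Guts.lam3`). `Cl M (M.E \ A)`: a set `B ⊆ M.E \ A` with at least two elements
has a complement with at least two elements because it contains `A` and `2 = lam A ≤ |A|`
(`lam_le_card`). `tMinor_of_cl` gives `N`, `T`. `N.D` and `M.D` have the same restriction to `A`
(`LM.map_res_eq_of_lam`). `r_N T = 2`, `lam_N A = 2`: `r_N (N.E) = r_N A`, so every `t ∈ T` is in
the closure of `A` in `N`; it is not a loop since pairs of `T` have rank `2`. By `guts_point` there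
is `i t` with `t = R (i t)` on `N.D`. `i` is injective on `T` (pairs have rank `2`, so two elements
of `T` differ on `N.D`), so it is a bijection `T → Fin 3`; let `z` be its inverse and use
`isPart_of_res`. -/
theorem exists_part3 {M : BM α} (hM : M.Conn3) {A : Finset α} (hA : A ⊆ M.E)
    {R S : Fin 3 → Finset α} (hG : Guts M A R S) (hT : Tri M R) (h4 : 4 ≤ (M.E \ A).card) :
    ∃ (P : BM α) (z : Fin 3 → α), IsPart M P A z R ∧ P.IsMinor M ∧ ∀ i, z i ∈ M.E \ A := by
  have hlam : M.lam A = 2 := hG.lam3 hA hT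
  have hAc : 2 ≤ A.card := by
    rw [← hlam]
    exact M.lam_le_card A hA
  have hcl : Cl M (M.E \ A) := by
    intro B hB hB2
    refine hM.2 B (hB.trans Finset.sdiff_subset) hB2 (hAc.trans (Finset.card_le_card ?_))
    intro a ha
    rw [Finset.mem_sdiff]
    exact ⟨hA ha, fun h => (Finset.mem_sdiff.1 (hB h)).2 ha⟩
  obtain ⟨N, T, hNM, hTM, hT3, hNE, hNlam, hNT, hpair⟩ := tMinor_of_cl hA hlam hcl h4
  have hAN : A ⊆ N.E := by
    rw [hNE]
    exact Finset.subset_union_left
  have hdis : Disjoint A T := by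
    rw [Finset.disjoint_left]
    intro a ha ha'
    exact (Finset.mem_sdiff.1 (hTM ha')).2 ha
  have hres := M.map_res_eq_of_lam hNM hAN (by rw [hlam, hNlam])
  have hsd : N.E \ A = T := by rw [hNE]; exact sdiff_union hdis
  have h1 := N.lam_add A
  rw [hsd, hNlam, hNT] at h1
  have hclT : ∀ t ∈ T, N.InCl A t := by
    intro t ht
    refine N.inCl_of_rk_le hAN (by omega) ?_
    rw [hNE]
    exact Finset.mem_union_right _ ht
  have hnl : ∀ t ∈ T, ∃ y ∈ N.D, y t ≠ 0 := by
    intro t ht
    apply not_loop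
    obtain ⟨t', ht', hne⟩ := Finset.exists_mem_ne (by omega : 1 < T.card) t
    have h2 := hpair {t, t'} (by
      intro a ha
      rw [Finset.mem_insert, Finset.mem_singleton] at ha
      rcases ha with rfl | rfl
      · exact ht
      · exact ht') (Finset.card_pair hne.symm)
    have h3 := N.rk_insert_le {t} t'
    rw [Finset.pair_comm] at h2
    have h4 : N.rk (insert t' {t}) = 2 := h2
    omega
  have hex : ∀ t : T, ∃ i, ∀ y ∈ N.D, y t.1 = ∑ a ∈ R i, y a := by
    intro t
    refine guts_point hG hNM hAN hres ?_ (hclT t.1 t.2) (hnl t.1 t.2)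
    rw [hsd]
    exact t.2
  choose f hf using hex
  have hfinj : Function.Injective f := by
    intro s t hst
    by_contra hne
    have hne' : s.1 ≠ t.1 := fun h => hne (Subtype.ext h)
    have h2 := hpair {s.1, t.1} (by
      intro a ha
      rw [Finset.mem_insert, Finset.mem_singleton] at ha
      rcases ha with rfl | rfl
      · exact s.2
      · exact t.2) (Finset.card_pair hne')
    have h3 : N.InCl {t.1} s.1 := by
      intro x hx h0
      rw [hf s x hx, hst, ← hf t x hx]
      exact h0 t.1 (Finset.mem_singleton_self _)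
    rw [N.inCl_iff_rk] at h3
    have h4 := N.rk_le_card {t.1}
    rw [Finset.card_singleton] at h4
    have h5 : N.rk (insert s.1 {t.1}) = 2 := h2
    omega
  have hfbij : Function.Bijective f := by
    rw [Fintype.bijective_iff_injective_and_card]
    refine ⟨hfinj, ?_⟩
    rw [Fintype.card_coe, hT3, Fintype.card_fin]
  set e := Equiv.ofBijective f hfbij with he
  refine ⟨N, fun i => (e.symm i).1, ?_, hNM, fun i => hTM (e.symm i).2⟩
  refine isPart_of_res ?_ ?_ ?_ hG.R_sub hres ?_
  · intro i j hij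
    exact e.symm.injective (Subtype.ext hij)
  · intro i h
    exact Finset.disjoint_left.1 hdis h (e.symm i).2
  · rw [hNE]
    congr 1
    ext a
    rw [Finset.mem_image]
    constructor
    · intro ha
      refine ⟨e ⟨a, ha⟩, Finset.mem_univ _, ?_⟩
      rw [Equiv.symm_apply_apply]
    · rintro ⟨i, _, rfl⟩
      exact (e.symm i).2
  · intro i y hy
    have h2 := hf (e.symm i) y hy
    have h3 : f (e.symm i) = i := e.apply_symm_apply i
    rw [h3] at h2
    exact h2

/-- The part of a 2-separation is a minor.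

Proof. `lam A = 1` (`Guts.lam1`). Let `S₀ ⊆ M.E \ A` be of least cardinality with
`∑ a ∈ S₀, y a = ∑ a ∈ R 0, y a` for all `y ∈ M.D` (`S 0` is one such set). It is nonempty
(`Guts.nz`); let `t ∈ S₀`. Let `A ⊆ X ⊆ M.E \ {t}`; claim `1 ≤ lam X`. Otherwise `lam X = 0`, so
`PartsAux.gs M X` is zero (`PartsAux.finrank_gs`). The functional
`∑ a ∈ S₀ \ X` is equal to `∑ a ∈ R 0 + ∑ a ∈ S₀ ∩ X`, so it lies in the span of `X` and in the
span of `M.E \ X` (`PartsAux.ev_mem`), so it is zero and `S₀ ∩ X` contradicts the minimality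
(`t ∉ X`). So `M.exists_link` with `B = {t}`, `k = 1` gives `N` on `A ∪ {t}` with `N.lam A ≥ 1`.
`M.lam A = 1 ≤ N.lam A`, so `N.D` and `M.D` have the same restriction to `A`
(`LM.map_res_eq_of_lam`). `r_N {t} ≤ 1`, `r_N A + r_N {t} = r_N (A ∪ {t}) + lam_N A`, so `t` is in
the closure of `A` and not a loop. `guts_point` and `isPart_of_res`. -/
theorem exists_part1 {M : BM α} {A : Finset α} (hA : A ⊆ M.E)
    {R S : Fin 1 → Finset α} (hG : Guts M A R S) :
    ∃ (P : BM α) (z : Fin 1 → α), IsPart M P A z R ∧ P.IsMinor M ∧ ∀ i, z i ∈ M.E \ A := by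
  classical
  have hlam : M.lam A = 1 := hG.lam1 hA
  obtain ⟨S₀, hS₀, hmin⟩ := ((M.E \ A).powerset.filter fun S₀ =>
    ∀ y ∈ M.D, ∑ a ∈ S₀, y a = ∑ a ∈ R 0, y a).exists_min_image Finset.card ⟨S 0, by
      rw [Finset.mem_filter, Finset.mem_powerset]
      exact ⟨hG.S_sub 0, fun y hy => (hG.eq 0 y hy).symm⟩⟩
  rw [Finset.mem_filter, Finset.mem_powerset] at hS₀
  obtain ⟨hS₀E, hS₀eq⟩ := hS₀
  have hne : S₀.Nonempty := by
    rw [Finset.nonempty_iff_ne_empty]
    rintro rfl
    obtain ⟨y, hy, h1⟩ := hG.nz 0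
    apply h1
    rw [← hS₀eq y hy, Finset.sum_empty]
  obtain ⟨t, ht⟩ := hne
  have htE := hS₀E ht
  rw [Finset.mem_sdiff] at htE
  have hlink : ∀ X, A ⊆ X → X ⊆ M.E \ {t} → 1 ≤ M.lam X := by
    intro X hAX hX
    by_contra hcon
    have h0 : M.lam X = 0 := by omega
    have hXE : X ⊆ M.E := hX.trans Finset.sdiff_subset
    have htX : t ∉ X := fun h => (Finset.mem_sdiff.1 (hX h)).2 (Finset.mem_singleton_self _)
    have h1 := PartsAux.finrank_gs M hXE
    rw [h0, Submodule.finrank_eq_zero] at h1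
    have hs : ∀ z : α → ZMod 2, ∑ a ∈ S₀, z a = ∑ a ∈ S₀ ∩ X, z a + ∑ a ∈ S₀ \ X, z a := fun z =>
      (Finset.sum_inter_add_sum_sdiff S₀ X z).symm
    have e1 : PartsAux.ev M (S₀ \ X) = PartsAux.ev M (R 0) + PartsAux.ev M (S₀ ∩ X) := by
      apply LinearMap.ext
      intro y
      rw [LinearMap.add_apply, PartsAux.ev_apply, PartsAux.ev_apply, PartsAux.ev_apply,
        ← hS₀eq y.1 y.2, hs, add_comm (∑ a ∈ S₀ ∩ X, y.1 a), add_assoc, PartsAux.zmod_add_self,
        add_zero]
    have h2 : PartsAux.ev M (S₀ \ X) ∈ PartsAux.gs M X := by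
      refine ⟨?_, PartsAux.ev_mem M (Finset.sdiff_subset_sdiff
        (hS₀E.trans Finset.sdiff_subset) (Finset.Subset.refl _))⟩
      rw [e1]
      exact Submodule.add_mem _ (PartsAux.ev_mem M ((hG.R_sub 0).trans hAX))
        (PartsAux.ev_mem M Finset.inter_subset_right)
    rw [h1, Submodule.mem_bot, PartsAux.ev_eq_zero] at h2
    have h3 := hmin (S₀ ∩ X) (by
      rw [Finset.mem_filter, Finset.mem_powerset]
      refine ⟨Finset.inter_subset_left.trans hS₀E, fun y hy => ?_⟩
      rw [← hS₀eq y hy, hs, h2 y hy, add_zero])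
    have h4 : (S₀ ∩ X).card < S₀.card := by
      apply Finset.card_lt_card
      refine ⟨Finset.inter_subset_left, fun h => ?_⟩
      exact htX (Finset.mem_inter.1 (h ht)).2
    omega
  obtain ⟨N, hNM, hNE, hNlam⟩ := M.exists_link (B := {t}) (k := 1) hA
    (Finset.singleton_subset_iff.2 htE.1) (Finset.disjoint_singleton_right.2 htE.2) hlink
  have hAN : A ⊆ N.E := by
    rw [hNE]
    exact Finset.subset_union_left
  have hdis : Disjoint A {t} := Finset.disjoint_singleton_right.2 htE.2
  have hres := M.map_res_eq_of_lam hNM hAN (by rw [hlam]; exact hNlam)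
  have hsd : N.E \ A = {t} := by rw [hNE]; exact sdiff_union hdis
  have h1 := N.lam_add A
  rw [hsd] at h1
  have h2 := N.rk_le_card {t}
  rw [Finset.card_singleton] at h2
  have h3 : N.rk A ≤ N.rk N.E := N.rk_mono hAN
  have htN : t ∈ N.E := by
    rw [hNE]
    exact Finset.mem_union_right _ (Finset.mem_singleton_self _)
  have hcl : N.InCl A t := N.inCl_of_rk_le hAN (by omega) htN
  obtain ⟨i, hi⟩ := guts_point hG hNM hAN hres (t := t) (by
    rw [hsd]
    exact Finset.mem_singleton_self _) hcl (not_loop (by omega))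
  refine ⟨N, fun _ => t, ?_, hNM, fun _ => Finset.mem_sdiff.2 htE⟩
  refine isPart_of_res ?_ (fun _ => htE.2) ?_ hG.R_sub hres ?_
  · intro i j _
    exact Subsingleton.elim i j
  · rw [hNE]
    congr 1
  · intro j y hy
    rw [Subsingleton.elim j i]
    exact hi y hy

/-- Linking two 3-separations (`exists_link`, `map_res_eq_of_lam`, `lam_compl`;
`N.lam A ≤ M.lam A` by `lam_del_le`, `lam_con_le`). -/
theorem exists_link2 {M : BM α} {A B : Finset α} (hA : A ⊆ M.E) (hB : B ⊆ M.E)
    (hAB : Disjoint A B) (hlA : M.lam A = 2) (hlB : M.lam B = 2)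
    (h : ∀ X, A ⊆ X → Disjoint X B → X ⊆ M.E → 2 ≤ M.lam X) :
    ∃ N : BM α, N.IsMinor M ∧ N.E = A ∪ B ∧ N.lam A = 2 ∧
      N.D.map (res (ZMod 2) A) = M.D.map (res (ZMod 2) A) ∧
      N.D.map (res (ZMod 2) B) = M.D.map (res (ZMod 2) B) := by
  obtain ⟨N, hNM, hNE, hNlam⟩ := M.exists_link (k := 2) hA hB hAB (by
    intro X hAX hX
    refine h X hAX ?_ (hX.trans Finset.sdiff_subset)
    rw [Finset.disjoint_left]
    intro a ha
    exact (Finset.mem_sdiff.1 (hX ha)).2)
  have hAN : A ⊆ N.E := by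
    rw [hNE]
    exact Finset.subset_union_left
  have hBN : B ⊆ N.E := by
    rw [hNE]
    exact Finset.subset_union_right
  have h1 := lam_minor_le hNM hAN
  have h2 : N.lam B = N.lam A := by
    have hsd : N.E \ A = B := by rw [hNE]; exact sdiff_union hAB
    rw [← hsd]
    exact N.lam_compl A hAN
  refine ⟨N, hNM, hNE, by omega, M.map_res_eq_of_lam hNM hAN (by omega),
    M.map_res_eq_of_lam hNM hBN (by omega)⟩

end Pool.Agent.H63.Sey
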