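import Pool.Agent.H63.Sey.Minor

/-!
# Concrete binary matroids, certificates for concrete minors (job SEY-C1)

`conc v ι`: the binary matroid with elements `ι 0, ..., ι (n-1)` and vectors `v 0, ..., v (n-1)`
in `(ZMod 2)^r`.

`conc_isMinor`: contract `ι c` (`c ∈ cs`) and delete the rest. The cocycles of the contraction are
given by the functionals `φ` vanishing on the vectors `v c`; by `hker` they are `ψ ∘ T`, and the
value of `ψ ∘ T` on `v (s i)` is `ψ (w i)`.
-/

set_option autoImplicit false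

namespace Pool.Agent.H63.Sey

universe u

variable {α : Type u} [DecidableEq α]

/-- the rows of a concrete matroid -/
def concMap {n r : ℕ} (v : Fin n → Fin r → ZMod 2) (ι : Fin n → α) :
    (Fin r → ZMod 2) →ₗ[ZMod 2] (α → ZMod 2) where
  toFun φ := fun a => ∑ i, if ι i = a then ∑ j, φ j * v i j else 0
  map_add' φ ψ := by
    ext a
    rw [Pi.add_apply, ← Finset.sum_add_distrib]
    refine Finset.sum_congr rfl fun i _ => ?_
    split_ifs
    · simp only [Pi.add_apply, add_mul, Finset.sum_add_distrib]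
    · rw [add_zero]
  map_smul' c φ := by
    ext a
    rw [Pi.smul_apply, smul_eq_mul, Finset.mul_sum]
    refine Finset.sum_congr rfl fun i _ => ?_
    split_ifs
    · rw [RingHom.id_apply, Finset.mul_sum]
      refine Finset.sum_congr rfl fun j _ => ?_
      rw [Pi.smul_apply, smul_eq_mul, mul_assoc]
    · rw [mul_zero]

@[simp] lemma concMap_apply {n r : ℕ} (v : Fin n → Fin r → ZMod 2) (ι : Fin n → α)
    (φ : Fin r → ZMod 2) (a : α) :
    concMap v ι φ a = ∑ i, if ι i = a then ∑ j, φ j * v i j else 0 := rfl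

/-- the binary matroid with elements `ι i` and vectors `v i` -/
def conc {n r : ℕ} (v : Fin n → Fin r → ZMod 2) (ι : Fin n → α) : BM α where
  E := Finset.univ.image ι
  D := LinearMap.range (concMap v ι)
  supp := by
    rintro x ⟨φ, rfl⟩ a ha
    rw [concMap_apply]
    refine Finset.sum_eq_zero fun i _ => if_neg fun h => ha ?_
    exact Finset.mem_image.2 ⟨i, Finset.mem_univ _, h⟩

@[simp] lemma conc_E {n r : ℕ} (v : Fin n → Fin r → ZMod 2) (ι : Fin n → α) :
    (conc v ι).E = Finset.univ.image ι := rfl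

lemma concMap_mem {n r : ℕ} (v : Fin n → Fin r → ZMod 2) {ι : Fin n → α}
    (hι : Function.Injective ι) (φ : Fin r → ZMod 2) (i : Fin n) :
    concMap v ι φ (ι i) = ∑ j, φ j * v i j := by
  rw [concMap_apply, Finset.sum_eq_single i]
  · rw [if_pos rfl]
  · intro k _ hk
    exact if_neg fun h => hk (hι h)
  · intro h
    exact absurd (Finset.mem_univ _) h

lemma concMap_notMem {n r : ℕ} (v : Fin n → Fin r → ZMod 2) {ι : Fin n → α}
    (φ : Fin r → ZMod 2) {a : α} (ha : a ∉ Finset.univ.image ι) : concMap v ι φ a = 0 :=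
  (conc v ι).supp _ ⟨φ, rfl⟩ a ha

lemma mem_conc {n r : ℕ} {v : Fin n → Fin r → ZMod 2} {ι : Fin n → α}
    (hι : Function.Injective ι) {x : α → ZMod 2} :
    x ∈ (conc v ι).D ↔ (∀ a, a ∉ Finset.univ.image ι → x a = 0) ∧
      ∃ φ : Fin r → ZMod 2, ∀ i, x (ι i) = ∑ j, φ j * v i j := by
  constructor
  · rintro ⟨φ, rfl⟩
    exact ⟨fun a ha => concMap_notMem v φ ha, φ, fun i => concMap_mem v hι φ i⟩
  · rintro ⟨h1, φ, h2⟩
    refine ⟨φ, ?_⟩
    funext a
    by_cases ha : a ∈ Finset.univ.image ι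
    · obtain ⟨i, -, rfl⟩ := Finset.mem_image.1 ha
      rw [concMap_mem v hι, h2]
    · rw [concMap_notMem v φ ha, h1 a ha]

/-- a change of coordinates: `v` and `w` give the same matroid if the functionals correspond -/
lemma conc_congr {n r t : ℕ} {v : Fin n → Fin r → ZMod 2} {w : Fin n → Fin t → ZMod 2}
    {ι : Fin n → α} (hι : Function.Injective ι)
    (h₁ : ∀ φ : Fin r → ZMod 2, ∃ ψ : Fin t → ZMod 2, ∀ i, ∑ j, φ j * v i j = ∑ k, ψ k * w i k)
    (h₂ : ∀ ψ : Fin t → ZMod 2, ∃ φ : Fin r → ZMod 2, ∀ i, ∑ j, φ j * v i j = ∑ k, ψ k * w i k) :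
    conc v ι = conc w ι := by
  refine LM.D_ext _ rfl fun x => ?_
  rw [mem_conc hι, mem_conc hι]
  refine and_congr_right fun _ => ⟨?_, ?_⟩
  · rintro ⟨φ, hφ⟩
    obtain ⟨ψ, hψ⟩ := h₁ φ
    exact ⟨ψ, fun i => (hφ i).trans (hψ i)⟩
  · rintro ⟨ψ, hψ⟩
    obtain ⟨φ, hφ⟩ := h₂ ψ
    exact ⟨φ, fun i => (hψ i).trans (hφ i).symm⟩

/-- relabelling -/
lemma conc_comp {n r : ℕ} (v : Fin n → Fin r → ZMod 2) {ι : Fin n → α}
    (σ : Equiv.Perm (Fin n)) : conc (v ∘ σ) (ι ∘ σ) = conc v ι := by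
  have h : concMap (v ∘ σ) (ι ∘ σ) = concMap v ι := by
    refine LinearMap.ext fun φ => funext fun a => ?_
    rw [concMap_apply, concMap_apply]
    exact Equiv.sum_comp σ fun i => if ι i = a then ∑ j, φ j * v i j else 0
  refine LM.ext ?_ ?_
  · show Finset.univ.image (ι ∘ σ) = Finset.univ.image ι
    rw [← Finset.image_image, Finset.image_univ_equiv]
  · show LinearMap.range (concMap (v ∘ σ) (ι ∘ σ)) = LinearMap.range (concMap v ι)
    rw [h]

/-- the dual of a concrete matroid: `w` spans the orthogonal complement of `v` -/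
lemma conc_dual {n r t : ℕ} {v : Fin n → Fin r → ZMod 2} {w : Fin n → Fin t → ZMod 2}
    {ι : Fin n → α} (hι : Function.Injective ι)
    (h₁ : ∀ j k, ∑ i, v i j * w i k = 0)
    (h₂ : ∀ y : Fin n → ZMod 2, (∀ j, ∑ i, v i j * y i = 0) →
      ∃ ψ : Fin t → ZMod 2, ∀ i, y i = ∑ k, ψ k * w i k) :
    (conc v ι).dual = conc w ι := by
  refine LM.D_ext _ rfl fun y => ?_
  rw [LM.mem_dual, mem_conc hι]
  have hsum : ∀ φ : Fin r → ZMod 2, ∑ a ∈ (conc v ι).E, concMap v ι φ a * y a =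
      ∑ j, φ j * ∑ i, v i j * y (ι i) := by
    intro φ
    rw [conc_E, Finset.sum_image fun i _ j _ h => hι h]
    simp only [concMap_mem v hι, Finset.sum_mul, Finset.mul_sum]
    rw [Finset.sum_comm]
    refine Finset.sum_congr rfl fun j _ => Finset.sum_congr rfl fun i _ => ?_
    rw [mul_assoc]
  refine and_congr_right fun _ => ⟨?_, ?_⟩
  · intro h
    apply h₂ (fun i => y (ι i))
    intro j
    have h3 := h _ ⟨Pi.single j 1, rfl⟩
    rw [hsum] at h3
    rw [Finset.sum_eq_single j] at h3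
    · rw [Pi.single_eq_same, one_mul] at h3
      exact h3
    · intro k _ hk
      rw [Pi.single_eq_of_ne hk, zero_mul]
    · intro h
      exact absurd (Finset.mem_univ _) h
  · rintro ⟨ψ, hψ⟩ x ⟨φ, rfl⟩
    rw [hsum]
    refine Finset.sum_eq_zero fun j _ => ?_
    have h3 : ∑ i, v i j * y (ι i) = 0 := by
      simp only [hψ, Finset.mul_sum]
      rw [Finset.sum_comm]
      refine Finset.sum_eq_zero fun k _ => ?_
      have h4 : ∑ i, v i j * (ψ k * w i k) = ψ k * ∑ i, v i j * w i k := by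
        rw [Finset.mul_sum]
        exact Finset.sum_congr rfl fun i _ => by ring
      rw [h4, h₁, mul_zero]
    rw [h3, mul_zero]

/-- certificate that `w` is a minor of `v`: contract `cs`, keep the elements `s i`, `T` is the
quotient map -/
structure MinorCert {n r m t : ℕ} (v : Fin n → Fin r → ZMod 2) (w : Fin m → Fin t → ZMod 2)
    (s : Fin m → Fin n) (cs : List (Fin n)) (T : Fin r → Fin t → ZMod 2) : Prop where
  inj : Function.Injective s
  disj : ∀ c ∈ cs, ∀ i, s i ≠ c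
  con : ∀ c ∈ cs, ∀ k, ∑ j, v c j * T j k = 0
  val : ∀ i k, ∑ j, v (s i) j * T j k = w i k
  ker : ∀ φ : Fin r → ZMod 2, (∀ c ∈ cs, ∑ j, φ j * v c j = 0) →
    ∃ ψ : Fin t → ZMod 2, ∀ j, φ j = ∑ k, ψ k * T j k

theorem conc_isMinor {n r m t : ℕ} {v : Fin n → Fin r → ZMod 2} {w : Fin m → Fin t → ZMod 2}
    {s : Fin m → Fin n} {cs : List (Fin n)} {T : Fin r → Fin t → ZMod 2}
    (h : MinorCert v w s cs T) {ι : Fin n → α} (hι : Function.Injective ι) :
    (conc w (ι ∘ s)).IsMinor (conc v ι) := by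
  have hιs : Function.Injective (ι ∘ s) := hι.comp h.inj
  set C : Finset α := cs.toFinset.image ι with hC
  set E' : Finset α := Finset.univ.image (ι ∘ s) with hE'
  set E : Finset α := Finset.univ.image ι with hE
  have hmC : ∀ c, ι c ∈ C ↔ c ∈ cs := by
    intro c
    rw [hC, Finset.mem_image]
    constructor
    · rintro ⟨d, hd, hdc⟩
      rw [← hι hdc]
      exact List.mem_toFinset.1 hd
    · intro hc
      exact ⟨c, List.mem_toFinset.2 hc, rfl⟩
  have hE'E : ∀ a ∈ E', a ∈ E ∧ a ∉ C := by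
    intro a ha
    obtain ⟨i, -, rfl⟩ := Finset.mem_image.1 ha
    refine ⟨Finset.mem_image.2 ⟨s i, Finset.mem_univ _, rfl⟩, fun hc => ?_⟩
    exact h.disj _ ((hmC _).1 hc) i rfl
  have hval : ∀ (ψ : Fin t → ZMod 2) (i : Fin n), ∑ j, (∑ k, ψ k * T j k) * v i j =
      ∑ k, ψ k * ∑ j, v i j * T j k := by
    intro ψ i
    simp only [Finset.sum_mul, Finset.mul_sum]
    rw [Finset.sum_comm]
    exact Finset.sum_congr rfl fun k _ => Finset.sum_congr rfl fun j _ => by ring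
  refine ⟨C, (E \ C) \ E', ?_, ?_⟩
  · rw [Finset.disjoint_left]
    intro a ha ha'
    rw [Finset.mem_sdiff, Finset.mem_sdiff] at ha'
    exact ha'.1.2 ha
  · refine LM.D_ext _ ?_ fun x => ?_
    · show E' = (E \ C) \ ((E \ C) \ E')
      ext a
      simp only [Finset.mem_sdiff]
      constructor
      · intro ha
        exact ⟨hE'E a ha, fun h' => h'.2 ha⟩
      · rintro ⟨h1, h2⟩
        by_contra h3
        exact h2 ⟨h1, h3⟩
    · rw [mem_conc hιs, LM.mem_del]
      constructor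
      · rintro ⟨h1, ψ, hψ⟩
        refine ⟨fun a ha => h1 a (Finset.mem_sdiff.1 ha).2,
          concMap v ι (fun j => ∑ k, ψ k * T j k), ?_, ?_⟩
        · rw [LM.mem_con]
          refine ⟨⟨_, rfl⟩, fun a ha => ?_⟩
          obtain ⟨c, hc, rfl⟩ := Finset.mem_image.1 ha
          rw [concMap_mem v hι, hval]
          refine Finset.sum_eq_zero fun k _ => ?_
          rw [h.con c (List.mem_toFinset.1 hc) k, mul_zero]
        · intro a ha
          by_cases haE' : a ∈ E'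
          · obtain ⟨i, -, rfl⟩ := Finset.mem_image.1 haE'
            have h2 := hψ i
            rw [Function.comp_apply] at h2 ⊢
            rw [h2, concMap_mem v hι, hval]
            exact Finset.sum_congr rfl fun k _ => by rw [h.val]
          · rw [h1 a haE']
            by_cases haE : a ∈ E
            · have haC : a ∈ C := by
                by_contra hc
                exact ha (Finset.mem_sdiff.2 ⟨Finset.mem_sdiff.2 ⟨haE, hc⟩, haE'⟩)
              obtain ⟨c, hc, rfl⟩ := Finset.mem_image.1 haC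
              rw [concMap_mem v hι, hval]
              symm
              refine Finset.sum_eq_zero fun k _ => ?_
              rw [h.con c (List.mem_toFinset.1 hc) k, mul_zero]
            · rw [concMap_notMem v _ haE]
      · rintro ⟨h1, y, hy, h2⟩
        obtain ⟨⟨φ, rfl⟩, hy2⟩ := (LM.mem_con _).1 hy
        obtain ⟨ψ, hψ⟩ := h.ker φ (by
          intro c hc
          rw [← concMap_mem v hι]
          exact hy2 _ ((hmC c).2 hc))
        refine ⟨fun a ha => ?_, ψ, fun i => ?_⟩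
        · by_cases haD : a ∈ (E \ C) \ E'
          · exact h1 a haD
          · rw [h2 a haD]
            by_cases haE : a ∈ E
            · have haC : a ∈ C := by
                by_contra hc
                exact haD (Finset.mem_sdiff.2 ⟨Finset.mem_sdiff.2 ⟨haE, hc⟩, ha⟩)
              exact hy2 a haC
            · exact concMap_notMem v _ haE
        · have hi : ι (s i) ∈ E' := Finset.mem_image.2 ⟨i, Finset.mem_univ _, rfl⟩
          rw [Function.comp_apply, h2 _ (fun h' => (Finset.mem_sdiff.1 h').2 hi),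
            concMap_mem v hι]
          have h3 : ∑ j, φ j * v (s i) j = ∑ j, (∑ k, ψ k * T j k) * v (s i) j :=
            Finset.sum_congr rfl fun j _ => by rw [← hψ j]
          rw [h3, hval]
          exact Finset.sum_congr rfl fun k _ => by rw [h.val]

/-! ### the Fano matroid and its dual are not regular -/

/-- the seven nonzero vectors of length three -/
def fano : Fin 7 → Fin 3 → ZMod 2 :=
  ![![1, 0, 0], ![0, 1, 0], ![1, 1, 0], ![0, 0, 1], ![1, 0, 1], ![0, 1, 1], ![1, 1, 1]]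

/-- dual Fano matroid -/
def fanoD : Fin 7 → Fin 4 → ZMod 2 :=
  ![![1, 1, 0, 1], ![1, 0, 1, 1], ![1, 0, 0, 0], ![0, 1, 1, 1], ![0, 1, 0, 0], ![0, 0, 1, 0],
    ![0, 0, 0, 1]]

lemma conc_inCl {n r : ℕ} {v : Fin n → Fin r → ZMod 2} {ι : Fin n → α}
    (hι : Function.Injective ι) (a b c : Fin n) (h : ∀ j, v c j = v a j + v b j) :
    (conc v ι).InCl {ι a, ι b} (ι c) := by
  rintro x ⟨φ, rfl⟩ hx
  have h1 := hx (ι a) (by simp)
  have h2 := hx (ι b) (by simp)
  rw [concMap_mem v hι] at h1 h2 ⊢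
  have h3 : ∑ j, φ j * v c j = ∑ j, φ j * v a j + ∑ j, φ j * v b j := by
    rw [← Finset.sum_add_distrib]
    exact Finset.sum_congr rfl fun j _ => by rw [h, mul_add]
  rw [h3, h1, h2, add_zero]

lemma conc_not_inCl {n r : ℕ} {v : Fin n → Fin r → ZMod 2} {ι : Fin n → α}
    (hι : Function.Injective ι) (a b c : Fin n) (φ : Fin r → ZMod 2)
    (ha : ∑ j, φ j * v a j = 0) (hb : ∑ j, φ j * v b j = 0) (hc : ∑ j, φ j * v c j ≠ 0) :
    ¬ (conc v ι).InCl {ι a, ι b} (ι c) := by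
  intro h
  apply hc
  rw [← concMap_mem v hι]
  refine h _ ⟨φ, rfl⟩ ?_
  intro d hd
  rw [Finset.mem_insert, Finset.mem_singleton] at hd
  rcases hd with rfl | rfl
  · rw [concMap_mem v hι, ha]
  · rw [concMap_mem v hι, hb]

lemma fano_alg (x2 x4 x6 y2 y5 y6 z4 z5 z6 : ZMod 3) (h2 : x2 ≠ 0) (h4 : z4 ≠ 0) (h5 : y5 ≠ 0)
    (hx : x6 ≠ 0) (hy : y6 ≠ 0) (hz : z6 ≠ 0) (e1 : y2 * x6 = x2 * y6) (e2 : z4 * x6 = x4 * z6)
    (e3 : z5 * y6 = y5 * z6) (e4 : x2 * z4 * y5 + x4 * y2 * z5 = 0) : False := by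
  have h1 : x6 * y6 * z6 ≠ 0 := mul_ne_zero (mul_ne_zero hx hy) hz
  have e5 : x2 * z4 * y5 = x4 * y2 * z5 := by
    apply mul_right_cancel₀ h1
    linear_combination (z4 * x6 * y5 * z6) * (-1) * e1 + (y2 * x6 * y5 * z6) * e2 +
      (-1) * (y2 * x6 * x4 * z6) * e3
  have e6 : x2 * z4 * y5 * 2 = 0 := by linear_combination e4 + e5
  have h3 : x2 * z4 * y5 ≠ 0 := mul_ne_zero (mul_ne_zero h2 h4) h5
  rcases mul_eq_zero.1 e6 with h | h
  · exact h3 h
  · exact absurd h (by decide)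

theorem fano_not_regular {ι : Fin 7 → α} (hι : Function.Injective ι) :
    ¬ Regular (conc fano ι) := by
  rintro ⟨M3, hE, hrk⟩
  have hmem : ∀ i, ι i ∈ (conc fano ι).E := fun i =>
    Finset.mem_image.2 ⟨i, Finset.mem_univ _, rfl⟩
  have hcl : ∀ a b c : Fin 7, M3.InCl {ι a, ι b} (ι c) ↔
      (conc fano ι).InCl {ι a, ι b} (ι c) := by
    intro a b c
    have h1 : ({ι a, ι b} : Finset α) ⊆ (conc fano ι).E := by
      intro d hd
      rw [Finset.mem_insert, Finset.mem_singleton] at hd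
      rcases hd with rfl | rfl
      · exact hmem a
      · exact hmem b
    have h2 : insert (ι c) ({ι a, ι b} : Finset α) ⊆ (conc fano ι).E :=
      Finset.insert_subset (hmem c) h1
    rw [LM.inCl_iff_rk, LM.inCl_iff_rk, hrk _ h1, hrk _ h2]
  -- lines
  have line : ∀ a b c : Fin 7, (∀ j, fano c j = fano a j + fano b j) →
      ∀ x ∈ M3.D, x (ι a) = 0 → x (ι b) = 0 → x (ι c) = 0 := by
    intro a b c h x hx ha hb
    refine (hcl a b c).2 (conc_inCl hι a b c h) x hx ?_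
    intro d hd
    rw [Finset.mem_insert, Finset.mem_singleton] at hd
    rcases hd with rfl | rfl
    · exact ha
    · exact hb
  have exi : ∀ (a b c : Fin 7) (φ : Fin 3 → ZMod 2), ∑ j, φ j * fano a j = 0 →
      ∑ j, φ j * fano b j = 0 → ∑ j, φ j * fano c j ≠ 0 →
      ∃ x ∈ M3.D, x (ι a) = 0 ∧ x (ι b) = 0 ∧ x (ι c) ≠ 0 := by
    intro a b c φ h1 h2 h3
    have h4 := (not_congr (hcl a b c)).2 (conc_not_inCl hι a b c φ h1 h2 h3)
    unfold LM.InCl at h4
    push Not at h4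
    obtain ⟨x, hx, hx', hx''⟩ := h4
    exact ⟨x, hx, hx' _ (by simp), hx' _ (by simp), hx''⟩
  obtain ⟨x, hx, x1, x3, x0⟩ := exi 1 3 0 ![1, 0, 0] (by decide) (by decide) (by decide)
  obtain ⟨y, hy, y0, y3, y1⟩ := exi 0 3 1 ![0, 1, 0] (by decide) (by decide) (by decide)
  obtain ⟨z, hz, z0, z1, z3⟩ := exi 0 1 3 ![0, 0, 1] (by decide) (by decide) (by decide)
  have x5 := line 1 3 5 (by decide) x hx x1 x3
  have y4 := line 0 3 4 (by decide) y hy y0 y3
  have z2 := line 0 1 2 (by decide) z hz z0 z1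
  have x2 : x (ι 2) ≠ 0 := fun h => x0 (line 1 2 0 (by decide) x hx x1 h)
  have x6 : x (ι 6) ≠ 0 := fun h => x0 (line 5 6 0 (by decide) x hx x5 h)
  have y5 : y (ι 5) ≠ 0 := fun h => y1 (line 3 5 1 (by decide) y hy y3 h)
  have y6 : y (ι 6) ≠ 0 := fun h => y1 (line 4 6 1 (by decide) y hy y4 h)
  have z4 : z (ι 4) ≠ 0 := fun h => z3 (line 0 4 3 (by decide) z hz z0 h)
  have z6 : z (ι 6) ≠ 0 := fun h => z3 (line 2 6 3 (by decide) z hz z2 h)
  -- the four relations
  have e1 := line 2 3 6 (by decide) (y (ι 2) • x - x (ι 2) • y)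
    (M3.D.sub_mem (M3.D.smul_mem _ hx) (M3.D.smul_mem _ hy))
    (by simp only [Pi.sub_apply, Pi.smul_apply, smul_eq_mul]; ring)
    (by simp only [Pi.sub_apply, Pi.smul_apply, smul_eq_mul, x3, y3]; ring)
  have e2 := line 1 4 6 (by decide) (z (ι 4) • x - x (ι 4) • z)
    (M3.D.sub_mem (M3.D.smul_mem _ hx) (M3.D.smul_mem _ hz))
    (by simp only [Pi.sub_apply, Pi.smul_apply, smul_eq_mul, x1, z1]; ring)
    (by simp only [Pi.sub_apply, Pi.smul_apply, smul_eq_mul]; ring)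
  have e3 := line 0 5 6 (by decide) (z (ι 5) • y - y (ι 5) • z)
    (M3.D.sub_mem (M3.D.smul_mem _ hy) (M3.D.smul_mem _ hz))
    (by simp only [Pi.sub_apply, Pi.smul_apply, smul_eq_mul, y0, z0]; ring)
    (by simp only [Pi.sub_apply, Pi.smul_apply, smul_eq_mul]; ring)
  have e4 := line 2 4 5 (by decide)
    ((y (ι 2) * z (ι 4)) • x - (x (ι 2) * z (ι 4)) • y - (x (ι 4) * y (ι 2)) • z)
    (M3.D.sub_mem (M3.D.sub_mem (M3.D.smul_mem _ hx) (M3.D.smul_mem _ hy))
      (M3.D.smul_mem _ hz))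
    (by simp only [Pi.sub_apply, Pi.smul_apply, smul_eq_mul, z2]; ring)
    (by simp only [Pi.sub_apply, Pi.smul_apply, smul_eq_mul, y4]; ring)
  simp only [Pi.sub_apply, Pi.smul_apply, smul_eq_mul, x5] at e1 e2 e3 e4
  exact fano_alg (x (ι 2)) (x (ι 4)) (x (ι 6)) (y (ι 2)) (y (ι 5)) (y (ι 6)) (z (ι 4)) (z (ι 5))
    (z (ι 6)) x2 z4 y5 x6 y6 z6 (by linear_combination e1) (by linear_combination e2)
    (by linear_combination e3) (by linear_combination (-1) * e4)

theorem fanoD_dual {ι : Fin 7 → α} (hι : Function.Injective ι) :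
    (conc fanoD ι).dual = conc fano ι := by
  refine conc_dual hι (by decide) ?_
  intro y hy
  refine ⟨![y 0, y 1, y 3], ?_⟩
  have h0 := hy 0
  have h1 := hy 1
  have h2 := hy 2
  have h3 := hy 3
  simp only [fanoD, Fin.sum_univ_seven] at h0 h1 h2 h3
  have key : ∀ a b c d e f g : ZMod 2, a + b + c = 0 → a + d + e = 0 → b + d + f = 0 →
      a + b + d + g = 0 → c = a + b ∧ e = a + d ∧ f = b + d ∧ g = a + b + d := by decide
  have hk := key (y 0) (y 1) (y 2) (y 3) (y 4) (y 5) (y 6) (by simpa using h0) (by simpa using h1)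
    (by simpa using h2) (by simpa using h3)
  intro i
  fin_cases i <;> simp [fano, Fin.sum_univ_three, hk]

theorem fanoD_not_regular {ι : Fin 7 → α} (hι : Function.Injective ι) :
    ¬ Regular (conc fanoD ι) := by
  intro h
  have h1 := h.dual
  rw [fanoD_dual hι] at h1
  exact fano_not_regular hι h1

theorem not_regular_of_cert {n r : ℕ} {v : Fin n → Fin r → ZMod 2} {s : Fin 7 → Fin n}
    {cs : List (Fin n)} {T : Fin r → Fin 3 → ZMod 2} (h : MinorCert v fano s cs T)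
    {ι : Fin n → α} (hι : Function.Injective ι) : ¬ Regular (conc v ι) := fun h' =>
  fano_not_regular (hι.comp h.inj) (h'.minor (conc_isMinor h hι))

theorem not_regular_of_certD {n r : ℕ} {v : Fin n → Fin r → ZMod 2} {s : Fin 7 → Fin n}
    {cs : List (Fin n)} {T : Fin r → Fin 4 → ZMod 2} (h : MinorCert v fanoD s cs T)
    {ι : Fin n → α} (hι : Function.Injective ι) : ¬ Regular (conc v ι) := fun h' =>
  fanoD_not_regular (hι.comp h.inj) (h'.minor (conc_isMinor h hι))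

/-! ### the matroids of the theorem -/

/-- `R10`: the ten vectors of length five with three ones -/
def r10 : Fin 10 → Fin 5 → ZMod 2 :=
  ![![1, 1, 1, 0, 0], ![1, 1, 0, 1, 0], ![1, 1, 0, 0, 1], ![1, 0, 1, 1, 0], ![1, 0, 1, 0, 1],
    ![1, 0, 0, 1, 1], ![0, 1, 1, 1, 0], ![0, 1, 1, 0, 1], ![0, 1, 0, 1, 1], ![0, 0, 1, 1, 1]]

/-- `R12 = P ∪ Q`: elements `0,...,5` are `P = {a1,a2,a3,b1,b2,b3}` (two triangles), elements
`6,...,11` are `Q = {u1,u2,u3,v1,v2,v3}`; `l_i = a_i + b_i`, `u_i + u_j = v_i + v_j = l_k`. The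
coordinates are those of `a1, a2, b1, b2, u1, v1`. -/
def r12 : Fin 12 → Fin 6 → ZMod 2 :=
  ![![1, 0, 0, 0, 0, 0], ![0, 1, 0, 0, 0, 0], ![1, 1, 0, 0, 0, 0],
    ![0, 0, 1, 0, 0, 0], ![0, 0, 0, 1, 0, 0], ![0, 0, 1, 1, 0, 0],
    ![0, 0, 0, 0, 1, 0], ![1, 1, 1, 1, 1, 0], ![0, 1, 0, 1, 1, 0],
    ![0, 0, 0, 0, 0, 1], ![1, 1, 1, 1, 0, 1], ![0, 1, 0, 1, 0, 1]]

/-- `M*(K33)`: nine vectors in a 3 x 3 grid (element `3 i + j`), rows and columns are triangles -/
def k33s : Fin 9 → Fin 4 → ZMod 2 :=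
  ![![1, 0, 0, 0], ![0, 1, 0, 0], ![1, 1, 0, 0],
    ![0, 0, 1, 0], ![0, 0, 0, 1], ![0, 0, 1, 1],
    ![1, 0, 1, 0], ![0, 1, 0, 1], ![1, 1, 1, 1]]

/-- `M(K33)`: edge `3 i + j` joins `a_i` and `b_j`; coordinates `a_0, a_1, a_2, b_0, b_1`
(vertex `b_2` omitted) -/
def k33 : Fin 9 → Fin 5 → ZMod 2 :=
  ![![1, 0, 0, 1, 0], ![1, 0, 0, 0, 1], ![1, 0, 0, 0, 0],
    ![0, 1, 0, 1, 0], ![0, 1, 0, 0, 1], ![0, 1, 0, 0, 0],
    ![0, 0, 1, 1, 0], ![0, 0, 1, 0, 1], ![0, 0, 1, 0, 0]]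

/-- `M(K5)`: edges `01,02,03,04,12,13,14,23,24,34`; coordinates `0,1,2,3` (vertex `4` omitted) -/
def k5 : Fin 10 → Fin 4 → ZMod 2 :=
  ![![1, 1, 0, 0], ![1, 0, 1, 0], ![1, 0, 0, 1], ![1, 0, 0, 0], ![0, 1, 1, 0], ![0, 1, 0, 1],
    ![0, 1, 0, 0], ![0, 0, 1, 1], ![0, 0, 1, 0], ![0, 0, 0, 1]]

def IsR10 (M : BM α) : Prop := ∃ ι : Fin 10 → α, Function.Injective ι ∧ M = conc r10 ι

def HasR12 (M : BM α) : Prop :=
  ∃ ι : Fin 12 → α, Function.Injective ι ∧ (conc r12 ι).IsMinor M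

def HasK33 (M : BM α) : Prop :=
  ∃ ι : Fin 9 → α, Function.Injective ι ∧ (conc k33 ι).IsMinor M

def HasK33s (M : BM α) : Prop :=
  ∃ ι : Fin 9 → α, Function.Injective ι ∧ (conc k33s ι).IsMinor M

def HasK5 (M : BM α) : Prop :=
  ∃ ι : Fin 10 → α, Function.Injective ι ∧ (conc k5 ι).IsMinor M

def HasK5s (M : BM α) : Prop :=
  ∃ ι : Fin 10 → α, Function.Injective ι ∧ ((conc k5 ι).dual).IsMinor M

lemma k33_dual {ι : Fin 9 → α} (hι : Function.Injective ι) :
    (conc k33 ι).dual = conc k33s ι := by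
  refine conc_dual hι (by decide) ?_
  intro y hy
  refine ⟨![y 0, y 1, y 3, y 4], ?_⟩
  have h0 := hy 0
  have h1 := hy 1
  have h2 := hy 2
  have h3 := hy 3
  have h4 := hy 4
  simp only [k33, Fin.sum_univ_succ] at h0 h1 h2 h3 h4
  have key : ∀ a b c : ZMod 2, a + b + c = 0 → c = a + b := by decide
  have k2 : y 2 = y 0 + y 1 := key _ _ _ (by simpa [add_assoc] using h0)
  have k5 : y 5 = y 3 + y 4 := key _ _ _ (by simpa [add_assoc] using h1)
  have k8 : y 8 = y 6 + y 7 := key _ _ _ (by simpa [add_assoc] using h2)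
  have k6 : y 6 = y 0 + y 3 := key _ _ _ (by simpa [add_assoc] using h3)
  have k7 : y 7 = y 1 + y 4 := key _ _ _ (by simpa [add_assoc] using h4)
  rw [k6, k7] at k8
  intro i
  fin_cases i <;> simp [k33s, Fin.sum_univ_four, k2, k5, k6, k7, k8]
  ring

end Pool.Agent.H63.Sey
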