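import Pool.Agent.H63.Sey.BrDef

/-!
# Bridging: reversal, minimal paths, assignment (job SEY-I1)
-/

set_option autoImplicit false

namespace Pool.Agent.H63.Sey

universe u

variable {α : Type u} [DecidableEq α]

lemma imp_symm {M : BM α} {P Q C D : Finset α} {v w : α} :
    Imp M Q P C D v w ↔ Imp M P Q C D w v := by
  unfold Imp
  tauto

/-- reversed path, `P` and `Q` exchanged -/
lemma Path.reverse {M : BM α} {P Q C D : Finset α} {n : ℕ} {f : ℕ → α}
    (h : Path M P Q C D n f) : Path M Q P C D n (fun i => f (n - i)) where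
  mem i _ := h.mem (n - i) (Nat.sub_le n i)
  start := by
    have := h.stop
    simpa using this
  stop := by
    have := h.start
    simpa using this
  imp i hi := by
    rw [imp_symm]
    have h1 := h.imp (n - (i + 1)) (by omega)
    have h2 : n - (i + 1) + 1 = n - i := by omega
    rw [h2] at h1
    exact h1

lemma MinPath.reverse {M : BM α} {P Q C D : Finset α} {n : ℕ} {f : ℕ → α}
    (h : MinPath M P Q C D n f) : MinPath M Q P C D n (fun i => f (n - i)) where
  toPath := h.toPath.reverse
  yok i h1 h2 := h.xok (n - i) (by omega)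
  xok i hi := h.yok (n - i) (by omega) (Nat.sub_le n i)
  chord i j h1 h2 := by
    rw [imp_symm]
    exact h.chord (n - j) (n - i) (by omega) (Nat.sub_le n i)

/-- (SEY-I1) if there is no shorter blocking path, a path is minimal in the sense of `MinPath`:
otherwise cut off the beginning, the end, or use the chord. -/
lemma minPath_of_forall_lt {M : BM α} {P Q C D : Finset α} {n : ℕ} {f : ℕ → α}
    (h : Path M P Q C D n f) (hmin : ∀ m < n, ∀ g, ¬ Path M P Q C D m g) :
    MinPath M P Q C D n f where
  toPath := h
  yok i h1 h2 := by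
    by_contra hcon
    refine hmin (n - i) (by omega) (fun k => f (k + i)) ⟨?_, ?_, ?_, ?_⟩
    · intro k hk
      exact h.mem (k + i) (by omega)
    · simpa using hcon
    · have h3 : n - i + i = n := by omega
      simpa [h3] using h.stop
    · intro k hk
      have h3 := h.imp (k + i) (by omega)
      have h4 : k + 1 + i = k + i + 1 := by omega
      simpa [h4] using h3
  xok i hi := by
    by_contra hcon
    exact hmin i hi f ⟨fun k hk => h.mem k (by omega), h.start, hcon,
      fun k hk => h.imp k (by omega)⟩
  chord i j hij hj hI := by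
    refine hmin (n - (j - i - 1)) (by omega)
      (fun k => if k ≤ i then f k else f (k + (j - i - 1))) ⟨?_, ?_, ?_, ?_⟩
    · intro k hk
      by_cases hki : k ≤ i
      · simp only [hki, if_true]
        exact h.mem k (by omega)
      · simp only [hki, if_false]
        exact h.mem _ (by omega)
    · simpa using h.start
    · have h1 : ¬ (n - (j - i - 1) ≤ i) := by omega
      have h2 : n - (j - i - 1) + (j - i - 1) = n := by omega
      simp only [h1, if_false, h2]
      exact h.stop
    · intro k hk
      rcases Nat.lt_trichotomy k i with hki | hki | hki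
      · have h1 : k ≤ i := by omega
        have h2 : k + 1 ≤ i := by omega
        simp only [h1, h2, if_true]
        exact h.imp k (by omega)
      · subst hki
        have h1 : ¬ (k + 1 ≤ k) := by omega
        have h2 : k + 1 + (j - k - 1) = j := by omega
        simp only [le_refl, if_true, h1, if_false, h2]
        exact hI
      · have h1 : ¬ (k ≤ i) := by omega
        have h2 : ¬ (k + 1 ≤ i) := by omega
        have h3 : k + 1 + (j - i - 1) = k + (j - i - 1) + 1 := by omega
        simp only [h1, h2, if_false, h3]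
        exact h.imp _ (by omega)

/-- one half of the rank computation in `exists_sep_of_no_path` -/
lemma rk_half {M : BM α} {P C A B S : Finset α} (hC : C = A ∪ B)
    (h1 : ∀ r ∈ B, ¬ M.InCl (P ∪ C.erase r) r) (hAB : Disjoint A B)
    (h2 : ∀ d ∈ S, M.InCl (P ∪ C) d) (h3 : ∀ d ∈ S, ∀ r ∈ B, M.InCl (P ∪ C.erase r) d) :
    M.rk (P ∪ A ∪ S) + B.card ≤ M.rk (P ∪ C) := by
  -- the elements of `S` are in the closure of `P ∪ A`
  have hcl : ∀ d ∈ S, M.InCl (P ∪ A) d := by
    intro d hd x hx hx0
    have hex : ∀ r ∈ B, ∃ y ∈ M.D, (∀ b ∈ P ∪ C.erase r, y b = 0) ∧ y r = 1 := by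
      intro r hr
      have := h1 r hr
      unfold LM.InCl at this
      push Not at this
      obtain ⟨y, hy, hy0, hyr⟩ := this
      refine ⟨y, hy, hy0, ?_⟩
      have h01 : ∀ t : ZMod 2, t ≠ 0 → t = 1 := by decide
      exact h01 _ hyr
    choose! y hyD hy0 hy1 using hex
    let x' : α → ZMod 2 := x - ∑ r ∈ B, x r • y r
    have hx'D : x' ∈ M.D := M.D.sub_mem hx
      (M.D.sum_mem fun r hr => M.D.smul_mem _ (hyD r hr))
    have hx'a : ∀ a, x' a = x a - ∑ r ∈ B, x r * y r a := by
      intro a
      simp [x', Finset.sum_apply]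
    have hx'0 : ∀ b ∈ P ∪ C, x' b = 0 := by
      intro b hb
      rw [hx'a]
      by_cases hbP : b ∈ P
      · rw [hx0 b (Finset.mem_union_left _ hbP), Finset.sum_eq_zero, sub_zero]
        intro r hr
        rw [hy0 r hr b (Finset.mem_union_left _ hbP), mul_zero]
      · have hbC : b ∈ C := (Finset.mem_union.1 hb).resolve_left hbP
        by_cases hbA : b ∈ A
        · rw [hx0 b (Finset.mem_union_right _ hbA), Finset.sum_eq_zero, sub_zero]
          intro r hr
          have hne : b ≠ r := by
            rintro rfl
            exact Finset.disjoint_left.1 hAB hbA hr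
          rw [hy0 r hr b (Finset.mem_union_right _ (Finset.mem_erase.2 ⟨hne, hbC⟩)), mul_zero]
        · have hbB : b ∈ B := by
            rw [hC] at hbC
            exact (Finset.mem_union.1 hbC).resolve_left hbA
          rw [Finset.sum_eq_single b]
          · rw [hy1 b hbB, mul_one, sub_self]
          · intro r hr hne
            rw [hy0 r hr b (Finset.mem_union_right _ (Finset.mem_erase.2 ⟨hne.symm, hbC⟩)),
              mul_zero]
          · intro hcon
            exact absurd hbB hcon
    have h4 := h2 d hd x' hx'D hx'0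
    rw [hx'a, Finset.sum_eq_zero, sub_zero] at h4
    · exact h4
    · intro r hr
      rw [h3 d hd r hr (y r) (hyD r hr) (hy0 r hr), mul_zero]
  rw [M.rk_union_eq_of_inCl hcl]
  -- adding the elements of `B` one by one
  have hadd : ∀ T ⊆ B, M.rk (P ∪ A) + T.card ≤ M.rk (P ∪ A ∪ T) := by
    intro T
    induction T using Finset.induction_on with
    | empty =>
      intro _
      simp
    | insert r T hrT ih =>
      intro hT
      have hrB : r ∈ B := hT (Finset.mem_insert_self r T)
      have hTB : T ⊆ B := fun t ht => hT (Finset.mem_insert_of_mem ht)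
      have h5 := ih hTB
      rw [Finset.card_insert_of_notMem hrT, Finset.union_insert]
      have h6 : M.rk (P ∪ A ∪ T) ≤ M.rk (insert r (P ∪ A ∪ T)) :=
        M.rk_mono (Finset.subset_insert _ _)
      have h7 : M.rk (insert r (P ∪ A ∪ T)) ≠ M.rk (P ∪ A ∪ T) := by
        intro hcon
        refine h1 r hrB ((M.inCl_iff_rk.2 hcon).mono ?_)
        intro b hb
        rw [Finset.mem_union, Finset.mem_union] at hb
        rcases hb with (hb | hb) | hb
        · exact Finset.mem_union_left _ hb
        · refine Finset.mem_union_right _ (Finset.mem_erase.2 ⟨?_, ?_⟩)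
          · rintro rfl
            exact Finset.disjoint_left.1 hAB hb hrB
          · rw [hC]
            exact Finset.mem_union_left _ hb
        · refine Finset.mem_union_right _ (Finset.mem_erase.2 ⟨?_, ?_⟩)
          · rintro rfl
            exact hrT hb
          · rw [hC]
            exact Finset.mem_union_right _ (hTB hb)
      omega
  have h8 := hadd B (Finset.Subset.refl B)
  rw [hC, ← Finset.union_assoc]
  exact h8

/-- (SEY-I1) No blocking path: there is an assignment. Let `R` be the set of elements of `C ∪ D`
that can be reached by `Imp` from elements that are not `YOK`; `X = P ∪ R`. All elements of `R`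
are `XOK`, all others are `YOK`. Write `CX = C ∩ R`, `CY = C \ R`, `DX = D ∩ R`, `DY = D \ R`.
For `r ∈ CY` there is a cocycle `x_r` with `x_r r = 1`, zero on `P ∪ (C - r)` (`YOK r`), and it
vanishes on `DX` as `¬ Imp c r` for `c ∈ DX`. Hence every cocycle `x` that vanishes on `P ∪ CX`
vanishes on `DX` (subtract `x r • x_r` for `r ∈ CY`: then `x` vanishes on `P ∪ C`, and `XOK c`),
and `rk (P ∪ CX) + |CY| ≤ rk (P ∪ C)`, so `rk X ≤ rk (P ∪ C) - |CY|`. In the same way
`rk (E \ X) ≤ rk (Q ∪ C) - |CX|`, so `lam X ≤ 2` by `sep` and `indep`. -/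
theorem exists_sep_of_no_path {M : BM α} {P Q C D : Finset α} (h : Setup M P Q C D)
    (hno : ∀ n f, ¬ Path M P Q C D n f) :
    ∃ X ⊆ M.E, P ⊆ X ∧ Disjoint X Q ∧ M.lam X ≤ 2 := by
  classical
  let Reach : α → Prop := fun v => ∃ (n : ℕ) (f : ℕ → α), f n = v ∧ (∀ i ≤ n, f i ∈ C ∪ D) ∧
    ¬ XOK M Q P C D (f 0) ∧ ∀ i < n, Imp M P Q C D (f i) (f (i + 1))
  let R : Finset α := (C ∪ D).filter Reach
  have hRmem : ∀ v, v ∈ R ↔ v ∈ C ∪ D ∧ Reach v := fun v => Finset.mem_filter
  have hRX : ∀ v ∈ R, XOK M P Q C D v := by
    intro v hv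
    obtain ⟨_, n, f, hfn, hm, hs, hi⟩ := (hRmem v).1 hv
    by_contra hcon
    rw [← hfn] at hcon
    exact hno n f ⟨hm, hs, hcon, hi⟩
  have hRY : ∀ v ∈ C ∪ D, v ∉ R → XOK M Q P C D v := by
    intro v hv hvR
    by_contra hcon
    apply hvR
    rw [hRmem]
    refine ⟨hv, 0, fun _ => v, rfl, fun _ _ => hv, hcon, ?_⟩
    intro i hi
    exact absurd hi (Nat.not_lt_zero i)
  have hRI : ∀ v ∈ R, ∀ w ∈ C ∪ D, w ∉ R → ¬ Imp M P Q C D v w := by
    intro v hv w hw hwR hI
    obtain ⟨_, n, f, hfn, hm, hs, hi⟩ := (hRmem v).1 hv
    apply hwR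
    rw [hRmem]
    refine ⟨hw, n + 1, fun k => if k ≤ n then f k else w, ?_, ?_, ?_, ?_⟩
    · simp
    · intro k hk
      by_cases hkn : k ≤ n
      · simp only [hkn, if_true]
        exact hm k hkn
      · simp only [hkn, if_false]
        exact hw
    · simpa using hs
    · intro k hk
      by_cases hkn : k + 1 ≤ n
      · have h1 : k ≤ n := by omega
        simp only [hkn, h1, if_true]
        exact hi k (by omega)
      · have h1 : k = n := by omega
        subst h1
        simp only [hkn, le_refl, if_true, if_false, hfn]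
        exact hI
  have hRsub : R ⊆ C ∪ D := Finset.filter_subset _ _
  have hCE : C ⊆ M.E := by
    rw [← h.union]
    intro a ha
    simp [ha]
  have hDE : D ⊆ M.E := by
    rw [← h.union]
    intro a ha
    simp [ha]
  have hPE : P ⊆ M.E := by
    rw [← h.union]
    intro a ha
    simp [ha]
  have hPQ := Finset.disjoint_left.1 h.dPQ
  have hPC := Finset.disjoint_left.1 h.dPC
  have hPD := Finset.disjoint_left.1 h.dPD
  have hQC := Finset.disjoint_left.1 h.dQC
  have hQD := Finset.disjoint_left.1 h.dQD
  have hCD := Finset.disjoint_left.1 h.dCD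
  refine ⟨P ∪ R, ?_, Finset.subset_union_left, ?_, ?_⟩
  · intro a ha
    rcases Finset.mem_union.1 ha with ha | ha
    · exact hPE ha
    · rcases Finset.mem_union.1 (hRsub ha) with ha | ha
      · exact hCE ha
      · exact hDE ha
  · rw [Finset.disjoint_left]
    intro a ha haQ
    rcases Finset.mem_union.1 ha with ha | ha
    · exact hPQ ha haQ
    · rcases Finset.mem_union.1 (hRsub ha) with ha | ha
      · exact hQC haQ ha
      · exact hQD haQ ha
  · have hX : P ∪ R = P ∪ (C ∩ R) ∪ (D ∩ R) := by
      ext a
      have := @hRsub a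
      simp only [Finset.mem_union, Finset.mem_inter] at this ⊢
      tauto
    have hY : M.E \ (P ∪ R) = Q ∪ (C \ R) ∪ (D \ R) := by
      rw [← h.union]
      ext a
      have h0 := @hRsub a
      have h1 := @hPQ a
      have h2 := @hPC a
      have h3 := @hPD a
      have h4 := @hQC a
      have h5 := @hQD a
      simp only [Finset.mem_union, Finset.mem_sdiff] at h0 ⊢
      tauto
    have e1 : M.rk (P ∪ R) + (C \ R).card ≤ M.rk (P ∪ C) := by
      rw [hX]
      refine rk_half (A := C ∩ R) (B := C \ R) ?_ ?_ ?_ ?_ ?_
      · ext a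
        simp only [Finset.mem_union, Finset.mem_inter, Finset.mem_sdiff]
        tauto
      · intro r hr
        rw [Finset.mem_sdiff] at hr
        rcases hRY r (Finset.mem_union_left _ hr.1) hr.2 with h1 | h1
        · exact h1.2
        · exact absurd h1.1 (hCD hr.1)
      · rw [Finset.disjoint_left]
        intro a ha hb
        rw [Finset.mem_inter] at ha
        rw [Finset.mem_sdiff] at hb
        exact hb.2 ha.2
      · intro d hd
        rw [Finset.mem_inter] at hd
        rcases hRX d hd.2 with h1 | h1
        · exact absurd hd.1 (hCD h1.1)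
        · exact h1.2
      · intro d hd r hr
        rw [Finset.mem_inter] at hd
        rw [Finset.mem_sdiff] at hr
        by_contra hcon
        exact hRI d hd.2 r (Finset.mem_union_left _ hr.1) hr.2 (Or.inr ⟨hd.1, hr.1, hcon⟩)
    have e2 : M.rk (M.E \ (P ∪ R)) + (C ∩ R).card ≤ M.rk (Q ∪ C) := by
      rw [hY]
      refine rk_half (A := C \ R) (B := C ∩ R) ?_ ?_ ?_ ?_ ?_
      · ext a
        simp only [Finset.mem_union, Finset.mem_inter, Finset.mem_sdiff]
        tauto
      · intro r hr
        rw [Finset.mem_inter] at hr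
        rcases hRX r hr.2 with h1 | h1
        · exact h1.2
        · exact absurd h1.1 (hCD hr.1)
      · rw [Finset.disjoint_left]
        intro a ha hb
        rw [Finset.mem_inter] at hb
        rw [Finset.mem_sdiff] at ha
        exact ha.2 hb.2
      · intro d hd
        rw [Finset.mem_sdiff] at hd
        rcases hRY d (Finset.mem_union_right _ hd.1) hd.2 with h1 | h1
        · exact absurd hd.1 (hCD h1.1)
        · exact h1.2
      · intro d hd r hr
        rw [Finset.mem_sdiff] at hd
        rw [Finset.mem_inter] at hr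
        by_contra hcon
        exact hRI r hr.2 d (Finset.mem_union_right _ hd.1) hd.2 (Or.inl ⟨hr.1, hd.1, hcon⟩)
    have e3 : (C \ R).card + (C ∩ R).card = C.card := Finset.card_sdiff_add_card_inter C R
    have e4 := M.lam_add (P ∪ R)
    have e5 := h.sep
    have e6 := h.indep
    omega

end Pool.Agent.H63.Sey
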