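import Pool.Agent.H63.Sey.Conn

/-!
# Bridging: the implication structure (jobs SEY-I1, SEY-I2, SEY-I3)

`M` binary, `M.E = P ∪ Q ∪ C ∪ D` (disjoint), `C` independent, `N = M/C\D` has the 3-separation
`(P, Q)`. Every element `v` of `C ∪ D` has to be put on the side of `P` (X) or of `Q` (Y).
`XOK v`: `v` alone may go to X; `YOK v`: `v` alone may go to Y; `Imp v w`: `v` in X forces `w` into
X (for `XOK v`, `YOK w`). All statements are about cocycles `x ∈ M.D` vanishing on certain sets
(`InCl X a` says: every cocycle vanishing on `X` vanishes at `a`).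
-/

set_option autoImplicit false

namespace Pool.Agent.H63.Sey

universe u

variable {α : Type u} [DecidableEq α]

/-- the standing situation -/
structure Setup (M : BM α) (P Q C D : Finset α) : Prop where
  dPQ : Disjoint P Q
  dPC : Disjoint P C
  dPD : Disjoint P D
  dQC : Disjoint Q C
  dQD : Disjoint Q D
  dCD : Disjoint C D
  union : P ∪ Q ∪ C ∪ D = M.E
  indep : M.rk C = C.card
  span : M.rk (P ∪ Q ∪ C) = M.rk M.E
  sep : M.rk (P ∪ C) + M.rk (Q ∪ C) = M.rk M.E + M.rk C + 2

lemma Setup.symm {M : BM α} {P Q C D : Finset α} (h : Setup M P Q C D) : Setup M Q P C D where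
  dPQ := h.dPQ.symm
  dPC := h.dQC
  dPD := h.dQD
  dQC := h.dPC
  dQD := h.dPD
  dCD := h.dCD
  union := by rw [Finset.union_comm Q P]; exact h.union
  indep := h.indep
  span := by rw [Finset.union_comm Q P]; exact h.span
  sep := by rw [add_comm]; exact h.sep

/-- `v` may be put on the side of `P`; `XOK M Q P C D v` (YOK v) says that it may be put on the
side of `Q` -/
def XOK (M : BM α) (P Q C D : Finset α) (v : α) : Prop :=
  (v ∈ C ∧ ¬ M.InCl (Q ∪ C.erase v) v) ∨ (v ∈ D ∧ M.InCl (P ∪ C) v)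

/-- `v` on the side of `P` forces `w` to be there too; `Imp M Q P C D v w ↔ Imp M P Q C D w v` -/
def Imp (M : BM α) (P Q C D : Finset α) (v w : α) : Prop :=
  (v ∈ C ∧ w ∈ D ∧ ¬ M.InCl (Q ∪ C.erase v) w) ∨ (v ∈ D ∧ w ∈ C ∧ ¬ M.InCl (P ∪ C.erase w) v)

/-- `f 0, ..., f n` is a blocking path: `f 0` may not be put on the side of `Q`, `f n` may not be
put on the side of `P`, and `f i` on the side of `P` forces `f (i+1)` there -/
structure Path (M : BM α) (P Q C D : Finset α) (n : ℕ) (f : ℕ → α) : Prop where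
  mem : ∀ i ≤ n, f i ∈ C ∪ D
  start : ¬ XOK M Q P C D (f 0)
  stop : ¬ XOK M P Q C D (f n)
  imp : ∀ i < n, Imp M P Q C D (f i) (f (i + 1))

/-- (SEY-I1) a blocking path of minimal length -/
structure MinPath (M : BM α) (P Q C D : Finset α) (n : ℕ) (f : ℕ → α) : Prop
    extends Path M P Q C D n f where
  yok : ∀ i, 1 ≤ i → i ≤ n → XOK M Q P C D (f i)
  xok : ∀ i < n, XOK M P Q C D (f i)
  chord : ∀ i j, i + 2 ≤ j → j ≤ n → ¬ Imp M P Q C D (f i) (f j)

end Pool.Agent.H63.Sey
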