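import Pool.Agent.H63.Sey.BrDef

/-!
# Bridging: duality (job SEY-I4)
-/

set_option autoImplicit false

namespace Pool.Agent.H63.Sey

universe u

variable {α : Type u} [DecidableEq α]

/-! ### duality -/

private lemma dj {P Q : Finset α} (h : Disjoint P Q) (a : α) : a ∈ P → a ∉ Q :=
  fun h1 h2 => Finset.disjoint_left.1 h h1 h2

private lemma setup_card {M : BM α} {P Q C D : Finset α} (h : Setup M P Q C D) :
    M.E.card = P.card + Q.card + C.card + D.card := by
  rw [← h.union, Finset.card_union_of_disjoint, Finset.card_union_of_disjoint,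
    Finset.card_union_of_disjoint h.dPQ]
  · exact Finset.disjoint_union_left.2 ⟨h.dPC, h.dQC⟩
  · exact Finset.disjoint_union_left.2 ⟨Finset.disjoint_union_left.2 ⟨h.dPD, h.dQD⟩, h.dCD⟩

private lemma setup_mem {M : BM α} {P Q C D : Finset α} (h : Setup M P Q C D) (a : α) :
    a ∈ M.E ↔ (a ∈ P ∨ a ∈ Q ∨ a ∈ C ∨ a ∈ D) := by
  rw [← h.union]
  simp only [Finset.mem_union]
  tauto

/-- (SEY-I4) -/
theorem Setup.dual {M : BM α} {P Q C D : Finset α} (h : Setup M P Q C D) :
    Setup M.dual P Q D C := by
  have hPQ := fun a => dj h.dPQ a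
  have hPC := fun a => dj h.dPC a
  have hPD := fun a => dj h.dPD a
  have hQC := fun a => dj h.dQC a
  have hQD := fun a => dj h.dQD a
  have hCD := fun a => dj h.dCD a
  have hE := setup_mem h
  have hcard := setup_card h
  have hsub : ∀ X : Finset α, (∀ a ∈ X, a ∈ P ∨ a ∈ Q ∨ a ∈ C ∨ a ∈ D) → X ⊆ M.E :=
    fun X hX a ha => (hE a).2 (hX a ha)
  have e0 : M.E \ M.E = ∅ := Finset.sdiff_self M.E
  have hE' := M.rk_dual M.E (Finset.Subset.refl _)
  rw [e0, M.rk_empty] at hE'
  have eD : M.E \ D = P ∪ Q ∪ C := by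
    ext a
    have := hPD a; have := hQD a; have := hCD a
    simp only [Finset.mem_sdiff, Finset.mem_union, hE]
    grind
  have hD := M.rk_dual D (hsub D fun a ha => by tauto)
  rw [eD, h.span] at hD
  refine ⟨h.dPQ, h.dPD, h.dPC, h.dQD, h.dQC, h.dCD.symm, ?_, ?_, ?_, ?_⟩
  · show _ = M.E
    rw [← h.union]
    ext a
    simp only [Finset.mem_union]
    tauto
  · omega
  · have h1 := M.rk_dual (P ∪ Q ∪ D) (hsub _ fun a ha => by
      simp only [Finset.mem_union] at ha; tauto)
    have e1 : M.E \ (P ∪ Q ∪ D) = C := by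
      ext a
      have := hPC a; have := hQC a; have := hCD a
      simp only [Finset.mem_sdiff, Finset.mem_union, hE]
      grind
    rw [e1, h.indep, Finset.card_union_of_disjoint
      (Finset.disjoint_union_left.2 ⟨h.dPD, h.dQD⟩), Finset.card_union_of_disjoint h.dPQ] at h1
    show M.dual.rk _ = M.dual.rk M.E
    omega
  · have h1 := M.rk_dual (P ∪ D) (hsub _ fun a ha => by
      simp only [Finset.mem_union] at ha; tauto)
    have h2 := M.rk_dual (Q ∪ D) (hsub _ fun a ha => by
      simp only [Finset.mem_union] at ha; tauto)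
    have e1 : M.E \ (P ∪ D) = Q ∪ C := by
      ext a
      have := hPC a; have := hPQ a; have := hCD a; have := hQD a
      simp only [Finset.mem_sdiff, Finset.mem_union, hE]
      grind
    have e2 : M.E \ (Q ∪ D) = P ∪ C := by
      ext a
      have := hQC a; have := hPQ a; have := hCD a; have := hPD a
      simp only [Finset.mem_sdiff, Finset.mem_union, hE]
      grind
    rw [e1, Finset.card_union_of_disjoint h.dPD] at h1
    rw [e2, Finset.card_union_of_disjoint h.dQD] at h2
    have h3 := h.sep
    have h4 := h.indep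
    show M.dual.rk _ + M.dual.rk _ = M.dual.rk M.E + M.dual.rk D + 2
    omega

/-- (SEY-I4) For `a ∉ Z`: `a ∈ cl* Z` iff `a ∉ cl (E - Z - a)`. -/
theorem inCl_dual {M : BM α} {Z : Finset α} {a : α} (ha : a ∈ M.E) (haZ : a ∉ Z) :
    M.dual.InCl Z a ↔ ¬ M.InCl ((M.E \ Z).erase a) a := by
  have h1 : M.dual.rk (Z ∩ M.E) = M.dual.rk Z := M.dual.rk_inter_E Z
  have h2 : M.dual.rk ((insert a Z) ∩ M.E) = M.dual.rk (insert a Z) := M.dual.rk_inter_E _
  have e1 : (insert a Z) ∩ M.E = insert a (Z ∩ M.E) := Finset.insert_inter_of_mem ha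
  have h3 := M.rk_dual (Z ∩ M.E) Finset.inter_subset_right
  have h4 := M.rk_dual (insert a (Z ∩ M.E)) (Finset.insert_subset ha Finset.inter_subset_right)
  have e2 : M.E \ (Z ∩ M.E) = insert a ((M.E \ Z).erase a) := by
    ext b
    simp only [Finset.mem_sdiff, Finset.mem_inter, Finset.mem_insert, Finset.mem_erase]
    by_cases hb : b = a
    · subst hb; tauto
    · tauto
  have e3 : M.E \ insert a (Z ∩ M.E) = (M.E \ Z).erase a := by
    ext b
    simp only [Finset.mem_sdiff, Finset.mem_inter, Finset.mem_insert, Finset.mem_erase]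
    tauto
  rw [e2] at h3
  rw [e3, Finset.card_insert_of_notMem (fun h => haZ (Finset.mem_inter.1 h).1)] at h4
  rw [M.dual.inCl_iff_rk, M.inCl_iff_rk, ← h2, e1, ← h1]
  have h5 := M.rk_insert_le ((M.E \ Z).erase a) a
  have h6 : M.rk ((M.E \ Z).erase a) ≤ M.rk (insert a ((M.E \ Z).erase a)) :=
    M.rk_mono (Finset.subset_insert _ _)
  omega

/-- (SEY-I4) -/
theorem xok_dual {M : BM α} {P Q C D : Finset α} (h : Setup M P Q C D) {v : α} :
    XOK M.dual P Q D C v ↔ XOK M P Q C D v := by
  have hPQ := fun a => dj h.dPQ a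
  have hPC := fun a => dj h.dPC a
  have hPD := fun a => dj h.dPD a
  have hQC := fun a => dj h.dQC a
  have hQD := fun a => dj h.dQD a
  have hCD := fun a => dj h.dCD a
  have hE := setup_mem h
  have h1 : v ∈ D → (¬ M.dual.InCl (Q ∪ D.erase v) v ↔ M.InCl (P ∪ C) v) := by
    intro hv
    have e1 : (M.E \ (Q ∪ D.erase v)).erase v = P ∪ C := by
      ext a
      have := hPQ a; have := hPD a; have := hQC a; have := hCD a
      simp only [Finset.mem_erase, Finset.mem_sdiff, Finset.mem_union, hE]
      grind
    rw [inCl_dual ((hE v).2 (by tauto)) (by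
      have := hQD v
      simp only [Finset.mem_union, Finset.mem_erase]; tauto), e1, not_not]
  have h2 : v ∈ C → (M.dual.InCl (P ∪ D) v ↔ ¬ M.InCl (Q ∪ C.erase v) v) := by
    intro hv
    have e1 : (M.E \ (P ∪ D)).erase v = Q ∪ C.erase v := by
      ext a
      have := hPQ a; have := hPC a; have := hQD a; have := hCD a; have := hQC a
      simp only [Finset.mem_erase, Finset.mem_sdiff, Finset.mem_union, hE]
      grind
    rw [inCl_dual ((hE v).2 (by tauto)) (by
      have := hPC v; have := hCD v
      simp only [Finset.mem_union]; tauto), e1]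
  unfold XOK
  tauto

/-- (SEY-I4) the path is a blocking path of the dual matroid; for consecutive elements `v`, `w` one
has `XOK v` and `YOK w`, so that `Imp` can be dualised by the exchange property: for `v ∈ D`,
`w ∈ C`: `w ∈ cl (P ∪ (C - w) ∪ {v})` iff `v ∉ cl (P ∪ (C - w))`. -/
theorem MinPath.dual {M : BM α} {P Q C D : Finset α} (h : Setup M P Q C D) {n : ℕ} {f : ℕ → α}
    (hf : MinPath M P Q C D n f) : Path M.dual P Q D C n f := by
  have hPQ := fun a => dj h.dPQ a
  have hPC := fun a => dj h.dPC a
  have hPD := fun a => dj h.dPD a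
  have hQC := fun a => dj h.dQC a
  have hQD := fun a => dj h.dQD a
  have hCD := fun a => dj h.dCD a
  have hE := setup_mem h
  refine ⟨fun i hi => ?_, ?_, ?_, fun i hi => ?_⟩
  · rw [Finset.union_comm]
    exact hf.mem i hi
  · rw [xok_dual h.symm]
    exact hf.start
  · rw [xok_dual h]
    exact hf.stop
  · have hx := hf.xok i hi
    have hy := hf.yok (i + 1) (by omega) (by omega)
    obtain ⟨v, hv⟩ : ∃ v, v = f i := ⟨_, rfl⟩
    obtain ⟨w, hw⟩ : ∃ w, w = f (i + 1) := ⟨_, rfl⟩
    have himp := hf.imp i hi
    rw [← hv] at hx himp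
    rw [← hw] at hy himp
    rw [← hv, ← hw]
    rcases himp with ⟨h1, h2, h3⟩ | ⟨h1, h2, h3⟩
    · right
      refine ⟨h1, h2, ?_⟩
      have e1 : (M.E \ (P ∪ D.erase w)).erase v = insert w (Q ∪ C.erase v) := by
        ext a
        have := hPQ a; have := hPC a; have := hPD a; have := hQD a; have := hCD a
        have := hQC a
        have hwv : w ≠ v := by
          rintro rfl
          exact hCD w h1 h2
        simp only [Finset.mem_erase, Finset.mem_sdiff, Finset.mem_union, Finset.mem_insert, hE]
        grind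
      rw [inCl_dual ((hE v).2 (by tauto)) (by
        have := hPC v; have := hCD v
        simp only [Finset.mem_union, Finset.mem_erase]; tauto), e1, not_not]
      have h4 : M.InCl (Q ∪ C) w := by
        rcases hy with ⟨h5, -⟩ | ⟨-, h5⟩
        · exact absurd h2 (hCD w h5)
        · exact h5
      have e2 : Q ∪ C = insert v (Q ∪ C.erase v) := by
        rw [← Finset.union_insert, Finset.insert_erase h1]
      rw [e2] at h4
      exact h4.exchange h3
    · left
      refine ⟨h1, h2, ?_⟩
      have e1 : (M.E \ (Q ∪ D.erase v)).erase w = insert v (P ∪ C.erase w) := by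
        ext a
        have := hPQ a; have := hPC a; have := hPD a; have := hQD a; have := hCD a
        have := hQC a
        have hwv : w ≠ v := by
          rintro rfl
          exact hCD w h2 h1
        simp only [Finset.mem_erase, Finset.mem_sdiff, Finset.mem_union, Finset.mem_insert, hE]
        grind
      rw [inCl_dual ((hE w).2 (by tauto)) (by
        have := hQC w; have := hCD w
        simp only [Finset.mem_union, Finset.mem_erase]; tauto), e1, not_not]
      have h4 : M.InCl (P ∪ C) v := by
        rcases hx with ⟨h5, -⟩ | ⟨-, h5⟩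
        · exact absurd h1 (hCD v h5)
        · exact h5
      have e2 : P ∪ C = insert w (P ∪ C.erase w) := by
        rw [← Finset.union_insert, Finset.insert_erase h2]
      rw [e2] at h4
      exact h4.exchange h3

end Pool.Agent.H63.Sey
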