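import Pool.Agent.H63.Sey.BrDef

/-!
# Bridging: the pivot (job SEY-I3)
-/

set_option autoImplicit false

namespace Pool.Agent.H63.Sey

universe u

variable {α : Type u} [DecidableEq α]

private lemma notInCl {M : BM α} {X : Finset α} {a : α} (h : ¬ M.InCl X a) :
    ∃ x ∈ M.D, (∀ b ∈ X, x b = 0) ∧ x a = 1 := by
  have key : ∀ t : ZMod 2, t ≠ 0 → t = 1 := by decide
  unfold LM.InCl at h
  push Not at h
  obtain ⟨x, h1, h2, h3⟩ := h
  exact ⟨x, h1, h2, key _ h3⟩

/-- (SEY-I3) Pivot: `f 0 = r ∈ C`, `f 1 = c ∈ D` is parallel to `r` in `M/(C - r)`; exchange `r`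
and `c`. Then `f 2, ..., f n` is a blocking path for the new situation.
Let `r' = f 2 ∈ C`. There is a cocycle `y` vanishing on `P ∪ (C - r')` with `y c = 1` (`Imp c r'`),
so `y r = 0`, `y r' = 1` (else `y` vanishes on `C` and `y c = y r = 0`). So for every cocycle `x`
vanishing on `C - r - r'`: `x c = x r + x r'` (apply `hc` to `x` or `x + y`).
* start: let `x` vanish on `P ∪ (C - r - r') ∪ {c}`, suppose `x r' = 1 = x r`; then `x + y` vanishes
  on `P ∪ (C - r)` and not at `r`, but `r` is not `YOK`: contradiction.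
* for `r'' = f i`, `i ≥ 4` even: `¬ Imp c r''` and `YOK r''` give that a cocycle vanishing on
  `C - r''` vanishes at `c`; hence (with `hc`) a cocycle vanishes on `C - r''` iff it vanishes on
  `C' - r''`. In the same way: it vanishes on `C` iff on `C'`.
* `Imp (f 2) (f 3)`: `c' = f 3 ∈ D`; `y` vanishing on `Q ∪ (C - r')`, `y c' = 1`; then `y r' = 1`
  (`YOK c'`), `y c = 1`. `z` vanishing on `Q ∪ (C - r)`, `z r = 1` (`XOK r`), `z c' = 0`
  (`¬ Imp r c'`), `z c = 1`. Then `y + z` vanishes on `Q ∪ (C - r - r') ∪ {c}` and is `1` at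
  `c'`. -/
theorem pivot {M : BM α} {P Q C D : Finset α} (h : Setup M P Q C D) {n : ℕ} {f : ℕ → α}
    (hf : MinPath M P Q C D (n + 3) f) (h0 : f 0 ∈ C) (h1 : f 1 ∈ D)
    (hc : ∀ x ∈ M.D, (∀ b ∈ C.erase (f 0), x b = 0) → x (f 1) = x (f 0)) :
    Path M P Q (insert (f 1) (C.erase (f 0))) (insert (f 0) (D.erase (f 1))) (n + 1)
      (fun i => f (i + 2)) := by
  have z1 : ∀ t : ZMod 2, t ≠ 0 → t = 1 := by decide
  have z11 : (1 : ZMod 2) + 1 = 0 := by decide
  have hCD : ∀ a, a ∈ C → a ∈ D → False := fun a ha hb =>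
    Finset.disjoint_left.1 h.dCD ha hb
  -- parity
  have par : ∀ i, i ≤ n + 3 → (i % 2 = 0 → f i ∈ C) ∧ (i % 2 = 1 → f i ∈ D) := by
    intro i
    induction i with
    | zero => exact fun _ => ⟨fun _ => h0, fun h => by omega⟩
    | succ i ih =>
      intro hi
      have h2 := ih (by omega)
      have h3 := hf.imp i (by omega)
      refine ⟨fun hi2 => ?_, fun hi2 => ?_⟩
      · have h4 := h2.2 (by omega)
        rcases h3 with h3 | h3
        · exact (hCD _ h3.1 h4).elim
        · exact h3.2.1
      · have h4 := h2.1 (by omega)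
        rcases h3 with h3 | h3
        · exact h3.2.1
        · exact (hCD _ h4 h3.1).elim
  have parC : ∀ i, i ≤ n + 3 → i % 2 = 0 → f i ∈ C := fun i hi => (par i hi).1
  have parD : ∀ i, i ≤ n + 3 → i % 2 = 1 → f i ∈ D := fun i hi => (par i hi).2
  -- implications
  have impC : ∀ i j, i ≤ n + 3 → j ≤ n + 3 → i % 2 = 0 → j % 2 = 1 →
      (Imp M P Q C D (f i) (f j) ↔ ¬ M.InCl (Q ∪ C.erase (f i)) (f j)) := by
    intro i j hi hj hi2 hj2
    constructor
    · rintro (h2 | h2)
      · exact h2.2.2
      · exact (hCD _ (parC i hi hi2) h2.1).elim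
    · intro h2
      exact Or.inl ⟨parC i hi hi2, parD j hj hj2, h2⟩
  have impD : ∀ i j, i ≤ n + 3 → j ≤ n + 3 → i % 2 = 1 → j % 2 = 0 →
      (Imp M P Q C D (f i) (f j) ↔ ¬ M.InCl (P ∪ C.erase (f j)) (f i)) := by
    intro i j hi hj hi2 hj2
    constructor
    · rintro (h2 | h2)
      · exact (hCD _ h2.1 (parD i hi hi2)).elim
      · exact h2.2.2
    · intro h2
      exact Or.inr ⟨parD i hi hi2, parC j hj hj2, h2⟩
  have xokC : ∀ (A B : Finset α) i, i ≤ n + 3 → i % 2 = 0 →
      (XOK M A B C D (f i) ↔ ¬ M.InCl (B ∪ C.erase (f i)) (f i)) := by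
    intro A B i hi hi2
    constructor
    · rintro (h2 | h2)
      · exact h2.2
      · exact (hCD _ (parC i hi hi2) h2.1).elim
    · intro h2
      exact Or.inl ⟨parC i hi hi2, h2⟩
  have xokD : ∀ (A B : Finset α) i, i ≤ n + 3 → i % 2 = 1 →
      (XOK M A B C D (f i) ↔ M.InCl (A ∪ C) (f i)) := by
    intro A B i hi hi2
    constructor
    · rintro (h2 | h2)
      · exact (hCD _ h2.1 (parD i hi hi2)).elim
      · exact h2.2
    · intro h2
      exact Or.inr ⟨parD i hi hi2, h2⟩
  -- the elements are different from `f 0`, `f 1`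
  have ne0 : ∀ i, 1 ≤ i → i ≤ n + 3 → f i ≠ f 0 := by
    intro i hi hi' he
    have h2 := hf.yok i hi hi'
    rw [he] at h2
    exact hf.start h2
  have ne1 : ∀ i, 2 ≤ i → i ≤ n + 3 → f i ≠ f 1 := by
    intro i hi hi' he
    rcases Nat.lt_or_ge i (n + 3) with hlt | hge
    · have h2 := hf.imp i hlt
      rw [he] at h2
      exact hf.chord 1 (i + 1) (by omega) (by omega) h2
    · have : i = n + 3 := by omega
      subst this
      have h2 := hf.xok 1 (by omega)
      rw [← he] at h2
      exact hf.stop h2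
  -- abbreviations
  set r := f 0 with hr
  set c := f 1 with hcdef
  have hrc : r ≠ c := fun he => hCD r h0 (he ▸ h1)
  have hcC : c ∉ C := fun hh => hCD _ hh h1
  -- vanishing on `C` and on `C'`
  have vC : ∀ x ∈ M.D, (∀ b ∈ C, x b = 0) ↔ (∀ b ∈ insert c (C.erase r), x b = 0) := by
    intro x hx
    constructor
    · intro h2 b hb
      rcases Finset.mem_insert.1 hb with rfl | hb
      · rw [hc x hx fun b hb => h2 b (Finset.mem_of_mem_erase hb)]
        exact h2 _ h0
      · exact h2 b (Finset.mem_of_mem_erase hb)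
    · intro h2 b hb
      by_cases hbr : b = r
      · rw [hbr, ← hc x hx fun b hb => h2 b (Finset.mem_insert_of_mem hb)]
        exact h2 _ (Finset.mem_insert_self _ _)
      · exact h2 b (Finset.mem_insert_of_mem (Finset.mem_erase.2 ⟨hbr, hb⟩))
  -- vanishing on `C - r''` and on `C' - r''`
  have vE : ∀ i, 4 ≤ i → i ≤ n + 3 → i % 2 = 0 → ∀ x ∈ M.D,
      (∀ b ∈ C.erase (f i), x b = 0) ↔ (∀ b ∈ (insert c (C.erase r)).erase (f i), x b = 0) := by
    intro i hi4 hi hi2
    have hiC := parC i hi hi2
    have hir : f i ≠ r := ne0 i (by omega) hi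
    have hic : f i ≠ c := ne1 i (by omega) hi
    -- the cocycle `u`
    have h2 := (xokC Q P i hi hi2).1 (hf.yok i (by omega) hi)
    obtain ⟨w, hw, hw0, hw1⟩ := notInCl h2
    have h3 := mt (impD 1 i (by omega) hi (by norm_num) hi2).2 (hf.chord 1 i (by omega) hi)
    rw [not_not] at h3
    have hwc : w c = 0 := h3 w hw hw0
    have hw0' : ∀ b ∈ C.erase (f i), w b = 0 := fun b hb => hw0 b (Finset.mem_union_right _ hb)
    have hwr : w r = 0 := hw0' r (Finset.mem_erase.2 ⟨hir.symm, h0⟩)
    intro x hx
    constructor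
    · intro h4
      have hxc : x c = 0 := by
        by_cases h5 : x (f i) = 0
        · have h6 : ∀ b ∈ C, x b = 0 := by
            intro b hb
            by_cases hbi : b = f i
            · rw [hbi, h5]
            · exact h4 b (Finset.mem_erase.2 ⟨hbi, hb⟩)
          exact (vC x hx).1 h6 c (Finset.mem_insert_self _ _)
        · have h5' := z1 _ h5
          have h6 : ∀ b ∈ C, (x + w) b = 0 := by
            intro b hb
            by_cases hbi : b = f i
            · rw [hbi, Pi.add_apply, h5', hw1, z11]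
            · have hb' := Finset.mem_erase.2 ⟨hbi, hb⟩
              rw [Pi.add_apply, h4 b hb', hw0' b hb', add_zero]
          have h7 := (vC _ (M.D.add_mem hx hw)).1 h6 c (Finset.mem_insert_self _ _)
          rwa [Pi.add_apply, hwc, add_zero] at h7
      intro b hb
      rw [Finset.mem_erase, Finset.mem_insert] at hb
      obtain ⟨hb1, hb2 | hb2⟩ := hb
      · rw [hb2, hxc]
      · exact h4 b (Finset.mem_erase.2 ⟨hb1, Finset.mem_of_mem_erase hb2⟩)
    · intro h4
      have hxc : x c = 0 := h4 c (Finset.mem_erase.2 ⟨hic.symm, Finset.mem_insert_self _ _⟩)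
      have h4' : ∀ b ∈ C, b ≠ r → b ≠ f i → x b = 0 := fun b hb hbr hbi =>
        h4 b (Finset.mem_erase.2 ⟨hbi, Finset.mem_insert_of_mem (Finset.mem_erase.2 ⟨hbr, hb⟩)⟩)
      have hxr : x r = 0 := by
        by_cases h5 : x (f i) = 0
        · rw [← hc x hx, hxc]
          intro b hb
          rw [Finset.mem_erase] at hb
          by_cases hbi : b = f i
          · rw [hbi, h5]
          · exact h4' b hb.2 hb.1 hbi
        · have h5' := z1 _ h5
          have h6 : ∀ b ∈ C.erase r, (x + w) b = 0 := by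
            intro b hb
            rw [Finset.mem_erase] at hb
            by_cases hbi : b = f i
            · rw [hbi, Pi.add_apply, h5', hw1, z11]
            · rw [Pi.add_apply, h4' b hb.2 hb.1 hbi,
                hw0' b (Finset.mem_erase.2 ⟨hbi, hb.2⟩), add_zero]
          have h7 := hc _ (M.D.add_mem hx hw) h6
          rw [Pi.add_apply, Pi.add_apply, hxc, hwc, hwr, add_zero, add_zero] at h7
          exact h7.symm
      intro b hb
      rw [Finset.mem_erase] at hb
      by_cases hbr : b = r
      · rw [hbr, hxr]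
      · exact h4' b hb.2 hbr hb.1
  -- the cocycle `y`
  have h2C : f 2 ∈ C := parC 2 (by omega) (by norm_num)
  have h2r : f 2 ≠ r := ne0 2 (by omega) (by omega)
  have h2c : f 2 ≠ c := fun he => hcC (he ▸ h2C)
  obtain ⟨y, hy, hy0, hy1⟩ := notInCl
    ((impD 1 2 (by omega) (by omega) (by norm_num) (by norm_num)).1 (hf.imp 1 (by omega)))
  have hy0P : ∀ b ∈ P, y b = 0 := fun b hb => hy0 b (Finset.mem_union_left _ hb)
  have hy0C : ∀ b ∈ C.erase (f 2), y b = 0 := fun b hb => hy0 b (Finset.mem_union_right _ hb)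
  have hyr : y r = 0 := hy0C r (Finset.mem_erase.2 ⟨h2r.symm, h0⟩)
  have hy2 : y (f 2) = 1 := by
    apply z1
    intro h5
    have h6 : ∀ b ∈ C, y b = 0 := by
      intro b hb
      by_cases hb2 : b = f 2
      · rw [hb2, h5]
      · exact hy0C b (Finset.mem_erase.2 ⟨hb2, hb⟩)
    have h7 := (vC y hy).1 h6 c (Finset.mem_insert_self _ _)
    rw [h7] at hy1
    exact absurd hy1 (by decide)
  -- fact A
  have fA : ∀ x ∈ M.D, (∀ b ∈ C, b ≠ r → b ≠ f 2 → x b = 0) → x c = x r + x (f 2) := by
    intro x hx h3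
    by_cases h5 : x (f 2) = 0
    · rw [h5, add_zero]
      apply hc x hx
      intro b hb
      rw [Finset.mem_erase] at hb
      by_cases hb2 : b = f 2
      · rw [hb2, h5]
      · exact h3 b hb.2 hb.1 hb2
    · have h5' := z1 _ h5
      have h6 : ∀ b ∈ C.erase r, (x + y) b = 0 := by
        intro b hb
        rw [Finset.mem_erase] at hb
        by_cases hb2 : b = f 2
        · rw [hb2, Pi.add_apply, h5', hy2, z11]
        · rw [Pi.add_apply, h3 b hb.2 hb.1 hb2, hy0C b (Finset.mem_erase.2 ⟨hb2, hb.2⟩), add_zero]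
      have h7 := hc _ (M.D.add_mem hx hy) h6
      rw [Pi.add_apply, Pi.add_apply, hy1, hyr, add_zero] at h7
      rw [h5', ← h7, add_assoc, z11, add_zero]
  have memC' : ∀ i, 2 ≤ i → i ≤ n + 3 → i % 2 = 0 → f i ∈ insert c (C.erase r) :=
    fun i hi hi' hi2 => Finset.mem_insert_of_mem
      (Finset.mem_erase.2 ⟨ne0 i (by omega) hi', parC i hi' hi2⟩)
  have memD' : ∀ i, 2 ≤ i → i ≤ n + 3 → i % 2 = 1 → f i ∈ insert r (D.erase c) :=
    fun i hi hi' hi2 => Finset.mem_insert_of_mem
      (Finset.mem_erase.2 ⟨ne1 i hi hi', parD i hi' hi2⟩)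
  have nmemD' : ∀ i, 2 ≤ i → i ≤ n + 3 → i % 2 = 0 → f i ∉ insert r (D.erase c) := by
    intro i hi hi' hi2 hmem
    rcases Finset.mem_insert.1 hmem with he | hmem
    · exact ne0 i (by omega) hi' he
    · exact hCD _ (parC i hi' hi2) (Finset.mem_of_mem_erase hmem)
  have nmemC' : ∀ i, 2 ≤ i → i ≤ n + 3 → i % 2 = 1 → f i ∉ insert c (C.erase r) := by
    intro i hi hi' hi2 hmem
    rcases Finset.mem_insert.1 hmem with he | hmem
    · exact ne1 i hi hi' he
    · exact hCD _ (Finset.mem_of_mem_erase hmem) (parD i hi' hi2)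
  refine ⟨?_, ?_, ?_, ?_⟩
  · intro i hi
    show f (i + 2) ∈ _
    rw [Finset.mem_union]
    rcases Nat.mod_two_eq_zero_or_one (i + 2) with h2 | h2
    · exact Or.inl (memC' (i + 2) (by omega) (by omega) h2)
    · exact Or.inr (memD' (i + 2) (by omega) (by omega) h2)
  · -- start
    show ¬ XOK M Q P _ _ (f 2)
    rintro (⟨-, h3⟩ | ⟨h3, -⟩)
    · obtain ⟨x, hx, hx0, hx1⟩ := notInCl h3
      have hx0' : ∀ b ∈ C, b ≠ r → b ≠ f 2 → x b = 0 := fun b hb hbr hb2 =>
        hx0 b (Finset.mem_union_right _ (Finset.mem_erase.2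
          ⟨hb2, Finset.mem_insert_of_mem (Finset.mem_erase.2 ⟨hbr, hb⟩)⟩))
      have hxc : x c = 0 := hx0 c (Finset.mem_union_right _ (Finset.mem_erase.2
        ⟨h2c.symm, Finset.mem_insert_self _ _⟩))
      have h4 := fA x hx hx0'
      rw [hxc, hx1] at h4
      have hxr : x r = 1 := by
        have : ∀ t : ZMod 2, 0 = t + 1 → t = 1 := by decide
        exact this _ h4
      apply hf.start
      refine (xokC Q P 0 (by omega) (by norm_num)).2 fun h5 => ?_
      have h6 := h5 (x + y) (M.D.add_mem hx hy) (by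
        intro b hb
        rcases Finset.mem_union.1 hb with hb | hb
        · rw [Pi.add_apply, hx0 b (Finset.mem_union_left _ hb), hy0P b hb, add_zero]
        · rw [Finset.mem_erase] at hb
          by_cases hb2 : b = f 2
          · rw [hb2, Pi.add_apply, hx1, hy2, z11]
          · rw [Pi.add_apply, hx0' b hb.2 hb.1 hb2, hy0C b (Finset.mem_erase.2 ⟨hb2, hb.2⟩),
              add_zero])
      have h7 : (x + y) r = 0 := h6
      rw [Pi.add_apply, hxr, hyr, add_zero] at h7
      exact absurd h7 (by decide)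
    · exact nmemD' 2 le_rfl (by omega) (by norm_num) h3
  · -- stop
    show ¬ XOK M P Q _ _ (f (n + 1 + 2))
    have e : n + 1 + 2 = n + 3 := by omega
    rw [e]
    rcases Nat.mod_two_eq_zero_or_one (n + 3) with h2 | h2
    · rintro (⟨-, h3⟩ | ⟨h3, -⟩)
      · apply hf.stop
        refine (xokC P Q (n + 3) le_rfl h2).2 fun h5 => h3 ?_
        intro x hx hx0
        apply h5 x hx
        intro b hb
        rcases Finset.mem_union.1 hb with hb | hb
        · exact hx0 b (Finset.mem_union_left _ hb)
        · exact (vE (n + 3) (by omega) le_rfl h2 x hx).2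
            (fun b hb => hx0 b (Finset.mem_union_right _ hb)) b hb
      · exact nmemD' (n + 3) (by omega) le_rfl h2 h3
    · rintro (⟨h3, -⟩ | ⟨-, h3⟩)
      · exact nmemC' (n + 3) (by omega) le_rfl h2 h3
      · apply hf.stop
        refine (xokD P Q (n + 3) le_rfl h2).2 fun x hx hx0 => h3 x hx ?_
        intro b hb
        rcases Finset.mem_union.1 hb with hb | hb
        · exact hx0 b (Finset.mem_union_left _ hb)
        · exact (vC x hx).1 (fun b hb => hx0 b (Finset.mem_union_right _ hb)) b hb
  · -- implications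
    intro i hi
    show Imp M P Q _ _ (f (i + 2)) (f (i + 1 + 2))
    have e : i + 1 + 2 = i + 2 + 1 := by omega
    rw [e]
    have himp := hf.imp (i + 2) (by omega)
    rcases Nat.mod_two_eq_zero_or_one (i + 2) with h2 | h2
    · refine Or.inl ⟨memC' (i + 2) (by omega) (by omega) h2,
        memD' (i + 2 + 1) (by omega) (by omega) (by omega), ?_⟩
      rcases Nat.eq_zero_or_pos i with hi0 | hipos
      · subst hi0
        show ¬ M.InCl (Q ∪ (insert c (C.erase r)).erase (f 2)) (f 3)
        have himp' : Imp M P Q C D (f 2) (f 3) := himp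
        obtain ⟨x, hx, hx0, hx1⟩ := notInCl
          ((impC 2 3 (by omega) (by omega) (by norm_num) (by norm_num)).1 himp')
        have hx0Q : ∀ b ∈ Q, x b = 0 := fun b hb => hx0 b (Finset.mem_union_left _ hb)
        have hx0C : ∀ b ∈ C.erase (f 2), x b = 0 := fun b hb =>
          hx0 b (Finset.mem_union_right _ hb)
        have hx2 : x (f 2) = 1 := by
          apply z1
          intro h5
          have h6 := (xokD Q P 3 (by omega) (by norm_num)).1 (hf.yok 3 (by omega) (by omega))
          have h7 := h6 x hx (by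
            intro b hb
            rcases Finset.mem_union.1 hb with hb | hb
            · exact hx0Q b hb
            · by_cases hb2 : b = f 2
              · rw [hb2, h5]
              · exact hx0C b (Finset.mem_erase.2 ⟨hb2, hb⟩))
          rw [h7] at hx1
          exact absurd hx1 (by decide)
        have hxr : x r = 0 := hx0C r (Finset.mem_erase.2 ⟨h2r.symm, h0⟩)
        have hxc : x c = 1 := by
          rw [fA x hx fun b hb _ hb2 => hx0C b (Finset.mem_erase.2 ⟨hb2, hb⟩), hxr, hx2, zero_add]
        obtain ⟨z, hz, hz0, hz1⟩ := notInCl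
          ((xokC P Q 0 (by omega) (by norm_num)).1 (hf.xok 0 (by omega)))
        have hz0Q : ∀ b ∈ Q, z b = 0 := fun b hb => hz0 b (Finset.mem_union_left _ hb)
        have hz0C : ∀ b ∈ C.erase r, z b = 0 := fun b hb => hz0 b (Finset.mem_union_right _ hb)
        have hzr : z r = 1 := hz1
        have hzc : z c = 1 := by rw [hc z hz hz0C, hzr]
        have hz3 : z (f 3) = 0 := by
          have h5 := mt (impC 0 3 (by omega) (by omega) (by norm_num) (by norm_num)).2
            (hf.chord 0 3 (by omega) (by omega))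
          rw [not_not] at h5
          exact h5 z hz hz0
        intro h5
        have h6 := h5 (x + z) (M.D.add_mem hx hz) (by
          intro b hb
          rcases Finset.mem_union.1 hb with hb | hb
          · rw [Pi.add_apply, hx0Q b hb, hz0Q b hb, add_zero]
          · rw [Finset.mem_erase, Finset.mem_insert] at hb
            obtain ⟨hb2, hb | hb⟩ := hb
            · rw [hb, Pi.add_apply, hxc, hzc, z11]
            · rw [Pi.add_apply, hx0C b (Finset.mem_erase.2 ⟨hb2, Finset.mem_of_mem_erase hb⟩),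
                hz0C b hb, add_zero])
        rw [Pi.add_apply, hx1, hz3, add_zero] at h6
        exact absurd h6 (by decide)
      · have h3 := (impC (i + 2) (i + 2 + 1) (by omega) (by omega) h2 (by omega)).1 himp
        intro h4
        apply h3
        intro x hx hx0
        apply h4 x hx
        intro b hb
        rcases Finset.mem_union.1 hb with hb | hb
        · exact hx0 b (Finset.mem_union_left _ hb)
        · exact (vE (i + 2) (by omega) (by omega) h2 x hx).1
            (fun b hb => hx0 b (Finset.mem_union_right _ hb)) b hb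
    · refine Or.inr ⟨memD' (i + 2) (by omega) (by omega) h2,
        memC' (i + 2 + 1) (by omega) (by omega) (by omega), ?_⟩
      have h3 := (impD (i + 2) (i + 2 + 1) (by omega) (by omega) h2 (by omega)).1 himp
      intro h4
      apply h3
      intro x hx hx0
      apply h4 x hx
      intro b hb
      rcases Finset.mem_union.1 hb with hb | hb
      · exact hx0 b (Finset.mem_union_left _ hb)
      · exact (vE (i + 2 + 1) (by omega) (by omega) (by omega) x hx).1
          (fun b hb => hx0 b (Finset.mem_union_right _ hb)) b hb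

end Pool.Agent.H63.Sey
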