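import Pool.Agent.H63.Sey.BrDef

/-!
# Bridging: the swap (job SEY-I2)
-/

set_option autoImplicit false

namespace Pool.Agent.H63.Sey

universe u

variable {α : Type u} [DecidableEq α]

/-- (SEY-I2) Swap: `f 0 = c ∈ D` is parallel to `p ∈ P` in `M/C`; replace `p` by `c`. Then
`f 1, ..., f n` is a blocking path for the new situation (`1 ≤ n`).
* new start: `f 1 = r ∈ C` (as `c ∈ D`); let `x` vanish on `P - p`, `c`, `C - r`, suppose `x r = 1`.
  Let `z` vanish on `P ∪ (C - r)`, `z r = 1` (`yok`). `x + z` vanishes on `(P - p) ∪ C`, so at `p`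
  (`hcl`), so `x p = 0`. Let `y` vanish on `P ∪ (C - r)`, `y c = 1` (`Imp c r`); `y r = 1` since
  otherwise `y c = y p = 0`. Then `x + y` vanishes on `P ∪ C` but not at `c`: contradiction to `hc`.
* `f i ≠ c` for `i ≥ 1` as `f i` is `YOK` and `c` is not; `f i ≠ p` as `p ∉ C ∪ D`.
* stop: a cocycle vanishing on `C` vanishes on `P` iff it vanishes on `P' = P - p + c`.
* `Imp (f i) (f (i+1))`, `i ≥ 1`: for `f i ∈ C` nothing changes. For `f (i+1) = r ∈ C`,
  `i + 1 ≥ 2`: `¬ Imp c r`, so a cocycle vanishing on `P ∪ (C - r)` vanishes at `c`. -/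
theorem swap {M : BM α} {P Q C D : Finset α} (h : Setup M P Q C D) {n : ℕ} {f : ℕ → α}
    (hf : MinPath M P Q C D (n + 1) f) (h0 : f 0 ∈ D) {p : α} (hp : p ∈ P)
    (hc : ∀ x ∈ M.D, (∀ b ∈ C, x b = 0) → x (f 0) = x p)
    (hcl : M.InCl (P.erase p ∪ C) p) :
    Path M (insert (f 0) (P.erase p)) Q C (insert p (D.erase (f 0))) n (fun i => f (i + 1)) := by
  have z1 : ∀ a : ZMod 2, a ≠ 0 → a = 1 := by decide
  -- `f i ≠ c` for `i ≥ 1`
  have hne : ∀ i, 1 ≤ i → i ≤ n + 1 → f i ≠ f 0 := by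
    intro i h1 h2 he
    exact hf.start (he ▸ hf.yok i h1 h2)
  have hpC : p ∉ C := fun h' => Finset.disjoint_left.1 h.dPC hp h'
  have hpD : p ∉ D := fun h' => Finset.disjoint_left.1 h.dPD hp h'
  have hD' : ∀ i, 1 ≤ i → i ≤ n + 1 → f i ∈ D → f i ∈ insert p (D.erase (f 0)) := by
    intro i h1 h2 h3
    exact Finset.mem_insert_of_mem (Finset.mem_erase.2 ⟨hne i h1 h2, h3⟩)
  have hD'' : ∀ v, v ∈ C ∪ D → v ∈ insert p (D.erase (f 0)) → v ∈ D := by
    intro v hv h1
    rcases Finset.mem_insert.1 h1 with rfl | h2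
    · rcases Finset.mem_union.1 hv with h3 | h3
      · exact absurd h3 hpC
      · exact absurd h3 hpD
    · exact (Finset.mem_erase.1 h2).2
  have h0C : f 0 ∉ C := fun h' => Finset.disjoint_left.1 h.dCD h' h0
  refine ⟨?_, ?_, ?_, ?_⟩
  · intro i hi
    rcases Finset.mem_union.1 (hf.mem (i + 1) (by omega)) with h1 | h1
    · exact Finset.mem_union_left _ h1
    · exact Finset.mem_union_right _ (hD' (i + 1) (by omega) (by omega) h1)
  · -- start
    have himp := hf.imp 0 (by omega)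
    rcases himp with ⟨h1, _, _⟩ | ⟨_, hrC, hy⟩
    · exact absurd h1 h0C
    simp only [zero_add] at hrC hy ⊢
    have hrD : f 1 ∉ D := fun h' => Finset.disjoint_left.1 h.dCD hrC h'
    rintro (⟨_, h2⟩ | ⟨h2, _⟩)
    swap
    · exact hrD (hD'' _ (Finset.mem_union_left _ hrC) h2)
    apply h2
    intro x hx hx0
    by_contra hxr
    have hxr1 := z1 _ hxr
    -- `z`
    rcases hf.yok 1 le_rfl (by omega) with ⟨_, hz⟩ | ⟨hz, _⟩
    swap
    · exact hrD hz
    unfold LM.InCl at hz hy
    push Not at hz hy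
    obtain ⟨z, hzD, hz0, hzr⟩ := hz
    obtain ⟨y, hyD, hy0, hyc⟩ := hy
    have hzr1 := z1 _ hzr
    have hyc1 := z1 _ hyc
    have hxc : x (f 0) = 0 :=
      hx0 _ (Finset.mem_union_left _ (Finset.mem_insert_self _ _))
    have hxP : ∀ b ∈ P, b ≠ p → x b = 0 := fun b hb hbp =>
      hx0 _ (Finset.mem_union_left _ (Finset.mem_insert_of_mem (Finset.mem_erase.2 ⟨hbp, hb⟩)))
    have hxC : ∀ b ∈ C, b ≠ f 1 → x b = 0 := fun b hb hbr =>
      hx0 _ (Finset.mem_union_right _ (Finset.mem_erase.2 ⟨hbr, hb⟩))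
    have hzP : ∀ b ∈ P, z b = 0 := fun b hb => hz0 _ (Finset.mem_union_left _ hb)
    have hzC : ∀ b ∈ C, b ≠ f 1 → z b = 0 := fun b hb hbr =>
      hz0 _ (Finset.mem_union_right _ (Finset.mem_erase.2 ⟨hbr, hb⟩))
    have hyP : ∀ b ∈ P, y b = 0 := fun b hb => hy0 _ (Finset.mem_union_left _ hb)
    have hyC : ∀ b ∈ C, b ≠ f 1 → y b = 0 := fun b hb hbr =>
      hy0 _ (Finset.mem_union_right _ (Finset.mem_erase.2 ⟨hbr, hb⟩))
    have hxp : x p = 0 := by
      have h3 := hcl (x + z) (Submodule.add_mem _ hx hzD) (by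
        intro b hb
        rw [Pi.add_apply]
        rcases Finset.mem_union.1 hb with hb | hb
        · rw [hxP b (Finset.mem_erase.1 hb).2 (Finset.mem_erase.1 hb).1,
            hzP b (Finset.mem_erase.1 hb).2, add_zero]
        · by_cases hbr : b = f 1
          · rw [hbr, hxr1, hzr1]; rfl
          · rw [hxC b hb hbr, hzC b hb hbr, add_zero])
      rw [Pi.add_apply, hzP p hp, add_zero] at h3
      exact h3
    have hyr1 : y (f 1) = 1 := by
      apply z1
      intro hyr
      apply hyc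
      rw [hc y hyD (fun b hb => ?_), hyP p hp]
      by_cases hbr : b = f 1
      · rw [hbr, hyr]
      · exact hyC b hb hbr
    have h4 := hc (x + y) (Submodule.add_mem _ hx hyD) (by
      intro b hb
      rw [Pi.add_apply]
      by_cases hbr : b = f 1
      · rw [hbr, hxr1, hyr1]; rfl
      · rw [hxC b hb hbr, hyC b hb hbr, add_zero])
    rw [Pi.add_apply, Pi.add_apply, hxc, hyc1, hxp, hyP p hp] at h4
    exact absurd h4 (by decide)
  · -- stop
    have hv := hf.mem (n + 1) le_rfl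
    rintro (⟨h1, h2⟩ | ⟨h1, h2⟩)
    · exact hf.stop (Or.inl ⟨h1, h2⟩)
    · refine hf.stop (Or.inr ⟨hD'' _ hv h1, ?_⟩)
      intro x hx hx0
      apply h2 x hx
      intro b hb
      rcases Finset.mem_union.1 hb with hb | hb
      · rcases Finset.mem_insert.1 hb with rfl | hb
        · rw [hc x hx (fun b hb => hx0 b (Finset.mem_union_right _ hb))]
          exact hx0 p (Finset.mem_union_left _ hp)
        · exact hx0 b (Finset.mem_union_left _ (Finset.mem_erase.1 hb).2)
      · exact hx0 b (Finset.mem_union_right _ hb)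
  · -- implications
    intro i hi
    rcases hf.imp (i + 1) (by omega) with ⟨h1, h2, h3⟩ | ⟨h1, h2, h3⟩
    · exact Or.inl ⟨h1, hD' (i + 1 + 1) (by omega) (by omega) h2, h3⟩
    · refine Or.inr ⟨hD' (i + 1) (by omega) (by omega) h1, h2, ?_⟩
      have hch : M.InCl (P ∪ C.erase (f (i + 1 + 1))) (f 0) := by
        by_contra hcon
        exact hf.chord 0 (i + 1 + 1) (by omega) (by omega) (Or.inr ⟨h0, h2, hcon⟩)
      intro h4
      apply h3
      intro x hx hx0
      apply h4 x hx
      intro b hb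
      rcases Finset.mem_union.1 hb with hb | hb
      · rcases Finset.mem_insert.1 hb with rfl | hb
        · exact hch x hx hx0
        · exact hx0 b (Finset.mem_union_left _ (Finset.mem_erase.1 hb).2)
      · exact hx0 b (Finset.mem_union_right _ hb)

end Pool.Agent.H63.Sey
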