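import Pool.Agent.H63.Sey.DispA

/-!
# Changing a display (job SEY-I7)
-/

set_option autoImplicit false

namespace Pool.Agent.H63.Sey

universe u

variable {α : Type u} [DecidableEq α]

lemma dC_span {M : BM α} {D D' : Finset α} (h : M.rk (M.E \ D) = M.rk M.E)
    (h' : ∀ b ∈ M.E \ D, M.InCl (M.E \ D') b) : M.rk (M.E \ D') = M.rk M.E := by
  have h1 := LM.rk_union_eq_of_inCl M h'
  have h2 : M.rk (M.E \ D) ≤ M.rk (M.E \ D' ∪ M.E \ D) :=
    LM.rk_mono M Finset.subset_union_right
  have h3 := LM.rk_le_E M (M.E \ D')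
  omega

/-- (SEY-I7) replace `ι i` by a parallel element `c` of `M/C` -/
lemma Disp.update {M : BM α} {C D : Finset α} {ι : Fin 12 → α} (h : Disp M C D ι) {c : α}
    (hc : c ∈ D) (i : Fin 12) (hpar : ∀ x ∈ M.D, (∀ b ∈ C, x b = 0) → x c = x (ι i)) :
    Disp M C (insert (ι i) (D.erase c)) (Function.update ι i c) := by
  have hcι : ∀ j, c ≠ ι j := by
    intro j hj
    exact (h.dA_not j).2.2 (hj ▸ hc)
  have hcC : c ∉ C := fun h1 => Finset.disjoint_left.1 h.disj h1 hc
  have hCE : ∀ a ∈ C, a ∈ M.E := by
    intro a ha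
    rw [← h.union]
    simp [ha]
  have hDE : ∀ a ∈ D, a ∈ M.E := by
    intro a ha
    rw [← h.union]
    simp [ha]
  have hinj : Function.Injective (Function.update ι i c) := by
    intro a b hab
    by_cases ha : a = i
    · subst ha
      by_cases hb : b = a
      · exact hb.symm
      · rw [Function.update_self, Function.update_of_ne hb] at hab
        exact absurd hab (hcι b)
    · by_cases hb : b = i
      · subst hb
        rw [Function.update_self, Function.update_of_ne ha] at hab
        exact absurd hab.symm (hcι a)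
      · rw [Function.update_of_ne hb, Function.update_of_ne ha] at hab
        exact h.inj hab
  have himg : ∀ a, a ∈ Finset.univ.image (Function.update ι i c) ↔
      a = c ∨ (a ∈ Finset.univ.image ι ∧ a ≠ ι i) := by
    intro a
    simp only [Finset.mem_image, Finset.mem_univ, true_and]
    constructor
    · rintro ⟨j, rfl⟩
      by_cases hj : j = i
      · subst hj
        left
        rw [Function.update_self]
      · right
        rw [Function.update_of_ne hj]
        exact ⟨⟨j, rfl⟩, fun h1 => hj (h.inj h1)⟩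
    · rintro (rfl | ⟨⟨j, rfl⟩, hj⟩)
      · exact ⟨i, Function.update_self _ _ _⟩
      · refine ⟨j, Function.update_of_ne ?_ _ _⟩
        rintro rfl
        exact hj rfl
  have himg0 : ∀ a, a ∈ Finset.univ.image ι ↔ a ∈ M.E ∧ a ∉ C ∧ a ∉ D := by
    intro a
    rw [← h.dA_E, Finset.mem_sdiff, Finset.mem_sdiff]
    tauto
  have hD' : ∀ a, a ∈ insert (ι i) (D.erase c) ↔ a = ι i ∨ (a ≠ c ∧ a ∈ D) := by
    intro a
    rw [Finset.mem_insert, Finset.mem_erase]
  have hιi := h.dA_not i
  have hE' : (M.E \ C) \ insert (ι i) (D.erase c) =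
      Finset.univ.image (Function.update ι i c) := by
    ext a
    rw [himg, himg0, Finset.mem_sdiff, Finset.mem_sdiff, hD']
    constructor
    · rintro ⟨⟨h1, h2⟩, h3⟩
      rw [not_or] at h3
      by_cases h4 : a = c
      · exact Or.inl h4
      · exact Or.inr ⟨⟨h1, h2, fun h5 => h3.2 ⟨h4, h5⟩⟩, h3.1⟩
    · rintro (rfl | ⟨⟨h1, h2, h3⟩, h4⟩)
      · refine ⟨⟨hDE _ hc, hcC⟩, ?_⟩
        rintro (h5 | ⟨h5, -⟩)
        · exact hcι i h5
        · exact h5 rfl
      · refine ⟨⟨h1, h2⟩, ?_⟩
        rintro (h5 | ⟨-, h5⟩)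
        · exact h4 h5
        · exact h3 h5
  refine ⟨hinj, ?_, ?_, ?_, h.indep, ?_⟩
  · rw [Finset.disjoint_left]
    intro a ha hb
    rcases (hD' a).1 hb with rfl | ⟨-, h1⟩
    · exact hιi.2.1 ha
    · exact Finset.disjoint_left.1 h.disj ha h1
  · refine LM.D_ext _ hE' fun x => ?_
    rw [mem_conc hinj, LM.mem_del]
    constructor
    · rintro ⟨h1, y, hy, h2⟩
      rw [LM.mem_con] at hy
      obtain ⟨φ, hφ⟩ := h.exists_coord hy.1 hy.2
      refine ⟨fun a ha => ?_, φ, fun j => ?_⟩
      · by_cases ha' : a ∈ insert (ι i) (D.erase c)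
        · exact h1 a ha'
        · rw [h2 a ha']
          by_cases haC : a ∈ C
          · exact hy.2 a haC
          · apply M.supp y hy.1
            intro haE
            rw [← hE'] at ha
            exact ha (Finset.mem_sdiff.2 ⟨Finset.mem_sdiff.2 ⟨haE, haC⟩, ha'⟩)
      · by_cases hj : j = i
        · subst hj
          rw [Function.update_self, ← hφ, ← hpar y hy.1 hy.2]
          apply h2
          rw [hD']
          rintro (h5 | ⟨h5, -⟩)
          · exact hcι j h5
          · exact h5 rfl
        · rw [Function.update_of_ne hj, ← hφ]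
          apply h2
          rw [hD']
          rintro (h5 | ⟨-, h5⟩)
          · exact hj (h.inj h5)
          · exact (h.dA_not j).2.2 h5
    · rintro ⟨h1, φ, hφ⟩
      obtain ⟨y, hy, hyC, hyι⟩ := h.exists_cocycle φ
      refine ⟨fun a ha => ?_, y, ?_, fun a ha => ?_⟩
      · apply h1
        rw [← hE', Finset.mem_sdiff]
        exact fun h5 => h5.2 ha
      · rw [LM.mem_con]
        exact ⟨hy, hyC⟩
      · by_cases ha' : a ∈ Finset.univ.image (Function.update ι i c)
        · obtain ⟨j, -, rfl⟩ := Finset.mem_image.1 ha'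
          rw [hφ]
          by_cases hj : j = i
          · subst hj
            rw [Function.update_self, hpar y hy hyC, hyι]
          · rw [Function.update_of_ne hj, hyι]
        · rw [h1 a ha']
          by_cases haC : a ∈ C
          · exact (hyC a haC).symm
          · symm
            apply M.supp y hy
            intro haE
            rw [← hE'] at ha'
            exact ha' (Finset.mem_sdiff.2 ⟨Finset.mem_sdiff.2 ⟨haE, haC⟩, ha⟩)
  · ext a
    rw [Finset.mem_union, Finset.mem_union, himg, himg0, hD']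
    constructor
    · rintro ((h1 | h1) | h1)
      · rcases h1 with rfl | h1
        · exact hDE _ hc
        · exact h1.1.1
      · exact hCE a h1
      · rcases h1 with rfl | h1
        · exact hιi.1
        · exact hDE a h1.2
    · intro h1
      by_cases h2 : a = ι i
      · exact Or.inr (Or.inl h2)
      · by_cases h3 : a = c
        · exact Or.inl (Or.inl (Or.inl h3))
        · by_cases h4 : a ∈ C
          · exact Or.inl (Or.inr h4)
          · by_cases h5 : a ∈ D
            · exact Or.inr (Or.inr ⟨h3, h5⟩)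
            · exact Or.inl (Or.inl (Or.inr ⟨⟨h1, h4, h5⟩, h2⟩))
  · apply dC_span h.span
    intro b hb
    rw [Finset.mem_sdiff] at hb
    by_cases hbi : b = ι i
    · subst hbi
      intro x hx hx0
      have hxC : ∀ a ∈ C, x a = 0 := by
        intro a ha
        apply hx0
        rw [Finset.mem_sdiff, hD']
        refine ⟨hCE a ha, ?_⟩
        rintro (rfl | ⟨-, h1⟩)
        · exact hιi.2.1 ha
        · exact Finset.disjoint_left.1 h.disj ha h1
      rw [← hpar x hx hxC]
      apply hx0
      rw [Finset.mem_sdiff, hD']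
      refine ⟨hDE c hc, ?_⟩
      rintro (h5 | ⟨h5, -⟩)
      · exact hcι i h5
      · exact h5 rfl
    · apply LM.inCl_of_mem
      rw [Finset.mem_sdiff, hD']
      refine ⟨hb.1, ?_⟩
      rintro (h5 | ⟨-, h5⟩)
      · exact hbi h5
      · exact hb.2 h5

lemma dC_image_update {ι : Fin 12 → α} (hι : Function.Injective ι) {i : Fin 12} {c : α}
    (S : Finset (Fin 12)) (hi : i ∈ S) :
    S.image (Function.update ι i c) = insert c ((S.image ι).erase (ι i)) := by
  ext a
  simp only [Finset.mem_image, Finset.mem_insert, Finset.mem_erase]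
  constructor
  · rintro ⟨j, hj, rfl⟩
    by_cases hji : j = i
    · subst hji
      left
      rw [Function.update_self]
    · right
      rw [Function.update_of_ne hji]
      exact ⟨fun h1 => hji (hι h1), j, hj, rfl⟩
  · rintro (rfl | ⟨h1, j, hj, rfl⟩)
    · exact ⟨i, hi, Function.update_self _ _ _⟩
    · refine ⟨j, hj, Function.update_of_ne ?_ _ _⟩
      rintro rfl
      exact h1 rfl

lemma dC_image_update' {ι : Fin 12 → α} {i : Fin 12} {c : α}
    (S : Finset (Fin 12)) (hi : i ∉ S) : S.image (Function.update ι i c) = S.image ι := by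
  refine Finset.image_congr fun j hj => Function.update_of_ne ?_ _ _
  rintro rfl
  exact hi hj

/-- (SEY-I7) -/
lemma pset_update {ι : Fin 12 → α} (hι : Function.Injective ι) {i : Fin 12} (hi : i < 6) {c : α}
    (hc : ∀ j, c ≠ ι j) :
    Pset (Function.update ι i c) = insert c ((Pset ι).erase (ι i)) ∧
      Qset (Function.update ι i c) = Qset ι := by
  refine ⟨dC_image_update hι _ (by simpa using hi), dC_image_update' _ ?_⟩
  simpa using hi

/-- (SEY-I7) -/
lemma qset_update {ι : Fin 12 → α} (hι : Function.Injective ι) {i : Fin 12} (hi : 6 ≤ i) {c : α}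
    (hc : ∀ j, c ≠ ι j) :
    Qset (Function.update ι i c) = insert c ((Qset ι).erase (ι i)) ∧
      Pset (Function.update ι i c) = Pset ι := by
  refine ⟨dC_image_update hι _ (by simpa using hi), dC_image_update' _ ?_⟩
  simpa using hi

/-- (SEY-I7) exchange `r ∈ C` and `c ∈ D` that are parallel in `M/(C - r)`: a cocycle vanishes on
`C' = C - r + c` iff it vanishes on `C` -/
lemma Disp.pivot {M : BM α} {C D : Finset α} {ι : Fin 12 → α} (h : Disp M C D ι) {r c : α}
    (hr : r ∈ C) (hc : c ∈ D)
    (hpar : ∀ x ∈ M.D, (∀ b ∈ C.erase r, x b = 0) → x c = x r) :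
    Disp M (insert c (C.erase r)) (insert r (D.erase c)) ι := by
  have hcC : c ∉ C := fun h1 => Finset.disjoint_left.1 h.disj h1 hc
  have hrD : r ∉ D := fun h1 => Finset.disjoint_left.1 h.disj hr h1
  have hrc : r ≠ c := by
    rintro rfl
    exact hcC hr
  have hCE : ∀ a ∈ C, a ∈ M.E := by
    intro a ha
    rw [← h.union]
    simp [ha]
  have hDE : ∀ a ∈ D, a ∈ M.E := by
    intro a ha
    rw [← h.union]
    simp [ha]
  have hC' : ∀ a, a ∈ insert c (C.erase r) ↔ a = c ∨ (a ≠ r ∧ a ∈ C) := by
    intro a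
    rw [Finset.mem_insert, Finset.mem_erase]
  have hD' : ∀ a, a ∈ insert r (D.erase c) ↔ a = r ∨ (a ≠ c ∧ a ∈ D) := by
    intro a
    rw [Finset.mem_insert, Finset.mem_erase]
  have hdCD : ∀ a ∈ C, a ∉ D := fun a ha hb => Finset.disjoint_left.1 h.disj ha hb
  -- vanishing on `C` and on `C'`
  have hv1 : ∀ x ∈ M.D, (∀ b ∈ C, x b = 0) → ∀ b ∈ insert c (C.erase r), x b = 0 := by
    intro x hx hx0 b hb
    rcases (hC' b).1 hb with rfl | ⟨-, h1⟩
    · rw [hpar x hx fun b hb => hx0 b (Finset.mem_of_mem_erase hb)]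
      exact hx0 r hr
    · exact hx0 b h1
  have hv2 : ∀ x ∈ M.D, (∀ b ∈ insert c (C.erase r), x b = 0) → ∀ b ∈ C, x b = 0 := by
    intro x hx hx0 b hb
    by_cases hbr : b = r
    · subst hbr
      rw [← hpar x hx fun a ha => hx0 a (Finset.mem_insert_of_mem ha)]
      exact hx0 c (Finset.mem_insert_self _ _)
    · exact hx0 b ((hC' b).2 (Or.inr ⟨hbr, hb⟩))
  have hE' : (M.E \ insert c (C.erase r)) \ insert r (D.erase c) = (M.E \ C) \ D := by
    ext a
    rw [Finset.mem_sdiff, Finset.mem_sdiff, Finset.mem_sdiff, Finset.mem_sdiff, hC', hD']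
    by_cases h1 : a = c
    · subst h1
      simp [hc]
    · by_cases h2 : a = r
      · subst h2
        simp [hr]
      · simp [h1, h2]
  refine ⟨h.inj, ?_, ?_, ?_, ?_, ?_⟩
  · rw [Finset.disjoint_left]
    intro a ha hb
    rw [hC'] at ha
    rw [hD'] at hb
    rcases ha with rfl | ⟨h1, h2⟩
    · rcases hb with h3 | ⟨h3, -⟩
      · exact hrc h3.symm
      · exact h3 rfl
    · rcases hb with h3 | ⟨-, h3⟩
      · exact h1 h3
      · exact hdCD a h2 h3
  · rw [← h.minor]
    refine LM.D_ext _ hE' fun x => ?_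
    rw [LM.mem_del, LM.mem_del]
    constructor
    · rintro ⟨h1, y, hy, h2⟩
      rw [LM.mem_con] at hy
      refine ⟨fun a ha => ?_, y, ?_, fun a ha => ?_⟩
      · by_cases hac : a = c
        · subst hac
          rw [h2 a (fun h3 => by
            rcases (hD' a).1 h3 with h4 | ⟨h4, -⟩
            · exact hrc h4.symm
            · exact h4 rfl)]
          exact hy.2 a (Finset.mem_insert_self _ _)
        · exact h1 a ((hD' a).2 (Or.inr ⟨hac, ha⟩))
      · rw [LM.mem_con]
        exact ⟨hy.1, hv2 y hy.1 hy.2⟩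
      · by_cases har : a = r
        · subst har
          rw [h1 a (Finset.mem_insert_self _ _), hv2 y hy.1 hy.2 a hr]
        · apply h2
          rw [hD']
          rintro (h4 | ⟨-, h4⟩)
          · exact har h4
          · exact ha h4
    · rintro ⟨h1, y, hy, h2⟩
      rw [LM.mem_con] at hy
      refine ⟨fun a ha => ?_, y, ?_, fun a ha => ?_⟩
      · rcases (hD' a).1 ha with rfl | ⟨-, h4⟩
        · rw [h2 a hrD]
          exact hy.2 a hr
        · exact h1 a h4
      · rw [LM.mem_con]
        exact ⟨hy.1, hv1 y hy.1 hy.2⟩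
      · by_cases hac : a = c
        · subst hac
          rw [h1 a hc, hv1 y hy.1 hy.2 a (Finset.mem_insert_self _ _)]
        · apply h2
          intro h4
          exact ha ((hD' a).2 (Or.inr ⟨hac, h4⟩))
  · rw [← h.union]
    ext a
    simp only [Finset.mem_union, hC', hD']
    by_cases h1 : a = c
    · subst h1
      simp [hc]
    · by_cases h2 : a = r
      · subst h2
        simp [hr]
      · simp [h1, h2]
  · have e1 : M.rk (insert c (C.erase r)) = M.rk C := by
      have a1 := LM.rk_union_eq_of_inCl M (X := C) (Y := insert c (C.erase r))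
        fun b hb x hx hx0 => hv1 x hx hx0 b hb
      have a2 := LM.rk_union_eq_of_inCl M (X := insert c (C.erase r)) (Y := C)
        fun b hb x hx hx0 => hv2 x hx hx0 b hb
      rw [Finset.union_comm] at a2
      omega
    rw [e1, h.indep, Finset.card_insert_of_notMem, Finset.card_erase_of_mem hr]
    · have := Finset.card_pos.2 ⟨r, hr⟩
      omega
    · intro h1
      exact hcC (Finset.mem_of_mem_erase h1)
  · apply dC_span h.span
    intro b hb
    rw [Finset.mem_sdiff] at hb
    by_cases hbr : b = r
    · subst hbr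
      intro x hx hx0
      have hxC : ∀ a ∈ C.erase b, x a = 0 := by
        intro a ha
        rw [Finset.mem_erase] at ha
        apply hx0
        rw [Finset.mem_sdiff, hD']
        refine ⟨hCE a ha.2, ?_⟩
        rintro (h1 | ⟨-, h1⟩)
        · exact ha.1 h1
        · exact hdCD a ha.2 h1
      rw [← hpar x hx hxC]
      apply hx0
      rw [Finset.mem_sdiff, hD']
      refine ⟨hDE c hc, ?_⟩
      rintro (h5 | ⟨h5, -⟩)
      · exact hrc h5.symm
      · exact h5 rfl
    · apply LM.inCl_of_mem
      rw [Finset.mem_sdiff, hD']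
      refine ⟨hb.1, ?_⟩
      rintro (h5 | ⟨-, h5⟩)
      · exact hbr h5
      · exact hb.2 h5

end Pool.Agent.H63.Sey
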