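import Pool.Agent.H63.Sey.FinDef

/-!
# Finite facts: spans, self-duality (job SEY-F2)
-/

set_option autoImplicit false

namespace Pool.Agent.H63.Sey

universe u

variable {α : Type u} [DecidableEq α]

lemma inP_r12 (i : Fin 12) (hi : i < 6) : InP (r12 i) := fun _ h => h i hi

lemma inQ_r12 (i : Fin 12) (hi : 6 ≤ i) : InQ (r12 i) := fun _ h => h i hi

lemma inP_zero : InP 0 := fun φ _ => by simp

lemma inQ_zero : InQ 0 := fun φ _ => by simp

lemma inP_lvec (i : Fin 3) : InP (lvec i) := by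
  unfold InP; revert i; decide +kernel

lemma inQ_lvec (i : Fin 3) : InQ (lvec i) := by
  unfold InQ; revert i; decide +kernel

lemma inQ_kap : InQ kap := by
  unfold InQ; decide +kernel

/-- (SEY-F2) -/
theorem good12_inP_or_inQ {w : Fin 6 → ZMod 2} (h : Good12 w) : InP w ∨ InQ w := by
  rcases h with rfl | ⟨i, rfl⟩ | ⟨i, rfl⟩ | rfl
  · exact Or.inl inP_zero
  · rcases lt_or_ge i 6 with hi | hi
    · exact Or.inl (inP_r12 i hi)
    · exact Or.inr (inQ_r12 i hi)
  · exact Or.inl (inP_lvec i)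
  · exact Or.inr inQ_kap

/-- (SEY-F2) -/
theorem good12_inP {w : Fin 6 → ZMod 2} (h : Good12 w) (hP : InP w) (hQ : ¬ InQ w) :
    ∃ i : Fin 12, i < 6 ∧ w = r12 i := by
  rcases h with rfl | ⟨i, rfl⟩ | ⟨i, rfl⟩ | rfl
  · exact absurd inQ_zero hQ
  · rcases lt_or_ge i 6 with hi | hi
    · exact ⟨i, hi, rfl⟩
    · exact absurd (inQ_r12 i hi) hQ
  · exact absurd (inQ_lvec i) hQ
  · exact absurd inQ_kap hQ

/-- (SEY-F2) -/
theorem good12_inQ {w : Fin 6 → ZMod 2} (h : Good12 w) (hP : ¬ InP w) (hQ : InQ w) :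
    (∃ i : Fin 12, 6 ≤ i ∧ w = r12 i) ∨ w = kap := by
  rcases h with rfl | ⟨i, rfl⟩ | ⟨i, rfl⟩ | rfl
  · exact absurd inP_zero hP
  · rcases lt_or_ge i 6 with hi | hi
    · exact absurd (inP_r12 i hi) hP
    · exact Or.inl ⟨i, hi, rfl⟩
  · exact absurd (inP_lvec i) hP
  · exact Or.inr rfl

/-- (SEY-F2) -/
theorem inP_inQ {w : Fin 6 → ZMod 2} (hP : InP w) (hQ : InQ w) : w = 0 ∨ ∃ i, w = lvec i := by
  have h4 := hP ![0, 0, 0, 0, 1, 0] (by decide +kernel)
  have h5 := hP ![0, 0, 0, 0, 0, 1] (by decide +kernel)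
  have h02 := hQ ![1, 0, 1, 0, 0, 0] (by decide +kernel)
  have h13 := hQ ![0, 1, 0, 1, 0, 0] (by decide +kernel)
  clear hP hQ
  revert h4 h5 h02 h13
  revert w
  decide +kernel

/-- (SEY-F2) every element of `P` is in the closure of the others -/
theorem r12_clP (i : Fin 12) (hi : i < 6) (φ : Fin 6 → ZMod 2)
    (h : ∀ k : Fin 12, k < 6 → k ≠ i → ∑ j, φ j * r12 k j = 0) : ∑ j, φ j * r12 i j = 0 := by
  revert φ
  revert i
  decide +kernel

/-- (SEY-F2) every element of `Q` is in the closure of the others -/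
theorem r12_clQ (i : Fin 12) (hi : 6 ≤ i) (φ : Fin 6 → ZMod 2)
    (h : ∀ k : Fin 12, 6 ≤ k → k ≠ i → ∑ j, φ j * r12 k j = 0) : ∑ j, φ j * r12 i j = 0 := by
  revert φ
  revert i
  decide +kernel

lemma eq_add_of_z {a b c : ZMod 2} (h : a + (b + c) = 0) : c = a + b := by
  revert a b c; decide

lemma eq_add_of_z4 {a b c d : ZMod 2} (h : a + (b + (c + d)) = 0) : b = a + c + d := by
  revert a b c d; decide

lemma eq_add_of_z6 {a b c d e f : ZMod 2} (h : a + (b + (c + (d + (e + f)))) = 0) :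
    a = b + c + d + e + f := by
  revert a b c d e f; decide

lemma eq_last_of_z4 {a b c d : ZMod 2} (h : a + (b + (c + d)) = 0) : d = a + b + c := by
  revert a b c d; decide

lemma eq_third_of_z4 {a b c d : ZMod 2} (h : a + (b + (c + d)) = 0) : c = a + b + d := by
  revert a b c d; decide

lemma eq_fifth_of_z6 {a b c d e f : ZMod 2} (h : a + (b + (c + (d + (e + f)))) = 0) :
    e = a + b + c + d + f := by
  revert a b c d e f; decide

/-- (SEY-F2) `R12` is self-dual, with `P` and `Q` exchanged -/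
theorem r12_dual {ι : Fin 12 → α} (hι : Function.Injective ι) :
    (conc r12 ι).dual = conc r12 (fun i => ι (i + 6)) := by
  have h1 : conc r12 (fun i => ι (i + 6)) = conc (fun i : Fin 12 => r12 (i + 6)) ι := by
    have h2 := conc_comp (fun i : Fin 12 => r12 (i + 6)) (ι := ι) (Equiv.addRight (6 : Fin 12))
    rw [← h2]
    congr 1
    funext i
    have : i + 6 + 6 = i := by revert i; decide
    show r12 i = r12 (i + 6 + 6)
    rw [this]
  rw [h1]
  refine conc_dual hι (by decide +kernel) ?_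
  intro y hy
  refine ⟨![y 6, y 7, y 9, y 10, y 0, y 3], ?_⟩
  have h0 := hy 0
  have h1 := hy 1
  have h2 := hy 2
  have h3 := hy 3
  have h4 := hy 4
  have h5 := hy 5
  clear hy
  simp only [r12, Fin.sum_univ_succ] at h0 h1 h2 h3 h4 h5
  have e8 : y 8 = y 6 + y 7 := by
    apply eq_add_of_z; simpa [add_assoc] using h4
  have e11 : y 11 = y 9 + y 10 := by
    apply eq_add_of_z; simpa [add_assoc] using h5
  have e2 : y 2 = y 0 + y 7 + y 10 := by
    apply eq_add_of_z4; simpa [add_assoc] using h0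
  have e5 : y 5 = y 3 + y 7 + y 10 := by
    apply eq_add_of_z4; simpa [add_assoc] using h2
  have e1 : y 1 = y 2 + y 7 + y 8 + y 10 + y 11 := by
    apply eq_add_of_z6; simpa [add_assoc] using h1
  have e4 : y 4 = y 5 + y 7 + y 8 + y 10 + y 11 := by
    apply eq_add_of_z6; simpa [add_assoc] using h3
  have d : ∀ a : ZMod 2, a + a = 0 := by decide
  intro i
  fin_cases i <;> simp [r12, Fin.sum_univ_six, e1, e4, e2, e5, e8, e11] <;> grind

/-- the exchange of `P` and `Q`, fixing the new element -/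
def tau13 : Fin 13 → Fin 13 := ![6, 7, 8, 9, 10, 11, 0, 1, 2, 3, 4, 5, 12]

lemma tau13_tau13 (i : Fin 13) : tau13 (tau13 i) = i := by revert i; decide

/-- (SEY-F2) the dual of `R12 + kappa` (with `P`, `Q` exchanged) is `r13` -/
theorem r13_dual {ι : Fin 12 → α} {r : α} (hι : Function.Injective (snocl ι r)) :
    (conc (snocv r12 kap) (snocl (fun i => ι (i + 6)) r)).dual = conc r13 (snocl ι r) := by
  have hl : snocl (fun i => ι (i + 6)) r = fun i => snocl ι r (tau13 i) := by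
    funext i
    fin_cases i <;> rfl
  have hc : conc (snocv r12 kap) (snocl (fun i => ι (i + 6)) r) =
      conc (fun i => snocv r12 kap (tau13 i)) (snocl ι r) := by
    have h2 := conc_comp (fun i : Fin 13 => snocv r12 kap (tau13 i)) (ι := snocl ι r)
      ⟨tau13, tau13, tau13_tau13, tau13_tau13⟩
    rw [← h2, hl]
    congr 1
    funext i
    show snocv r12 kap i = snocv r12 kap (tau13 (tau13 i))
    rw [tau13_tau13]
  rw [hc]
  have hv : (fun i => snocv r12 kap (tau13 i)) =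
      (![![0, 0, 0, 0, 1, 0], ![1, 1, 1, 1, 1, 0], ![0, 1, 0, 1, 1, 0],
        ![0, 0, 0, 0, 0, 1], ![1, 1, 1, 1, 0, 1], ![0, 1, 0, 1, 0, 1],
        ![1, 0, 0, 0, 0, 0], ![0, 1, 0, 0, 0, 0], ![1, 1, 0, 0, 0, 0],
        ![0, 0, 1, 0, 0, 0], ![0, 0, 0, 1, 0, 0], ![0, 0, 1, 1, 0, 0],
        ![0, 0, 0, 0, 1, 1]] : Fin 13 → Fin 6 → ZMod 2) := by
    funext i
    fin_cases i <;> rfl
  rw [hv]
  refine conc_dual hι (by decide +kernel) ?_
  intro y hy
  refine ⟨![y 0 + y 12, y 1, y 3 + y 12, y 4, y 6, y 9, y 12], ?_⟩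
  have h0 := hy 0
  have h1 := hy 1
  have h2 := hy 2
  have h3 := hy 3
  have h4 := hy 4
  have h5 := hy 5
  clear hy
  simp only [Fin.sum_univ_succ] at h0 h1 h2 h3 h4 h5
  have e8 : y 8 = y 1 + y 4 + y 6 := by
    apply eq_last_of_z4; simpa [add_assoc] using h0
  have e11 : y 11 = y 1 + y 4 + y 9 := by
    apply eq_last_of_z4; simpa [add_assoc] using h2
  have e2 : y 2 = y 0 + y 1 + y 12 := by
    apply eq_third_of_z4; simpa [add_assoc] using h4
  have e5 : y 5 = y 3 + y 4 + y 12 := by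
    apply eq_third_of_z4; simpa [add_assoc] using h5
  have e7 : y 7 = y 1 + y 2 + y 4 + y 5 + y 8 := by
    apply eq_fifth_of_z6; simpa [add_assoc] using h1
  have e10 : y 10 = y 1 + y 2 + y 4 + y 5 + y 11 := by
    apply eq_fifth_of_z6; simpa [add_assoc] using h3
  have d : ∀ a : ZMod 2, a + a = 0 := by decide
  intro i
  fin_cases i <;> simp [r13, Fin.sum_univ_seven, e7, e10, e2, e5, e8, e11] <;> grind

end Pool.Agent.H63.Sey
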