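import Pool.Agent.H63.Sey.DispB
import Pool.Agent.H63.Sey.FinB

/-!
# A row of type kappa* and a column (job SEY-I8)
-/

set_option autoImplicit false

namespace Pool.Agent.H63.Sey

universe u

variable {α : Type u} [DecidableEq α]

/-! ### minors given by a concrete matroid -/

lemma dD_not {M : BM α} {C D : Finset α} {n r : ℕ} {v : Fin n → Fin r → ZMod 2} {ι : Fin n → α}
    (hm : (M.con C).del D = conc v ι) (i : Fin n) : ι i ∈ M.E ∧ ι i ∉ C ∧ ι i ∉ D := by
  have h1 := congrArg LM.E hm
  rw [conc_E] at h1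
  have h2 : ι i ∈ ((M.con C).del D).E := by
    rw [h1]; exact Finset.mem_image_of_mem _ (Finset.mem_univ _)
  change ι i ∈ (M.E \ C) \ D at h2
  rw [Finset.mem_sdiff, Finset.mem_sdiff] at h2
  exact ⟨h2.1.1, h2.1.2, h2.2⟩

lemma dD_coord {M : BM α} {C D : Finset α} {n r : ℕ} {v : Fin n → Fin r → ZMod 2} {ι : Fin n → α}
    (hι : Function.Injective ι) (hm : (M.con C).del D = conc v ι)
    {x : α → ZMod 2} (hx : x ∈ M.D) (hC : ∀ b ∈ C, x b = 0) :
    ∃ φ : Fin r → ZMod 2, ∀ i, x (ι i) = ∑ j, φ j * v i j := by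
  have h1 : (fun a => if a ∈ D then 0 else x a) ∈ ((M.con C).del D).D := by
    rw [LM.mem_del]
    refine ⟨fun a ha => by simp [ha], x, ?_, fun a ha => by simp [ha]⟩
    rw [LM.mem_con]
    exact ⟨hx, hC⟩
  rw [hm, mem_conc hι] at h1
  obtain ⟨-, φ, hφ⟩ := h1
  refine ⟨φ, fun i => ?_⟩
  rw [← hφ i, if_neg (dD_not hm i).2.2]

lemma dD_cocycle {M : BM α} {C D : Finset α} {n r : ℕ} {v : Fin n → Fin r → ZMod 2} {ι : Fin n → α}
    (hι : Function.Injective ι) (hm : (M.con C).del D = conc v ι) (φ : Fin r → ZMod 2) :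
    ∃ x ∈ M.D, (∀ b ∈ C, x b = 0) ∧ ∀ i, x (ι i) = ∑ j, φ j * v i j := by
  have h1 : concMap v ι φ ∈ ((M.con C).del D).D := by
    rw [hm]
    exact ⟨φ, rfl⟩
  rw [LM.mem_del] at h1
  obtain ⟨-, y, hy, hy'⟩ := h1
  rw [LM.mem_con] at hy
  refine ⟨y, hy.1, hy.2, fun i => ?_⟩
  rw [← hy' _ (dD_not hm i).2.2, concMap_mem v hι]

lemma dD_out {M : BM α} {C D : Finset α} {n r : ℕ} {v : Fin n → Fin r → ZMod 2} {ι : Fin n → α}
    (hm : (M.con C).del D = conc v ι)
    {y : α → ZMod 2} (hy : y ∈ M.D) (hC : ∀ b ∈ C, y b = 0) {a : α} (ha : ∀ i, ι i ≠ a)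
    (haD : a ∉ D) : y a = 0 := by
  by_cases hE : a ∈ M.E
  · by_cases haC : a ∈ C
    · exact hC a haC
    · exfalso
      have h1 : a ∈ ((M.con C).del D).E := by
        change a ∈ (M.E \ C) \ D
        rw [Finset.mem_sdiff, Finset.mem_sdiff]
        exact ⟨⟨hE, haC⟩, haD⟩
      rw [hm, conc_E] at h1
      obtain ⟨i, -, hi⟩ := Finset.mem_image.1 h1
      exact ha i hi
  · exact M.supp y hy a hE

/-- the extension of a concrete minor by an element `c` which is a loop in the contraction of all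
its elements -/
lemma dD_col {M : BM α} {C D : Finset α} {n r : ℕ} {v : Fin n → Fin r → ZMod 2} {ι : Fin n → α}
    (hι : Function.Injective ι) (hm : (M.con C).del D = conc v ι) {c : α} (hc : c ∈ D)
    (hcC : c ∉ C) (hcE : c ∈ M.E)
    (hcl : ∀ y ∈ M.D, (∀ b ∈ C, y b = 0) → (∀ i, y (ι i) = 0) → y c = 0) :
    ∃ w : Fin r → ZMod 2,
      (∀ x ∈ M.D, (∀ b ∈ C, x b = 0) → ∀ φ : Fin r → ZMod 2,
        (∀ i, x (ι i) = ∑ j, φ j * v i j) → x c = ∑ j, φ j * w j) ∧
      (M.con C).del (D.erase c) = conc (snocv v w) (snocl ι c) ∧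
      Function.Injective (snocl ι c) := by
  obtain ⟨w, hw⟩ : ∃ w : Fin r → ZMod 2,
      ∀ x ∈ M.D, (∀ b ∈ C, x b = 0) → ∀ φ : Fin r → ZMod 2,
        (∀ i, x (ι i) = ∑ j, φ j * v i j) → x c = ∑ j, φ j * w j := by
    choose X hX1 hX2 hX3 using fun k : Fin r => dD_cocycle hι hm (Pi.single k 1)
    refine ⟨fun k => X k c, fun x hx hxC φ hφ => ?_⟩
    have hy : x - ∑ k, φ k • X k ∈ M.D :=
      M.D.sub_mem hx (M.D.sum_mem fun k _ => M.D.smul_mem _ (hX1 k))
    have h1 := hcl _ hy (by
      intro b hb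
      simp only [Pi.sub_apply, Finset.sum_apply, Pi.smul_apply, hX2 _ b hb, hxC b hb, smul_zero,
        Finset.sum_const_zero, sub_zero]) (by
      intro i
      have e : ∀ k, X k (ι i) = v i k := by
        intro k
        rw [hX3]
        simp [Pi.single_apply]
      simp only [Pi.sub_apply, Finset.sum_apply, Pi.smul_apply, smul_eq_mul, e, hφ i, sub_self])
    simp only [Pi.sub_apply, Finset.sum_apply, Pi.smul_apply, smul_eq_mul] at h1
    exact sub_eq_zero.1 h1
  have hcι : ∀ i, ι i ≠ c := fun i hi => (dD_not hm i).2.2 (hi ▸ hc)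
  have hinj : Function.Injective (snocl ι c) := by
    unfold snocl
    rw [Fin.snoc_injective_iff]
    refine ⟨hι, ?_⟩
    rintro ⟨i, hi⟩
    exact hcι i hi
  have hl : snocl ι c (Fin.last n) = c := Fin.snoc_last (α := fun _ => α) c ι
  have hk : ∀ k : Fin n, snocl ι c k.castSucc = ι k := fun k => by simp [snocl]
  have hvl : snocv v w (Fin.last n) = w := Fin.snoc_last (α := fun _ => Fin r → ZMod 2) w v
  have hvk : ∀ k : Fin n, snocv v w k.castSucc = v k := fun k => by simp [snocv]
  refine ⟨w, hw, ?_, hinj⟩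
  refine LM.D_ext _ ?_ fun x => ?_
  · change (M.E \ C) \ (D.erase c) = Finset.univ.image (snocl ι c)
    ext a
    simp only [Finset.mem_sdiff, Finset.mem_erase, Finset.mem_image, Finset.mem_univ, true_and]
    constructor
    · rintro ⟨⟨h1, h2⟩, h3⟩
      by_cases hac : a = c
      · exact ⟨Fin.last n, hl.trans hac.symm⟩
      · have h4 : a ∉ D := fun h5 => h3 ⟨hac, h5⟩
        have h5 : a ∈ ((M.con C).del D).E := by
          change a ∈ (M.E \ C) \ D
          rw [Finset.mem_sdiff, Finset.mem_sdiff]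
          exact ⟨⟨h1, h2⟩, h4⟩
        rw [hm, conc_E] at h5
        obtain ⟨i, -, hi⟩ := Finset.mem_image.1 h5
        exact ⟨i.castSucc, (hk i).trans hi⟩
    · rintro ⟨i, rfl⟩
      induction i using Fin.lastCases with
      | last => rw [hl]; exact ⟨⟨hcE, hcC⟩, fun h' => h'.1 rfl⟩
      | cast k => rw [hk]; exact ⟨⟨(dD_not hm k).1, (dD_not hm k).2.1⟩, fun h' => (dD_not hm k).2.2 h'.2⟩
  · rw [LM.mem_del, mem_conc hinj]
    constructor
    · rintro ⟨h1, y, hy, hxy⟩
      rw [LM.mem_con] at hy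
      obtain ⟨hyD, hyC⟩ := hy
      obtain ⟨φ, hφ⟩ := dD_coord hι hm hyD hyC
      refine ⟨?_, φ, ?_⟩
      · intro a ha
        have hai : ∀ i, snocl ι c i ≠ a := fun i hi =>
          ha (Finset.mem_image.2 ⟨i, Finset.mem_univ _, hi⟩)
        by_cases haD : a ∈ D.erase c
        · exact h1 a haD
        · rw [hxy a haD]
          have hac : a ≠ c := fun h' => hai (Fin.last n) (hl.trans h'.symm)
          refine dD_out hm hyD hyC (fun i hi => hai i.castSucc ((hk i).trans hi)) ?_
          exact fun h' => haD (Finset.mem_erase.2 ⟨hac, h'⟩)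
      · intro i
        induction i using Fin.lastCases with
        | last =>
          rw [hl, hvl, hxy c (fun h' => (Finset.mem_erase.1 h').1 rfl)]
          exact hw y hyD hyC φ hφ
        | cast k =>
          rw [hk, hvk, hxy (ι k) (fun h' => (dD_not hm k).2.2 (Finset.mem_erase.1 h').2)]
          exact hφ k
    · rintro ⟨h1, φ, hφ⟩
      obtain ⟨y, hyD, hyC, hy⟩ := dD_cocycle hι hm φ
      have hyc := hw y hyD hyC φ hy
      refine ⟨?_, y, (LM.mem_con M).2 ⟨hyD, hyC⟩, ?_⟩
      · intro a ha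
        apply h1
        intro h'
        obtain ⟨i, -, hi⟩ := Finset.mem_image.1 h'
        obtain ⟨ha1, ha2⟩ := Finset.mem_erase.1 ha
        induction i using Fin.lastCases with
        | last => exact ha1 (hi.symm.trans hl)
        | cast k =>
          rw [hk] at hi
          exact (dD_not hm k).2.2 (hi ▸ ha2)
      · intro a ha
        by_cases hac : a = c
        · rw [hac, hyc]
          have := hφ (Fin.last n)
          rwa [hl, hvl] at this
        · by_cases hai : ∃ i, ι i = a
          · obtain ⟨i, rfl⟩ := hai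
            have := hφ i.castSucc
            rw [hk, hvk] at this
            rw [this, hy i]
          · push Not at hai
            have haD : a ∉ D := fun h' => ha (Finset.mem_erase.2 ⟨hac, h'⟩)
            rw [dD_out hm hyD hyC hai haD]
            apply h1
            intro h'
            obtain ⟨i, -, hi⟩ := Finset.mem_image.1 h'
            induction i using Fin.lastCases with
            | last => exact hac (hi.symm.trans hl)
            | cast k => exact hai k ((hk k).symm.trans hi)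

/-! ### coordinates of `r13` -/

lemma dD_sum7 (φ : Fin 7 → ZMod 2) (i : Fin 12) :
    ∑ j, φ j * r13 i.castSucc j =
      ∑ j : Fin 6, φ j.castSucc * r12 i j + φ 6 * r13 i.castSucc 6 := by
  rw [Fin.sum_univ_castSucc]
  have h : ∀ j : Fin 6, r13 i.castSucc j.castSucc = r12 i j := by
    revert i; decide
  simp only [h]
  rfl

lemma dD_sumLast (φ : Fin 7 → ZMod 2) : ∑ j, φ j * r13 12 j = φ 6 := by
  rw [Fin.sum_univ_castSucc]
  have h : ∀ j : Fin 6, r13 12 j.castSucc = 0 := by decide
  have h' : r13 12 (Fin.last 6) = 1 := by decide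
  simp only [h, h', mul_zero, Finset.sum_const_zero, zero_add, mul_one]
  rfl

lemma dD_sumSnoc (φ : Fin 7 → ZMod 2) (w : Fin 6 → ZMod 2) (t : ZMod 2) :
    ∑ j, φ j * (Fin.snoc w t : Fin 7 → ZMod 2) j = ∑ j : Fin 6, φ j.castSucc * w j + φ 6 * t := by
  rw [Fin.sum_univ_castSucc]
  simp only [Fin.snoc_castSucc, Fin.snoc_last]
  rfl

/-- the row of type `kappa*` -/
lemma dD_row {M : BM α} {C D : Finset α} {ι : Fin 12 → α} (h : Disp M C D ι) {r : α}
    (hr : r ∈ C) (hrcol : IsCol M.dual D C (fun i => ι (i + 6)) r kap) :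
    (M.con (C.erase r)).del D = conc r13 (snocl ι r) ∧ Function.Injective (snocl ι r) := by
  have hd := h.dual
  obtain ⟨w, hw, he, hinj⟩ := hd.exists_col hr
  have hwk : w = kap := by
    funext k
    obtain ⟨x, hx, hxD, hxι⟩ := hd.exists_cocycle (Pi.single k 1)
    have h1 := hw x hx hxD _ hxι
    have h2 := hrcol.2 x hx hxD _ hxι
    rw [h1] at h2
    simpa [Pi.single_apply] using h2
  subst hwk
  have hinj' : Function.Injective (snocl ι r) := by
    unfold snocl
    rw [Fin.snoc_injective_iff]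
    refine ⟨h.inj, ?_⟩
    rintro ⟨i, hi⟩
    exact (h.dA_not i).2.1 (hi ▸ hr)
  refine ⟨?_, hinj'⟩
  have h1 := r13_dual hinj'
  rw [← he, LM.dual_del, LM.dual_con, LM.dual_dual] at h1
  rw [← h1, LM.con_del _ (h.disj.mono_left (Finset.erase_subset _ _))]

/-- (SEY-I8) Let the row `r ∈ C` be of type `kappa*` (its column in the dual display is `kap`) and
`c ∈ D`. Then `M/(C - r)\D = conc r13 (ι, r)` (by `r13_dual`), so `c` has a vector `w` in
`(ZMod 2)^7` whose first six coordinates are the vector of `c` in `M/C`. -/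
lemma exists_col13 {M : BM α} {C D : Finset α} {ι : Fin 12 → α} (h : Disp M C D ι) {r c : α}
    (hr : r ∈ C) (hrcol : IsCol M.dual D C (fun i => ι (i + 6)) r kap) {w : Fin 6 → ZMod 2}
    (hw : IsCol M C D ι c w) : ∃ t : ZMod 2,
      (M.con (C.erase r)).del (D.erase c) =
        conc (snocv r13 (Fin.snoc w t)) (snocl (snocl ι r) c) ∧
      Function.Injective (snocl (snocl ι r) c) := by
  obtain ⟨hm, hinj⟩ := dD_row h hr hrcol
  obtain ⟨hc, hw⟩ := hw
  have hcC : c ∉ C := fun h' => Finset.disjoint_left.1 h.disj h' hc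
  have hcE : c ∈ M.E := by
    rw [← h.union]; exact Finset.mem_union_right _ hc
  have hl : snocl ι r (Fin.last 12) = r := Fin.snoc_last (α := fun _ => α) r ι
  have hk : ∀ k : Fin 12, snocl ι r k.castSucc = ι k := fun k => by simp [snocl]
  have hvan : ∀ y : α → ZMod 2, (∀ b ∈ C.erase r, y b = 0) → y r = 0 → ∀ b ∈ C, y b = 0 := by
    intro y h1 h2 b hb
    by_cases hbr : b = r
    · rw [hbr]; exact h2
    · exact h1 b (Finset.mem_erase.2 ⟨hbr, hb⟩)
  have hcl : ∀ y ∈ M.D, (∀ b ∈ C.erase r, y b = 0) → (∀ i, y (snocl ι r i) = 0) → y c = 0 := by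
    intro y hy hyC hyι
    have h1 : y r = 0 := by
      have := hyι (Fin.last 12)
      rwa [hl] at this
    have h2 := hw y hy (hvan y hyC h1) 0 (fun i => by
      have := hyι i.castSucc
      rw [hk] at this
      rw [this]
      simp)
    rw [h2]
    simp
  obtain ⟨w7, hw7, he, hinj7⟩ := dD_col hinj hm hc
    (fun h' => hcC (Finset.mem_of_mem_erase h')) hcE hcl
  refine ⟨w7 6, ?_, hinj7⟩
  have hww : (Fin.snoc w (w7 6) : Fin 7 → ZMod 2) = w7 := by
    funext j
    induction j using Fin.lastCases with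
    | last => rw [Fin.snoc_last]; rfl
    | cast k =>
      rw [Fin.snoc_castSucc]
      obtain ⟨x, hx, hxC, hxι⟩ := dD_cocycle hinj hm (Pi.single k.castSucc 1)
      have h1 := hw7 x hx hxC _ hxι
      have h2 : x r = 0 := by
        have h3 := hxι (Fin.last 12)
        rw [hl] at h3
        rw [h3]
        have h4 := dD_sumLast (Pi.single k.castSucc 1)
        refine Eq.trans h4 ?_
        rw [Pi.single_apply, if_neg]
        intro h5
        have h6 := congrArg Fin.val h5
        have h7 := k.2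
        simp only [Fin.val_castSucc] at h6
        change 6 = k.1 at h6
        omega
      have h5 : x c = ∑ j, (Pi.single k 1 : Fin 6 → ZMod 2) j * w j := by
        refine hw x hx (hvan x hxC h2) _ fun i => ?_
        have h3 := hxι i.castSucc
        rw [hk, dD_sum7] at h3
        rw [h3]
        have h6 : (Pi.single k.castSucc 1 : Fin 7 → ZMod 2) 6 = 0 := by
          rw [Pi.single_apply, if_neg]
          intro h5
          have h6 := congrArg Fin.val h5
          have h7 := k.2
          simp only [Fin.val_castSucc] at h6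
          change 6 = k.1 at h6
          omega
        rw [h6, zero_mul, add_zero]
        refine Finset.sum_congr rfl fun j _ => ?_
        congr 1
        simp only [Pi.single_apply, Fin.castSucc_inj]
      rw [h1] at h5
      simpa [Pi.single_apply] using h5.symm
  rw [hww]
  exact he

/-- coordinates in the situation of `exists_col13` -/
lemma dD_coord13 {M : BM α} {C D : Finset α} {ι : Fin 12 → α} {r c : α} {w : Fin 6 → ZMod 2}
    {t : ZMod 2} (ht : (M.con (C.erase r)).del (D.erase c) =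
        conc (snocv r13 (Fin.snoc w t)) (snocl (snocl ι r) c))
    (hinj : Function.Injective (snocl (snocl ι r) c)) {x : α → ZMod 2} (hx : x ∈ M.D)
    (hC : ∀ b ∈ C.erase r, x b = 0) : ∃ φ : Fin 7 → ZMod 2,
      (∀ i : Fin 12, x (ι i) = ∑ j : Fin 6, φ j.castSucc * r12 i j + φ 6 * r13 i.castSucc 6) ∧
      x r = φ 6 ∧ x c = ∑ j : Fin 6, φ j.castSucc * w j + φ 6 * t := by
  obtain ⟨φ, hφ⟩ := dD_coord hinj ht hx hC
  refine ⟨φ, fun i => ?_, ?_, ?_⟩
  · have h1 := hφ i.castSucc.castSucc
    have e1 : snocl (snocl ι r) c i.castSucc.castSucc = ι i := by simp [snocl]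
    have e2 : snocv r13 (Fin.snoc w t) i.castSucc.castSucc = r13 i.castSucc := by simp [snocv]
    rw [e1, e2] at h1
    rw [h1, dD_sum7]
  · have h1 := hφ (Fin.last 12).castSucc
    have e1 : snocl (snocl ι r) c (Fin.last 12).castSucc = r := by
      unfold snocl
      rw [Fin.snoc_castSucc]
      exact Fin.snoc_last (α := fun _ => α) r ι
    have e2 : snocv r13 (Fin.snoc w t) (Fin.last 12).castSucc = r13 12 := by
      unfold snocv
      rw [Fin.snoc_castSucc]
      rfl
    rw [e1, e2] at h1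
    rw [h1, dD_sumLast]
  · have h1 := hφ (Fin.last 13)
    have e1 : snocl (snocl ι r) c (Fin.last 13) = c := by
      unfold snocl
      exact Fin.snoc_last (α := fun _ => α) c _
    have e2 : snocv r13 (Fin.snoc w t) (Fin.last 13) = Fin.snoc w t := by
      unfold snocv
      exact Fin.snoc_last (α := fun _ => Fin 7 → ZMod 2) _ _
    rw [e1, e2] at h1
    rw [h1, dD_sumSnoc]

/-- (SEY-I8) with the notation of `exists_col13`: if `r` in `X` forces `c` into `X` and `c` may be
put on the side of `Q`, then `t = 1` (the span of `Q` in `(ZMod 2)^7` has last coordinate zero) -/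
lemma t_eq_one {M : BM α} {C D : Finset α} {ι : Fin 12 → α} (h : Disp M C D ι) {r c : α}
    (hr : r ∈ C) {w : Fin 6 → ZMod 2} (hw : IsCol M C D ι c w) (hQ : InQ w) {t : ZMod 2}
    (ht : (M.con (C.erase r)).del (D.erase c) =
        conc (snocv r13 (Fin.snoc w t)) (snocl (snocl ι r) c))
    (hinj : Function.Injective (snocl (snocl ι r) c))
    (himp : Imp M (Pset ι) (Qset ι) C D r c) : t = 1 := by
  have h01 : ∀ t : ZMod 2, t ≠ 1 → t = 0 := by decide
  by_contra hne
  have ht0 := h01 t hne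
  rcases himp with ⟨-, -, h1⟩ | ⟨h1, -⟩
  · apply h1
    intro x hx hx0
    obtain ⟨φ, hφ1, -, hφ3⟩ := dD_coord13 ht hinj hx
      (fun b hb => hx0 b (Finset.mem_union_right _ hb))
    rw [hφ3, ht0, mul_zero, add_zero]
    apply hQ (fun j => φ j.castSucc)
    intro i hi
    have h2 := hφ1 i
    have h3 : x (ι i) = 0 := by
      apply hx0
      apply Finset.mem_union_left
      unfold Qset
      exact Finset.mem_image.2 ⟨i, Finset.mem_filter.2 ⟨Finset.mem_univ _, hi⟩, rfl⟩
    have h4 : ∀ i : Fin 12, 6 ≤ i → r13 i.castSucc 6 = 0 := by decide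
    rw [h3, h4 i hi, mul_zero, add_zero] at h2
    exact h2.symm
  · exact Finset.disjoint_left.1 h.disj hr h1

/-- (SEY-I8) if `w = 0` and `t = 1`, then `c` is parallel to `r` in `M/(C - r)` -/
lemma par_of_col13 {M : BM α} {C D : Finset α} {ι : Fin 12 → α} (h : Disp M C D ι) {r c : α}
    (hr : r ∈ C) (hc : c ∈ D)
    (ht : (M.con (C.erase r)).del (D.erase c) =
        conc (snocv r13 (Fin.snoc 0 1)) (snocl (snocl ι r) c))
    (hinj : Function.Injective (snocl (snocl ι r) c)) :
    ∀ x ∈ M.D, (∀ b ∈ C.erase r, x b = 0) → x c = x r := by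
  intro x hx hC
  obtain ⟨φ, -, hφ2, hφ3⟩ := dD_coord13 ht hinj hx hC
  rw [hφ2, hφ3]
  simp

end Pool.Agent.H63.Sey
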