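import Pool.Agent.H63.Sey.BrAssign
import Pool.Agent.H63.Sey.BrSwap
import Pool.Agent.H63.Sey.BrPivot
import Pool.Agent.H63.Sey.BrDual
import Pool.Agent.H63.Sey.DispC
import Pool.Agent.H63.Sey.DispD
import Pool.Agent.H63.Sey.FinC

/-!
# R12 is bridged only by separations (job SEY-I9)

`no_path`: by strong induction on `n`, for all regular `M` and all displays of `R12`, there is no
blocking path of length `n`. Suppose there is one; by induction it is a `MinPath`
(`minPath_of_forall_lt`), also in the dual (`MinPath.dual`, displays `Disp.dual`; after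
`Path.reverse` it is a path from `Pset` to `Qset` of the dual display, `pset_add`, `qset_add`).
* `n = 0`: if `f 0 ∈ D`, its vector `w` satisfies `Good12 w`, `¬ InP w`, `¬ InQ w`: impossible. If
  `f 0 ∈ C`, use the dual.
* (A) `n = m + 1`, `f 0 ∈ D`: `InP w`, `¬ InQ w`, so `f 0` is parallel to `ι i`, `i < 6`; `swap`
  (with `r12_clP`) and `Disp.update`, `pset_update` give a path of length `m`: contradiction.
* (B) `f n ∈ C`: (A) for the reversed path in the dual.
* (C) `f n ∈ D`: `InQ w`, `¬ InP w`; if `f n` is parallel to `ι i`, `6 ≤ i`: `swap` for the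
  reversed path (`P`, `Q` exchanged), then reverse again. So `w = kap`. Dually, if `f 0 ∈ C`, its
  column in the dual display is `kap`.
* (D) So `f 0 ∈ C` of type `kappa*`, `f n ∈ D` of type `kappa`. `f 1 ∈ D`. If `n = 1`: `t = 1`
  (`t_eq_one`) and `r13_kap_not_regular`. `n = 2` is impossible (`f 2 ∈ C`). If `n ≥ 3`: `f 1` is
  `XOK` and `YOK`, so `w = 0` or `w = lvec i`; `t = 1`; `w = lvec i` is excluded by
  `r13_lvec_not_regular`; for `w = 0` use `par_of_col13`, `pivot`, `Disp.pivot`: path of length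
  `n - 2`.
-/

set_option autoImplicit false

namespace Pool.Agent.H63.Sey

universe u

variable {α : Type u} [DecidableEq α]

/-- the induction hypothesis -/
def BridgeIH (α : Type u) [DecidableEq α] (n : ℕ) : Prop :=
  ∀ m < n, ∀ (M : BM α), Regular M → ∀ (C D : Finset α) (ι : Fin 12 → α),
    Disp M C D ι → ∀ f, ¬ Path M (Pset ι) (Qset ι) C D m f

lemma bridge_min {n : ℕ} (ih : BridgeIH α n) {M : BM α} (hreg : Regular M) {C D : Finset α}
    {ι : Fin 12 → α} (hd : Disp M C D ι) {f : ℕ → α}
    (hf : Path M (Pset ι) (Qset ι) C D n f) : MinPath M (Pset ι) (Qset ι) C D n f :=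
  minPath_of_forall_lt hf fun m hm g => ih m hm M hreg C D ι hd g

lemma bridge_dual {n : ℕ} (ih : BridgeIH α n) {M : BM α} (hreg : Regular M) {C D : Finset α}
    {ι : Fin 12 → α} (hd : Disp M C D ι) {f : ℕ → α}
    (hf : MinPath M (Pset ι) (Qset ι) C D n f) :
    MinPath M.dual (Pset fun i => ι (i + 6)) (Qset fun i => ι (i + 6)) D C n
      (fun i => f (n - i)) := by
  apply bridge_min ih (Regular.dual hreg) hd.dual
  rw [pset_add, qset_add]
  exact (hf.dual hd.setup).reverse

lemma bridge_par {M : BM α} {C D : Finset α} {ι : Fin 12 → α} (hd : Disp M C D ι) {c : α}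
    {i : Fin 12} (hw : IsCol M C D ι c (r12 i)) :
    ∀ x ∈ M.D, (∀ b ∈ C, x b = 0) → x c = x (ι i) := by
  intro x hx hC
  obtain ⟨φ, hφ⟩ := hd.exists_coord hx hC
  rw [hw.2 x hx hC φ hφ, hφ]

lemma bridge_A {m : ℕ} (ih : BridgeIH α (m + 1)) {M : BM α} (hreg : Regular M) {C D : Finset α}
    {ι : Fin 12 → α} (hd : Disp M C D ι) {f : ℕ → α}
    (hf : MinPath M (Pset ι) (Qset ι) C D (m + 1) f) : f 0 ∉ D := by
  intro h0
  obtain ⟨w, hw, hg⟩ := hd.exists_col_regular hreg h0
  have hQ : ¬ InQ w := fun h => hf.start ((hw.yok hd).2 h)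
  have hP : InP w := (good12_inP_or_inQ hg).resolve_right hQ
  obtain ⟨i, hi, rfl⟩ := good12_inP hg hP hQ
  have hpar := bridge_par hd hw
  have hc : ∀ j, f 0 ≠ ι j := fun j hj => (hd.dA_not j).2.2 (hj ▸ h0)
  have hp : ι i ∈ Pset ι := Finset.mem_image.2 ⟨i, by simpa using hi, rfl⟩
  have h1 := swap hd.setup hf h0 hp hpar (by
    intro x hx hx0
    obtain ⟨φ, hφ⟩ := hd.exists_coord hx fun b hb => hx0 b (Finset.mem_union_right _ hb)
    rw [hφ]
    apply r12_clP i hi
    intro k hk hki
    rw [← hφ]
    apply hx0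
    refine Finset.mem_union_left _ (Finset.mem_erase.2 ⟨fun h => hki (hd.inj h), ?_⟩)
    exact Finset.mem_image.2 ⟨k, by simpa using hk, rfl⟩)
  obtain ⟨e1, e2⟩ := pset_update hd.inj hi hc
  rw [← e1, ← e2] at h1
  exact ih m (Nat.lt_succ_self m) M hreg C _ _ (hd.update h0 i hpar) _ h1

lemma bridge_B {m : ℕ} (ih : BridgeIH α (m + 1)) {M : BM α} (hreg : Regular M) {C D : Finset α}
    {ι : Fin 12 → α} (hd : Disp M C D ι) {f : ℕ → α}
    (hf : MinPath M (Pset ι) (Qset ι) C D (m + 1) f) : f (m + 1) ∉ C := by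
  have h := bridge_A ih (Regular.dual hreg) hd.dual (bridge_dual ih hreg hd hf)
  simpa using h

lemma bridge_C {m : ℕ} (ih : BridgeIH α (m + 1)) {M : BM α} (hreg : Regular M) {C D : Finset α}
    {ι : Fin 12 → α} (hd : Disp M C D ι) {f : ℕ → α}
    (hf : MinPath M (Pset ι) (Qset ι) C D (m + 1) f) :
    IsCol M C D ι (f (m + 1)) kap ∧ InQ kap := by
  have hn : f (m + 1) ∈ D :=
    (Finset.mem_union.1 (hf.mem (m + 1) le_rfl)).resolve_left (bridge_B ih hreg hd hf)
  obtain ⟨w, hw, hg⟩ := hd.exists_col_regular hreg hn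
  have hP : ¬ InP w := fun h => hf.stop ((hw.xok hd).2 h)
  have hQ : InQ w := (good12_inP_or_inQ hg).resolve_left hP
  rcases good12_inQ hg hP hQ with ⟨i, hi, rfl⟩ | rfl
  · exfalso
    have hpar := bridge_par hd hw
    have hc : ∀ j, f (m + 1) ≠ ι j := fun j hj => (hd.dA_not j).2.2 (hj ▸ hn)
    have hp : ι i ∈ Qset ι := Finset.mem_image.2 ⟨i, by simpa using hi, rfl⟩
    have h1 := swap hd.setup.symm hf.reverse (p := ι i) (by simpa using hn) hp (by simpa using hpar)
      (by
        intro x hx hx0
        obtain ⟨φ, hφ⟩ := hd.exists_coord hx fun b hb => hx0 b (Finset.mem_union_right _ hb)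
        rw [hφ]
        apply r12_clQ i hi
        intro k hk hki
        rw [← hφ]
        apply hx0
        refine Finset.mem_union_left _ (Finset.mem_erase.2 ⟨fun h => hki (hd.inj h), ?_⟩)
        exact Finset.mem_image.2 ⟨k, by simpa using hk, rfl⟩)
    simp only [Nat.sub_zero] at h1
    obtain ⟨e1, e2⟩ := qset_update hd.inj hi hc
    rw [← e1, ← e2] at h1
    exact ih m (Nat.lt_succ_self m) M hreg C _ _ (hd.update hn i hpar) _ h1.reverse
  · exact ⟨hw, hQ⟩

theorem no_path (n : ℕ) : ∀ (M : BM α), Regular M → ∀ (C D : Finset α) (ι : Fin 12 → α),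
    Disp M C D ι → ∀ f, ¬ Path M (Pset ι) (Qset ι) C D n f := by
  induction n using Nat.strong_induction_on with
  | _ n ih =>
    intro M hreg C D ι hd f hf0
    have ih' : BridgeIH α n := ih
    have hf := bridge_min ih' hreg hd hf0
    have hdual := bridge_dual ih' hreg hd hf
    rcases n with _ | m
    · -- `n = 0`
      have key : ∀ (M : BM α), Regular M → ∀ (C D : Finset α) (ι : Fin 12 → α),
          Disp M C D ι → ∀ f : ℕ → α, Path M (Pset ι) (Qset ι) C D 0 f → f 0 ∉ D := by
        intro M hreg C D ι hd f hf h0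
        obtain ⟨w, hw, hg⟩ := hd.exists_col_regular hreg h0
        rcases good12_inP_or_inQ hg with h | h
        · exact hf.stop ((hw.xok hd).2 h)
        · exact hf.start ((hw.yok hd).2 h)
      rcases Finset.mem_union.1 (hf.mem 0 le_rfl) with h | h
      · exact key _ (Regular.dual hreg) _ _ _ hd.dual _ hdual.toPath h
      · exact key _ hreg _ _ _ hd _ hf.toPath h
    · have hA := bridge_A ih' hreg hd hf
      have h0 : f 0 ∈ C := (Finset.mem_union.1 (hf.mem 0 (Nat.zero_le _))).resolve_right hA
      obtain ⟨hcn, hQk⟩ := bridge_C ih' hreg hd hf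
      have hrcol : IsCol M.dual D C (fun i => ι (i + 6)) (f 0) kap := by
        have := (bridge_C ih' (Regular.dual hreg) hd.dual hdual).1
        simpa using this
      have hdis : ∀ a, a ∈ C → a ∉ D := fun a ha hb => Finset.disjoint_left.1 hd.disj ha hb
      have himp0 := hf.imp 0 (Nat.succ_pos m)
      have h1 : f 1 ∈ D := by
        rcases himp0 with h | h
        · exact h.2.1
        · exact absurd h.1 (hdis _ h0)
      have hminor : ((M.con (C.erase (f 0))).del (D.erase (f 1))).IsMinor M := by
        refine ⟨_, _, ?_, rfl⟩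
        rw [Finset.disjoint_left]
        intro a ha hb
        exact hdis a (Finset.mem_of_mem_erase ha) (Finset.mem_of_mem_erase hb)
      rcases m with _ | m
      · -- `n = 1`
        obtain ⟨t, ht, hinj⟩ := exists_col13 hd h0 hrcol hcn
        have ht1 := t_eq_one hd h0 hcn hQk ht hinj himp0
        subst ht1
        apply r13_kap_not_regular hinj
        rw [← ht]
        exact Regular.minor hreg hminor
      · have himp1 := hf.imp 1 (by omega)
        have h2 : f 2 ∈ C := by
          rcases himp1 with h | h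
          · exact absurd h1 (hdis _ h.1)
          · exact h.2.1
        rcases m with _ | m
        · exact hdis _ h2 hcn.1
        · obtain ⟨w, hw, hg⟩ := hd.exists_col_regular hreg h1
          have hP : InP w := (hw.xok hd).1 (hf.xok 1 (by omega))
          have hQ : InQ w := (hw.yok hd).1 (hf.yok 1 le_rfl (by omega))
          obtain ⟨t, ht, hinj⟩ := exists_col13 hd h0 hrcol hw
          have ht1 := t_eq_one hd h0 hw hQ ht hinj himp0
          subst ht1
          rcases inP_inQ hP hQ with rfl | ⟨i, rfl⟩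
          · have hpar := par_of_col13 hd h0 h1 ht hinj
            have h3 := pivot hd.setup hf h0 h1 hpar
            exact ih (m + 1) (by omega) M hreg _ _ ι (hd.pivot h0 h1 hpar) _ h3
          · apply r13_lvec_not_regular i hinj
            rw [← ht]
            exact Regular.minor hreg hminor

/-- a regular matroid with an `R12` minor has a 3-separation both sides of which have at least six
elements -/
theorem exists_sep_of_hasR12 {M : BM α} (hreg : Regular M) (h : HasR12 M) :
    ∃ X ⊆ M.E, 6 ≤ X.card ∧ 6 ≤ (M.E \ X).card ∧ M.lam X ≤ 2 := by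
  obtain ⟨C, D, ι, hd⟩ := exists_disp h
  obtain ⟨X, hX, hPX, hXQ, hl⟩ := exists_sep_of_no_path hd.setup
    fun n f => no_path n M hreg C D ι hd f
  refine ⟨X, hX, ?_, ?_, hl⟩
  · have h1 : (Pset ι).card = 6 := by
      unfold Pset
      rw [Finset.card_image_of_injective _ hd.inj]
      rfl
    rw [← h1]
    exact Finset.card_le_card hPX
  · have h1 : (Qset ι).card = 6 := by
      unfold Qset
      rw [Finset.card_image_of_injective _ hd.inj]
      rfl
    rw [← h1]
    apply Finset.card_le_card
    intro a ha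
    rw [Finset.mem_sdiff]
    refine ⟨?_, fun hb => Finset.disjoint_left.1 hXQ hb ha⟩
    rw [← hd.setup.union]
    simp [ha]

end Pool.Agent.H63.Sey
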