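import Pool.Agent.H63.Sey.Minor

/-!
# Connectivity function, 3-connectivity, Bixby's lemma (job SEY-B3)
-/

set_option autoImplicit false

namespace Pool.Agent.H63.Sey.LM

universe u

variable {K : Type} [Field K] {α : Type u} [DecidableEq α] (M : LM K α)

lemma lam_add (X : Finset α) : M.lam X + M.rk M.E = M.rk X + M.rk (M.E \ X) := by
  have h : M.rk M.E ≤ M.rk X + M.rk (M.E \ X) := by
    refine (M.rk_mono (Y := X ∪ (M.E \ X)) ?_).trans (M.rk_union_le _ _)
    intro a ha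
    by_cases h' : a ∈ X <;> simp [h', ha]
  unfold lam
  omega

lemma lam_compl (X : Finset α) (hX : X ⊆ M.E) : M.lam (M.E \ X) = M.lam X := by
  unfold lam
  rw [Finset.sdiff_sdiff_eq_self hX, Nat.add_comm]

lemma lam_dual (X : Finset α) (hX : X ⊆ M.E) : M.dual.lam X = M.lam X := by
  have h0 := M.lam_add X
  have h1 := M.dual.lam_add X
  have h2 := M.rk_dual X hX
  have h3 := M.rk_dual (M.E \ X) Finset.sdiff_subset
  have h4 := M.rk_dual M.E (Finset.Subset.refl _)
  rw [Finset.sdiff_sdiff_eq_self hX] at h3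
  rw [Finset.sdiff_self, M.rk_empty] at h4
  rw [M.dual_E] at h1
  have h5 : (M.E \ X).card + X.card = M.E.card := Finset.card_sdiff_add_card_eq_card hX
  omega

lemma lam_submod {X Y : Finset α} (hX : X ⊆ M.E) (hY : Y ⊆ M.E) :
    M.lam (X ∪ Y) + M.lam (X ∩ Y) ≤ M.lam X + M.lam Y := by
  have h1 := M.lam_add (X ∪ Y)
  have h2 := M.lam_add (X ∩ Y)
  have h3 := M.lam_add X
  have h4 := M.lam_add Y
  have h5 := M.rk_submod X Y
  have h6 := M.rk_submod (M.E \ X) (M.E \ Y)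
  have e1 : (M.E \ X) ∪ (M.E \ Y) = M.E \ (X ∩ Y) := by
    ext a; simp only [Finset.mem_union, Finset.mem_sdiff, Finset.mem_inter]; tauto
  have e2 : (M.E \ X) ∩ (M.E \ Y) = M.E \ (X ∪ Y) := by
    ext a; simp only [Finset.mem_union, Finset.mem_sdiff, Finset.mem_inter]; tauto
  rw [e1, e2] at h6
  omega

lemma lam_insert_le (X : Finset α) (a : α) : M.lam (insert a X) ≤ M.lam X + 1 := by
  have h1 := M.lam_add (insert a X)
  have h2 := M.lam_add X
  have h3 := M.rk_insert_le X a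
  have h4 : M.rk (M.E \ insert a X) ≤ M.rk (M.E \ X) :=
    M.rk_mono (Finset.sdiff_subset_sdiff (Finset.Subset.refl _) (Finset.subset_insert _ _))
  omega

lemma lam_le_insert (X : Finset α) (a : α) : M.lam X ≤ M.lam (insert a X) + 1 := by
  have h1 := M.lam_add (insert a X)
  have h2 := M.lam_add X
  have h3 : M.rk X ≤ M.rk (insert a X) := M.rk_mono (Finset.subset_insert _ _)
  have h4 : M.rk (M.E \ X) ≤ M.rk (insert a (M.E \ insert a X)) := by
    refine M.rk_mono ?_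
    intro b hb
    rw [Finset.mem_sdiff] at hb
    by_cases h' : b = a
    · simp [h']
    · simp [h', hb.1, hb.2]
  have h5 := M.rk_insert_le (M.E \ insert a X) a
  omega

lemma lam_le_card (X : Finset α) (hX : X ⊆ M.E) : M.lam X ≤ X.card := by
  have h1 := M.lam_add X
  have h2 := M.rk_le_card X
  have h3 := M.rk_le_E (M.E \ X)
  omega

lemma lam_del_le (X Y : Finset α) : (M.del Y).lam (X \ Y) ≤ M.lam X := by
  have h1 := (M.del Y).lam_add (X \ Y)
  have h2 := M.lam_add X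
  rw [M.rk_del, M.rk_del, M.rk_del, M.del_E] at h1
  have e1 : (X \ Y) \ Y = X \ Y := by
    ext a; simp only [Finset.mem_sdiff]; tauto
  have e2 : ((M.E \ Y) \ (X \ Y)) \ Y = (M.E \ X) \ Y := by
    ext a; simp only [Finset.mem_sdiff]; tauto
  have e3 : (M.E \ Y) \ Y = M.E \ Y := by
    ext a; simp only [Finset.mem_sdiff]; tauto
  rw [e1, e2, e3] at h1
  -- submodularity twice
  have h3 := M.rk_submod X ((X \ Y) ∪ ((M.E \ X) \ Y))
  have e4 : X ∪ ((X \ Y) ∪ ((M.E \ X) \ Y)) = X ∪ ((M.E \ X) \ Y) := by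
    ext a; simp only [Finset.mem_sdiff, Finset.mem_union]; tauto
  have e5 : X ∩ ((X \ Y) ∪ ((M.E \ X) \ Y)) = X \ Y := by
    ext a; simp only [Finset.mem_sdiff, Finset.mem_union, Finset.mem_inter]; tauto
  rw [e4, e5] at h3
  have h4 := M.rk_submod (M.E \ X) (X ∪ ((M.E \ X) \ Y))
  have h5 : M.rk M.E ≤ M.rk ((M.E \ X) ∪ (X ∪ ((M.E \ X) \ Y))) := by
    refine M.rk_mono ?_
    intro a ha
    simp only [Finset.mem_sdiff, Finset.mem_union]; tauto
  have h6 : M.rk ((M.E \ X) \ Y) ≤ M.rk ((M.E \ X) ∩ (X ∪ ((M.E \ X) \ Y))) := by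
    refine M.rk_mono ?_
    intro a ha
    simp only [Finset.mem_sdiff, Finset.mem_union, Finset.mem_inter] at ha ⊢; tauto
  have h7 : M.rk ((X \ Y) ∪ ((M.E \ X) \ Y)) ≤ M.rk (M.E \ Y) := by
    rw [← M.rk_inter_E]
    refine M.rk_mono ?_
    intro a ha
    simp only [Finset.mem_sdiff, Finset.mem_union, Finset.mem_inter] at ha ⊢; tauto
  omega

lemma lam_con_le (X Y : Finset α) : (M.con Y).lam (X \ Y) ≤ M.lam X := by
  have h1 := (M.con Y).lam_add (X \ Y)
  have h2 := M.lam_add X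
  rw [M.con_E] at h1
  have c1 := M.rk_con Y (X \ Y)
  have c2 := M.rk_con Y ((M.E \ Y) \ (X \ Y))
  have c3 := M.rk_con Y (M.E \ Y)
  have e1 : (X \ Y) ∪ Y = X ∪ Y := by
    ext a; simp only [Finset.mem_sdiff, Finset.mem_union]; tauto
  have e2 : ((M.E \ Y) \ (X \ Y)) ∪ Y = (M.E \ X) ∪ Y := by
    ext a; simp only [Finset.mem_sdiff, Finset.mem_union]; tauto
  have e3 : (M.E \ Y) ∪ Y = M.E ∪ Y := by
    ext a; simp only [Finset.mem_sdiff, Finset.mem_union]; tauto
  rw [e1] at c1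
  rw [e2] at c2
  rw [e3] at c3
  have h3 := M.rk_submod X Y
  have h4 := M.rk_submod (M.E \ X) Y
  have h5 : M.rk Y ≤ M.rk (X ∩ Y) + M.rk ((M.E \ X) ∩ Y) := by
    refine le_trans ?_ (M.rk_union_le _ _)
    rw [← M.rk_inter_E Y]
    refine M.rk_mono ?_
    intro a ha
    simp only [Finset.mem_sdiff, Finset.mem_union, Finset.mem_inter] at ha ⊢; tauto
  have h6 : M.rk M.E ≤ M.rk (M.E ∪ Y) := M.rk_mono Finset.subset_union_left
  omega

/-- deleting one element on the left side -/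
lemma lam_del_single {X : Finset α} {e : α} (hX : X ⊆ M.E) (he : e ∉ X) (heE : e ∈ M.E) :
    M.lam X ≤ (M.del {e}).lam X + 1 := by
  have h1 := (M.del {e}).lam_add X
  have h2 := M.lam_add X
  rw [M.rk_del, M.rk_del, M.rk_del, M.del_E] at h1
  have e1 : X \ {e} = X := by
    ext a; simp only [Finset.mem_sdiff, Finset.mem_singleton]
    refine ⟨fun h => h.1, fun h => ⟨h, ?_⟩⟩
    rintro rfl
    exact he h
  have e2 : ((M.E \ {e}) \ X) \ {e} = (M.E \ X) \ {e} := by
    ext a; simp only [Finset.mem_sdiff]; tauto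
  rw [e1, e2] at h1
  have h3 : M.rk (M.E \ X) ≤ M.rk (insert e ((M.E \ X) \ {e})) := by
    refine M.rk_mono ?_
    intro a ha
    simp only [Finset.mem_sdiff, Finset.mem_insert, Finset.mem_singleton] at ha ⊢; tauto
  have h4 := M.rk_insert_le ((M.E \ X) \ {e}) e
  have h5 := M.rk_le_E ((M.E \ {e}) \ {e})
  omega

lemma Conn3.dual {M : LM K α} (h : M.Conn3) : M.dual.Conn3 := by
  refine ⟨fun X hX h1 h2 => ?_, fun X hX h1 h2 => ?_⟩
  · rw [M.lam_dual X hX]
    exact h.1 X hX h1 h2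
  · rw [M.lam_dual X hX]
    exact h.2 X hX h1 h2

lemma I4c.dual {M : LM K α} (h : M.I4c) : M.dual.I4c := by
  refine ⟨h.1.dual, fun X hX h1 h2 => ?_⟩
  rw [M.lam_dual X hX]
  exact h.2 X hX h1 h2

end Pool.Agent.H63.Sey.LM
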