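import Pool.Agent.H63.Sey.FinC
import Pool.Agent.H63.Sey.Conn

/-!
# R10 has no 3-connected regular single element extension (job SEY-T2)
-/

set_option autoImplicit false

namespace Pool.Agent.H63.Sey

universe u

variable {α : Type u} [DecidableEq α]

/-- A matroid `M` with `M \ e = conc v ι`, `e` not a coloop, is `conc (snocv v w) (snocl ι e)` for
some `w`.

Proof. `e` is not a coloop: a vector of `M.D` vanishing outside `e` is zero. So for every `φ` there
is exactly one `y ∈ M.D` with `y (ι i) = ∑ j, φ j * v i j` for all `i` (existence: `concMap v ι φ`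
is in `(M.del {e}).D`, `mem_del`; uniqueness since `M.E = insert e (image ι)` and the difference
vanishes outside `e`); it depends linearly on `φ`. Let `w j = y e` for `φ = Pi.single j 1`; then
`y e = ∑ j, φ j * w j` by linearity. Conversely every `y ∈ M.D` restricts to an element of
`(M.del {e}).D`, so it is of this form. Use `mem_conc`. -/
theorem exists_snoc_of_del {n r : ℕ} {v : Fin n → Fin r → ZMod 2} {ι : Fin n → α}
    (hι : Function.Injective ι) {M : BM α} {e : α} (he : e ∈ M.E)
    (hdel : M.del {e} = conc v ι)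
    (hco : ∀ x ∈ M.D, (∀ a, a ≠ e → x a = 0) → x = 0) :
    Function.Injective (snocl ι e) ∧ ∃ w, M = conc (snocv v w) (snocl ι e) := by
  have hE : M.E \ {e} = Finset.univ.image ι := congrArg LM.E hdel
  have hιE : ∀ i, ι i ∈ M.E \ {e} := fun i => by
    rw [hE]
    exact Finset.mem_image_of_mem _ (Finset.mem_univ i)
  have hne : ∀ i, ι i ≠ e := fun i h => (Finset.mem_sdiff.1 (hιE i)).2 (Finset.mem_singleton.2 h)
  have s1 : ∀ i : Fin n, snocl ι e (Fin.castSucc i) = ι i := fun i => by
    unfold snocl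
    exact Fin.snoc_castSucc (α := fun _ => α) e ι i
  have s2 : snocl ι e (Fin.last n) = e := by
    unfold snocl
    exact Fin.snoc_last (α := fun _ => α) e ι
  have hinj : Function.Injective (snocl ι e) := by
    intro i
    refine Fin.lastCases ?_ (fun i => ?_) i
    · intro j
      refine Fin.lastCases ?_ (fun j => ?_) j
      · intro _
        rfl
      · intro h
        rw [s1, s2] at h
        exact absurd h.symm (hne j)
    · intro j
      refine Fin.lastCases ?_ (fun j => ?_) j
      · intro h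
        rw [s1, s2] at h
        exact absurd h (hne i)
      · intro h
        rw [s1, s1] at h
        rw [hι h]
  have hex : ∀ φ : Fin r → ZMod 2, ∃ y ∈ M.D, ∀ i, y (ι i) = ∑ j, φ j * v i j := by
    intro φ
    have h1 : concMap v ι φ ∈ (M.del {e}).D := by
      rw [hdel]
      exact ⟨φ, rfl⟩
    obtain ⟨-, y, hy, h2⟩ := M.mem_del.1 h1
    refine ⟨y, hy, fun i => ?_⟩
    rw [← h2 (ι i) (fun h => hne i (Finset.mem_singleton.1 h)), concMap_mem v hι]
  have hun : ∀ y ∈ M.D, ∀ z ∈ M.D, (∀ i, y (ι i) = z (ι i)) → y = z := by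
    intro y hy z hz hyz
    have h1 : y - z = 0 := by
      refine hco _ (M.D.sub_mem hy hz) fun a ha => ?_
      rw [Pi.sub_apply]
      by_cases haE : a ∈ M.E
      · have h2 : a ∈ Finset.univ.image ι := by
          rw [← hE]
          exact Finset.mem_sdiff.2 ⟨haE, fun h => ha (Finset.mem_singleton.1 h)⟩
        obtain ⟨i, -, rfl⟩ := Finset.mem_image.1 h2
        rw [hyz i, sub_self]
      · rw [M.supp y hy a haE, M.supp z hz a haE, sub_self]
    exact sub_eq_zero.1 h1
  choose Y hYD hY using hex
  obtain ⟨z, hz⟩ : ∃ z : (Fin r → ZMod 2) → α → ZMod 2,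
      ∀ φ, z φ = ∑ j, φ j • Y (Pi.single j 1) := ⟨_, fun _ => rfl⟩
  have hzD : ∀ φ, z φ ∈ M.D := by
    intro φ
    rw [hz]
    exact M.D.sum_mem fun j _ => M.D.smul_mem _ (hYD _)
  have hza : ∀ φ a, z φ a = ∑ j, φ j * Y (Pi.single j 1) a := by
    intro φ a
    rw [hz, Finset.sum_apply]
    exact Finset.sum_congr rfl fun j _ => by rw [Pi.smul_apply, smul_eq_mul]
  have hzι : ∀ φ i, z φ (ι i) = ∑ j, φ j * v i j := by
    intro φ i
    rw [hza]
    refine Finset.sum_congr rfl fun j _ => ?_
    rw [hY, Finset.sum_eq_single j]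
    · rw [Pi.single_eq_same, one_mul]
    · intro k _ hk
      rw [Pi.single_eq_of_ne hk, zero_mul]
    · intro h
      exact absurd (Finset.mem_univ _) h
  refine ⟨hinj, fun j => Y (Pi.single j 1) e, ?_⟩
  have t1 : ∀ (i : Fin n) j, snocv v (fun j => Y (Pi.single j 1) e) (Fin.castSucc i) j = v i j := by
    intro i j
    unfold snocv
    rw [Fin.snoc_castSucc]
  have t2 : ∀ j, snocv v (fun j => Y (Pi.single j 1) e) (Fin.last n) j =
      Y (Pi.single j 1) e := by
    intro j
    unfold snocv
    rw [Fin.snoc_last]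
  have hE' : M.E = Finset.univ.image (snocl ι e) := by
    ext a
    constructor
    · intro ha
      by_cases hae : a = e
      · rw [hae]
        exact Finset.mem_image.2 ⟨Fin.last n, Finset.mem_univ _, s2⟩
      · have h2 : a ∈ Finset.univ.image ι := by
          rw [← hE]
          exact Finset.mem_sdiff.2 ⟨ha, fun h => hae (Finset.mem_singleton.1 h)⟩
        obtain ⟨i, -, rfl⟩ := Finset.mem_image.1 h2
        exact Finset.mem_image.2 ⟨Fin.castSucc i, Finset.mem_univ _, s1 i⟩
    · intro ha
      obtain ⟨i, -, rfl⟩ := Finset.mem_image.1 ha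
      refine Fin.lastCases ?_ (fun i => ?_) i
      · rw [s2]; exact he
      · rw [s1]; exact (Finset.mem_sdiff.1 (hιE i)).1
  refine LM.D_ext M hE' fun x => ?_
  rw [mem_conc hinj]
  constructor
  · intro hx
    refine ⟨fun a ha => M.supp x hx a (by rw [hE']; exact ha), ?_⟩
    have h1 : (fun a => if a = e then 0 else x a) ∈ (M.del {e}).D := by
      refine M.mem_del.2 ⟨fun a ha => ?_, x, hx, fun a ha => ?_⟩
      · rw [Finset.mem_singleton] at ha
        exact if_pos ha
      · rw [Finset.mem_singleton] at ha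
        exact if_neg ha
    rw [hdel, mem_conc hι] at h1
    obtain ⟨-, φ, hφ⟩ := h1
    have h2 : x = z φ := by
      refine hun x hx _ (hzD φ) fun i => ?_
      rw [hzι, ← hφ i, if_neg (hne i)]
    refine ⟨φ, fun i => ?_⟩
    rw [h2]
    refine Fin.lastCases ?_ (fun i => ?_) i
    · rw [s2, hza]
      exact Finset.sum_congr rfl fun j _ => by rw [t2]
    · rw [s1, hzι]
      exact Finset.sum_congr rfl fun j _ => by rw [t1]
  · rintro ⟨h1, φ, h2⟩
    have h3 : x = z φ := by
      funext a
      by_cases ha : a ∈ M.E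
      · rw [hE'] at ha
        obtain ⟨i, -, rfl⟩ := Finset.mem_image.1 ha
        rw [h2]
        refine Fin.lastCases ?_ (fun i => ?_) i
        · rw [s2, hza]
          exact Finset.sum_congr rfl fun j _ => by rw [t2]
        · rw [s1, hzι]
          exact Finset.sum_congr rfl fun j _ => by rw [t1]
      · rw [h1 a (by rw [← hE']; exact ha), M.supp _ (hzD φ) a ha]
    rw [h3]
    exact hzD φ

/-- `3`-connectedness excludes loops, coloops and parallel pairs. Proof of the theorem: suppose
`M.del {e} = conc r10 ι`. `|M.E| = 11`. `e` is not a coloop: `lam {e} ≥ 1` (`Conn3.1`), i.e.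
`rk {e} + rk (E \ e) ≥ rk E + 1`; if `x ∈ M.D` is supported on `e`, `x e ≠ 0`, then
`rk E = rk (E \ e) + 1`, contradiction. By `exists_snoc_of_del`, `M = conc (snocv r10 w) _`;
`r10_extension`: `w = 0`, then `rk {e} = 0` so `lam {e} = 0`; or `w = r10 i`, then
`rk {e, ι i} ≤ 1`, so `lam {e, ι i} ≤ 1`, contradicting `Conn3.2` (`11 - 2 ≥ 2`). -/
theorem not_isR10_del {M : BM α} (hM : M.Conn3) (hreg : Regular M) {e : α} (he : e ∈ M.E) :
    ¬ IsR10 (M.del {e}) := by
  rintro ⟨ι, hι, hdel⟩
  have hE : M.E \ {e} = Finset.univ.image ι := congrArg LM.E hdel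
  have hιE : ∀ i, ι i ∈ M.E \ {e} := fun i => by
    rw [hE]
    exact Finset.mem_image_of_mem _ (Finset.mem_univ i)
  have hne : ∀ i, ι i ≠ e := fun i h => (Finset.mem_sdiff.1 (hιE i)).2 (Finset.mem_singleton.2 h)
  have hc1 : (M.E \ {e}).card = 10 := by
    rw [hE, Finset.card_image_of_injective _ hι, Finset.card_univ, Fintype.card_fin]
  have hlam : 1 ≤ M.lam {e} := by
    refine hM.1 {e} (Finset.singleton_subset_iff.2 he) (Finset.singleton_nonempty e) ?_
    rw [← Finset.card_pos, hc1]
    omega
  have h1 := M.lam_add {e}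
  have h2 := M.rk_le_card {e}
  rw [Finset.card_singleton] at h2
  have hco : ∀ x ∈ M.D, (∀ a, a ≠ e → x a = 0) → x = 0 := by
    intro x hx h3
    have h4 : M.InCl (M.E \ {e}) e :=
      M.inCl_of_rk_le (Y := M.E) Finset.sdiff_subset (by omega) he
    funext a
    by_cases hae : a = e
    · rw [hae]
      exact h4 x hx fun b hb => h3 b fun h => (Finset.mem_sdiff.1 hb).2 (Finset.mem_singleton.2 h)
    · exact h3 a hae
  obtain ⟨hinj, w, hMw⟩ := exists_snoc_of_del hι he hdel hco
  have s1 : ∀ i : Fin 10, snocl ι e (Fin.castSucc i) = ι i := fun i => by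
    unfold snocl
    exact Fin.snoc_castSucc (α := fun _ => α) e ι i
  have s2 : snocl ι e (Fin.last 10) = e := by
    unfold snocl
    exact Fin.snoc_last (α := fun _ => α) e ι
  have t1 : ∀ i : Fin 10, snocv r10 w (Fin.castSucc i) = r10 i := by
    intro i
    unfold snocv
    exact Fin.snoc_castSucc (α := fun _ => Fin 5 → ZMod 2) w r10 i
  have t2 : snocv r10 w (Fin.last 10) = w := by
    unfold snocv
    exact Fin.snoc_last (α := fun _ => Fin 5 → ZMod 2) w r10
  have hreg' : Regular (conc (snocv r10 w) (snocl ι e)) := by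
    rw [← hMw]
    exact hreg
  have hmem : ∀ x ∈ M.D, ∃ φ : Fin 5 → ZMod 2, x e = ∑ j, φ j * w j ∧
      ∀ i, x (ι i) = ∑ j, φ j * r10 i j := by
    intro x hx
    rw [hMw, mem_conc hinj] at hx
    obtain ⟨-, φ, hφ⟩ := hx
    refine ⟨φ, ?_, fun i => ?_⟩
    · have h3 := hφ (Fin.last 10)
      rw [s2, t2] at h3
      exact h3
    · have h3 := hφ (Fin.castSucc i)
      rw [s1, t1] at h3
      exact h3
  rcases r10_extension hinj hreg' with hw | ⟨i, hw⟩
  · have h3 : M.InCl ∅ e := by
      intro x hx _
      obtain ⟨φ, h4, -⟩ := hmem x hx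
      rw [h4, hw]
      simp
    rw [M.inCl_iff_rk, M.rk_empty] at h3
    have h4 : M.rk {e} = 0 := h3
    have h5 := M.rk_le_E (M.E \ {e})
    omega
  · have h3 : M.InCl {ι i} e := by
      intro x hx h5
      obtain ⟨φ, h4, h6⟩ := hmem x hx
      rw [h4, hw, ← h6 i]
      exact h5 (ι i) (Finset.mem_singleton_self _)
    rw [M.inCl_iff_rk] at h3
    have h4 := M.rk_le_card {ι i}
    rw [Finset.card_singleton] at h4
    have hX : {e, ι i} ⊆ M.E := by
      intro a ha
      rw [Finset.mem_insert, Finset.mem_singleton] at ha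
      rcases ha with rfl | rfl
      · exact he
      · exact (Finset.mem_sdiff.1 (hιE i)).1
    have hXc : ({e, ι i} : Finset α).card = 2 := Finset.card_pair (hne i).symm
    have h5 := Finset.card_sdiff_add_card_eq_card hX
    have h6 := Finset.card_sdiff_add_card_eq_card (Finset.singleton_subset_iff.2 he)
    rw [Finset.card_singleton, hc1] at h6
    have h7 := hM.2 {e, ι i} hX (by omega) (by omega)
    have h8 := M.lam_add {e, ι i}
    have h9 := M.rk_le_E (M.E \ {e, ι i})
    omega

/-- from `not_isR10_del` for `M.dual` (`dual_con`, `isR10_dual`, `Conn3.dual`, `Regular.dual`) -/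
theorem not_isR10_con {M : BM α} (hM : M.Conn3) (hreg : Regular M) {e : α} (he : e ∈ M.E) :
    ¬ IsR10 (M.con {e}) := by
  intro h
  have h1 := isR10_dual h
  rw [LM.dual_con] at h1
  exact not_isR10_del hM.dual hreg.dual (M := M.dual) he h1

end Pool.Agent.H63.Sey
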