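import Pool.Agent.H63.Sey.FinalDef
import Pool.Agent.H87.Sey.Stars

/-!
# Series pairs and cosimplification (job SEY-T3)

For `X ⊆ L.E`: `r* X + r E = |X| + r (E \ X)` (`LM.rk_dual`), so
`lam X = r X + r* X - |X|` in the form `L.lam X + X.card = L.rk X + L.dual.rk X`.
-/

set_option autoImplicit false

namespace Pool.Agent.H63.Sey

open Pool.Agent.H87.Sey

universe u

variable {α : Type u} [DecidableEq α]

/-- from `lam_add` and `rk_dual` -/
lemma LM.lam_add_card (L : BM α) {X : Finset α} (hX : X ⊆ L.E) :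
    L.lam X + X.card = L.rk X + L.dual.rk X := by
  have h1 := L.lam_add X
  have h2 := L.rk_dual X hX
  omega

/-- If `L` is not `3`-connected, `X` a `2`-separation, then by `sep` `X` or its complement has two
elements, and it has rank `2` and dual rank `≤ 1`. -/
lemma NearC3.exists_series {L : BM α} (h : NearC3 L) (hL : ¬ L.Conn3) :
    ∃ a b, a ≠ b ∧ a ∈ L.E ∧ b ∈ L.E ∧ L.dual.rk {a, b} ≤ 1 := by
  have key : ∀ X ⊆ L.E, X.card = 2 → L.lam X ≤ 1 →
      ∃ a b, a ≠ b ∧ a ∈ L.E ∧ b ∈ L.E ∧ L.dual.rk {a, b} ≤ 1 := by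
    intro X hX h2 hl
    have h1 := L.lam_add_card hX
    have h3 := h.pair X hX h2
    obtain ⟨a, b, hab, rfl⟩ := Finset.card_eq_two.1 h2
    refine ⟨a, b, hab, hX (by simp), hX (by simp), ?_⟩
    omega
  unfold LM.Conn3 at hL
  rw [not_and] at hL
  have h1 := hL h.conn
  push Not at h1
  obtain ⟨X, hX, hc1, hc2, hl⟩ := h1
  by_cases h2 : X.card = 2
  · exact key X hX h2 (by omega)
  · by_cases h3 : (L.E \ X).card = 2
    · refine key (L.E \ X) Finset.sdiff_subset h3 ?_
      rw [L.lam_compl X hX]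
      omega
    · have := h.sep X hX (by omega) (by omega)
      omega

/-- A series pair is a cocycle: `a` and `b` are not loops of `L.dual` (`lam {a} ≥ 1`, and
`L.dual.rk {a} ≥ L.dual.lam {a} = lam {a}`), so `y a = y b` for all `y ∈ L.dual.D`
(over `ZMod 2`, `rk {a, b} ≤ 1`); so the vector is orthogonal to `L.dual.D` (`dual_dual`,
`mem_dual`). -/
lemma series_mem {L : BM α} (hc : ∀ X ⊆ L.E, X.Nonempty → (L.E \ X).Nonempty → 1 ≤ L.lam X)
    {a b : α} (hab : a ≠ b) (ha : a ∈ L.E) (hb : b ∈ L.E) (hs : L.dual.rk {a, b} ≤ 1) :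
    (fun c => if c = a ∨ c = b then (1 : ZMod 2) else 0) ∈ L.D ∧
      ∀ y ∈ L.dual.D, y a = y b := by
  have key : ∀ c d : α, c ≠ d → c ∈ L.E → d ∈ L.E → L.dual.rk {c, d} ≤ 1 →
      L.dual.InCl {c} d := by
    intro c d hcd hcE hdE hrk
    have h1 := hc {c} (Finset.singleton_subset_iff.2 hcE) (Finset.singleton_nonempty c)
      ⟨d, Finset.mem_sdiff.2 ⟨hdE, fun h => hcd (Finset.mem_singleton.1 h).symm⟩⟩
    have h2 := L.lam_add_card (Finset.singleton_subset_iff.2 hcE)
    have h3 := L.rk_le_card {c}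
    rw [Finset.card_singleton] at h2 h3
    refine L.dual.inCl_of_rk_le (X := {c}) (Y := {c, d}) (by simp) (by omega) (by simp)
  have h1 := key a b hab ha hb hs
  have h2 := key b a hab.symm hb ha (by rw [Finset.pair_comm]; exact hs)
  have h3 : ∀ y ∈ L.dual.D, y a = y b := by
    intro y hy
    have e1 : y a = 0 → y b = 0 := fun h => h1 y hy (by
      intro c hc
      rw [Finset.mem_singleton.1 hc]
      exact h)
    have e2 : y b = 0 → y a = 0 := fun h => h2 y hy (by
      intro c hc
      rw [Finset.mem_singleton.1 hc]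
      exact h)
    have e3 : ∀ u v : ZMod 2, (u = 0 → v = 0) → (v = 0 → u = 0) → u = v := by decide
    exact e3 _ _ e1 e2
  refine ⟨?_, h3⟩
  rw [← L.dual_dual, LM.mem_dual]
  refine ⟨fun c hcE => ?_, fun y hy => ?_⟩
  · rw [if_neg]
    rintro (rfl | rfl)
    · exact hcE ha
    · exact hcE hb
  · have h4 : ∑ c ∈ L.dual.E, y c * (if c = a ∨ c = b then (1 : ZMod 2) else 0) =
        ∑ c ∈ ({a, b} : Finset α), y c := by
      have h5 : ∀ c ∈ L.dual.E, y c * (if c = a ∨ c = b then (1 : ZMod 2) else 0) =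
          if c ∈ ({a, b} : Finset α) then y c else 0 := by
        intro c _
        by_cases h : c = a ∨ c = b
        · rw [if_pos h, if_pos (by simpa using h), mul_one]
        · rw [if_neg h, if_neg (by simpa using h), mul_zero]
      rw [Finset.sum_congr rfl h5, ← Finset.sum_filter]
      refine Finset.sum_congr ?_ fun _ _ => rfl
      ext c
      rw [Finset.mem_filter]
      constructor
      · exact fun h => h.2
      · intro h
        refine ⟨?_, h⟩
        rcases Finset.mem_insert.1 h with rfl | h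
        · exact ha
        · rw [Finset.mem_singleton.1 h]
          exact hb
    rw [h4, Finset.sum_pair hab, h3 y hy]
    exact CharTwo.add_self_eq_zero _

/-- `graphic_of_series` -/
lemma graphic_of_series' {L : BM α}
    (hc : ∀ X ⊆ L.E, X.Nonempty → (L.E \ X).Nonempty → 1 ≤ L.lam X)
    {a b : α} (hab : a ≠ b) (ha : a ∈ L.E) (hb : b ∈ L.E) (hs : L.dual.rk {a, b} ≤ 1)
    (h : Graphic (L.con {a})) : Graphic L :=
  graphic_of_series hab ha hb (series_mem hc hab ha hb hs).1 h

/-- `graphic_of_parallel` for `L.dual`, `L.dual.del {a} = (L.con {a}).dual` (`dual_con`) -/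
lemma cographic_of_series' {L : BM α}
    (hc : ∀ X ⊆ L.E, X.Nonempty → (L.E \ X).Nonempty → 1 ≤ L.lam X)
    {a b : α} (hab : a ≠ b) (ha : a ∈ L.E) (hb : b ∈ L.E) (hs : L.dual.rk {a, b} ≤ 1)
    (h : Cographic (L.con {a})) : Cographic L := by
  unfold Cographic at h ⊢
  rw [L.dual_con] at h
  exact graphic_of_parallel hab hb (series_mem hc hab ha hb hs).2 h

/-- Contracting an element of a series pair. `N = L / a`.
* `r_N Z = r (Z + a) - r {a}`, `r {a} = 1`.
* (lam) for `Z ⊆ L.E \ {a, b}`: `lam_N Z = lam_L Z`. Indeed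
  `lam_N Z = (r (Z + a) - 1) + (r (E \ Z) - 1) - (r E - 1)`, so the claim is `r (Z + a) = r Z + 1`:
  `a` is not in the closure of `E \ {a, b}` since the cocycle `{a, b}` (`series_mem`) vanishes
  there and not at `a`. For `Z ⊆ N.E` containing `b` use the complement (`lam_compl`).
* conn: immediate from (lam) (`Z` or its complement avoids `b`).
* sep: let `Z ⊆ N.E` with `|Z|, |N.E \ Z| ≥ 3`, `b ∉ Z` by symmetry (`lam_compl`): `lam_N Z = lam_L Z`
  and `|L.E \ Z| ≥ 4`, so `≥ 2`.
* pair: let `B = {x, y} ⊆ N.E`, `r_N B ≤ 1`, i.e. `r {a, x, y} ≤ 2`. If `b ∉ B`: `r {x, y} = 2` and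
  `r ({x, y} + a) = 3` as in (lam). If `b ∈ B`, `X = {a, b, x}` has `r X ≤ 2`, and
  `r* X ≤ r* {a, b} + 1 ≤ 2`, so `lam X ≤ 1` (`lam_add_card`), `|X| = 3`,
  `|L.E \ X| ≥ 3`: contradiction with `sep`. -/
theorem NearC3.con {L : BM α} (h : NearC3 L) (h6 : 6 ≤ L.E.card) {a b : α} (hab : a ≠ b)
    (ha : a ∈ L.E) (hb : b ∈ L.E) (hs : L.dual.rk {a, b} ≤ 1) : NearC3 (L.con {a}) := by
  obtain ⟨hx, -⟩ := series_mem h.conn hab ha hb hs
  have hra : L.rk {a} = 1 := by
    have h1 := h.pair {a, b} (by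
      intro c hc
      rcases Finset.mem_insert.1 hc with rfl | hc
      · exact ha
      · rw [Finset.mem_singleton.1 hc]
        exact hb) (Finset.card_pair hab)
    have h2 := L.rk_insert_le {a} b
    have h3 := L.rk_le_card {a}
    rw [Finset.card_singleton] at h3
    rw [Finset.pair_comm] at h1
    omega
  -- `a` is not in the closure of a set avoiding `a` and `b`
  have hkey : ∀ Z : Finset α, a ∉ Z → b ∉ Z → L.rk (Z ∪ {a}) = L.rk Z + 1 := by
    intro Z haZ hbZ
    have h1 := L.rk_insert_le Z a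
    have h2 : L.rk Z ≤ L.rk (insert a Z) := L.rk_mono (Finset.subset_insert a Z)
    have h3 : L.rk (insert a Z) ≠ L.rk Z := by
      intro h3
      have h4 := L.inCl_iff_rk.2 h3 _ hx (by
        intro c hc
        rw [if_neg]
        rintro (rfl | rfl)
        · exact haZ hc
        · exact hbZ hc)
      rw [if_pos (Or.inl rfl)] at h4
      exact one_ne_zero h4
    have h5 : Z ∪ {a} = insert a Z := by
      rw [Finset.union_comm, Finset.insert_eq]
    rw [h5]
    omega
  have hrk : ∀ Z : Finset α, a ∉ Z → b ∉ Z → (L.con {a}).rk Z = L.rk Z := by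
    intro Z haZ hbZ
    have h1 := L.rk_con {a} Z
    have h2 := hkey Z haZ hbZ
    omega
  have hlam : ∀ Z ⊆ L.E, a ∉ Z → b ∉ Z → (L.con {a}).lam Z = L.lam Z := by
    intro Z hZ haZ hbZ
    have h1 := (L.con {a}).lam_add Z
    have h2 := L.lam_add Z
    have h3 := L.rk_con {a} (L.con {a}).E
    have h4 := L.rk_con {a} ((L.con {a}).E \ Z)
    have e1 : (L.con {a}).E ∪ {a} = L.E := by
      ext c
      simp only [LM.con_E, Finset.mem_union, Finset.mem_sdiff, Finset.mem_singleton]
      constructor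
      · rintro (⟨hc, -⟩ | rfl)
        · exact hc
        · exact ha
      · intro hc
        by_cases hca : c = a
        · exact Or.inr hca
        · exact Or.inl ⟨hc, hca⟩
    have e2 : ((L.con {a}).E \ Z) ∪ {a} = L.E \ Z := by
      ext c
      simp only [LM.con_E, Finset.mem_union, Finset.mem_sdiff, Finset.mem_singleton]
      constructor
      · rintro (⟨⟨hc, -⟩, hc'⟩ | rfl)
        · exact ⟨hc, hc'⟩
        · exact ⟨ha, haZ⟩
      · rintro ⟨hc, hc'⟩
        by_cases hca : c = a
        · exact Or.inr hca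
        · exact Or.inl ⟨⟨hc, hca⟩, hc'⟩
    rw [e1] at h3
    rw [e2] at h4
    have h5 := hrk Z haZ hbZ
    omega
  have hEsub : (L.con {a}).E ⊆ L.E := by
    rw [LM.con_E]
    exact Finset.sdiff_subset
  have hEa : a ∉ (L.con {a}).E := by
    rw [LM.con_E]
    simp
  -- reduction to sets avoiding `b`
  have hred : ∀ Z ⊆ (L.con {a}).E, ∃ Y ⊆ (L.con {a}).E, b ∉ Y ∧ (Y = Z ∨ Y = (L.con {a}).E \ Z) ∧
      (L.con {a}).lam Z = L.lam Y := by
    intro Z hZ
    by_cases hbZ : b ∈ Z
    · refine ⟨(L.con {a}).E \ Z, Finset.sdiff_subset, fun h => (Finset.mem_sdiff.1 h).2 hbZ,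
        Or.inr rfl, ?_⟩
      rw [← (L.con {a}).lam_compl Z hZ]
      exact hlam _ (Finset.sdiff_subset.trans hEsub) (fun h => hEa (Finset.mem_sdiff.1 h).1)
        fun h => (Finset.mem_sdiff.1 h).2 hbZ
    · exact ⟨Z, hZ, hbZ, Or.inl rfl, hlam _ (hZ.trans hEsub) (fun h => hEa (hZ h)) hbZ⟩
  refine ⟨?_, ?_, ?_⟩
  · intro Z hZ h1 h2
    obtain ⟨Y, hY, hbY, hYZ, hl⟩ := hred Z hZ
    rw [hl]
    refine h.conn Y (hY.trans hEsub) ?_ ⟨a, Finset.mem_sdiff.2 ⟨ha, fun h => hEa (hY h)⟩⟩
    rcases hYZ with rfl | rfl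
    · exact h1
    · exact h2
  · intro B hB h2
    by_cases hbB : b ∈ B
    · by_contra hne
      have h3 := (L.con {a}).rk_le_card B
      have h4 := L.rk_con {a} B
      have haB : a ∉ B := fun h => hEa (hB h)
      have hcard : (B ∪ {a}).card = 3 := by
        rw [Finset.card_union_of_disjoint (by simpa using haB), h2, Finset.card_singleton]
      have hsub : B ∪ {a} ⊆ L.E := by
        intro c hc
        rcases Finset.mem_union.1 hc with hc | hc
        · exact hEsub (hB hc)
        · rw [Finset.mem_singleton.1 hc]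
          exact ha
      have h5 : L.dual.rk (B ∪ {a}) ≤ 2 := by
        obtain ⟨x, y, hxy, rfl⟩ := Finset.card_eq_two.1 h2
        have h6 : ∀ c : α, L.dual.rk (insert c {a, b}) ≤ 2 := by
          intro c
          have := L.dual.rk_insert_le {a, b} c
          omega
        rcases Finset.mem_insert.1 hbB with rfl | hb'
        · have e : ({b, y} : Finset α) ∪ {a} = insert y {a, b} := by
            ext c
            simp only [Finset.mem_union, Finset.mem_insert, Finset.mem_singleton]
            tauto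
          rw [e]
          exact h6 y
        · have hb'' := Finset.mem_singleton.1 hb'
          subst hb''
          have e : ({x, b} : Finset α) ∪ {a} = insert x {a, b} := by
            ext c
            simp only [Finset.mem_union, Finset.mem_insert, Finset.mem_singleton]
            tauto
          rw [e]
          exact h6 x
      have h7 := L.lam_add_card hsub
      have h8 : (L.E \ (B ∪ {a})).card = L.E.card - 3 := by
        rw [Finset.card_sdiff_of_subset hsub, hcard]
      have h9 := h.sep (B ∪ {a}) hsub (by omega) (by omega)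
      omega
    · rw [hrk B (fun h => hEa (hB h)) hbB]
      exact h.pair B (hB.trans hEsub) h2
  · intro Z hZ h1 h2
    obtain ⟨Y, hY, hbY, hYZ, hl⟩ := hred Z hZ
    rw [hl]
    have h3 : 3 ≤ Y.card := by
      rcases hYZ with rfl | rfl
      · exact h1
      · exact h2
    have h4 : 3 ≤ ((L.con {a}).E \ Y).card := by
      rcases hYZ with rfl | rfl
      · exact h2
      · rw [Finset.sdiff_sdiff_eq_self hZ]
        exact h1
    exact h.sep Y (hY.trans hEsub) h3 (h4.trans (Finset.card_le_card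
      (Finset.sdiff_subset_sdiff hEsub (Finset.Subset.refl _))))

/-- Induction on `|L.E|`. If `|L.E| ≤ 8` use `hsmall`. If `L.Conn3` use `hmin`. Otherwise
`exists_series` gives `a`, `b`; the induction hypothesis for `L.con {a}` (`NearC3.con`,
`Regular.minor`, `isMinor_con`): graphic, cographic: `graphic_of_series'`, `cographic_of_series'`;
in the other two cases `HasR10 (L.con {a})`. -/
theorem cosimp {L : BM α} (h : NearC3 L) (hreg : Regular L)
    (hsmall : ∀ N : BM α, Regular N → N.E.card ≤ 8 → Graphic N)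
    (hmin : ∀ N : BM α, N.IsMinor L → N.Conn3 → Graphic N ∨ Cographic N ∨ IsR10 N) :
    Graphic L ∨ Cographic L ∨ IsR10 L ∨ ∃ a b, a ≠ b ∧ a ∈ L.E ∧ b ∈ L.E ∧
      L.dual.rk {a, b} ≤ 1 ∧ HasR10 (L.con {a}) := by
  suffices H : ∀ (n : ℕ) (L : BM α), L.E.card = n → NearC3 L → Regular L →
      (∀ N : BM α, N.IsMinor L → N.Conn3 → Graphic N ∨ Cographic N ∨ IsR10 N) →
      Graphic L ∨ Cographic L ∨ IsR10 L ∨ ∃ a b, a ≠ b ∧ a ∈ L.E ∧ b ∈ L.E ∧
        L.dual.rk {a, b} ≤ 1 ∧ HasR10 (L.con {a}) from H _ L rfl h hreg hmin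
  intro n
  induction n using Nat.strong_induction_on with
  | _ n ih =>
    intro L hn h hreg hmin
    by_cases h8 : L.E.card ≤ 8
    · exact Or.inl (hsmall L hreg h8)
    · by_cases h3 : L.Conn3
      · rcases hmin L (LM.IsMinor.refl L) h3 with h | h | h
        · exact Or.inl h
        · exact Or.inr (Or.inl h)
        · exact Or.inr (Or.inr (Or.inl h))
      · obtain ⟨a, b, hab, ha, hb, hs⟩ := h.exists_series h3
        have hN := h.con (by omega) hab ha hb hs
        have hcard : (L.con {a}).E.card < n := by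
          rw [LM.con_E, Finset.card_sdiff_of_subset (Finset.singleton_subset_iff.2 ha),
            Finset.card_singleton]
          omega
        have hmi := L.isMinor_con {a}
        rcases ih _ hcard (L.con {a}) rfl hN (hreg.minor hmi)
          (fun N hN' => hmin N (hN'.trans hmi)) with h1 | h1 | h1 | ⟨c, d, -, -, -, -, h1⟩
        · exact Or.inl (graphic_of_series' h.conn hab ha hb hs h1)
        · exact Or.inr (Or.inl (cographic_of_series' h.conn hab ha hb hs h1))
        · exact Or.inr (Or.inr (Or.inr ⟨a, b, hab, ha, hb, hs, _, LM.IsMinor.refl _, h1⟩))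
        · obtain ⟨N, hN1, hN2⟩ := h1
          exact Or.inr (Or.inr (Or.inr ⟨a, b, hab, ha, hb, hs, N,
            hN1.trans ((L.con {a}).isMinor_con {c}), hN2⟩))

end Pool.Agent.H63.Sey
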