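import Pool.Agent.H63.Sey.RTc

/-!
# Single element deletions and contractions of internally 4-connected matroids (job SEY-T4)

`lam X + |X| = r X + r* X` for `X ⊆ E` is `LM.lam_add_card` (RTc.lean).
-/

set_option autoImplicit false

namespace Pool.Agent.H63.Sey

universe u

variable {α : Type u} [DecidableEq α]

namespace RTdAux

lemma del1 {M : BM α} {e : α} (he : e ∈ M.E) {X : Finset α} (hX : X ⊆ M.E \ {e}) :
    M.lam X ≤ (M.del {e}).lam X + 1 := by
  apply M.lam_del_single (hX.trans Finset.sdiff_subset) _ he
  intro h
  have := hX h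
  simp at this

lemma compl_insert {E X : Finset α} {e : α} (he : e ∈ E) (hX : X ⊆ E \ {e}) :
    E \ ((E \ {e}) \ X) = insert e X := by
  ext c
  simp only [Finset.mem_sdiff, Finset.mem_singleton, Finset.mem_insert, not_and, not_not]
  constructor
  · rintro ⟨h1, h2⟩
    by_cases h : c = e
    · exact Or.inl h
    · exact Or.inr (h2 ⟨h1, h⟩)
  · rintro (h | h)
    · subst h
      exact ⟨he, fun h => absurd rfl h.2⟩
    · have := hX h
      rw [Finset.mem_sdiff] at this
      exact ⟨this.1, fun _ => h⟩

lemma compl_insert' {E X : Finset α} {e : α} (he : e ∈ E) (hX : X ⊆ E \ {e}) :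
    E \ X = insert e ((E \ {e}) \ X) := by
  ext c
  simp only [Finset.mem_sdiff, Finset.mem_singleton, Finset.mem_insert]
  constructor
  · rintro ⟨h1, h2⟩
    by_cases h : c = e
    · exact Or.inl h
    · exact Or.inr ⟨⟨h1, h⟩, h2⟩
  · rintro (h | h)
    · subst h
      refine ⟨he, fun h => ?_⟩
      have := hX h
      simp at this
    · exact ⟨h.1.1, h.2⟩

lemma del2 {M : BM α} {e : α} (he : e ∈ M.E) {X : Finset α} (hX : X ⊆ M.E \ {e}) :
    M.lam (insert e X) ≤ (M.del {e}).lam X + 1 := by
  have hY : (M.E \ {e}) \ X ⊆ M.E \ {e} := Finset.sdiff_subset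
  have h1 := del1 he hY
  rw [← M.lam_compl _ (hY.trans Finset.sdiff_subset), compl_insert he hX] at h1
  have h2 := (M.del {e}).lam_compl X hX
  rw [M.del_E] at h2
  rw [h2] at h1
  exact h1

lemma notMem {E X : Finset α} {e : α} (hX : X ⊆ E \ {e}) : e ∉ X := by
  intro h
  have := hX h
  simp at this

lemma card_split {E X : Finset α} {e : α} (he : e ∈ E) (hX : X ⊆ E \ {e}) :
    X.card + ((E \ {e}) \ X).card + 1 = E.card := by
  have h1 := Finset.card_sdiff_add_card_eq_card hX
  have h2 := Finset.card_sdiff_add_card_eq_card (Finset.singleton_subset_iff.2 he)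
  rw [Finset.card_singleton] at h2
  omega

lemma sdiff_single {X : Finset α} {e : α} (h : e ∉ X) : X \ {e} = X := by
  ext c
  simp only [Finset.mem_sdiff, Finset.mem_singleton]
  constructor
  · exact fun h' => h'.1
  · intro hc
    exact ⟨hc, fun h' => h (h' ▸ hc)⟩

lemma lam_le_rk (M : BM α) (X : Finset α) : M.lam X ≤ M.rk X := by
  have h1 := M.lam_add X
  have h2 := M.rk_le_E (M.E \ X)
  omega

end RTdAux

open RTdAux

/-- `N = M.del {e}`. For `X ⊆ N.E`, `Y = N.E \ X`: `M.lam X ≤ N.lam X + 1` (`lam_del_single`) and
`M.lam (insert e X) = M.lam Y ≤ N.lam Y + 1 = N.lam X + 1`.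
* conn: if `N.lam X = 0`, `X`, `Y` nonempty: `M.lam X ≤ 1` so `|X| ≤ 1` (as `|M.E \ X| ≥ 2`), and
  similarly `|Y| ≤ 1`, so `|M.E| ≤ 3`.
* pair: `r_N B = r_M B ≥ lam_M B ≥ 2`.
* sep: if `|X|, |Y| ≥ 3`, `N.lam X ≤ 1`: `|X| + |Y| ≥ 8`, so `|Y| ≥ 4` or `|X| ≥ 4`; in the first
  case `insert e X` has `≥ 4` elements and complement `Y` with `≥ 4` elements, and
  `M.lam (insert e X) ≤ 2`: contradiction. The second case is symmetric. -/
theorem nearC3_del {M : BM α} (h : M.I4c) (h9 : 9 ≤ M.E.card) {e : α} (he : e ∈ M.E) :
    NearC3 (M.del {e}) := by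
  have hcard : ∀ X : Finset α, X ⊆ M.E \ {e} → (M.E \ X).card = ((M.E \ {e}) \ X).card + 1 := by
    intro X hX
    rw [compl_insert' he hX, Finset.card_insert_of_notMem]
    intro h
    simp at h
  refine ⟨?_, ?_, ?_⟩
  · intro X hX hne hne'
    rw [M.del_E] at hX hne'
    by_contra hcon
    have h0 : (M.del {e}).lam X = 0 := by omega
    have hY : (M.E \ {e}) \ X ⊆ M.E \ {e} := Finset.sdiff_subset
    have h1 := del1 he hX
    have h2 := del1 he hY
    have h3 := (M.del {e}).lam_compl X hX
    rw [M.del_E] at h3
    have c1 := hcard X hX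
    have c2 := hcard _ hY
    have e1 : (M.E \ {e}) \ ((M.E \ {e}) \ X) = X := Finset.sdiff_sdiff_eq_self hX
    rw [e1] at c2
    have c3 := card_split he hX
    have p1 := Finset.card_pos.2 hne
    have p2 := Finset.card_pos.2 hne'
    have q1 : X.card ≤ 1 := by
      by_contra hq
      have := h.1.2 X (hX.trans Finset.sdiff_subset) (by omega) (by omega)
      omega
    have q2 : ((M.E \ {e}) \ X).card ≤ 1 := by
      by_contra hq
      have := h.1.2 _ (hY.trans Finset.sdiff_subset) (by omega) (by omega)
      omega
    omega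
  · intro B hB hc
    rw [M.del_E] at hB
    have hBe : B \ {e} = B := sdiff_single (notMem hB)
    rw [M.rk_del, hBe]
    have c1 := Finset.card_sdiff_add_card_eq_card (hB.trans Finset.sdiff_subset)
    have h1 := h.1.2 B (hB.trans Finset.sdiff_subset) (by omega) (by omega)
    have h2 := lam_le_rk M B
    have h3 := M.rk_le_card B
    omega
  · intro X hX h3 h3'
    rw [M.del_E] at hX h3'
    by_contra hcon
    have h1 := del1 he hX
    have h2 := del2 he hX
    have c1 := hcard X hX
    have c3 := card_split he hX
    have c4 := Finset.card_insert_of_notMem (notMem hX)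
    rcases Nat.lt_or_ge 3 ((M.E \ {e}) \ X).card with h4 | h4
    · have c5 : M.E \ insert e X = (M.E \ {e}) \ X := by
        ext c
        simp only [Finset.mem_sdiff, Finset.mem_insert, Finset.mem_singleton]
        tauto
      have := h.2 (insert e X) (Finset.insert_subset he (hX.trans Finset.sdiff_subset))
        (by omega) (by rw [c5]; omega)
      omega
    · have := h.2 X (hX.trans Finset.sdiff_subset) (by omega) (by omega)
      omega

/-- Contracting an element of a triad.

`N = M.con {a}`, `X ⊆ N.E`, `Y = N.E \ X`; `M.lam X ≤ N.lam X + 1` and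
`M.lam (insert a X) = M.lam Y ≤ N.lam X + 1` (dual of `lam_del_single`: `lam_dual`, `dual_con`).
* `1 ≤ N.lam X` for nonempty `X`, `Y`: as in `nearC3_del` (or apply it to `M.dual`).
* Let `|X|, |Y| ≥ 2`, `N.lam X ≤ 1`. If both have at least three elements, contradiction as in
  `nearC3_del`. So one of them, say `X` (`lam_compl`), has two elements. `r*_N X = r*_M X = 2`
  (`dual_con`, `rk_del`; `2 ≤ lam X ≤ r* X`), so `r_N X ≤ 1` (`lam + |X| = r + r*`), i.e.
  `T = insert a X` has `r T ≤ 2`. `T' = {a, b, e}` has `r* T' ≤ 2`.
  - If `T = T'`: `lam T + 3 = r T + r* T ≤ 4`, contradiction with `Conn3`.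
  - If `|T ∩ T'| = 2`: `|T ∪ T'| = 4`, `r (T ∪ T') ≤ 3`, `r* (T ∪ T') ≤ 3`, so `lam ≤ 2`,
    contradiction with `I4c` (`|E| ≥ 8`).
  - If `T ∩ T' = {a}`: `a` is in the closure of `X` (`r T ≤ 2 = r X`), so of `E \ T'`. But
    `r* T' + r E = 3 + r (E \ T')` gives `r (E \ T') + 1 ≤ r E` (`r* T' ≤ 2`), and
    `r* {b, e} = 2` gives `r (E \ {b, e}) = r E`: so
    `r (insert a (E \ T')) = r E > r (E \ T')`: `a` is not in the closure of `E \ T'`. -/
theorem conn3_con_of_triad {M : BM α} (h : M.I4c) (h9 : 9 ≤ M.E.card) {a b e : α} (ha : a ∈ M.E)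
    (hb : b ∈ M.E) (he : e ∈ M.E) (hab : a ≠ b) (hae : a ≠ e) (hbe : b ≠ e)
    (ht : M.dual.rk {a, b, e} ≤ 2) : (M.con {a}).Conn3 := by
  have hN := nearC3_del (M := M.dual) h.dual (by rw [M.dual_E]; exact h9) (e := a)
    (by rw [M.dual_E]; exact ha)
  have hdc : M.dual.del {a} = (M.con {a}).dual := (M.dual_con {a}).symm
  rw [hdc] at hN
  have hlam : ∀ X ⊆ (M.con {a}).E, (M.con {a}).dual.lam X = (M.con {a}).lam X := fun X hX =>
    (M.con {a}).lam_dual X hX
  have key : ∀ X ⊆ (M.con {a}).E, X.card = 2 → 2 ≤ (M.con {a}).lam X := by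
    intro X hX hc
    by_contra hcon
    have hX0 := hX
    rw [M.con_E] at hX
    have haX : a ∉ X := notMem hX
    have hXE : X ⊆ M.E := hX.trans Finset.sdiff_subset
    have c0 := Finset.card_sdiff_add_card_eq_card hXE
    have l1 := (M.con {a}).lam_add_card hX0
    have r1 : (M.con {a}).dual.rk X = M.dual.rk X := by
      rw [M.dual_con, LM.rk_del, sdiff_single haX]
    have r2 := lam_le_rk M.dual X
    rw [M.lam_dual X hXE] at r2
    have r3 := h.1.2 X hXE (by omega) (by omega)
    have r4 := M.rk_con {a} X
    have r5 := M.rk_le_card {a}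
    rw [Finset.card_singleton] at r5
    have r6 : X ∪ {a} = insert a X := by
      rw [Finset.insert_eq, Finset.union_comm]
    rw [r6] at r4
    have hT : M.rk (insert a X) ≤ 2 := by omega
    have cT : (insert a X).card = 3 := by rw [Finset.card_insert_of_notMem haX, hc]
    have hTE : insert a X ⊆ M.E := Finset.insert_subset ha hXE
    have cT' : ({a, b, e} : Finset α).card = 3 := Finset.card_eq_three.2 ⟨a, b, e, hab, hae, hbe, rfl⟩
    have hT'E : ({a, b, e} : Finset α) ⊆ M.E := by
      intro c hc
      simp only [Finset.mem_insert, Finset.mem_singleton] at hc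
      rcases hc with rfl | rfl | rfl <;> assumption
    -- one element more
    have four : ∀ c ∈ M.E, c ∉ insert a X → ({a, b, e} : Finset α) ⊆ insert c (insert a X) →
        False := by
      intro c hcE hcT hsub
      have c4 : (insert c (insert a X)).card = 4 := by
        rw [Finset.card_insert_of_notMem hcT, cT]
      have hE4 : insert c (insert a X) ⊆ M.E := Finset.insert_subset hcE hTE
      have s1 := M.rk_insert_le (insert a X) c
      obtain ⟨d, hd⟩ : ∃ d, insert c (insert a X) = insert d {a, b, e} := by
        have h5 : (insert c (insert a X) \ {a, b, e}).card = 1 := by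
          have := Finset.card_sdiff_add_card_eq_card hsub
          omega
        obtain ⟨d, hd⟩ := Finset.card_eq_one.1 h5
        refine ⟨d, ?_⟩
        rw [Finset.insert_eq d, ← hd]
        exact (Finset.sdiff_union_of_subset hsub).symm
      have s2 := M.dual.rk_insert_le {a, b, e} d
      rw [← hd] at s2
      have s3 := M.lam_add_card hE4
      have c5 := Finset.card_sdiff_add_card_eq_card hE4
      have s4 := h.2 _ hE4 (by omega) (by omega)
      omega
    by_cases hbX : b ∈ X
    · by_cases heX : e ∈ X
      · have eT : ({a, b, e} : Finset α) = insert a X := by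
          apply Finset.eq_of_subset_of_card_le
          · intro c hc
            simp only [Finset.mem_insert, Finset.mem_singleton] at hc ⊢
            rcases hc with rfl | rfl | rfl
            · exact Or.inl rfl
            · exact Or.inr hbX
            · exact Or.inr heX
          · omega
        rw [eT] at ht
        have s3 := M.lam_add_card hTE
        have c5 := Finset.card_sdiff_add_card_eq_card hTE
        have s4 := h.1.2 _ hTE (by omega) (by omega)
        omega
      · refine four e he ?_ ?_
        · rw [Finset.mem_insert]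
          rintro (h | h)
          · exact hae h.symm
          · exact heX h
        · intro c hc
          simp only [Finset.mem_insert, Finset.mem_singleton] at hc ⊢
          rcases hc with rfl | rfl | rfl
          · exact Or.inr (Or.inl rfl)
          · exact Or.inr (Or.inr hbX)
          · exact Or.inl rfl
    · by_cases heX : e ∈ X
      · refine four b hb ?_ ?_
        · rw [Finset.mem_insert]
          rintro (h | h)
          · exact hab h.symm
          · exact hbX h
        · intro c hc
          simp only [Finset.mem_insert, Finset.mem_singleton] at hc ⊢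
          rcases hc with rfl | rfl | rfl
          · exact Or.inr (Or.inl rfl)
          · exact Or.inl rfl
          · exact Or.inr (Or.inr heX)
      · have hXT : X ⊆ M.E \ {a, b, e} := by
          intro c hc
          rw [Finset.mem_sdiff]
          refine ⟨hXE hc, ?_⟩
          simp only [Finset.mem_insert, Finset.mem_singleton]
          rintro (rfl | rfl | rfl)
          · exact haX hc
          · exact hbX hc
          · exact heX hc
        have r7 := lam_le_rk M X
        have hcl : M.InCl X a := M.inCl_of_rk_le (Finset.subset_insert a X) (by omega)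
          (Finset.mem_insert_self a X)
        have hcl' := hcl.mono hXT
        rw [M.inCl_iff_rk] at hcl'
        have r8 := M.rk_dual _ hT'E
        have hbe' : ({b, e} : Finset α) ⊆ M.E := by
          intro c hc
          simp only [Finset.mem_insert, Finset.mem_singleton] at hc
          rcases hc with rfl | rfl <;> assumption
        have cbe : ({b, e} : Finset α).card = 2 := Finset.card_pair hbe
        have r9 := M.rk_dual _ hbe'
        have c6 := Finset.card_sdiff_add_card_eq_card hbe'
        have r10 := h.1.2 _ hbe' (by omega) (by omega)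
        have r11 := lam_le_rk M.dual {b, e}
        rw [M.lam_dual _ hbe'] at r11
        have e7 : insert a (M.E \ {a, b, e}) = M.E \ {b, e} := by
          ext c
          simp only [Finset.mem_insert, Finset.mem_sdiff, Finset.mem_singleton]
          constructor
          · rintro (rfl | ⟨h1, h2⟩)
            · exact ⟨ha, by rintro (h | h); exacts [hab h, hae h]⟩
            · exact ⟨h1, fun h => h2 (Or.inr h)⟩
          · rintro ⟨h1, h2⟩
            by_cases h : c = a
            · exact Or.inl h
            · exact Or.inr ⟨h1, by rintro (h3 | h3); exacts [h h3, h2 h3]⟩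
        rw [e7] at hcl'
        omega
  refine ⟨?_, ?_⟩
  · intro X hX hne hne'
    rw [← hlam X hX]
    exact hN.conn X hX hne hne'
  · intro X hX h2 h2'
    rcases Nat.lt_or_ge 2 X.card with h3 | h3
    · rcases Nat.lt_or_ge 2 ((M.con {a}).E \ X).card with h3' | h3'
      · rw [← hlam X hX]
        exact hN.sep X hX h3 h3'
      · rw [← (M.con {a}).lam_compl X hX]
        exact key _ Finset.sdiff_subset (by omega)
    · exact key X hX (by omega)

/-- `(M.del {e}).dual = M.dual.con {e}`, `rk_con`, `rk {e} ≤ 1` -/
lemma triad_of_series {M : BM α} {a b e : α} (h : (M.del {e}).dual.rk {a, b} ≤ 1) :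
    M.dual.rk {a, b, e} ≤ 2 := by
  rw [M.dual_del] at h
  have h1 := M.dual.rk_con {e} {a, b}
  have h2 := M.dual.rk_le_card {e}
  rw [Finset.card_singleton] at h2
  have e1 : ({a, b} : Finset α) ∪ {e} = {a, b, e} := by
    ext c
    simp only [Finset.mem_union, Finset.mem_insert, Finset.mem_singleton]
    tauto
  rw [e1] at h1
  omega

end Pool.Agent.H63.Sey
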