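import Pool.Agent.H63.Sey.RTa
import Pool.Agent.H63.Sey.RTb
import Pool.Agent.H63.Sey.RTc
import Pool.Agent.H63.Sey.RTd
import Pool.Agent.H87.Sey.P4

/-!
# 3-connected regular matroids (job SEY-T5)
-/

set_option autoImplicit false

namespace Pool.Agent.H63.Sey

open Pool.Agent.H87.Sey

universe u

variable {α : Type u} [DecidableEq α]

/-- `M*(K33)` has `9` elements and `M*(K5)` has `10` -/
lemma graphic_of_card_le (hT : TutteStmt α) {M : BM α} (hM : Regular M) (h8 : M.E.card ≤ 8) :
    Graphic M := by
  by_contra hg
  rcases hT M hM hg with ⟨ι, hι, h1⟩ | ⟨ι, hι, h1⟩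
  · have h2 := Finset.card_le_card h1.E_subset
    rw [conc_E, Finset.card_image_of_injective _ hι, Finset.card_univ, Fintype.card_fin] at h2
    omega
  · have h2 := Finset.card_le_card h1.E_subset
    rw [LM.dual_E, conc_E, Finset.card_image_of_injective _ hι, Finset.card_univ,
      Fintype.card_fin] at h2
    omega

/-- A deletion in a minimal counterexample. Suppose `M` is internally `4`-connected, regular,
`|E| ≥ 9`, all proper `3`-connected minors are graphic, cographic or `R10`, and `e ∈ E`.
`L = M.del {e}` is `NearC3` (`nearC3_del`). `cosimp` (minors of `L` are proper minors of `M`) gives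
four cases. `IsR10 L` is impossible by `not_isR10_del`. In the last case `M.con {a}` is
`3`-connected (`triad_of_series`, `conn3_con_of_triad`; `a, b ≠ e`), so it is graphic, cographic
or `R10`; but it has the minor `L.con {a} = (M.del {e}).con {a} = (M.con {a}).del {e}` (`con_del`)
which has an `R10` minor: `HasR10.not_graphic`, `HasR10.not_cographic`, and `IsR10 (M.con {a})` is
impossible because `L.con {a}` has fewer elements (`HasR10.card`, `r10_card_rk`). -/
theorem del_good (hT : TutteStmt α) {M : BM α} (h : M.I4c) (hreg : Regular M)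
    (h9 : 9 ≤ M.E.card) (hmin : MinGood M) {e : α} (he : e ∈ M.E) :
    Graphic (M.del {e}) ∨ Cographic (M.del {e}) := by
  have hEL : (M.del {e}).E = M.E \ {e} := LM.del_E _ _
  have hcL : (M.del {e}).E.card + 1 = M.E.card := by
    rw [hEL]
    have := Finset.card_sdiff_add_card_eq_card (Finset.singleton_subset_iff.2 he)
    rwa [Finset.card_singleton] at this
  have hn := nearC3_del h h9 he
  have hregL : Regular (M.del {e}) := hreg.minor (M.isMinor_del {e})
  rcases cosimp hn hregL (fun N hN h8 => graphic_of_card_le hT hN h8) (fun N hN hc => by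
    refine hmin N (hN.trans (M.isMinor_del {e})) ?_ hc
    have := Finset.card_le_card hN.E_subset
    omega) with h1 | h1 | h1 | ⟨a, b, hab, ha, hb, hs, hr⟩
  · exact Or.inl h1
  · exact Or.inr h1
  · exact absurd h1 (not_isR10_del h.1 hreg he)
  · exfalso
    rw [hEL, Finset.mem_sdiff, Finset.mem_singleton] at ha hb
    have hc : (M.con {a}).Conn3 :=
      conn3_con_of_triad h h9 ha.1 hb.1 he hab ha.2 hb.2 (triad_of_series hs)
    have hdisj : Disjoint ({a} : Finset α) {e} := by
      rw [Finset.disjoint_singleton]
      exact ha.2
    have heq : (M.del {e}).con {a} = (M.con {a}).del {e} := (M.con_del hdisj).symm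
    have hr' : HasR10 (M.con {a}) := by
      refine hr.mono ?_
      rw [heq]
      exact LM.isMinor_del _ _
    have hca : (M.con {a}).E.card + 1 = M.E.card := by
      rw [LM.con_E]
      have := Finset.card_sdiff_add_card_eq_card (Finset.singleton_subset_iff.2 ha.1)
      rwa [Finset.card_singleton] at this
    rcases hmin (M.con {a}) (M.isMinor_con {a}) (by omega) hc with h1 | h1 | h1
    · exact hr'.not_graphic h1
    · exact hr'.not_cographic h1
    · have h2 := (r10_card_rk h1).1
      have h3 := hr.card
      have h4 : ((M.del {e}).con {a}).E.card + 1 = (M.del {e}).E.card := by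
        rw [LM.con_E]
        have := Finset.card_sdiff_add_card_eq_card (s := {a}) (t := (M.del {e}).E)
          (Finset.singleton_subset_iff.2 (by
            rw [hEL, Finset.mem_sdiff, Finset.mem_singleton]; exact ha))
        rwa [Finset.card_singleton] at this
      omega

/-- `MinGood M → MinGood M.dual` (`isR10_dual`, `IsMinor.dual`, `dual_dual`) -/
lemma MinGood.dual {M : BM α} (h : MinGood M) : MinGood M.dual := by
  intro N hN hlt hc
  have hN' : N.dual.IsMinor M := by
    have := hN.dual
    rwa [LM.dual_dual] at this
  rcases h N.dual hN' (by rw [LM.dual_E]; exact hlt) hc.dual with h1 | h1 | h1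
  · exact Or.inr (Or.inl h1)
  · exact Or.inl (cographic_dual_iff.1 h1)
  · refine Or.inr (Or.inr ?_)
    have := isR10_dual h1
    rwa [LM.dual_dual] at this

/-- The classification. Strong induction on `|M.E|`: suppose `¬ HasR12 M`. `MinGood M`: a proper
`3`-connected minor `N` is regular, so by induction graphic, cographic, `R10` or `HasR12 N`; the
last one gives `HasR12 M` (`IsMinor.trans`). If `¬ M.I4c`: `P4` (`MinOK` is the same as
`MinGood`). If `M.I4c` and `|M.E| ≤ 8`: `graphic_of_card_le`. Otherwise `hS` with `del_good` for `M`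
and for `M.dual` (`(M.con {e}).dual = M.dual.del {e}`, so
`Graphic (M.dual.del {e}) ↔ Cographic (M.con {e})` and conversely by `dual_dual`). -/
theorem classify (hT : TutteStmt α) (hS : S1Stmt α) {M : BM α} (hM : M.Conn3)
    (hreg : Regular M) : Graphic M ∨ Cographic M ∨ IsR10 M ∨ HasR12 M := by
  obtain ⟨k, hk⟩ : ∃ k, M.E.card = k := ⟨_, rfl⟩
  induction k using Nat.strong_induction_on generalizing M with
  | _ k ih =>
    by_cases hR : HasR12 M
    · exact Or.inr (Or.inr (Or.inr hR))
    have hmin : MinGood M := by
      intro N hN hlt hc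
      rcases ih N.E.card (by omega) hc (hreg.minor hN) rfl with h1 | h1 | h1 | ⟨ι, hι, h1⟩
      · exact Or.inl h1
      · exact Or.inr (Or.inl h1)
      · exact Or.inr (Or.inr h1)
      · exact absurd ⟨ι, hι, h1.trans hN⟩ hR
    by_cases hI : M.I4c
    · by_cases h8 : M.E.card ≤ 8
      · exact Or.inl (graphic_of_card_le hT hreg h8)
      · rcases hS M hI hreg (fun e he => ⟨del_good hT hI hreg (by omega) hmin he, by
          have h1 := del_good hT (M := M.dual) hI.dual hreg.dual
            (by rw [LM.dual_E]; omega) hmin.dual (e := e) he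
          rw [← LM.dual_con] at h1
          rcases h1 with h1 | h1
          · exact Or.inr h1
          · exact Or.inl (cographic_dual_iff.1 h1)⟩) with h1 | h1 | h1
        · exact Or.inl h1
        · exact Or.inr (Or.inl h1)
        · exact Or.inr (Or.inr (Or.inl h1))
    · rcases P4 hM hreg hmin hI with h1 | h1 | h1
      · exact Or.inl h1
      · exact Or.inr (Or.inl h1)
      · exact Or.inr (Or.inr (Or.inr h1))

end Pool.Agent.H63.Sey
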