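import Pool.Agent.H63.Sey.GdDef
import Pool.Agent.H87.Sey.Parts
import Pool.Agent.H87.Sey.GraphBasic

/-!
# Leaves of the decomposition (job SEY-G1)

`PartsAux.ev M X = ∑ a ∈ X, M.evec a`, `PartsAux.ev_eq_zero : ev M X = 0 ↔ ∀ y ∈ M.D, ∑ a ∈ X, y a = 0`.
`∀ x, x + x = 0` in `Module.Dual (ZMod 2) M.D` is `PartsAux.add_self_dual`.
-/

set_option autoImplicit false

namespace Pool.Agent.H63.Sey

open H63Mat Pool.Agent.H87.Sey

universe u

variable {α : Type u} [DecidableEq α]

/-- `BB` along an injective homomorphism: replace `q` by `j ∘ q`, `map_sum`, `map_eq_zero_iff` -/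
lemma BB_comap {Q Q' : Type u} [AddCommGroup Q] [AddCommGroup Q'] (j : Q →+ Q')
    (hj : Function.Injective j) {V : Set Q} {V' : Set Q'} (hV : ∀ x ∈ V, j x ∈ V')
    (h : BB V') : BB V := by
  intro E _ q hq ω ℓ hg β
  have key : ∀ v : Finset E, ∑ e ∈ v, j (q e) = 0 ↔ ∑ e ∈ v, q e = 0 := by
    intro v
    rw [← map_sum, map_eq_zero_iff j hj]
  have h1 := h E (fun e => j (q e)) (fun e => hV _ (hq e)) ω ℓ
    (fun v hv hs => hg v hv ((key v).1 hs)) β
  simp only [key] at h1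
  exact h1

/-- Graphic matroids. `M.D` is the image of `cob M.E f g : (Fin n → ZMod 2) →ₗ _`; let
`W = ULift.{u} (Fin n)`. The map `j : Module.Dual (ZMod 2) M.D →+ (W → ZMod 2)`,
`j ψ = fun v => ψ (cob M.E f g (Pi.single v 1))` is injective (the `cob _ _ _ (Pi.single v 1)` span
`M.D`) and `j (M.evec e) = fun v => [f e = v] + [g e = v]` is in `VG W` for `e ∈ M.E`. Use
`graphic_BB W`, `BB_comap` and `leaf` for `V = M.evec '' M.E`. -/
theorem goodB_graphic {M : BM α} (h : Graphic M) : GoodB M 1 := by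
  classical
  obtain ⟨n, f, g, hM⟩ := h
  have hmem : ∀ φ : Fin n → ZMod 2, cob M.E f g φ ∈ M.D := by
    intro φ
    rw [hM]
    exact ⟨φ, rfl⟩
  have hsurj : ∀ y ∈ M.D, ∃ φ : Fin n → ZMod 2, cob M.E f g φ = y := by
    intro y hy
    rw [hM] at hy
    exact hy
  let L : (Fin n → ZMod 2) →ₗ[ZMod 2] M.D := (cob M.E f g).codRestrict M.D hmem
  let c : ULift.{u} (Fin n) → M.D := fun v => L (Pi.single v.down 1)
  let j : Module.Dual (ZMod 2) M.D →+ (ULift.{u} (Fin n) → ZMod 2) :=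
    { toFun := fun ψ v => ψ (c v)
      map_zero' := rfl
      map_add' := fun _ _ => rfl }
  have hj : Function.Injective j := by
    intro ψ ψ' hψ
    have h1 : ψ.comp L = ψ'.comp L := by
      refine LinearMap.pi_ext' fun i => LinearMap.ext_ring ?_
      exact congrFun hψ (ULift.up i)
    apply LinearMap.ext
    rintro ⟨y, hy⟩
    obtain ⟨φ, rfl⟩ := hsurj y hy
    exact LinearMap.congr_fun h1 φ
  refine ⟨M.evec '' (M.E : Set α), fun e he => ⟨e, he, rfl⟩, ?_⟩
  refine leaf (PartsAux.add_self_dual M) (BB_comap j hj (V' := VG (ULift.{u} (Fin n))) ?_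
    (graphic_BB _))
  rintro _ ⟨e, he, rfl⟩
  refine ⟨ULift.up (f e), ULift.up (g e), ?_⟩
  funext v
  have h1 : j (M.evec e) v = cob M.E f g (Pi.single v.down 1) e := rfl
  rw [h1, cob_apply, if_pos (Finset.mem_coe.1 he), Pi.add_apply]
  obtain ⟨v⟩ := v
  simp only [Pi.single_apply, ULift.up_inj, eq_comm]

/-- Cographic matroids: `leaf`, `heavy_light` and `cographic_BBinj` with `q0 = M.evec`,
`E0 = M.E`, `Vt = Fin n`, where `M.dual = cyc M.E f g`. For `X ⊆ M.E`: `∑ e ∈ X, M.evec e = 0` iff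
`X` is a cycle of `M` iff the indicator function of `X` is in `M.dual.D` (`mem_dual`) iff it is
`cob M.E f g φ` for some `φ`; translate `φ : Fin n → ZMod 2` to `Fin n → Bool` (compare
`repd_cographic`, `bool_zmod`, `zmod_bool` in `H63/MatJ.lean`). -/
theorem goodB_cographic {M : BM α} (h : Cographic M) : GoodB M 1 := by
  classical
  obtain ⟨n, f, g, hM⟩ := graphic_exists_mem h
  refine ⟨M.evec '' (M.E : Set α), fun e he => ⟨e, he, rfl⟩, ?_⟩
  refine leaf (PartsAux.add_self_dual M) (heavy_light (PartsAux.add_self_dual M)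
    (cographic_BBinj M.evec (M.E : Set α) f g ?_))
  intro X hX
  have hX' : X ⊆ M.E := fun a ha => Finset.mem_coe.1 (hX ha)
  have h1 : ∑ e ∈ X, M.evec e = 0 ↔ ∀ y ∈ M.D, ∑ a ∈ X, y a = 0 := PartsAux.ev_eq_zero M
  have h2 : (∀ y ∈ M.D, ∑ a ∈ X, y a = 0) ↔
      (fun a => if a ∈ X then (1 : ZMod 2) else 0) ∈ M.dual.D := by
    rw [LM.mem_dual]
    have h3 : ∀ y : α → ZMod 2, ∑ a ∈ M.E, y a * (if a ∈ X then (1 : ZMod 2) else 0) =
        ∑ a ∈ X, y a := by
      intro y
      simp only [mul_ite, mul_one, mul_zero]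
      rw [← Finset.sum_filter]
      congr 1
      ext a
      simp only [Finset.mem_filter]
      exact ⟨fun h => h.2, fun h => ⟨hX' h, h⟩⟩
    constructor
    · intro h4
      refine ⟨fun a ha => if_neg fun h5 => ha (hX' h5), fun y hy => ?_⟩
      rw [h3, h4 y hy]
    · rintro ⟨_, h4⟩ y hy
      rw [← h3, h4 y hy]
  rw [h1, h2, hM]
  constructor
  · rintro ⟨φ, hφ⟩
    refine ⟨fun v => decide (φ v = 1), fun e he => ?_⟩
    have h5 := hφ e
    rw [if_pos (show e ∈ M.dual.E from Finset.mem_coe.1 he)] at h5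
    rw [bool_zmod, ← h5]
    by_cases heX : e ∈ X <;> simp [heX]
  · rintro ⟨φ, hφ⟩
    refine ⟨fun v => if φ v = true then 1 else 0, fun e => ?_⟩
    by_cases he : e ∈ M.E
    · rw [if_pos (show e ∈ M.dual.E from he), zmod_bool]
      have h5 := hφ e (Finset.mem_coe.2 he)
      by_cases heX : e ∈ X
      · rw [if_pos heX, if_pos (h5.1 heX)]
      · rw [if_neg heX, if_neg (fun h6 => heX (h5.2 h6))]
    · rw [if_neg (show e ∉ M.dual.E from he), if_neg fun h6 => he (hX' h6)]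

/-- `leaf`, `heavy_light`, `small_BBinj` for `V = M.evec '' M.E` -/
theorem goodB_small {M : BM α} (h : M.E.card ≤ 10) : GoodB M 1 := by
  refine ⟨M.evec '' (M.E : Set α), fun e he => ⟨e, he, rfl⟩, ?_⟩
  refine leaf (PartsAux.add_self_dual M) (heavy_light (PartsAux.add_self_dual M) (small_BBinj ?_))
  refine (Set.encard_image_le _ _).trans ?_
  rw [Set.encard_coe_eq_coe_finsetCard]
  exact_mod_cast h

end Pool.Agent.H63.Sey
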