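import Pool.Agent.H63.Sey.GdDef
import Pool.Agent.H87.Sey.Parts

/-!
# Gluing good descriptions (job SEY-G2)
-/

set_option autoImplicit false

namespace Pool.Agent.H63.Sey

open H63Mat Pool.Agent.H87.Sey

universe u

variable {α : Type u} [DecidableEq α]

/-- The span of the vectors of a part embeds. `IsPart M P A z R`: the map `t : M.D → P.D`,
`(t y) a = y a` for `a ∈ A`, `(t y) (z i) = ∑ a ∈ R i, y a`, zero elsewhere, is linear and
surjective (`IsPart.mem`), so its transpose `φ ↦ φ ∘ t` is injective. It maps `P.evec a` to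
`M.evec a` (`a ∈ A`) and `P.evec (z i)` to `ev M (R i)`. The range is contained in the span of
`evec '' A`: `P.evec b`, `b ∈ P.E`, span `Module.Dual (ZMod 2) P.D`
(`rk_eq_span`, or: a vector of `P.D` killed by all of them is zero), and `R i ⊆ A`. -/
theorem exists_embed {k : ℕ} {M P : BM α} {A : Finset α} {z : Fin k → α} {R : Fin k → Finset α}
    (hP : IsPart M P A z R) (hR : ∀ i, R i ⊆ A) :
    ∃ i : Module.Dual (ZMod 2) P.D →+ Module.Dual (ZMod 2) M.D, Function.Injective i ∧
      (∀ a ∈ A, i (P.evec a) = M.evec a) ∧ (∀ j, i (P.evec (z j)) = PartsAux.ev M (R j)) ∧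
      ∀ x, i x ∈ Submodule.span (ZMod 2) (M.evec '' (A : Set α)) := by
  classical
  let w : (α → ZMod 2) →ₗ[ZMod 2] (α → ZMod 2) :=
    { toFun := fun y a => if a ∈ A then y a else ∑ j, if z j = a then ∑ b ∈ R j, y b else 0
      map_add' := by
        intro x y
        funext a
        by_cases ha : a ∈ A
        · simp only [Pi.add_apply, if_pos ha]
        · simp only [Pi.add_apply, if_neg ha]
          rw [← Finset.sum_add_distrib]
          apply Finset.sum_congr rfl
          intro j _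
          by_cases hj : z j = a
          · simp only [if_pos hj, Finset.sum_add_distrib]
          · simp only [if_neg hj, add_zero]
      map_smul' := by
        intro c y
        funext a
        by_cases ha : a ∈ A
        · simp only [Pi.smul_apply, if_pos ha, RingHom.id_apply]
        · simp only [Pi.smul_apply, if_neg ha, RingHom.id_apply]
          rw [Finset.smul_sum]
          apply Finset.sum_congr rfl
          intro j _
          by_cases hj : z j = a
          · simp only [if_pos hj, Finset.smul_sum]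
          · simp only [if_neg hj, smul_zero] }
  have hwA : ∀ (y : α → ZMod 2), ∀ a ∈ A, w y a = y a := fun y a ha => if_pos ha
  have hwz : ∀ (y : α → ZMod 2) (j : Fin k), w y (z j) = ∑ b ∈ R j, y b := by
    intro y j
    have h1 : w y (z j) = ∑ i, if z i = z j then ∑ b ∈ R i, y b else 0 := if_neg (hP.z_nmem j)
    rw [h1, Finset.sum_eq_single j]
    · rw [if_pos rfl]
    · intro i _ hij
      rw [if_neg (fun h => hij (hP.inj h))]
    · intro h
      exact absurd (Finset.mem_univ _) h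
  have hw0 : ∀ (y : α → ZMod 2) (a : α), a ∉ P.E → w y a = 0 := by
    intro y a ha
    rw [hP.E_eq, Finset.mem_union, not_or] at ha
    have h1 : w y a = ∑ i, if z i = a then ∑ b ∈ R i, y b else 0 := if_neg ha.1
    rw [h1]
    apply Finset.sum_eq_zero
    intro j _
    rw [if_neg]
    intro hj
    exact ha.2 (Finset.mem_image.2 ⟨j, Finset.mem_univ _, hj⟩)
  have hmem : ∀ y ∈ M.D, w y ∈ P.D := fun y hy => (hP.mem _).2 ⟨hw0 y, y, hy, hwA y, hwz y⟩
  let t : M.D →ₗ[ZMod 2] P.D := w.restrict hmem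
  have ht : ∀ y : M.D, (t y).1 = w y.1 := fun _ => rfl
  have hsurj : Function.Surjective t := by
    rintro ⟨x, hx⟩
    obtain ⟨h0, y, hy, h1, h2⟩ := (hP.mem x).1 hx
    refine ⟨⟨y, hy⟩, Subtype.ext ?_⟩
    rw [ht]
    funext a
    show w y a = x a
    by_cases haP : a ∈ P.E
    · rw [hP.E_eq, Finset.mem_union] at haP
      rcases haP with ha | ha
      · rw [hwA _ a ha, h1 a ha]
      · obtain ⟨j, -, rfl⟩ := Finset.mem_image.1 ha
        rw [hwz, h2]
    · rw [hw0 _ a haP, h0 a haP]
  refine ⟨t.dualMap.toAddMonoidHom, ?_, ?_, ?_, ?_⟩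
  · exact LinearMap.dualMap_injective_of_surjective hsurj
  · intro a ha
    apply LinearMap.ext
    intro y
    exact hwA _ a ha
  · intro j
    apply LinearMap.ext
    intro y
    rw [PartsAux.ev_apply]
    exact hwz _ j
  · intro φ
    rw [← Subspace.dualCoannihilator_dualAnnihilator_eq
      (W := Submodule.span (ZMod 2) (M.evec '' (A : Set α))), Submodule.mem_dualAnnihilator]
    intro y hy
    rw [M.coann_eq, Submodule.mem_comap, LinearMap.mem_ker] at hy
    have hy0 : ∀ a ∈ A, y.1 a = 0 := by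
      intro a ha
      have := congrFun hy a
      simpa [ha] using this
    have hty : t y = 0 := by
      apply Subtype.ext
      rw [ht]
      funext a
      by_cases haP : a ∈ P.E
      · rw [hP.E_eq, Finset.mem_union] at haP
        rcases haP with ha | ha
        · rw [hwA _ a ha, hy0 a ha]
          rfl
        · obtain ⟨j, -, rfl⟩ := Finset.mem_image.1 ha
          rw [hwz]
          exact Finset.sum_eq_zero fun b hb => hy0 b (hR j hb)
      · rw [hw0 _ a haP]
        rfl
    show φ (t y) = 0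
    rw [hty, map_zero]

/-- Gluing. `V₁, V₂` from the two hypotheses; `i₁, i₂` from `exists_embed` for `A` and
`M.E \ A`. Use `glue` for `i₁ '' V₁`, `i₂ '' V₂` (`Bd_map`), `Q1`, `Q2` the spans of `evec '' A` and
`evec '' (M.E \ A)` (as additive subgroups), `UZ = PartsAux.gs M A`. By `gs_cases` its elements are
`0` and the `ev M (R j)`, at most `4` of them. `ev M (R j) = i₁ (P.evec (z j))` is in `i₁ '' V₁`
as `z j ∈ P.E`, and `ev M (R j) = ev M (S j) = i₂ (P'.evec (z' j))` (`Guts.eq`).
`4 k₁ - 2 + (4 k₂ - 2) + 2 = 4 (k₁ + k₂) - 2`. -/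
theorem goodB_glue {k : ℕ} (hk : k ≤ 3) {M P P' : BM α} {A : Finset α} (hA : A ⊆ M.E)
    {z z' : Fin k → α} {R S : Fin k → Finset α} (hG : Guts M A R S) (hP : IsPart M P A z R)
    (hP' : IsPart M P' (M.E \ A) z' S) {k₁ k₂ : ℕ} (hk₁ : 1 ≤ k₁) (hk₂ : 1 ≤ k₂)
    (h₁ : GoodB P k₁) (h₂ : GoodB P' k₂) : GoodB M (k₁ + k₂) := by
  classical
  obtain ⟨V₁, hV₁, hB₁⟩ := h₁
  obtain ⟨V₂, hV₂, hB₂⟩ := h₂
  obtain ⟨i₁, hi₁, hA₁, hz₁, hs₁⟩ := exists_embed hP hG.R_sub
  obtain ⟨i₂, hi₂, hA₂, hz₂, hs₂⟩ := exists_embed hP' hG.S_sub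
  have hzP : ∀ j, z j ∈ P.E := by
    intro j
    rw [hP.E_eq, Finset.mem_union]
    exact Or.inr (Finset.mem_image.2 ⟨j, Finset.mem_univ _, rfl⟩)
  have hzP' : ∀ j, z' j ∈ P'.E := by
    intro j
    rw [hP'.E_eq, Finset.mem_union]
    exact Or.inr (Finset.mem_image.2 ⟨j, Finset.mem_univ _, rfl⟩)
  have hB : Bd (i₁ '' V₁ ∪ i₂ '' V₂) ((4 * k₁ - 2) + (4 * k₂ - 2) + 2) := by
    refine glue (fun x => PartsAux.add_self_dual M x)
      (Q1 := (Submodule.span (ZMod 2) (M.evec '' (A : Set α))).toAddSubgroup)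
      (Q2 := (Submodule.span (ZMod 2) (M.evec '' ((M.E \ A : Finset α) : Set α))).toAddSubgroup)
      (UZ := (PartsAux.gs M A).toAddSubgroup) ?_ ?_ ?_ ?_ ?_ ?_ (Bd_map i₁ hi₁ hB₁)
      (Bd_map i₂ hi₂ hB₂)
    · rintro _ ⟨x, -, rfl⟩
      exact hs₁ x
    · rintro _ ⟨x, -, rfl⟩
      exact hs₂ x
    · intro x h1 h2
      exact ⟨h1, h2⟩
    · have h1 : ((PartsAux.gs M A).toAddSubgroup : Set (Module.Dual (ZMod 2) M.D)) ⊆
          ((insert 0 (Finset.univ.image fun j => PartsAux.ev M (R j)) :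
            Finset (Module.Dual (ZMod 2) M.D)) : Set (Module.Dual (ZMod 2) M.D)) := by
        intro ψ hψ
        rw [Finset.mem_coe, Finset.mem_insert, Finset.mem_image]
        rcases PartsAux.gs_cases hG (ψ := ψ) hψ with h | ⟨j, h⟩
        · exact Or.inl h
        · exact Or.inr ⟨j, Finset.mem_univ _, h.symm⟩
      refine (Set.encard_le_encard h1).trans ?_
      rw [Set.encard_coe_eq_coe_finsetCard]
      have h2 : (insert 0 (Finset.univ.image fun j => PartsAux.ev M (R j)) :
            Finset (Module.Dual (ZMod 2) M.D)).card ≤ 4 := by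
        refine (Finset.card_insert_le _ _).trans ?_
        have h3 : (Finset.univ.image fun j => PartsAux.ev M (R j)).card ≤ k := by
          refine Finset.card_image_le.trans ?_
          rw [Finset.card_univ, Fintype.card_fin]
        omega
      exact_mod_cast h2
    · intro x hx hx0
      rcases PartsAux.gs_cases hG (ψ := x) hx with h | ⟨j, h⟩
      · exact absurd h hx0
      · exact ⟨P.evec (z j), hV₁ _ (hzP j), by rw [hz₁, h]⟩
    · intro x hx hx0
      rcases PartsAux.gs_cases hG (ψ := x) hx with h | ⟨j, h⟩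
      · exact absurd h hx0
      · refine ⟨P'.evec (z' j), hV₂ _ (hzP' j), ?_⟩
        rw [hz₂, h]
        exact (PartsAux.ev_ext M (hG.eq j)).symm
  have he : (4 * k₁ - 2) + (4 * k₂ - 2) + 2 = 4 * (k₁ + k₂) - 2 := by omega
  rw [he] at hB
  refine ⟨i₁ '' V₁ ∪ i₂ '' V₂, ?_, hB⟩
  intro e heE
  by_cases heA : e ∈ A
  · left
    refine ⟨P.evec e, hV₁ e ?_, hA₁ e heA⟩
    rw [hP.E_eq, Finset.mem_union]
    exact Or.inl heA
  · right
    have heA' : e ∈ M.E \ A := Finset.mem_sdiff.2 ⟨heE, heA⟩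
    refine ⟨P'.evec e, hV₂ e ?_, hA₂ e heA'⟩
    rw [hP'.E_eq, Finset.mem_union]
    exact Or.inl heA'

/-- the empty family: the part is the restriction -/
lemma isPart_del {M : BM α} {A : Finset α} (hA : A ⊆ M.E) (z : Fin 0 → α)
    (R : Fin 0 → Finset α) : IsPart M (M.del (M.E \ A)) A z R := by
  have hE : (M.del (M.E \ A)).E = A := by
    rw [LM.del_E, Finset.sdiff_sdiff_eq_self hA]
  refine ⟨fun i => i.elim0, fun i => i.elim0, ?_, ?_⟩
  · rw [hE, Finset.univ_eq_empty, Finset.image_empty, Finset.union_empty]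
  · intro w
    rw [M.mem_del, hE]
    constructor
    · rintro ⟨h0, y, hy, h1⟩
      refine ⟨?_, y, hy, ?_, fun i => i.elim0⟩
      · intro a ha
        by_cases haE : a ∈ M.E
        · exact h0 a (Finset.mem_sdiff.2 ⟨haE, ha⟩)
        · rw [h1 a (fun h => haE (Finset.mem_sdiff.1 h).1), M.supp y hy a haE]
      · intro a ha
        exact h1 a (fun h => (Finset.mem_sdiff.1 h).2 ha)
    · rintro ⟨h0, y, hy, h1, -⟩
      refine ⟨fun a ha => h0 a (Finset.mem_sdiff.1 ha).2, y, hy, ?_⟩
      intro a ha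
      by_cases haA : a ∈ A
      · exact h1 a haA
      · have haE : a ∉ M.E := fun h => ha (Finset.mem_sdiff.2 ⟨h, haA⟩)
        rw [h0 a haA, M.supp y hy a haE]

/-- `lam A = 0`: the empty family is a guts family (`gs M A` is zero by `finrank_gs`), and
`M.del (M.E \ A)`, `M.del A` are the parts (`mem_del`; `M.del A = M.del (M.E \ (M.E \ A))`). Use
`goodB_glue` with `k = 0`. -/
theorem goodB_one {M : BM α} {A : Finset α} (hA : A ⊆ M.E) (hl : M.lam A = 0) {k₁ k₂ : ℕ}
    (hk₁ : 1 ≤ k₁) (hk₂ : 1 ≤ k₂) (h₁ : GoodB (M.del (M.E \ A)) k₁) (h₂ : GoodB (M.del A) k₂) :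
    GoodB M (k₁ + k₂) := by
  have h1 := PartsAux.finrank_gs M hA
  rw [hl, Submodule.finrank_eq_zero] at h1
  obtain ⟨R, S, hg, _⟩ := PartsAux.guts_of M (A := A) (fun i : Fin 0 => i.elim0)
    (fun i => i.elim0) (fun i => i.elim0) (by
      intro ψ hψ
      rw [h1, Submodule.mem_bot] at hψ
      exact Or.inl hψ)
  have h2 : IsPart M (M.del A) (M.E \ A) (fun i : Fin 0 => i.elim0) S := by
    have h3 := isPart_del (M := M) (A := M.E \ A) Finset.sdiff_subset (fun i => i.elim0) S
    rwa [Finset.sdiff_sdiff_eq_self hA] at h3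
  exact goodB_glue (by omega) hA hg (isPart_del hA (fun i => i.elim0) R) h2 hk₁ hk₂ h₁ h₂

end Pool.Agent.H63.Sey
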