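import Pool.Agent.H63.Sey.Classify
import Pool.Agent.H63.Sey.Bridge
import Pool.Agent.H63.Sey.PtE
import Pool.Agent.H63.Sey.GdA
import Pool.Agent.H63.Sey.GdB

/-!
# All regular matroids have good descriptions (job SEY-G3)
-/

set_option autoImplicit false

namespace Pool.Agent.H63.Sey

open H63Mat Pool.Agent.H87.Sey

universe u

variable {α : Type u} [DecidableEq α]

lemma isPart_card_dc {k : ℕ} {M P : BM α} {A : Finset α} {z : Fin k → α} {R : Fin k → Finset α}
    (h : IsPart M P A z R) : P.E.card = A.card + k := by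
  rw [h.E_eq, Finset.card_union_of_disjoint, Finset.card_image_of_injective _ h.inj,
    Finset.card_univ, Fintype.card_fin]
  rw [Finset.disjoint_left]
  intro a ha ha'
  obtain ⟨i, -, rfl⟩ := Finset.mem_image.1 ha'
  exact h.z_nmem i ha

/-- Strong induction on `|M.E|`.
* If there is `X ⊆ M.E`, `X` and `M.E \ X` nonempty, `lam X = 0`: `goodB_one`, `hh_one`; the
  parts are minors (`isMinor_del`, `Regular.minor`).
* Otherwise, if there is `X ⊆ M.E`, `2 ≤ |X|, |M.E \ X|`, `lam X ≤ 1` (so `= 1`): `exists_guts1`,
  `exists_part1` for `X` and for `M.E \ X` (`Guts.symm`), `goodB_glue`, `hh_two`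
  (`|P.E| = |X| + 1`, by `IsPart.E_eq`, `inj`, `z_nmem`).
* Otherwise `M.Conn3`. `classify`: graphic, cographic, `R10` (ten elements): `k = 1`, `hh_pos`.
  `HasR12 M`: `exists_sep_of_hasR12` gives `X` with `|X|, |M.E \ X| ≥ 6`, `lam X ≤ 2`, so `= 2`
  by `Conn3`; `exists_guts3`, `exists_part3` for `X` and `M.E \ X` (`Guts.symm`; `Tri M S` from
  `Tri M R` by `Guts.eq`), `goodB_glue`, `hh_three` (`|P.E| = |X| + 3 ≥ 7`; `|X| + 3 < |M.E|`). -/
theorem exists_goodB (hT : TutteStmt α) (hS : S1Stmt α) {M : BM α} (hreg : Regular M) :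
    ∃ k, 1 ≤ k ∧ GoodB M k ∧ k ≤ hh M.E.card := by
  obtain ⟨n, hn⟩ : ∃ n, M.E.card = n := ⟨_, rfl⟩
  induction n using Nat.strong_induction_on generalizing M with
  | _ n ih =>
    by_cases h1 : ∃ X ⊆ M.E, X.Nonempty ∧ (M.E \ X).Nonempty ∧ M.lam X = 0
    · obtain ⟨X, hX, hX1, hX2, hl⟩ := h1
      have c := Finset.card_sdiff_add_card_eq_card hX
      have p1 := hX1.card_pos
      have p2 := hX2.card_pos
      have e1 : (M.del (M.E \ X)).E = X := by
        rw [LM.del_E, Finset.sdiff_sdiff_eq_self hX]
      have e2 : (M.del X).E = M.E \ X := rfl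
      obtain ⟨k1, a1, b1, c1⟩ := ih X.card (by omega)
        (Regular.minor hreg (M.isMinor_del (M.E \ X))) (by rw [e1])
      obtain ⟨k2, a2, b2, c2⟩ := ih (M.E \ X).card (by omega)
        (Regular.minor hreg (M.isMinor_del X)) (by rw [e2])
      refine ⟨k1 + k2, by omega, goodB_one hX hl a1 a2 b1 b2, ?_⟩
      have h3 := hh_one (a := X.card) (b := (M.E \ X).card) p1 p2
      have e3 : X.card + (M.E \ X).card = M.E.card := by omega
      rw [e3] at h3
      rw [e1] at c1
      rw [e2] at c2
      omega
    · push Not at h1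
      by_cases h2 : ∃ X ⊆ M.E, 2 ≤ X.card ∧ 2 ≤ (M.E \ X).card ∧ M.lam X ≤ 1
      · obtain ⟨X, hX, hX1, hX2, hl⟩ := h2
        have c := Finset.card_sdiff_add_card_eq_card hX
        have hl1 : M.lam X = 1 := by
          have := h1 X hX (Finset.card_pos.1 (by omega)) (Finset.card_pos.1 (by omega))
          omega
        obtain ⟨R, S, hG⟩ := exists_guts1 M hX hl1
        obtain ⟨P, z, hP, hPM, -⟩ := exists_part1 hX hG
        obtain ⟨P', z', hP', hPM', -⟩ := exists_part1 (A := M.E \ X) Finset.sdiff_subset
          (hG.symm hX)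
        have d1 := isPart_card_dc hP
        have d2 := isPart_card_dc hP'
        obtain ⟨k1, a1, b1, c1⟩ := ih P.E.card (by omega) (Regular.minor hreg hPM) rfl
        obtain ⟨k2, a2, b2, c2⟩ := ih P'.E.card (by omega) (Regular.minor hreg hPM') rfl
        refine ⟨k1 + k2, by omega,
          goodB_glue (by norm_num) hX hG hP hP' a1 a2 b1 b2, ?_⟩
        have h3 := hh_two (a := P.E.card) (b := P'.E.card) (by omega) (by omega)
        have e3 : P.E.card + P'.E.card - 2 = M.E.card := by omega
        rw [e3] at h3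
        omega
      · push Not at h2
        have hM : M.Conn3 := by
          refine ⟨fun X hX h3 h4 => ?_, fun X hX h3 h4 => ?_⟩
          · have := h1 X hX h3 h4
            omega
          · have := h2 X hX h3 h4
            omega
        have hp := hh_pos M.E.card
        rcases classify hT hS hM hreg with h | h | h | h
        · exact ⟨1, le_rfl, goodB_graphic h, hp⟩
        · exact ⟨1, le_rfl, goodB_cographic h, hp⟩
        · refine ⟨1, le_rfl, goodB_small ?_, hp⟩
          obtain ⟨ι, hι, h⟩ := h
          rw [h, conc_E, Finset.card_image_of_injective _ hι, Finset.card_univ, Fintype.card_fin]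
        · obtain ⟨X, hX, hX1, hX2, hl⟩ := exists_sep_of_hasR12 hreg h
          have c := Finset.card_sdiff_add_card_eq_card hX
          have hl2 : M.lam X = 2 := by
            have := hM.2 X hX (by omega) (by omega)
            omega
          obtain ⟨R, S, hG, hTR⟩ := exists_guts3 M hX hl2
          have hTS : Tri M S := by
            intro y hy
            rw [← hG.eq 0 y hy, ← hG.eq 1 y hy, ← hG.eq 2 y hy]
            exact hTR y hy
          obtain ⟨P, z, hP, hPM, -⟩ := exists_part3 hM hX hG hTR (by omega)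
          obtain ⟨P', z', hP', hPM', -⟩ := exists_part3 hM (A := M.E \ X) Finset.sdiff_subset
            (hG.symm hX) hTS (by rw [Finset.sdiff_sdiff_eq_self hX]; omega)
          have d1 := isPart_card_dc hP
          have d2 := isPart_card_dc hP'
          obtain ⟨k1, a1, b1, c1⟩ := ih P.E.card (by omega) (Regular.minor hreg hPM) rfl
          obtain ⟨k2, a2, b2, c2⟩ := ih P'.E.card (by omega) (Regular.minor hreg hPM') rfl
          refine ⟨k1 + k2, by omega,
            goodB_glue (by norm_num) hX hG hP hP' a1 a2 b1 b2, ?_⟩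
          have h3 := hh_three (a := P.E.card) (b := P'.E.card) (by omega) (by omega)
          have e3 : P.E.card + P'.E.card - 6 = M.E.card := by omega
          rw [e3] at h3
          omega

end Pool.Agent.H63.Sey
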