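import Mathlib

/-!
# Linear matroids on a finite ground set: framework for Seymour's decomposition theorem

`LM K α`: a matroid represented over the field `K`, given by its ground set `E` and its row space
(= cocycle space) `D ⊆ (α → K)`, all of whose members vanish outside `E`. Two such objects are
equal iff they have the same ground set and the same row space, so there are no isomorphisms to
carry around. `BM α = LM (ZMod 2) α`: binary matroids (for binary matroids the row space is
determined by the matroid). Elements outside `E` behave like loops.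
-/

set_option autoImplicit false

namespace Pool.Agent.H63.Sey

universe u

variable {K : Type} [Field K] {α : Type u} [DecidableEq α]

/-- restriction of a vector to the coordinates in `X` -/
def res (K : Type) [Field K] {α : Type u} [DecidableEq α] (X : Finset α) :
    (α → K) →ₗ[K] (α → K) where
  toFun x := fun a => if a ∈ X then x a else 0
  map_add' x y := by ext a; by_cases h : a ∈ X <;> simp [h]
  map_smul' c x := by ext a; by_cases h : a ∈ X <;> simp [h]

@[simp] lemma res_apply (X : Finset α) (x : α → K) (a : α) :
    res K X x a = if a ∈ X then x a else 0 := rfl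

/-- a matroid represented over `K`, given by ground set and row space -/
@[ext] structure LM (K : Type) [Field K] (α : Type u) where
  E : Finset α
  D : Submodule K (α → K)
  supp : ∀ x ∈ D, ∀ a, a ∉ E → x a = 0

/-- binary matroids -/
abbrev BM (α : Type u) := LM (ZMod 2) α

namespace LM

variable (M : LM K α)

/-- deletion of the elements of `X` -/
def del (X : Finset α) : LM K α where
  E := M.E \ X
  D := M.D.map (res K (M.E \ X))
  supp := by
    rintro x ⟨y, _, rfl⟩ a ha
    simp [ha]

/-- contraction of the elements of `X` -/
def con (X : Finset α) : LM K α where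
  E := M.E \ X
  D := M.D ⊓ LinearMap.ker (res K X)
  supp := by
    rintro x ⟨hx, hx'⟩ a ha
    rw [SetLike.mem_coe, LinearMap.mem_ker] at hx'
    by_cases h : a ∈ X
    · have := congrFun hx' a
      simpa [h] using this
    · exact M.supp x hx a fun h' => ha (Finset.mem_sdiff.2 ⟨h', h⟩)

/-- the dual matroid -/
def dual : LM K α where
  E := M.E
  D :=
    { carrier := {y | (∀ a, a ∉ M.E → y a = 0) ∧ ∀ x ∈ M.D, ∑ a ∈ M.E, x a * y a = 0}
      add_mem' := by
        rintro y z ⟨hy, hy'⟩ ⟨hz, hz'⟩
        refine ⟨fun a ha => by simp [hy a ha, hz a ha], fun x hx => ?_⟩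
        simp only [Pi.add_apply, mul_add, Finset.sum_add_distrib, hy' x hx, hz' x hx, add_zero]
      zero_mem' := ⟨fun _ _ => rfl, fun x _ => by simp⟩
      smul_mem' := by
        rintro c y ⟨hy, hy'⟩
        refine ⟨fun a ha => by simp [hy a ha], fun x hx => ?_⟩
        have : ∑ a ∈ M.E, x a * (c • y) a = c * ∑ a ∈ M.E, x a * y a := by
          rw [Finset.mul_sum]
          exact Finset.sum_congr rfl fun a _ => by simp only [Pi.smul_apply, smul_eq_mul]; ring
        rw [this, hy' x hx, mul_zero] }
  supp := fun _ hy => hy.1

/-- the rank of a set of elements -/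
noncomputable def rk (X : Finset α) : ℕ := Module.finrank K (M.D.map (res K X))

/-- `a` is in the closure of `X` (every element outside `E` is) -/
def InCl (X : Finset α) (a : α) : Prop := ∀ x ∈ M.D, (∀ b ∈ X, x b = 0) → x a = 0

/-- the connectivity function `r(X) + r(E - X) - r(E)` -/
noncomputable def lam (X : Finset α) : ℕ := M.rk X + M.rk (M.E \ X) - M.rk M.E

/-- `M` is `3`-connected -/
def Conn3 : Prop :=
  (∀ X ⊆ M.E, X.Nonempty → (M.E \ X).Nonempty → 1 ≤ M.lam X) ∧
  ∀ X ⊆ M.E, 2 ≤ X.card → 2 ≤ (M.E \ X).card → 2 ≤ M.lam X

/-- `M` is internally `4`-connected: `3`-connected without a `3`-separation both sides of which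
have at least four elements -/
def I4c : Prop :=
  M.Conn3 ∧ ∀ X ⊆ M.E, 4 ≤ X.card → 4 ≤ (M.E \ X).card → 3 ≤ M.lam X

/-- `N` is a minor of `M` -/
def IsMinor (N M : LM K α) : Prop := ∃ C D : Finset α, Disjoint C D ∧ N = (M.con C).del D

/-- the rows of a vector configuration -/
def rowMap {Q : Type*} [AddCommGroup Q] [Module K Q] (E : Finset α) (ρ : α → Q) :
    (Q →ₗ[K] K) →ₗ[K] (α → K) where
  toFun φ := fun a => if a ∈ E then φ (ρ a) else 0
  map_add' φ ψ := by ext a; by_cases h : a ∈ E <;> simp [h]
  map_smul' c φ := by ext a; by_cases h : a ∈ E <;> simp [h]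

/-- the matroid of a vector configuration -/
def ofVec {Q : Type*} [AddCommGroup Q] [Module K Q] (E : Finset α) (ρ : α → Q) : LM K α where
  E := E
  D := LinearMap.range (rowMap E ρ)
  supp := by
    rintro x ⟨φ, rfl⟩ a ha
    simp [rowMap, ha]

end LM

/-- the coboundary map of a graph with edges `a ∈ E`, ends `f a` and `g a` -/
def cob {V : Type*} (E : Finset α) (f g : α → V) : (V → ZMod 2) →ₗ[ZMod 2] (α → ZMod 2) where
  toFun φ := fun a => if a ∈ E then φ (f a) + φ (g a) else 0
  map_add' φ ψ := by
    ext a
    by_cases h : a ∈ E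
    · simp only [h, if_true, Pi.add_apply]; ring
    · simp [h]
  map_smul' c φ := by
    ext a
    by_cases h : a ∈ E
    · simp only [h, if_true, Pi.smul_apply, smul_eq_mul, RingHom.id_apply]; ring
    · simp [h]

@[simp] lemma cob_apply {V : Type*} (E : Finset α) (f g : α → V) (φ : V → ZMod 2) (a : α) :
    cob E f g φ a = if a ∈ E then φ (f a) + φ (g a) else 0 := rfl

/-- cycle matroid of the graph with edges `a ∈ E`, ends `f a` and `g a`: the row space consists of
the cuts -/
def cyc {V : Type*} (E : Finset α) (f g : α → V) : BM α where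
  E := E
  D := LinearMap.range (cob E f g)
  supp := by
    rintro x ⟨φ, rfl⟩ a ha
    simp [ha]

/-- graphic binary matroids -/
def Graphic (M : BM α) : Prop := ∃ (n : ℕ) (f g : α → Fin n), M = cyc M.E f g

/-- cographic binary matroids -/
def Cographic (M : BM α) : Prop := Graphic M.dual

/-- `M` is regular: some matroid represented over `GF(3)` has the same rank function -/
def Regular (M : BM α) : Prop :=
  ∃ M3 : LM (ZMod 3) α, M3.E = M.E ∧ ∀ X ⊆ M.E, M3.rk X = M.rk X

end Pool.Agent.H63.Sey
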