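import Pool.Agent.H63.Sey.DispDef
import Pool.Agent.H63.Sey.FinB
import Pool.Agent.H63.Sey.BrDual

/-!
# Displays of R12 (job SEY-I5)
-/

set_option autoImplicit false

namespace Pool.Agent.H63.Sey

universe u

variable {α : Type u} [DecidableEq α]

/-! ### ranks in concrete matroids -/

lemma dA_rk_of_indep {M : BM α} {X : Finset α}
    (h : ∀ a ∈ X, ∃ x ∈ M.D, x a ≠ 0 ∧ ∀ b ∈ X, b ≠ a → x b = 0) : M.rk X = X.card := by
  obtain ⟨B, hBX, h1, h2⟩ := LM.exists_basis M X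
  by_cases hB : B = X
  · rw [← h1, hB]
  · exfalso
    obtain ⟨a, haX, haB⟩ : ∃ a ∈ X, a ∉ B := by
      by_contra hcon
      push Not at hcon
      exact hB (Finset.Subset.antisymm hBX hcon)
    obtain ⟨x, hx, hxa, hxb⟩ := h a haX
    apply hxa
    refine LM.inCl_of_rk_le M hBX (le_of_eq h2.symm) haX x hx fun b hb => hxb b (hBX hb) ?_
    rintro rfl
    exact haB hb

lemma dA_rk_conc {n r : ℕ} {v : Fin n → Fin r → ZMod 2} {ι : Fin n → α}
    (hι : Function.Injective ι) (S B : Finset (Fin n)) (hBS : B ⊆ S)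
    (h1 : ∀ b ∈ B, ∃ φ : Fin r → ZMod 2, ∑ j, φ j * v b j ≠ 0 ∧
      ∀ b' ∈ B, b' ≠ b → ∑ j, φ j * v b' j = 0)
    (h2 : ∀ s ∈ S, ∀ φ : Fin r → ZMod 2, (∀ b ∈ B, ∑ j, φ j * v b j = 0) →
      ∑ j, φ j * v s j = 0) : (conc v ι).rk (S.image ι) = B.card := by
  have e1 : (conc v ι).rk (B.image ι) = B.card := by
    rw [dA_rk_of_indep, Finset.card_image_of_injective _ hι]
    intro a ha
    obtain ⟨b, hb, rfl⟩ := Finset.mem_image.1 ha
    obtain ⟨φ, hφ1, hφ2⟩ := h1 b hb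
    refine ⟨concMap v ι φ, ⟨φ, rfl⟩, ?_, ?_⟩
    · rw [concMap_mem v hι]
      exact hφ1
    · intro c hc hcb
      obtain ⟨b', hb', rfl⟩ := Finset.mem_image.1 hc
      rw [concMap_mem v hι]
      exact hφ2 b' hb' fun h => hcb (by rw [h])
  rw [← e1]
  have e2 : B.image ι ∪ S.image ι = S.image ι := by
    rw [← Finset.image_union, Finset.union_eq_right.2 hBS]
  rw [← e2]
  apply LM.rk_union_eq_of_inCl
  intro a ha
  obtain ⟨s, hs, rfl⟩ := Finset.mem_image.1 ha
  rintro x ⟨φ, rfl⟩ hx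
  rw [concMap_mem v hι]
  apply h2 s hs
  intro b hb
  rw [← concMap_mem v hι]
  exact hx _ (Finset.mem_image.2 ⟨b, hb, rfl⟩)

lemma dA_rk_P {ι : Fin 12 → α} (hι : Function.Injective ι) : (conc r12 ι).rk (Pset ι) = 4 := by
  have := dA_rk_conc (v := r12) hι (Finset.univ.filter fun i : Fin 12 => i < 6) {0, 1, 3, 4}
    (by decide) (by decide +kernel) (by decide +kernel)
  exact this

lemma dA_rk_Q {ι : Fin 12 → α} (hι : Function.Injective ι) : (conc r12 ι).rk (Qset ι) = 4 := by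
  have := dA_rk_conc (v := r12) hι (Finset.univ.filter fun i : Fin 12 => 6 ≤ i) {6, 7, 8, 9}
    (by decide) (by decide +kernel) (by decide +kernel)
  exact this

lemma dA_rk_E {ι : Fin 12 → α} (hι : Function.Injective ι) :
    (conc r12 ι).rk (Finset.univ.image ι) = 6 := by
  have := dA_rk_conc (v := r12) hι Finset.univ {0, 1, 3, 4, 6, 9}
    (by decide) (by decide +kernel) (by decide +kernel)
  exact this

/-! ### displays -/

/-- (SEY-I5) -/
lemma exists_disp {M : BM α} (h : HasR12 M) : ∃ C D ι, Disp M C D ι := by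
  obtain ⟨ι, hι, hm⟩ := h
  obtain ⟨C, D, h1, h2, h3, h4, h5⟩ := hm.exists_indep
  refine ⟨C, D, ι, hι, h1, h3.symm, ?_, h4, h5⟩
  have h6 := hm.E_subset
  rw [conc_E] at h2 h6
  rw [Finset.union_assoc, h2, Finset.union_sdiff_of_subset h6]

lemma Disp.dA_E {M : BM α} {C D : Finset α} {ι : Fin 12 → α} (h : Disp M C D ι) :
    (M.E \ C) \ D = Finset.univ.image ι := by
  have := congrArg LM.E h.minor
  simpa using this

lemma Disp.dA_not {M : BM α} {C D : Finset α} {ι : Fin 12 → α} (h : Disp M C D ι) (i : Fin 12) :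
    ι i ∈ M.E ∧ ι i ∉ C ∧ ι i ∉ D := by
  have h1 : ι i ∈ (M.E \ C) \ D := by
    rw [h.dA_E]
    exact Finset.mem_image.2 ⟨i, Finset.mem_univ _, rfl⟩
  rw [Finset.mem_sdiff, Finset.mem_sdiff] at h1
  exact ⟨h1.1.1, h1.1.2, h1.2⟩

lemma dA_PQ (ι : Fin 12 → α) : Pset ι ∪ Qset ι = Finset.univ.image ι := by
  unfold Pset Qset
  rw [← Finset.image_union]
  congr 1

/-- (SEY-I5) `rk_N (P) = rk_N (Q) = 4`, `rk N = 6`, `rk_M (P ∪ C) = 4 + |C|`, etc. -/
lemma Disp.setup {M : BM α} {C D : Finset α} {ι : Fin 12 → α} (h : Disp M C D ι) :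
    Setup M (Pset ι) (Qset ι) C D := by
  have hPι : ∀ a ∈ Pset ι, ∃ i, i < 6 ∧ ι i = a := by
    intro a ha
    obtain ⟨i, hi, rfl⟩ := Finset.mem_image.1 ha
    exact ⟨i, (Finset.mem_filter.1 hi).2, rfl⟩
  have hQι : ∀ a ∈ Qset ι, ∃ i, 6 ≤ i ∧ ι i = a := by
    intro a ha
    obtain ⟨i, hi, rfl⟩ := Finset.mem_image.1 ha
    exact ⟨i, (Finset.mem_filter.1 hi).2, rfl⟩
  have hrk : ∀ X : Finset α, Disjoint X D → M.rk (X ∪ C) = (conc r12 ι).rk X + M.rk C := by
    intro X hX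
    rw [← h.minor, LM.rk_del, Finset.sdiff_eq_self_of_disjoint hX, LM.rk_con]
  have hPD : Disjoint (Pset ι) D := by
    rw [Finset.disjoint_left]
    intro a ha
    obtain ⟨i, -, rfl⟩ := hPι a ha
    exact (h.dA_not i).2.2
  have hQD : Disjoint (Qset ι) D := by
    rw [Finset.disjoint_left]
    intro a ha
    obtain ⟨i, -, rfl⟩ := hQι a ha
    exact (h.dA_not i).2.2
  have hED : Disjoint (Finset.univ.image ι) D := by
    rw [← dA_PQ]
    exact Finset.disjoint_union_left.2 ⟨hPD, hQD⟩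
  have hE : Finset.univ.image ι ∪ C = M.E \ D := by
    ext a
    rw [← h.dA_E]
    simp only [Finset.mem_union, Finset.mem_sdiff]
    have h1 : a ∈ C → a ∈ M.E ∧ a ∉ D := by
      intro ha
      refine ⟨?_, fun hb => Finset.disjoint_left.1 h.disj ha hb⟩
      rw [← h.union]
      simp [ha]
    tauto
  refine ⟨?_, ?_, hPD, ?_, hQD, h.disj, ?_, h.indep, ?_, ?_⟩
  · rw [Finset.disjoint_left]
    intro a ha hb
    obtain ⟨i, hi, rfl⟩ := hPι a ha
    obtain ⟨j, hj, hij⟩ := hQι _ hb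
    rw [h.inj hij] at hj
    exact absurd hi (not_lt.2 hj)
  · rw [Finset.disjoint_left]
    intro a ha
    obtain ⟨i, -, rfl⟩ := hPι a ha
    exact (h.dA_not i).2.1
  · rw [Finset.disjoint_left]
    intro a ha
    obtain ⟨i, -, rfl⟩ := hQι a ha
    exact (h.dA_not i).2.1
  · rw [dA_PQ]
    exact h.union
  · rw [dA_PQ, hE]
    exact h.span
  · rw [hrk _ hPD, hrk _ hQD, dA_rk_P h.inj, dA_rk_Q h.inj, ← h.span, ← hE, hrk _ hED,
      dA_rk_E h.inj]
    ring

lemma dA_add_inj : Function.Injective fun i : Fin 12 => i + 6 := add_left_injective 6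

/-- (SEY-I5) the dual display; `P` and `Q` are exchanged -/
lemma Disp.dual {M : BM α} {C D : Finset α} {ι : Fin 12 → α} (h : Disp M C D ι) :
    Disp M.dual D C (fun i => ι (i + 6)) := by
  have hE : ∀ a, a ∈ C → a ∈ M.E := by
    intro a ha
    rw [← h.union]
    simp [ha]
  have hE' : ∀ a, a ∈ D → a ∈ M.E := by
    intro a ha
    rw [← h.union]
    simp [ha]
  refine ⟨h.inj.comp dA_add_inj, h.disj.symm, ?_, ?_, ?_, ?_⟩
  · rw [← r12_dual h.inj, ← h.minor, LM.dual_del, LM.dual_con, LM.con_del _ h.disj.symm]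
  · have h1 : Finset.univ.image (fun i => ι (i + 6)) = Finset.univ.image ι := by
      rw [show (fun i : Fin 12 => ι (i + 6)) = ι ∘ (fun i => i + 6) from rfl, ← Finset.image_image]
      congr 1
      decide
    rw [h1, Finset.union_right_comm]
    exact h.union
  · have h1 := M.rk_dual D (fun a ha => hE' a ha)
    rw [h.span] at h1
    omega
  · show M.dual.rk (M.E \ C) = M.dual.rk M.E
    have h1 := M.rk_dual (M.E \ C) Finset.sdiff_subset
    have h2 := M.rk_dual M.E (Finset.Subset.refl _)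
    have h3 : M.E \ (M.E \ C) = C := by
      rw [Finset.sdiff_sdiff_eq_self]
      exact fun a ha => hE a ha
    rw [h3, h.indep] at h1
    rw [Finset.sdiff_self, LM.rk_empty] at h2
    have h4 := Finset.card_sdiff_add_card_eq_card (s := C) (t := M.E) (fun a ha => hE a ha)
    omega

lemma pset_add (ι : Fin 12 → α) : Pset (fun i => ι (i + 6)) = Qset ι := by
  unfold Pset Qset
  rw [show (fun i : Fin 12 => ι (i + 6)) = ι ∘ (fun i => i + 6) from rfl, ← Finset.image_image]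
  congr 1

lemma qset_add (ι : Fin 12 → α) : Qset (fun i => ι (i + 6)) = Pset ι := by
  unfold Pset Qset
  rw [show (fun i : Fin 12 => ι (i + 6)) = ι ∘ (fun i => i + 6) from rfl, ← Finset.image_image]
  congr 1

/-- (SEY-I5) the cocycles of `M` vanishing on `C` have coordinates -/
lemma Disp.exists_coord {M : BM α} {C D : Finset α} {ι : Fin 12 → α} (h : Disp M C D ι)
    {x : α → ZMod 2} (hx : x ∈ M.D) (hC : ∀ b ∈ C, x b = 0) :
    ∃ φ : Fin 6 → ZMod 2, ∀ i, x (ι i) = ∑ j, φ j * r12 i j := by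
  have h1 : (fun a => if a ∈ D then 0 else x a) ∈ ((M.con C).del D).D := by
    rw [LM.mem_del]
    refine ⟨fun a ha => by simp [ha], x, ?_, fun a ha => by simp [ha]⟩
    rw [LM.mem_con]
    exact ⟨hx, hC⟩
  rw [h.minor, mem_conc h.inj] at h1
  obtain ⟨-, φ, hφ⟩ := h1
  refine ⟨φ, fun i => ?_⟩
  rw [← hφ i, if_neg (h.dA_not i).2.2]

/-- (SEY-I5) -/
lemma Disp.exists_cocycle {M : BM α} {C D : Finset α} {ι : Fin 12 → α} (h : Disp M C D ι)
    (φ : Fin 6 → ZMod 2) :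
    ∃ x ∈ M.D, (∀ b ∈ C, x b = 0) ∧ ∀ i, x (ι i) = ∑ j, φ j * r12 i j := by
  have h1 : concMap r12 ι φ ∈ ((M.con C).del D).D := by
    rw [h.minor]
    exact ⟨φ, rfl⟩
  rw [LM.mem_del] at h1
  obtain ⟨-, y, hy, hy'⟩ := h1
  rw [LM.mem_con] at hy
  refine ⟨y, hy.1, hy.2, fun i => ?_⟩
  rw [← hy' _ (h.dA_not i).2.2, concMap_mem r12 h.inj]

end Pool.Agent.H63.Sey
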