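import Pool.Agent.H63.Sey.FinDef

/-!
# Finite facts: extensions of R12 (job SEY-F1)

Use `not_regular_of_cert`, `not_regular_of_certD`; certificates: scratch python `team-store
h63_sey_cert.py`.
-/

set_option autoImplicit false

namespace Pool.Agent.H63.Sey

universe u

variable {α : Type u} [DecidableEq α]

/-- data of a certificate for a Fano minor of `R12 + w` -/
private structure FCert where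
  w : Fin 6 → ZMod 2
  cs : List (Fin 13)
  T : Fin 6 → Fin 3 → ZMod 2
  s : Fin 7 → Fin 13

/-- the conditions of `MinorCert` -/
private def FCert.Ok (d : FCert) : Prop :=
  (∀ i j, d.s i = d.s j → i = j) ∧ (∀ c ∈ d.cs, ∀ i, d.s i ≠ c) ∧
    (∀ c ∈ d.cs, ∀ k, ∑ j, snocv r12 d.w c j * d.T j k = 0) ∧
    (∀ i k, ∑ j, snocv r12 d.w (d.s i) j * d.T j k = fano i k) ∧
    ∀ φ : Fin 6 → ZMod 2, (∀ c ∈ d.cs, ∑ j, φ j * snocv r12 d.w c j = 0) →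
      ∃ ψ : Fin 3 → ZMod 2, ∀ j, φ j = ∑ k, ψ k * d.T j k

private instance (d : FCert) : Decidable d.Ok := by
  unfold FCert.Ok
  infer_instance

/-- the 47 certificates -/
private def fcerts : List FCert :=
  [⟨![0, 1, 1, 0, 0, 0], [0, 6, 9],
      ![![0, 0, 0], ![1, 0, 0], ![0, 1, 0], ![0, 0, 1], ![0, 0, 0], ![0, 0, 0]],
      ![1, 3, 12, 4, 8, 5, 7]⟩,
    ⟨![1, 1, 1, 0, 0, 0], [0, 6, 9],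
      ![![0, 0, 0], ![1, 0, 0], ![0, 1, 0], ![0, 0, 1], ![0, 0, 0], ![0, 0, 0]],
      ![1, 3, 12, 4, 8, 5, 7]⟩,
    ⟨![1, 0, 0, 1, 0, 0], [1, 6, 10],
      ![![1, 1, 1], ![0, 0, 0], ![1, 0, 0], ![0, 1, 0], ![0, 0, 0], ![0, 0, 1]],
      ![3, 4, 5, 7, 12, 11, 0]⟩,
    ⟨![1, 1, 0, 1, 0, 0], [1, 6, 10],
      ![![1, 1, 1], ![0, 0, 0], ![1, 0, 0], ![0, 1, 0], ![0, 0, 0], ![0, 0, 1]],
      ![3, 4, 5, 7, 12, 11, 0]⟩,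
    ⟨![1, 0, 1, 1, 0, 0], [2, 6, 10],
      ![![1, 0, 0], ![1, 0, 0], ![0, 1, 1], ![0, 1, 0], ![0, 0, 0], ![0, 0, 1]],
      ![0, 4, 8, 5, 12, 3, 11]⟩,
    ⟨![0, 1, 1, 1, 0, 0], [2, 6, 10],
      ![![1, 0, 0], ![1, 0, 0], ![0, 1, 1], ![0, 1, 0], ![0, 0, 0], ![0, 0, 1]],
      ![0, 4, 8, 5, 12, 3, 11]⟩,
    ⟨![1, 0, 0, 0, 1, 0], [1, 3, 9],
      ![![1, 0, 0], ![0, 0, 0], ![0, 0, 0], ![0, 1, 0], ![0, 0, 1], ![0, 0, 0]],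
      ![0, 4, 10, 6, 12, 8, 7]⟩,
    ⟨![0, 1, 0, 0, 1, 0], [2, 3, 9],
      ![![1, 0, 0], ![1, 0, 0], ![0, 0, 0], ![0, 1, 0], ![0, 0, 1], ![0, 0, 0]],
      ![0, 4, 11, 6, 12, 7, 8]⟩,
    ⟨![1, 1, 0, 0, 1, 0], [1, 3, 9],
      ![![1, 0, 0], ![0, 0, 0], ![0, 0, 0], ![0, 1, 0], ![0, 0, 1], ![0, 0, 0]],
      ![0, 4, 10, 6, 12, 8, 7]⟩,
    ⟨![0, 0, 1, 0, 1, 0], [0, 1, 9],
      ![![0, 0, 0], ![0, 0, 0], ![1, 0, 0], ![0, 1, 0], ![0, 0, 1], ![0, 0, 0]],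
      ![3, 4, 5, 6, 12, 8, 7]⟩,
    ⟨![1, 0, 1, 0, 1, 0], [0, 1, 9],
      ![![0, 0, 0], ![0, 0, 0], ![1, 0, 0], ![0, 1, 0], ![0, 0, 1], ![0, 0, 0]],
      ![3, 4, 5, 6, 12, 8, 7]⟩,
    ⟨![0, 1, 1, 0, 1, 0], [0, 1, 9],
      ![![0, 0, 0], ![0, 0, 0], ![1, 0, 0], ![0, 1, 0], ![0, 0, 1], ![0, 0, 0]],
      ![3, 4, 5, 6, 12, 8, 7]⟩,
    ⟨![1, 1, 1, 0, 1, 0], [0, 1, 9],
      ![![0, 0, 0], ![0, 0, 0], ![1, 0, 0], ![0, 1, 0], ![0, 0, 1], ![0, 0, 0]],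
      ![3, 4, 5, 6, 12, 8, 7]⟩,
    ⟨![0, 0, 0, 1, 1, 0], [0, 5, 9],
      ![![0, 0, 0], ![1, 0, 0], ![0, 1, 0], ![0, 1, 0], ![0, 0, 1], ![0, 0, 0]],
      ![1, 3, 11, 6, 7, 12, 8]⟩,
    ⟨![1, 0, 0, 1, 1, 0], [0, 5, 9],
      ![![0, 0, 0], ![1, 0, 0], ![0, 1, 0], ![0, 1, 0], ![0, 0, 1], ![0, 0, 0]],
      ![1, 3, 11, 6, 7, 12, 8]⟩,
    ⟨![1, 1, 0, 1, 1, 0], [1, 5, 10],
      ![![0, 0, 1], ![0, 0, 0], ![1, 0, 0], ![1, 0, 0], ![0, 1, 0], ![0, 0, 1]],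
      ![3, 6, 8, 0, 11, 7, 12]⟩,
    ⟨![0, 0, 1, 1, 1, 0], [0, 4, 9],
      ![![0, 0, 0], ![1, 0, 0], ![0, 1, 0], ![0, 0, 0], ![0, 0, 1], ![0, 0, 0]],
      ![1, 3, 10, 6, 8, 12, 7]⟩,
    ⟨![1, 0, 1, 1, 1, 0], [0, 4, 9],
      ![![0, 0, 0], ![1, 0, 0], ![0, 1, 0], ![0, 0, 0], ![0, 0, 1], ![0, 0, 0]],
      ![1, 3, 10, 6, 8, 12, 7]⟩,
    ⟨![0, 1, 1, 1, 1, 0], [2, 4, 10],
      ![![1, 0, 0], ![1, 0, 0], ![0, 0, 1], ![0, 0, 0], ![0, 1, 0], ![0, 0, 1]],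
      ![0, 6, 8, 3, 11, 7, 12]⟩,
    ⟨![1, 0, 0, 0, 0, 1], [1, 3, 6],
      ![![1, 0, 0], ![0, 0, 0], ![0, 0, 0], ![0, 1, 0], ![0, 0, 0], ![0, 0, 1]],
      ![0, 4, 7, 9, 12, 11, 10]⟩,
    ⟨![0, 1, 0, 0, 0, 1], [2, 3, 6],
      ![![1, 0, 0], ![1, 0, 0], ![0, 0, 0], ![0, 1, 0], ![0, 0, 0], ![0, 0, 1]],
      ![0, 4, 8, 9, 12, 10, 11]⟩,
    ⟨![1, 1, 0, 0, 0, 1], [1, 3, 6],
      ![![1, 0, 0], ![0, 0, 0], ![0, 0, 0], ![0, 1, 0], ![0, 0, 0], ![0, 0, 1]],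
      ![0, 4, 7, 9, 12, 11, 10]⟩,
    ⟨![0, 0, 1, 0, 0, 1], [0, 1, 6],
      ![![0, 0, 0], ![0, 0, 0], ![1, 0, 0], ![0, 1, 0], ![0, 0, 0], ![0, 0, 1]],
      ![3, 4, 5, 9, 12, 11, 10]⟩,
    ⟨![1, 0, 1, 0, 0, 1], [0, 1, 6],
      ![![0, 0, 0], ![0, 0, 0], ![1, 0, 0], ![0, 1, 0], ![0, 0, 0], ![0, 0, 1]],
      ![3, 4, 5, 9, 12, 11, 10]⟩,
    ⟨![0, 1, 1, 0, 0, 1], [0, 1, 6],
      ![![0, 0, 0], ![0, 0, 0], ![1, 0, 0], ![0, 1, 0], ![0, 0, 0], ![0, 0, 1]],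
      ![3, 4, 5, 9, 12, 11, 10]⟩,
    ⟨![1, 1, 1, 0, 0, 1], [0, 1, 6],
      ![![0, 0, 0], ![0, 0, 0], ![1, 0, 0], ![0, 1, 0], ![0, 0, 0], ![0, 0, 1]],
      ![3, 4, 5, 9, 12, 11, 10]⟩,
    ⟨![0, 0, 0, 1, 0, 1], [0, 5, 6],
      ![![0, 0, 0], ![1, 0, 0], ![0, 1, 0], ![0, 1, 0], ![0, 0, 0], ![0, 0, 1]],
      ![1, 3, 8, 9, 10, 12, 11]⟩,
    ⟨![1, 0, 0, 1, 0, 1], [0, 5, 6],
      ![![0, 0, 0], ![1, 0, 0], ![0, 1, 0], ![0, 1, 0], ![0, 0, 0], ![0, 0, 1]],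
      ![1, 3, 8, 9, 10, 12, 11]⟩,
    ⟨![1, 1, 0, 1, 0, 1], [1, 5, 7],
      ![![0, 1, 0], ![0, 0, 0], ![1, 0, 0], ![1, 0, 0], ![0, 1, 0], ![0, 0, 1]],
      ![3, 0, 8, 9, 11, 10, 12]⟩,
    ⟨![0, 0, 1, 1, 0, 1], [0, 4, 6],
      ![![0, 0, 0], ![1, 0, 0], ![0, 1, 0], ![0, 0, 0], ![0, 0, 0], ![0, 0, 1]],
      ![1, 3, 7, 9, 11, 12, 10]⟩,
    ⟨![1, 0, 1, 1, 0, 1], [0, 4, 6],
      ![![0, 0, 0], ![1, 0, 0], ![0, 1, 0], ![0, 0, 0], ![0, 0, 0], ![0, 0, 1]],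
      ![1, 3, 7, 9, 11, 12, 10]⟩,
    ⟨![0, 1, 1, 1, 0, 1], [2, 4, 7],
      ![![1, 0, 0], ![1, 0, 0], ![0, 1, 0], ![0, 0, 0], ![0, 1, 0], ![0, 0, 1]],
      ![0, 3, 8, 9, 11, 10, 12]⟩,
    ⟨![1, 0, 0, 0, 1, 1], [1, 3, 6],
      ![![1, 0, 0], ![0, 0, 0], ![0, 0, 0], ![0, 1, 0], ![0, 0, 0], ![0, 0, 1]],
      ![0, 4, 7, 9, 12, 11, 10]⟩,
    ⟨![0, 1, 0, 0, 1, 1], [0, 4, 7],
      ![![0, 0, 0], ![1, 1, 0], ![1, 0, 0], ![0, 0, 0], ![0, 1, 0], ![0, 0, 1]],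
      ![3, 6, 1, 9, 12, 10, 11]⟩,
    ⟨![1, 1, 0, 0, 1, 1], [0, 4, 7],
      ![![0, 0, 0], ![1, 1, 0], ![1, 0, 0], ![0, 0, 0], ![0, 1, 0], ![0, 0, 1]],
      ![3, 6, 1, 9, 12, 10, 11]⟩,
    ⟨![0, 0, 1, 0, 1, 1], [0, 1, 6],
      ![![0, 0, 0], ![0, 0, 0], ![1, 0, 0], ![0, 1, 0], ![0, 0, 0], ![0, 0, 1]],
      ![3, 4, 5, 9, 12, 11, 10]⟩,
    ⟨![1, 0, 1, 0, 1, 1], [0, 1, 6],
      ![![0, 0, 0], ![0, 0, 0], ![1, 0, 0], ![0, 1, 0], ![0, 0, 0], ![0, 0, 1]],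
      ![3, 4, 5, 9, 12, 11, 10]⟩,
    ⟨![0, 1, 1, 0, 1, 1], [0, 1, 6],
      ![![0, 0, 0], ![0, 0, 0], ![1, 0, 0], ![0, 1, 0], ![0, 0, 0], ![0, 0, 1]],
      ![3, 4, 5, 9, 12, 11, 10]⟩,
    ⟨![1, 1, 1, 0, 1, 1], [0, 1, 6],
      ![![0, 0, 0], ![0, 0, 0], ![1, 0, 0], ![0, 1, 0], ![0, 0, 0], ![0, 0, 1]],
      ![3, 4, 5, 9, 12, 11, 10]⟩,
    ⟨![0, 0, 0, 1, 1, 1], [0, 1, 7],
      ![![0, 0, 0], ![0, 0, 0], ![1, 1, 0], ![1, 0, 0], ![0, 1, 0], ![0, 0, 1]],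
      ![4, 5, 3, 9, 11, 10, 12]⟩,
    ⟨![1, 0, 0, 1, 1, 1], [0, 1, 7],
      ![![0, 0, 0], ![0, 0, 0], ![1, 1, 0], ![1, 0, 0], ![0, 1, 0], ![0, 0, 1]],
      ![4, 5, 3, 9, 11, 10, 12]⟩,
    ⟨![0, 1, 0, 1, 1, 1], [0, 1, 7],
      ![![0, 0, 0], ![0, 0, 0], ![1, 1, 0], ![1, 0, 0], ![0, 1, 0], ![0, 0, 1]],
      ![4, 5, 3, 9, 11, 10, 12]⟩,
    ⟨![1, 1, 0, 1, 1, 1], [0, 1, 7],
      ![![0, 0, 0], ![0, 0, 0], ![1, 1, 0], ![1, 0, 0], ![0, 1, 0], ![0, 0, 1]],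
      ![4, 5, 3, 9, 11, 10, 12]⟩,
    ⟨![0, 0, 1, 1, 1, 1], [0, 1, 8],
      ![![0, 0, 0], ![0, 0, 0], ![1, 0, 0], ![0, 1, 0], ![0, 1, 0], ![0, 0, 1]],
      ![3, 4, 5, 9, 12, 11, 10]⟩,
    ⟨![1, 0, 1, 1, 1, 1], [0, 1, 8],
      ![![0, 0, 0], ![0, 0, 0], ![1, 0, 0], ![0, 1, 0], ![0, 1, 0], ![0, 0, 1]],
      ![3, 4, 5, 9, 12, 11, 10]⟩,
    ⟨![0, 1, 1, 1, 1, 1], [0, 1, 8],
      ![![0, 0, 0], ![0, 0, 0], ![1, 0, 0], ![0, 1, 0], ![0, 1, 0], ![0, 0, 1]],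
      ![3, 4, 5, 9, 12, 11, 10]⟩,
    ⟨![1, 1, 1, 1, 1, 1], [0, 1, 8],
      ![![0, 0, 0], ![0, 0, 0], ![1, 0, 0], ![0, 1, 0], ![0, 1, 0], ![0, 0, 1]],
      ![3, 4, 5, 9, 12, 11, 10]⟩]

private theorem fcerts_ok : ∀ d ∈ fcerts, d.Ok := by
  decide +kernel

private theorem fcerts_cover : ∀ w : Fin 6 → ZMod 2, Good12 w ∨ ∃ d ∈ fcerts, d.w = w := by
  unfold Good12
  decide +kernel

/-- (SEY-F1) every other one-element extension of `R12` has a minor `F7` or `F7*` (47 vectors,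
one certificate each) -/
theorem good12_of_regular {w : Fin 6 → ZMod 2} {ι : Fin 13 → α} (hι : Function.Injective ι)
    (h : Regular (conc (snocv r12 w) ι)) : Good12 w := by
  rcases fcerts_cover w with hw | ⟨d, hd, rfl⟩
  · exact hw
  · exfalso
    obtain ⟨h1, h2, h3, h4, h5⟩ := fcerts_ok d hd
    exact not_regular_of_cert (s := d.s) (cs := d.cs) (T := d.T)
      ⟨fun i j => h1 i j, h2, h3, h4, h5⟩ hι h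

end Pool.Agent.H63.Sey
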