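import Pool.Agent.H63.Sey.DispA
import Pool.Agent.H63.Sey.FinA

/-!
# Columns of a display (job SEY-I6)
-/

set_option autoImplicit false

namespace Pool.Agent.H63.Sey

universe u

variable {α : Type u} [DecidableEq α]

private lemma disp_im {M : BM α} {C D : Finset α} {ι : Fin 12 → α} (h : Disp M C D ι) (i : Fin 12) :
    ι i ∈ M.E ∧ ι i ∉ C ∧ ι i ∉ D := by
  have h1 := congrArg LM.E h.minor
  rw [conc_E] at h1
  have h2 : ι i ∈ ((M.con C).del D).E := by
    rw [h1]; exact Finset.mem_image_of_mem _ (Finset.mem_univ _)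
  change ι i ∈ (M.E \ C) \ D at h2
  rw [Finset.mem_sdiff, Finset.mem_sdiff] at h2
  exact ⟨h2.1.1, h2.1.2, h2.2⟩

private lemma disp_out {M : BM α} {C D : Finset α} {ι : Fin 12 → α} (h : Disp M C D ι)
    {y : α → ZMod 2} (hy : y ∈ M.D) (hC : ∀ b ∈ C, y b = 0) {a : α} (ha : ∀ i, ι i ≠ a)
    (haD : a ∉ D) : y a = 0 := by
  by_cases hE : a ∈ M.E
  · rw [← h.union, Finset.mem_union, Finset.mem_union] at hE
    rcases hE with (h1 | h1) | h1
    · obtain ⟨i, -, hi⟩ := Finset.mem_image.1 h1
      exact absurd hi (ha i)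
    · exact hC a h1
    · exact absurd h1 haD
  · exact M.supp y hy a hE

private lemma disp_zero {M : BM α} {C D : Finset α} {ι : Fin 12 → α} (h : Disp M C D ι)
    {y : α → ZMod 2} (hy : y ∈ M.D) (hC : ∀ b ∈ C, y b = 0) (h0 : ∀ i, y (ι i) = 0) {c : α}
    (hc : c ∈ D) : y c = 0 := by
  have hcE : c ∈ M.E := by
    rw [← h.union]; exact Finset.mem_union_right _ hc
  have hcl : M.InCl (M.E \ D) c :=
    M.inCl_of_rk_le Finset.sdiff_subset h.span.ge hcE
  apply hcl y hy
  intro b hb
  rw [Finset.mem_sdiff] at hb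
  by_cases hb' : ∃ i, ι i = b
  · obtain ⟨i, rfl⟩ := hb'
    exact h0 i
  · push Not at hb'
    exact disp_out h hy hC hb' hb.2

private lemma disp_col {M : BM α} {C D : Finset α} {ι : Fin 12 → α} (h : Disp M C D ι) {c : α}
    (hc : c ∈ D) : ∃ w : Fin 6 → ZMod 2,
      ∀ x ∈ M.D, (∀ b ∈ C, x b = 0) → ∀ φ : Fin 6 → ZMod 2,
        (∀ i, x (ι i) = ∑ j, φ j * r12 i j) → x c = ∑ j, φ j * w j := by
  choose X hX1 hX2 hX3 using fun k : Fin 6 => h.exists_cocycle (Pi.single k 1)
  refine ⟨fun k => X k c, fun x hx hxC φ hφ => ?_⟩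
  have hy : x - ∑ k, φ k • X k ∈ M.D :=
    M.D.sub_mem hx (M.D.sum_mem fun k _ => M.D.smul_mem _ (hX1 k))
  have h1 := disp_zero h hy (by
    intro b hb
    simp only [Pi.sub_apply, Finset.sum_apply, Pi.smul_apply, hX2 _ b hb, hxC b hb, smul_zero,
      Finset.sum_const_zero, sub_zero]) (by
    intro i
    have e : ∀ k, X k (ι i) = r12 i k := by
      intro k
      rw [hX3]
      simp [Pi.single_apply]
    simp only [Pi.sub_apply, Finset.sum_apply, Pi.smul_apply, smul_eq_mul, e, hφ i, sub_self]) hc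
  simp only [Pi.sub_apply, Finset.sum_apply, Pi.smul_apply, smul_eq_mul] at h1
  exact sub_eq_zero.1 h1

/-- (SEY-I6) the vector of an element `c ∈ D` in `M/C`: exists since a cocycle vanishing on `C` and
on the image of `ι` is zero (`span`) -/
lemma Disp.exists_col {M : BM α} {C D : Finset α} {ι : Fin 12 → α} (h : Disp M C D ι) {c : α}
    (hc : c ∈ D) : ∃ w : Fin 6 → ZMod 2,
      (∀ x ∈ M.D, (∀ b ∈ C, x b = 0) → ∀ φ : Fin 6 → ZMod 2,
        (∀ i, x (ι i) = ∑ j, φ j * r12 i j) → x c = ∑ j, φ j * w j) ∧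
      (M.con C).del (D.erase c) = conc (snocv r12 w) (snocl ι c) ∧
      Function.Injective (snocl ι c) := by
  obtain ⟨w, hw⟩ := disp_col h hc
  have hcι : ∀ i, ι i ≠ c := fun i hi => (disp_im h i).2.2 (hi ▸ hc)
  have hcC : c ∉ C := fun h' => Finset.disjoint_left.1 h.disj h' hc
  have hcE : c ∈ M.E := by
    rw [← h.union]; exact Finset.mem_union_right _ hc
  have hinj : Function.Injective (snocl ι c) := by
    unfold snocl
    rw [Fin.snoc_injective_iff]
    refine ⟨h.inj, ?_⟩
    rintro ⟨i, hi⟩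
    exact hcι i hi
  have hl : snocl ι c (Fin.last 12) = c := Fin.snoc_last (α := fun _ => α) c ι
  have hk : ∀ k : Fin 12, snocl ι c k.castSucc = ι k := fun k => by simp [snocl]
  have hvl : snocv r12 w (Fin.last 12) = w := Fin.snoc_last (α := fun _ => Fin 6 → ZMod 2) w r12
  have hvk : ∀ k : Fin 12, snocv r12 w k.castSucc = r12 k := fun k => by simp [snocv]
  refine ⟨w, hw, ?_, hinj⟩
  refine LM.D_ext _ ?_ fun x => ?_
  · change (M.E \ C) \ (D.erase c) = Finset.univ.image (snocl ι c)
    ext a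
    simp only [Finset.mem_sdiff, Finset.mem_erase, Finset.mem_image, Finset.mem_univ, true_and]
    constructor
    · rintro ⟨⟨h1, h2⟩, h3⟩
      by_cases hac : a = c
      · exact ⟨Fin.last 12, hl.trans hac.symm⟩
      · have h4 : a ∉ D := fun h5 => h3 ⟨hac, h5⟩
        rw [← h.union, Finset.mem_union, Finset.mem_union] at h1
        rcases h1 with (h1 | h1) | h1
        · obtain ⟨i, -, hi⟩ := Finset.mem_image.1 h1
          exact ⟨i.castSucc, (hk i).trans hi⟩
        · exact absurd h1 h2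
        · exact absurd h1 h4
    · rintro ⟨i, rfl⟩
      induction i using Fin.lastCases with
      | last => rw [hl]; exact ⟨⟨hcE, hcC⟩, fun h' => h'.1 rfl⟩
      | cast k => rw [hk]; exact ⟨⟨(disp_im h k).1, (disp_im h k).2.1⟩, fun h' => (disp_im h k).2.2 h'.2⟩
  · rw [LM.mem_del, mem_conc hinj]
    constructor
    · rintro ⟨h1, y, hy, hxy⟩
      rw [LM.mem_con] at hy
      obtain ⟨hyD, hyC⟩ := hy
      obtain ⟨φ, hφ⟩ := h.exists_coord hyD hyC
      refine ⟨?_, φ, ?_⟩
      · intro a ha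
        have hai : ∀ i, snocl ι c i ≠ a := fun i hi =>
          ha (Finset.mem_image.2 ⟨i, Finset.mem_univ _, hi⟩)
        by_cases haD : a ∈ D.erase c
        · exact h1 a haD
        · rw [hxy a haD]
          have hac : a ≠ c := fun h' => hai (Fin.last 12) (hl.trans h'.symm)
          refine disp_out h hyD hyC (fun i hi => hai i.castSucc ((hk i).trans hi)) ?_
          exact fun h' => haD (Finset.mem_erase.2 ⟨hac, h'⟩)
      · intro i
        induction i using Fin.lastCases with
        | last =>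
          rw [hl, hvl, hxy c (fun h' => (Finset.mem_erase.1 h').1 rfl)]
          exact hw y hyD hyC φ hφ
        | cast k =>
          rw [hk, hvk, hxy (ι k) (fun h' => (disp_im h k).2.2 (Finset.mem_erase.1 h').2)]
          exact hφ k
    · rintro ⟨h1, φ, hφ⟩
      obtain ⟨y, hyD, hyC, hy⟩ := h.exists_cocycle φ
      have hyc := hw y hyD hyC φ hy
      refine ⟨?_, y, (LM.mem_con M).2 ⟨hyD, hyC⟩, ?_⟩
      · intro a ha
        apply h1
        intro h'
        obtain ⟨i, -, hi⟩ := Finset.mem_image.1 h'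
        obtain ⟨ha1, ha2⟩ := Finset.mem_erase.1 ha
        induction i using Fin.lastCases with
        | last => exact ha1 (hi.symm.trans hl)
        | cast k =>
          rw [hk] at hi
          exact (disp_im h k).2.2 (hi ▸ ha2)
      · intro a ha
        by_cases hac : a = c
        · rw [hac, hyc]
          have := hφ (Fin.last 12)
          rwa [hl, hvl] at this
        · by_cases hai : ∃ i, ι i = a
          · obtain ⟨i, rfl⟩ := hai
            have := hφ i.castSucc
            rw [hk, hvk] at this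
            rw [this, hy i]
          · push Not at hai
            have haD : a ∉ D := fun h' => ha (Finset.mem_erase.2 ⟨hac, h'⟩)
            rw [disp_out h hyD hyC hai haD]
            apply h1
            intro h'
            obtain ⟨i, -, hi⟩ := Finset.mem_image.1 h'
            induction i using Fin.lastCases with
            | last => exact hac (hi.symm.trans hl)
            | cast k => exact hai k ((hk k).symm.trans hi)

private lemma col_xok {M : BM α} {C D : Finset α} {ι : Fin 12 → α} (h : Disp M C D ι) {c : α}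
    {w : Fin 6 → ZMod 2} (hw : IsCol M C D ι c w) {P Q : Finset α} {S : Fin 12 → Prop}
    (hP : ∀ a, a ∈ P ↔ ∃ i, S i ∧ ι i = a) :
    XOK M P Q C D c ↔
      ∀ φ : Fin 6 → ZMod 2, (∀ i : Fin 12, S i → ∑ j, φ j * r12 i j = 0) → ∑ j, φ j * w j = 0 := by
  obtain ⟨hc, hw⟩ := hw
  have hcC : c ∉ C := fun h' => Finset.disjoint_left.1 h.disj h' hc
  constructor
  · rintro (h1 | ⟨-, h1⟩) φ hφ
    · exact absurd h1.1 hcC
    · obtain ⟨y, hyD, hyC, hy⟩ := h.exists_cocycle φ
      rw [← hw y hyD hyC φ hy]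
      apply h1 y hyD
      intro b hb
      rcases Finset.mem_union.1 hb with hb | hb
      · obtain ⟨i, hi, rfl⟩ := (hP b).1 hb
        rw [hy i, hφ i hi]
      · exact hyC b hb
  · intro h1
    refine Or.inr ⟨hc, fun x hx h0 => ?_⟩
    have hxC : ∀ b ∈ C, x b = 0 := fun b hb => h0 b (Finset.mem_union_right _ hb)
    obtain ⟨φ, hφ⟩ := h.exists_coord hx hxC
    rw [hw x hx hxC φ hφ]
    apply h1
    intro i hi
    rw [← hφ i]
    exact h0 _ (Finset.mem_union_left _ ((hP _).2 ⟨i, hi, rfl⟩))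

/-- (SEY-I6) -/
lemma IsCol.xok {M : BM α} {C D : Finset α} {ι : Fin 12 → α} (h : Disp M C D ι) {c : α}
    {w : Fin 6 → ZMod 2} (hw : IsCol M C D ι c w) :
    XOK M (Pset ι) (Qset ι) C D c ↔ InP w :=
  col_xok h hw (S := fun i => i < 6) (fun a => by simp [Pset])

/-- (SEY-I6) -/
lemma IsCol.yok {M : BM α} {C D : Finset α} {ι : Fin 12 → α} (h : Disp M C D ι) {c : α}
    {w : Fin 6 → ZMod 2} (hw : IsCol M C D ι c w) :
    XOK M (Qset ι) (Pset ι) C D c ↔ InQ w :=
  col_xok h hw (S := fun i => 6 ≤ i) (fun a => by simp [Qset])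

/-- (SEY-I6) classification of columns in the regular case -/
lemma Disp.exists_col_regular {M : BM α} {C D : Finset α} {ι : Fin 12 → α} (h : Disp M C D ι)
    (hreg : Regular M) {c : α} (hc : c ∈ D) : ∃ w, IsCol M C D ι c w ∧ Good12 w := by
  obtain ⟨w, hw, he, hinj⟩ := h.exists_col hc
  refine ⟨w, ⟨hc, hw⟩, good12_of_regular hinj ?_⟩
  rw [← he]
  exact hreg.minor ⟨C, D.erase c, h.disj.mono_right (Finset.erase_subset _ _), rfl⟩

end Pool.Agent.H63.Sey
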