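import Pool.Agent.H63.Sey.Conc

/-!
# Finite facts about R12 and R10 (jobs SEY-F1 ... SEY-F3)

Explicit certificates (python, see scratch; `MinorCert` for `fano` or `fanoD`), checked with
`decide +kernel`. Bit masks: coordinate `j` has value `2^j`. The 17 good vectors for `R12` are
`0, 1, 2, 3, 4, 5, 8, 10, 12, 15, 16, 26, 31, 32, 42, 47, 48`.
-/

set_option autoImplicit false

namespace Pool.Agent.H63.Sey

universe u

variable {α : Type u} [DecidableEq α]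

/-- append a vector -/
def snocv {n r : ℕ} (v : Fin n → Fin r → ZMod 2) (w : Fin r → ZMod 2) :
    Fin (n + 1) → Fin r → ZMod 2 := Fin.snoc v w

/-- append a label -/
def snocl {n : ℕ} (ι : Fin n → α) (c : α) : Fin (n + 1) → α := Fin.snoc ι c

/-- the three guts vectors `l_i = a_i + b_i` -/
def lvec : Fin 3 → Fin 6 → ZMod 2 :=
  ![![1, 0, 1, 0, 0, 0], ![0, 1, 0, 1, 0, 0], ![1, 1, 1, 1, 0, 0]]

/-- `kappa = u_1 + v_1` -/
def kap : Fin 6 → ZMod 2 := ![0, 0, 0, 0, 1, 1]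

/-- the vectors by which `R12` can be extended -/
def Good12 (w : Fin 6 → ZMod 2) : Prop :=
  w = 0 ∨ (∃ i, w = r12 i) ∨ (∃ i, w = lvec i) ∨ w = kap

/-- `w` lies in the span of `P` (functionals vanishing on `P` vanish at `w`) -/
def InP (w : Fin 6 → ZMod 2) : Prop :=
  ∀ φ : Fin 6 → ZMod 2, (∀ i : Fin 12, i < 6 → ∑ j, φ j * r12 i j = 0) → ∑ j, φ j * w j = 0

def InQ (w : Fin 6 → ZMod 2) : Prop :=
  ∀ φ : Fin 6 → ZMod 2, (∀ i : Fin 12, 6 ≤ i → ∑ j, φ j * r12 i j = 0) → ∑ j, φ j * w j = 0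

/-- `R12` coextended by `kappa*`: the new element is number `12`; coordinate `6` is one exactly at
`a_1, b_1` and at the new element -/
def r13 : Fin 13 → Fin 7 → ZMod 2 :=
  ![![1, 0, 0, 0, 0, 0, 1], ![0, 1, 0, 0, 0, 0, 0], ![1, 1, 0, 0, 0, 0, 0],
    ![0, 0, 1, 0, 0, 0, 1], ![0, 0, 0, 1, 0, 0, 0], ![0, 0, 1, 1, 0, 0, 0],
    ![0, 0, 0, 0, 1, 0, 0], ![1, 1, 1, 1, 1, 0, 0], ![0, 1, 0, 1, 1, 0, 0],
    ![0, 0, 0, 0, 0, 1, 0], ![1, 1, 1, 1, 0, 1, 0], ![0, 1, 0, 1, 0, 1, 0],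
    ![0, 0, 0, 0, 0, 0, 1]]

end Pool.Agent.H63.Sey
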