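import Pool.Agent.H63.Sey.BrDef
import Pool.Agent.H63.Sey.FinDef

/-!
# Displays of R12: definitions
-/

set_option autoImplicit false

namespace Pool.Agent.H63.Sey

universe u

variable {α : Type u} [DecidableEq α]

/-- `M/C\D` is the copy of `R12` with elements `ι 0, ..., ι 11` -/
structure Disp (M : BM α) (C D : Finset α) (ι : Fin 12 → α) : Prop where
  inj : Function.Injective ι
  disj : Disjoint C D
  minor : (M.con C).del D = conc r12 ι
  union : Finset.univ.image ι ∪ C ∪ D = M.E
  indep : M.rk C = C.card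
  span : M.rk (M.E \ D) = M.rk M.E

def Pset (ι : Fin 12 → α) : Finset α := (Finset.univ.filter fun i : Fin 12 => i < 6).image ι
def Qset (ι : Fin 12 → α) : Finset α := (Finset.univ.filter fun i : Fin 12 => 6 ≤ i).image ι

/-- `w` is the vector of `c` -/
def IsCol (M : BM α) (C D : Finset α) (ι : Fin 12 → α) (c : α) (w : Fin 6 → ZMod 2) : Prop :=
  c ∈ D ∧ (∀ x ∈ M.D, (∀ b ∈ C, x b = 0) → ∀ φ : Fin 6 → ZMod 2,
        (∀ i, x (ι i) = ∑ j, φ j * r12 i j) → x c = ∑ j, φ j * w j)

end Pool.Agent.H63.Sey
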