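import Pool.Agent.H63.Sey.Conc

/-!
# Definitions for the final part of Seymour's theorem (MP_dbe88a)
-/

set_option autoImplicit false

namespace Pool.Agent.H63.Sey

universe u

variable {α : Type u} [DecidableEq α]

/-- some minor of `M` is `R10` -/
def HasR10 (M : BM α) : Prop := ∃ N : BM α, N.IsMinor M ∧ IsR10 N

/-- `L` is connected, has no parallel pairs, and all its `2`-separations have a side with two
elements -/
structure NearC3 (L : BM α) : Prop where
  conn : ∀ X ⊆ L.E, X.Nonempty → (L.E \ X).Nonempty → 1 ≤ L.lam X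
  pair : ∀ B ⊆ L.E, B.card = 2 → L.rk B = 2
  sep : ∀ X ⊆ L.E, 3 ≤ X.card → 3 ≤ (L.E \ X).card → 2 ≤ L.lam X

/-- Tutte's theorem on graphic matroids, for matroids on `α` -/
def TutteStmt (α : Type u) [DecidableEq α] : Prop :=
  ∀ M : BM α, Regular M → ¬ Graphic M → HasK33s M ∨ HasK5s M

/-- the splitter-type statement S1, for matroids on `α` -/
def S1Stmt (α : Type u) [DecidableEq α] : Prop :=
  ∀ M : BM α, M.I4c → Regular M →
    (∀ e ∈ M.E, (Graphic (M.del {e}) ∨ Cographic (M.del {e})) ∧
      (Graphic (M.con {e}) ∨ Cographic (M.con {e}))) →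
    Graphic M ∨ Cographic M ∨ IsR10 M

/-- all proper `3`-connected minors of `M` are graphic, cographic or `R10` -/
def MinGood (M : BM α) : Prop :=
  ∀ N : BM α, N.IsMinor M → N.E.card < M.E.card → N.Conn3 →
    Graphic N ∨ Cographic N ∨ IsR10 N

end Pool.Agent.H63.Sey
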