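import Pool.Agent.H63.Sey.Conc
import Pool.Agent.H63.MatL

/-!
# Good descriptions of binary matroids (counting framework of H63/Mat*)
-/

set_option autoImplicit false

namespace Pool.Agent.H63.Sey

open H63Mat

universe u

variable {α : Type u} [DecidableEq α]

/-- `M` has a good description with complexity `k` (compare `H63Mat.Repd`); the coordinate
functionals `M.evec e` of the elements are used as vectors -/
def GoodB (M : BM α) (k : ℕ) : Prop :=
  ∃ V : Set (Module.Dual (ZMod 2) M.D), (∀ e ∈ M.E, M.evec e ∈ V) ∧ Bd V (4 * k - 2)

end Pool.Agent.H63.Sey
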