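import Pool.Agent.H63.Sey.Conn

/-!
# Tutte's linking theorem (job SEY-P1)

All ranks `M.rk` are submodular (`rk_submod`), monotone (`rk_mono`), and `lam_add` expresses
`M.lam X + M.rk M.E = M.rk X + M.rk (M.E \ X)`. For minors use `rk_del`, `rk_con` (`Minor.lean`);
the elements outside `M.E` do not matter (`rk_inter_E`).
-/

set_option autoImplicit false

namespace Pool.Agent.H63.Sey.LM

universe u

variable {K : Type} [Field K] {α : Type u} [DecidableEq α] (M : LM K α)

/-- from `lam_add` and `rk (M.E \ X) ≤ rk M.E` -/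
lemma lam_le_rk (X : Finset α) : M.lam X ≤ M.rk X := by
  have h1 := M.lam_add X
  have h2 := M.rk_le_E (M.E \ X)
  omega

/-- contracting one element outside `X`: as `lam_del_single` (or by duality from it, `lam_dual`,
`dual_con`) -/
lemma lam_con_single {X : Finset α} {e : α} (hX : X ⊆ M.E) (he : e ∉ X) (heE : e ∈ M.E) :
    M.lam X ≤ (M.con {e}).lam X + 1 := by
  have hX' : X ⊆ (M.con {e}).E := by
    intro a ha
    rw [con_E, Finset.mem_sdiff, Finset.mem_singleton]
    refine ⟨hX ha, ?_⟩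
    rintro rfl
    exact he ha
  rw [← M.lam_dual X hX, ← (M.con {e}).lam_dual X hX', dual_con]
  exact M.dual.lam_del_single hX he heE

/-- Bixby-Coullard inequality. Proof: with `r = M.rk`,
`lam_{M\e} X = r X + r (E \ e \ X) - r (E \ e)` and
`lam_{M/e} X' = r (X' + e) + r (E \ X') - r E - r {e}`. By submodularity
`r X + r (X' + e) ≥ r (X ∪ X' + e) + r (X ∩ X')` and
`r (E \ e \ X) + r (E \ X') ≥ r (E \ (X ∩ X')) + r (E \ (X ∪ X' + e))`. Finally
`r (E \ e) ≤ r E` and `r {e} ≤ 1`. -/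
lemma bc_ineq {X X' : Finset α} {e : α} (he : e ∈ M.E) (hX : X ⊆ M.E \ {e})
    (hX' : X' ⊆ M.E \ {e}) :
    M.lam (X ∩ X') + M.lam (insert e (X ∪ X')) ≤
      (M.del {e}).lam X + (M.con {e}).lam X' + 1 := by
  have heX : e ∉ X := fun h => (Finset.mem_sdiff.1 (hX h)).2 (Finset.mem_singleton_self e)
  have heX' : e ∉ X' := fun h => (Finset.mem_sdiff.1 (hX' h)).2 (Finset.mem_singleton_self e)
  have hXE : X ⊆ M.E := hX.trans Finset.sdiff_subset
  have hXE' : X' ⊆ M.E := hX'.trans Finset.sdiff_subset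
  have h1 := (M.del {e}).lam_add X
  have h2 := (M.con {e}).lam_add X'
  have h3 := M.lam_add (X ∩ X')
  have h4 := M.lam_add (insert e (X ∪ X'))
  rw [M.rk_del, M.rk_del, M.rk_del, M.del_E] at h1
  rw [M.con_E] at h2
  have c1 := M.rk_con {e} X'
  have c2 := M.rk_con {e} ((M.E \ {e}) \ X')
  have c3 := M.rk_con {e} (M.E \ {e})
  have e1 : X \ {e} = X := by
    ext a; simp only [Finset.mem_sdiff, Finset.mem_singleton]
    exact ⟨fun h => h.1, fun h => ⟨h, fun h' => heX (h' ▸ h)⟩⟩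
  have e2 : ((M.E \ {e}) \ X) \ {e} = (M.E \ {e}) \ X := by
    ext a; simp only [Finset.mem_sdiff, Finset.mem_singleton]; tauto
  have e3 : (M.E \ {e}) \ {e} = M.E \ {e} := by
    ext a; simp only [Finset.mem_sdiff, Finset.mem_singleton]; tauto
  have e4 : (M.E \ {e}) ∪ {e} = M.E := by
    ext a; simp only [Finset.mem_sdiff, Finset.mem_singleton, Finset.mem_union]
    constructor
    · rintro (h | rfl)
      · exact h.1
      · exact he
    · intro h
      by_cases h' : a = e
      · exact Or.inr h'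
      · exact Or.inl ⟨h, h'⟩
  rw [e1, e2, e3] at h1
  rw [e4] at c3
  have s1 := M.rk_submod X (X' ∪ {e})
  have s2 := M.rk_submod ((M.E \ {e}) \ X) (((M.E \ {e}) \ X') ∪ {e})
  have e5 : X ∪ (X' ∪ {e}) = insert e (X ∪ X') := by
    ext a; simp only [Finset.mem_insert, Finset.mem_singleton, Finset.mem_union]; tauto
  have e6 : X ∩ (X' ∪ {e}) = X ∩ X' := by
    ext a; simp only [Finset.mem_inter, Finset.mem_singleton, Finset.mem_union]
    constructor
    · rintro ⟨h, h' | h'⟩
      · exact ⟨h, h'⟩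
      · exact absurd (h' ▸ h) heX
    · rintro ⟨h, h'⟩
      exact ⟨h, Or.inl h'⟩
  have e7 : ((M.E \ {e}) \ X) ∪ (((M.E \ {e}) \ X') ∪ {e}) = M.E \ (X ∩ X') := by
    ext a
    simp only [Finset.mem_inter, Finset.mem_sdiff, Finset.mem_singleton, Finset.mem_union]
    constructor
    · rintro (h | h | rfl)
      · tauto
      · tauto
      · exact ⟨he, fun h => heX h.1⟩
    · rintro ⟨h, h'⟩
      by_cases h'' : a = e
      · tauto
      · by_cases h3 : a ∈ X
        · exact Or.inr (Or.inl ⟨⟨h, h''⟩, fun h4 => h' ⟨h3, h4⟩⟩)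
        · exact Or.inl ⟨⟨h, h''⟩, h3⟩
  have e8 : ((M.E \ {e}) \ X) ∩ (((M.E \ {e}) \ X') ∪ {e}) = M.E \ insert e (X ∪ X') := by
    ext a
    simp only [Finset.mem_inter, Finset.mem_sdiff, Finset.mem_singleton, Finset.mem_union,
      Finset.mem_insert, not_or]
    constructor
    · rintro ⟨⟨⟨h1, h2⟩, h3⟩, (h4 | h4)⟩
      · exact ⟨h1, h2, h3, h4.2⟩
      · exact absurd h4 h2
    · rintro ⟨h1, h2, h3, h4⟩
      exact ⟨⟨⟨h1, h2⟩, h3⟩, Or.inl ⟨⟨h1, h2⟩, h4⟩⟩
  rw [e5, e6] at s1
  rw [e7, e8] at s2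
  have t1 := M.rk_le_E (M.E \ {e})
  have t2 := M.rk_le_card {e}
  rw [Finset.card_singleton] at t2
  omega

/-- Linking theorem, existence. Induction on `|M.E \ (A ∪ B)|`: if it is empty take `N = M`
(`k ≤ lam A` by the hypothesis with `X = A`). Otherwise let `e ∈ M.E \ (A ∪ B)`. If the hypothesis
failed for `M \ e` (set `X`, `A ⊆ X ⊆ M.E \ e \ B`, `lam X < k`) and for `M / e` (set `X'`), then
`bc_ineq` gives `lam (X ∩ X') + lam (X ∪ X' + e) ≤ 2 k - 1`, but both sets contain `A` and avoid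
`B`. So the hypothesis holds in `M \ e` or in `M / e` and we use the induction hypothesis and
`IsMinor.trans`. -/
theorem exists_link {A B : Finset α} {k : ℕ} (hA : A ⊆ M.E) (hB : B ⊆ M.E) (hAB : Disjoint A B)
    (h : ∀ X, A ⊆ X → X ⊆ M.E \ B → k ≤ M.lam X) :
    ∃ N : LM K α, N.IsMinor M ∧ N.E = A ∪ B ∧ k ≤ N.lam A := by
  obtain ⟨n, hn⟩ : ∃ n, (M.E \ (A ∪ B)).card = n := ⟨_, rfl⟩
  induction n generalizing M with
  | zero =>
    rw [Finset.card_eq_zero, Finset.sdiff_eq_empty_iff_subset] at hn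
    refine ⟨M, IsMinor.refl M, Finset.Subset.antisymm hn (Finset.union_subset hA hB),
      h A (Finset.Subset.refl _) ?_⟩
    intro a ha
    exact Finset.mem_sdiff.2 ⟨hA ha, Finset.disjoint_left.1 hAB ha⟩
  | succ n ih =>
    have hne : (M.E \ (A ∪ B)).Nonempty := by
      rw [← Finset.card_pos, hn]
      exact Nat.succ_pos n
    obtain ⟨e, he⟩ := hne
    rw [Finset.mem_sdiff, Finset.mem_union, not_or] at he
    obtain ⟨heE, heA, heB⟩ := he
    have hA' : A ⊆ M.E \ {e} := by
      intro a ha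
      rw [Finset.mem_sdiff, Finset.mem_singleton]
      refine ⟨hA ha, ?_⟩
      rintro rfl
      exact heA ha
    have hB' : B ⊆ M.E \ {e} := by
      intro a ha
      rw [Finset.mem_sdiff, Finset.mem_singleton]
      refine ⟨hB ha, ?_⟩
      rintro rfl
      exact heB ha
    have hcard : ((M.E \ {e}) \ (A ∪ B)).card = n := by
      have e1 : (M.E \ {e}) \ (A ∪ B) = (M.E \ (A ∪ B)).erase e := by
        ext a
        simp only [Finset.mem_sdiff, Finset.mem_singleton, Finset.mem_erase]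
        tauto
      rw [e1, Finset.card_erase_of_mem, hn]
      · rfl
      · rw [Finset.mem_sdiff, Finset.mem_union, not_or]
        exact ⟨heE, heA, heB⟩
    by_cases h1 : ∀ X, A ⊆ X → X ⊆ (M.del {e}).E \ B → k ≤ (M.del {e}).lam X
    · obtain ⟨N, h2, h3, h4⟩ := ih (M.del {e}) hA' hB' h1 hcard
      exact ⟨N, h2.trans (M.isMinor_del {e}), h3, h4⟩
    · by_cases h1' : ∀ X, A ⊆ X → X ⊆ (M.con {e}).E \ B → k ≤ (M.con {e}).lam X
      · obtain ⟨N, h2, h3, h4⟩ := ih (M.con {e}) hA' hB' h1' hcard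
        exact ⟨N, h2.trans (M.isMinor_con {e}), h3, h4⟩
      · exfalso
        push Not at h1 h1'
        obtain ⟨X, hX1, hX2, hX3⟩ := h1
        obtain ⟨X', hX1', hX2', hX3'⟩ := h1'
        rw [del_E] at hX2
        rw [con_E] at hX2'
        have h2 := M.bc_ineq heE (hX2.trans Finset.sdiff_subset)
          (hX2'.trans Finset.sdiff_subset)
        have h3 := h (X ∩ X') (Finset.subset_inter hX1 hX1') (by
          intro a ha
          have h4 := hX2 (Finset.mem_inter.1 ha).1
          simp only [Finset.mem_sdiff] at h4 ⊢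
          exact ⟨h4.1.1, h4.2⟩)
        have h4 := h (insert e (X ∪ X')) (by
          intro a ha
          exact Finset.mem_insert_of_mem (Finset.mem_union_left _ (hX1 ha))) (by
          intro a ha
          rcases Finset.mem_insert.1 ha with rfl | ha
          · exact Finset.mem_sdiff.2 ⟨heE, heB⟩
          · rcases Finset.mem_union.1 ha with ha | ha
            · have h5 := hX2 ha
              simp only [Finset.mem_sdiff] at h5 ⊢
              exact ⟨h5.1.1, h5.2⟩
            · have h5 := hX2' ha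
              simp only [Finset.mem_sdiff] at h5 ⊢
              exact ⟨h5.1.1, h5.2⟩)
        omega

/-- rank in a minor -/
private lemma link_rk {N : LM K α} {C D : Finset α} (hCDE : C ∪ D = M.E \ N.E)
    (hN : N = (M.con C).del D) {Z : Finset α} (hZ : Z ⊆ N.E) :
    N.rk Z + M.rk C = M.rk (Z ∪ C) := by
  have e1 : Z \ D = Z := by
    apply Finset.sdiff_eq_self_of_disjoint
    rw [Finset.disjoint_left]
    intro a ha ha'
    have h1 : a ∈ M.E \ N.E := by
      rw [← hCDE]
      exact Finset.mem_union_right _ ha'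
    exact (Finset.mem_sdiff.1 h1).2 (hZ ha)
  have h2 : N.rk Z = (M.con C).rk Z := by
    rw [hN, rk_del, e1]
  rw [h2, M.rk_con]

/-- the common part of the two theorems below -/
private lemma link_aux {N : LM K α} {A C D : Finset α} (hCDE : C ∪ D = M.E \ N.E)
    (hN : N = (M.con C).del D) (hNM : N.E ⊆ M.E) (hA : A ⊆ N.E) (h : M.lam A ≤ N.lam A) :
    M.rk (A ∪ C) = M.rk A + M.rk C ∧
      M.rk (N.E ∪ C) + M.rk (M.E \ A) ≤ M.rk M.E + M.rk ((N.E \ A) ∪ C) := by
  have hC : ∀ a ∈ C, a ∈ M.E ∧ a ∉ N.E := by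
    intro a ha
    have h1 : a ∈ M.E \ N.E := by
      rw [← hCDE]
      exact Finset.mem_union_left _ ha
    exact Finset.mem_sdiff.1 h1
  have l1 := M.lam_add A
  have l2 := N.lam_add A
  have r1 := M.link_rk hCDE hN (Finset.Subset.refl N.E)
  have r2 := M.link_rk hCDE hN hA
  have r3 := M.link_rk hCDE hN (Z := N.E \ A) Finset.sdiff_subset
  have s1 := M.rk_submod (N.E ∪ C) (M.E \ A)
  have s2 : M.rk M.E ≤ M.rk ((N.E ∪ C) ∪ (M.E \ A)) := by
    refine M.rk_mono ?_
    intro a ha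
    simp only [Finset.mem_union, Finset.mem_sdiff]
    by_cases h' : a ∈ A
    · exact Or.inl (Or.inl (hA h'))
    · exact Or.inr ⟨ha, h'⟩
  have s3 : M.rk ((N.E \ A) ∪ C) ≤ M.rk ((N.E ∪ C) ∩ (M.E \ A)) := by
    refine M.rk_mono ?_
    intro a ha
    simp only [Finset.mem_union, Finset.mem_sdiff, Finset.mem_inter] at ha ⊢
    rcases ha with ha | ha
    · exact ⟨Or.inl ha.1, hNM ha.1, ha.2⟩
    · exact ⟨Or.inr ha, (hC a ha).1, fun h' => (hC a ha).2 (hA h')⟩
  have s4 := M.rk_union_le A C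
  constructor <;> omega

/-- A minor `N` on `A ∪ B` with `lam_N A = lam_M A` has the same restriction to `A`, and the same
connectivities inside `A`.

Proof: `N = (M.con C).del D` (`IsMinor.exists_indep`: `C ∪ D = M.E \ N.E`, `C`, `D` disjoint), so
`N.rk Z = M.rk (Z ∪ C) - M.rk C` for `Z ⊆ A ∪ B`. By submodularity (`A` against
`B ∪ C ⊆ M.E \ A`)
`r (A ∪ B ∪ C) - r (B ∪ C) ≥ r E - r (E \ A)`, so
`lam_N A = (r (A ∪ C) - r C) - (r (A ∪ B ∪ C) - r (B ∪ C)) ≤ r (A ∪ C) - r C + r (E \ A) - r E`,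
while `lam_M A = r A + r (E \ A) - r E`; hence `r (A ∪ C) ≥ r A + r C`: `N.rk A = M.rk A`.
Since `N.D.map (res K A) ≤ M.D.map (res K A)` (an element of `N.D` agrees outside `D` with an
element of `M.D`), equal finrank gives equality (`Submodule.eq_of_le_of_finrank_eq`; `LM.D` is
finite dimensional, see `Rank.lean`). -/
theorem map_res_eq_of_lam {N : LM K α} {A : Finset α} (hN : N.IsMinor M) (hA : A ⊆ N.E)
    (h : M.lam A ≤ N.lam A) : N.D.map (res K A) = M.D.map (res K A) := by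
  obtain ⟨C, D, -, hCDE, hNe, -, -⟩ := hN.exists_indep
  have h1 := M.link_aux hCDE hNe hN.E_subset hA h
  have h2 := M.link_rk hCDE hNe hA
  have h3 : N.rk A = M.rk A := by omega
  have h4 : N.D.map (res K A) ≤ M.D.map (res K A) := by
    rintro _ ⟨x, hx, rfl⟩
    rw [hNe] at hx
    obtain ⟨-, y, hy, hxy⟩ := (mem_del _).1 hx
    refine ⟨y, ((mem_con M).1 hy).1, ?_⟩
    funext a
    by_cases ha : a ∈ A
    · have haD : a ∉ D := by
        intro ha'
        have h5 : a ∈ M.E \ N.E := by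
          rw [← hCDE]
          exact Finset.mem_union_right _ ha'
        exact (Finset.mem_sdiff.1 h5).2 (hA ha)
      simp [ha, hxy a haD]
    · simp [ha]
  haveI : FiniteDimensional K ↥(M.D.map (res K A)) := inferInstance
  exact Submodule.eq_of_le_of_finrank_eq h4 h3

/-- Same hypotheses as `map_res_eq_of_lam`; for `X ⊆ A` the connectivities agree (we need `≤`
only). Proof: with the notation above, the marginal of `A` over `B ∪ C` equals the marginal of `A`
over `M.E \ A`, where `B = N.E \ A`. Both are sums of the marginal of `A \ X` and then of `X`: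
`r (A ∪ B ∪ C) - r (B ∪ C ∪ (A \ X)) ≥ r E - r (E \ X)` and
`r (B ∪ C ∪ (A \ X)) - r (B ∪ C) ≥ r ((E \ A) ∪ (A \ X)) - r (E \ A)`, where
`(E \ A) ∪ (A \ X) = E \ X`. So both are equalities. Moreover `r (X ∪ C) = r X + r C` since
`r (A ∪ C) = r A + r C` (submodularity: `r (A ∪ C) - r A ≤ r (X ∪ C) - r X ≤ r C`). Therefore
`lam_N X = r (X ∪ C) - r C + r ((N.E \ X) ∪ C) - r (N.E ∪ C) = r X - (r E - r (E \ X))`. -/
theorem lam_le_of_lam {N : LM K α} {A X : Finset α} (hN : N.IsMinor M) (hA : A ⊆ N.E)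
    (h : M.lam A ≤ N.lam A) (hX : X ⊆ A) : M.lam X ≤ N.lam X := by
  obtain ⟨C, D, -, hCDE, hNe, -, -⟩ := hN.exists_indep
  obtain ⟨h1, h2⟩ := M.link_aux hCDE hNe hN.E_subset hA h
  have hNM := hN.E_subset
  have hC : ∀ a ∈ C, a ∈ M.E ∧ a ∉ N.E := by
    intro a ha
    have h1 : a ∈ M.E \ N.E := by
      rw [← hCDE]
      exact Finset.mem_union_left _ ha
    exact Finset.mem_sdiff.1 h1
  have l1 := M.lam_add X
  have l2 := N.lam_add X
  have r1 := M.link_rk hCDE hNe (Finset.Subset.refl N.E)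
  have r2 := M.link_rk hCDE hNe (hX.trans hA)
  have r3 := M.link_rk hCDE hNe (Z := N.E \ X) Finset.sdiff_subset
  -- `r (X ∪ C) = r X + r C`
  have s1 := M.rk_submod A (X ∪ C)
  have e1 : A ∪ (X ∪ C) = A ∪ C := by
    ext a
    simp only [Finset.mem_union]
    constructor
    · rintro (h | h | h)
      · exact Or.inl h
      · exact Or.inl (hX h)
      · exact Or.inr h
    · rintro (h | h)
      · exact Or.inl h
      · exact Or.inr (Or.inr h)
  have s2 : M.rk X ≤ M.rk (A ∩ (X ∪ C)) := M.rk_mono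
    (Finset.subset_inter hX Finset.subset_union_left)
  rw [e1] at s1
  -- marginal of `A \ X`
  have s3 := M.rk_submod ((N.E \ X) ∪ C) (M.E \ A)
  have s4 : M.rk (M.E \ X) ≤ M.rk (((N.E \ X) ∪ C) ∪ (M.E \ A)) := by
    refine M.rk_mono ?_
    intro a ha
    simp only [Finset.mem_union, Finset.mem_sdiff] at ha ⊢
    by_cases h' : a ∈ A
    · exact Or.inl (Or.inl ⟨hA h', ha.2⟩)
    · exact Or.inr ⟨ha.1, h'⟩
  have s5 : M.rk ((N.E \ A) ∪ C) ≤ M.rk (((N.E \ X) ∪ C) ∩ (M.E \ A)) := by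
    refine M.rk_mono ?_
    intro a ha
    simp only [Finset.mem_union, Finset.mem_sdiff, Finset.mem_inter] at ha ⊢
    rcases ha with ha | ha
    · exact ⟨Or.inl ⟨ha.1, fun h' => ha.2 (hX h')⟩, hNM ha.1, ha.2⟩
    · exact ⟨Or.inr ha, (hC a ha).1, fun h' => (hC a ha).2 (hA h')⟩
  omega

end Pool.Agent.H63.Sey.LM
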