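import Pool.Agent.H63.Sey.Rank

/-!
# Minors, duality, rank formulas (job SEY-B2)

* `dual_dual`: the orthogonal complement inside `K^E` of a subspace; dimension formula
  `dim D + dim D^perp = |E|` (Mathlib: `LinearMap.BilinForm.finrank_orthogonal` or
  `Submodule.finrank_add_finrank_dualAnnihilator...` for the dot product on `E → K`).
* `rk_dual`: `dim (D^perp restricted to X) = dim D^perp - dim {y ∈ D^perp, y = 0 on X}`, and
  `{y ∈ D^perp : y = 0 on X}` is the orthogonal complement of `D` restricted to `E \ X`.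
-/

set_option autoImplicit false

namespace Pool.Agent.H63.Sey.LM

universe u

variable {K : Type} [Field K] {α : Type u} [DecidableEq α] (M : LM K α)

@[simp] lemma del_E (X : Finset α) : (M.del X).E = M.E \ X := rfl
@[simp] lemma con_E (X : Finset α) : (M.con X).E = M.E \ X := rfl
@[simp] lemma dual_E : M.dual.E = M.E := rfl

lemma mem_con {X : Finset α} {x : α → K} :
    x ∈ (M.con X).D ↔ x ∈ M.D ∧ ∀ a ∈ X, x a = 0 := by
  show x ∈ M.D ⊓ LinearMap.ker (res K X) ↔ _
  rw [Submodule.mem_inf, LinearMap.mem_ker]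
  refine and_congr_right fun _ => ⟨fun h a ha => ?_, fun h => ?_⟩
  · have := congrFun h a
    simpa [ha] using this
  · ext a
    by_cases ha : a ∈ X
    · simp [ha, h a ha]
    · simp [ha]

lemma mem_del {X : Finset α} {x : α → K} :
    x ∈ (M.del X).D ↔ (∀ a ∈ X, x a = 0) ∧ ∃ y ∈ M.D, ∀ a, a ∉ X → x a = y a := by
  show x ∈ M.D.map (res K (M.E \ X)) ↔ _
  rw [Submodule.mem_map]
  constructor
  · rintro ⟨y, hy, rfl⟩
    refine ⟨fun a ha => by simp [ha], y, hy, fun a ha => ?_⟩
    by_cases haE : a ∈ M.E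
    · simp [ha, haE]
    · simp [haE, M.supp y hy a haE]
  · rintro ⟨h, y, hy, hxy⟩
    refine ⟨y, hy, ?_⟩
    ext a
    by_cases ha : a ∈ X
    · simp [ha, h a ha]
    · by_cases haE : a ∈ M.E
      · simp [ha, haE, hxy a ha]
      · simp [haE, hxy a ha, M.supp y hy a haE]

lemma mem_dual {y : α → K} :
    y ∈ M.dual.D ↔ (∀ a, a ∉ M.E → y a = 0) ∧ ∀ x ∈ M.D, ∑ a ∈ M.E, x a * y a = 0 := Iff.rfl

/-- the dot product on `E → K` -/
noncomputable def dotB (K : Type) [Field K] (ι : Type*) [Fintype ι] :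
    LinearMap.BilinForm K (ι → K) :=
  LinearMap.mk₂ K (fun x y => ∑ a, x a * y a)
    (by intro x y z; simp [add_mul, Finset.sum_add_distrib])
    (by intro c x y; simp [Finset.mul_sum, mul_assoc])
    (by intro x y z; simp [mul_add, Finset.sum_add_distrib])
    (by
      intro c x y
      simp only [Pi.smul_apply, smul_eq_mul, Finset.mul_sum]
      exact Finset.sum_congr rfl fun a _ => by ring)

lemma dotB_apply {ι : Type*} [Fintype ι] (x y : ι → K) : dotB K ι x y = ∑ a, x a * y a := rfl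

lemma dotB_symm {ι : Type*} [Fintype ι] (x y : ι → K) : dotB K ι x y = dotB K ι y x := by
  rw [dotB_apply, dotB_apply]
  exact Finset.sum_congr rfl fun a _ => mul_comm _ _

lemma dotB_nondeg (ι : Type*) [Fintype ι] : (dotB K ι).Nondegenerate := by
  classical
  have h : ∀ x : ι → K, (∀ y, dotB K ι x y = 0) → x = 0 := by
    intro x hx
    ext i
    have := hx (Pi.single i 1)
    rw [dotB_apply] at this
    simpa [Pi.single_apply] using this
  exact ⟨h, fun y hy => h y fun x => by rw [dotB_symm]; exact hy x⟩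

lemma dotB_refl (ι : Type*) [Fintype ι] : (dotB K ι).IsRefl := fun x y h => by
  rw [dotB_symm]; exact h

/-- restriction to the ground set -/
def toE : (α → K) →ₗ[K] (M.E → K) where
  toFun x := fun a => x a.1
  map_add' _ _ := rfl
  map_smul' _ _ := rfl

/-- extension by zero -/
def ofE : (M.E → K) →ₗ[K] (α → K) where
  toFun x := fun a => if h : a ∈ M.E then x ⟨a, h⟩ else 0
  map_add' x y := by ext a; by_cases h : a ∈ M.E <;> simp [h]
  map_smul' c x := by ext a; by_cases h : a ∈ M.E <;> simp [h]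

lemma toE_ofE (x : M.E → K) : M.toE (M.ofE x) = x := by
  ext a
  simp [toE, ofE]

lemma ofE_toE {x : α → K} (hx : ∀ a, a ∉ M.E → x a = 0) : M.ofE (M.toE x) = x := by
  ext a
  by_cases h : a ∈ M.E
  · simp [toE, ofE, h]
  · simp [toE, ofE, h, hx a h]

lemma dotB_toE (x y : α → K) : dotB K M.E (M.toE x) (M.toE y) = ∑ a ∈ M.E, x a * y a := by
  rw [dotB_apply]
  exact Finset.sum_coe_sort M.E fun a => x a * y a

lemma map_toE_dual : M.dual.D.map M.toE = (dotB K M.E).orthogonal (M.D.map M.toE) := by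
  ext y
  rw [Submodule.mem_map, LinearMap.BilinForm.mem_orthogonal_iff]
  constructor
  · rintro ⟨z, hz, rfl⟩ x hx
    obtain ⟨w, hw, rfl⟩ := Submodule.mem_map.1 hx
    show dotB K M.E (M.toE w) (M.toE z) = 0
    rw [dotB_toE]
    exact hz.2 w hw
  · intro h
    refine ⟨M.ofE y, ⟨fun a ha => by simp [ofE, ha], fun x hx => ?_⟩, M.toE_ofE y⟩
    rw [← dotB_toE, toE_ofE]
    exact h _ (Submodule.mem_map.2 ⟨x, hx, rfl⟩)

lemma D_ext {N : LM K α} (hE : M.E = N.E) (h : ∀ x, x ∈ M.D ↔ x ∈ N.D) : M = N := by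
  apply LM.ext hE
  ext x
  exact h x

lemma dual_dual : M.dual.dual = M := by
  refine D_ext _ rfl fun x => ?_
  have h1 : M.dual.dual.D.map M.toE = M.D.map M.toE := by
    have h2 := map_toE_dual M.dual
    have h3 : M.dual.dual.D.map M.toE = (dotB K M.E).orthogonal (M.dual.D.map M.toE) := h2
    rw [h3, map_toE_dual]
    exact LinearMap.BilinForm.orthogonal_orthogonal (dotB_nondeg _) (dotB_refl _) _
  have aux : ∀ (N N' : LM K α) (hN : N.E = M.E) (hN' : N'.E = M.E)
      (h : N.D.map M.toE = N'.D.map M.toE) (x : α → K), x ∈ N.D → x ∈ N'.D := by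
    intro N N' hN hN' h x hx
    have h4 : M.toE x ∈ N'.D.map M.toE := by
      rw [← h]; exact Submodule.mem_map.2 ⟨x, hx, rfl⟩
    obtain ⟨y, hy, hxy⟩ := Submodule.mem_map.1 h4
    have h5 : x = y := by
      rw [← M.ofE_toE (x := x) (fun a ha => N.supp x hx a (hN ▸ ha)), ← hxy,
        M.ofE_toE (x := y) (fun a ha => N'.supp y hy a (hN' ▸ ha))]
    rw [h5]; exact hy
  exact ⟨aux M.dual.dual M rfl rfl h1 x, aux M M.dual.dual rfl rfl h1.symm x⟩

lemma finrank_map_toE {N : LM K α} (hN : N.E = M.E) :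
    Module.finrank K (N.D.map M.toE) = Module.finrank K N.D := by
  let f : N.D →ₗ[K] (N.D.map M.toE) :=
    { toFun := fun x => ⟨M.toE x.1, Submodule.mem_map.2 ⟨x.1, x.2, rfl⟩⟩
      map_add' := fun _ _ => rfl
      map_smul' := fun _ _ => rfl }
  have hinj : Function.Injective f := by
    intro x y hxy
    have h1 : M.toE x.1 = M.toE y.1 := congrArg Subtype.val hxy
    apply Subtype.ext
    rw [← M.ofE_toE (x := x.1) (fun a ha => N.supp x.1 x.2 a (hN ▸ ha)), h1,
      M.ofE_toE (x := y.1) (fun a ha => N.supp y.1 y.2 a (hN ▸ ha))]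
  have hsurj : Function.Surjective f := by
    rintro ⟨y, hy⟩
    obtain ⟨x, hx, rfl⟩ := Submodule.mem_map.1 hy
    exact ⟨⟨x, hx⟩, rfl⟩
  exact (LinearEquiv.ofBijective f ⟨hinj, hsurj⟩).finrank_eq.symm

lemma finrank_dual : Module.finrank K M.dual.D + Module.finrank K M.D = M.E.card := by
  rw [← M.finrank_map_toE (N := M.dual) rfl, ← M.finrank_map_toE (N := M) rfl, map_toE_dual,
    LinearMap.BilinForm.finrank_orthogonal (dotB_nondeg _)]
  have h1 : Module.finrank K (M.D.map M.toE) ≤ Module.finrank K (M.E → K) :=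
    Submodule.finrank_le _
  have h2 : Module.finrank K (M.E → K) = M.E.card := by simp
  omega

lemma del_empty : M.del ∅ = M := by
  refine D_ext _ (by simp) fun x => ?_
  rw [mem_del]
  constructor
  · rintro ⟨-, y, hy, h⟩
    have : x = y := by ext a; exact h a (by simp)
    rwa [this]
  · intro hx
    exact ⟨by simp, x, hx, fun _ _ => rfl⟩

lemma con_empty : M.con ∅ = M := by
  refine D_ext _ (by simp) fun x => ?_
  rw [mem_con]
  simp

lemma del_del (X Y : Finset α) : (M.del X).del Y = M.del (X ∪ Y) := by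
  refine D_ext _ (by simp [Finset.sdiff_union_distrib, Finset.ext_iff]; tauto) fun x => ?_
  rw [mem_del, mem_del]
  constructor
  · rintro ⟨h1, y, hy, h2⟩
    rw [mem_del] at hy
    obtain ⟨h3, z, hz, h4⟩ := hy
    refine ⟨fun a ha => ?_, z, hz, fun a ha => ?_⟩
    · by_cases haY : a ∈ Y
      · exact h1 a haY
      · rw [h2 a haY, h3 a ((Finset.mem_union.1 ha).resolve_right haY)]
    · rw [Finset.mem_union, not_or] at ha
      rw [h2 a ha.2, h4 a ha.1]
  · rintro ⟨h1, y, hy, h2⟩
    refine ⟨fun a ha => h1 a (Finset.mem_union_right _ ha), fun a => if a ∈ X then 0 else y a,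
      ?_, fun a ha => ?_⟩
    · rw [mem_del]
      exact ⟨fun a ha => by simp [ha], y, hy, fun a ha => by simp [ha]⟩
    · by_cases haX : a ∈ X
      · simp only [haX, if_true]
        exact h1 a (Finset.mem_union_left _ haX)
      · simp only [haX, if_false]
        exact h2 a (by simp [haX, ha])

lemma con_con (X Y : Finset α) : (M.con X).con Y = M.con (X ∪ Y) := by
  refine D_ext _ (by simp [Finset.ext_iff]; tauto) fun x => ?_
  rw [mem_con, mem_con, mem_con]
  constructor
  · rintro ⟨⟨h1, h2⟩, h3⟩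
    refine ⟨h1, fun a ha => ?_⟩
    rcases Finset.mem_union.1 ha with h | h
    · exact h2 a h
    · exact h3 a h
  · rintro ⟨h1, h2⟩
    exact ⟨⟨h1, fun a ha => h2 a (Finset.mem_union_left _ ha)⟩,
      fun a ha => h2 a (Finset.mem_union_right _ ha)⟩

lemma con_del {X Y : Finset α} (h : Disjoint X Y) : (M.con X).del Y = (M.del Y).con X := by
  have hd : ∀ a, a ∈ X → a ∉ Y := fun a ha hb => Finset.disjoint_left.1 h ha hb
  refine D_ext _ (by simp [Finset.ext_iff]; tauto) fun x => ?_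
  rw [mem_del, mem_con, mem_del]
  constructor
  · rintro ⟨h1, y, hy, h2⟩
    rw [mem_con] at hy
    exact ⟨⟨h1, y, hy.1, h2⟩, fun a ha => by rw [h2 a (hd a ha), hy.2 a ha]⟩
  · rintro ⟨⟨h1, y, hy, h2⟩, h3⟩
    refine ⟨h1, y, ?_, h2⟩
    rw [mem_con]
    exact ⟨hy, fun a ha => by rw [← h2 a (hd a ha), h3 a ha]⟩

lemma dual_del (X : Finset α) : (M.del X).dual = M.dual.con X := by
  refine D_ext _ rfl fun y => ?_
  rw [mem_dual, mem_con, mem_dual]
  have hsum : ∀ x : α → K, (∀ a ∈ X, y a = 0) →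
      ∑ a ∈ M.E \ X, x a * y a = ∑ a ∈ M.E, x a * y a := by
    intro x hy
    apply Finset.sum_subset Finset.sdiff_subset
    intro a ha ha'
    have : a ∈ X := by
      by_contra h
      exact ha' (Finset.mem_sdiff.2 ⟨ha, h⟩)
    rw [hy a this, mul_zero]
  constructor
  · rintro ⟨h1, h2⟩
    have h0 : ∀ a ∈ X, y a = 0 := fun a ha => h1 a (by simp [ha])
    refine ⟨⟨fun a ha => h1 a (by simp [ha]), fun x hx => ?_⟩, h0⟩
    rw [← hsum x h0]
    have h3 := h2 (res K (M.E \ X) x) (Submodule.mem_map.2 ⟨x, hx, rfl⟩)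
    rw [← h3]
    refine Finset.sum_congr rfl fun a ha => ?_
    have ha' : a ∈ M.E \ X := ha
    rw [res_apply, if_pos ha']
  · rintro ⟨⟨h1, h2⟩, h3⟩
    refine ⟨fun a ha => ?_, fun x hx => ?_⟩
    · by_cases haX : a ∈ X
      · exact h3 a haX
      · exact h1 a fun h => ha (Finset.mem_sdiff.2 ⟨h, haX⟩)
    · obtain ⟨z, hz, rfl⟩ := Submodule.mem_map.1 (show x ∈ M.D.map (res K (M.E \ X)) from hx)
      have h4 : ∑ a ∈ M.E \ X, res K (M.E \ X) z a * y a = ∑ a ∈ M.E \ X, z a * y a := by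
        refine Finset.sum_congr rfl fun a ha => ?_
        rw [res_apply, if_pos ha]
      show ∑ a ∈ M.E \ X, res K (M.E \ X) z a * y a = 0
      rw [h4, hsum z h3]
      exact h2 z hz

lemma dual_con (X : Finset α) : (M.con X).dual = M.dual.del X := by
  rw [← dual_dual (M.dual.del X), dual_del, dual_dual]

/-- the kernel of the restriction is a contraction -/
lemma finrank_con (X : Finset α) :
    M.rk X + Module.finrank K (M.con X).D = Module.finrank K M.D := M.rk_add_finrank X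

lemma rk_del (X Y : Finset α) : (M.del X).rk Y = M.rk (Y \ X) := by
  unfold rk
  have : (M.del X).D.map (res K Y) = M.D.map (res K (Y \ X)) := by
    show (M.D.map (res K (M.E \ X))).map (res K Y) = _
    rw [← Submodule.map_comp]
    ext z
    simp only [Submodule.mem_map]
    have key : ∀ x ∈ M.D, (res K Y ∘ₗ res K (M.E \ X)) x = res K (Y \ X) x := by
      intro x hx
      ext a
      simp only [LinearMap.comp_apply, res_apply, Finset.mem_sdiff]
      by_cases h1 : a ∈ Y <;> by_cases h2 : a ∈ X <;> by_cases h3 : a ∈ M.E <;>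
        simp [h1, h2, h3]
      exact (M.supp x hx a h3).symm
    constructor
    · rintro ⟨x, hx, rfl⟩; exact ⟨x, hx, (key x hx).symm⟩
    · rintro ⟨x, hx, rfl⟩; exact ⟨x, hx, key x hx⟩
  rw [this]

lemma rk_con (X Y : Finset α) : (M.con X).rk Y + M.rk X = M.rk (Y ∪ X) := by
  have h1 := M.finrank_con X
  have h2 := (M.con X).finrank_con Y
  rw [con_con, Finset.union_comm X Y] at h2
  have h3 := M.finrank_con (Y ∪ X)
  omega

lemma rk_dual (X : Finset α) (hX : X ⊆ M.E) :
    M.dual.rk X + M.rk M.E = X.card + M.rk (M.E \ X) := by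
  have h1 := M.dual.finrank_con X
  rw [← dual_del] at h1
  have h2 := (M.del X).finrank_dual
  have h3 := M.finrank_dual
  have h4 : Module.finrank K (M.del X).D = M.rk (M.E \ X) := by
    rw [← rk_E, rk_del]
    congr 1
    simp
  have h5 := M.rk_E
  have h6 : (M.del X).E.card + X.card = M.E.card := by
    show (M.E \ X).card + X.card = M.E.card
    rw [Finset.card_sdiff_add_card_eq_card hX]
  omega

lemma inCl_del {X Y : Finset α} {a : α} (ha : a ∉ X) :
    (M.del X).InCl Y a ↔ M.InCl (Y \ X) a := by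
  constructor
  · intro h x hx h0
    have h1 := h (fun b => if b ∈ X then 0 else x b) ((mem_del M).2
      ⟨fun b hb => by simp [hb], x, hx, fun b hb => by simp [hb]⟩) (fun b hb => by
        by_cases hbX : b ∈ X
        · simp [hbX]
        · simp only [hbX, if_false]
          exact h0 b (Finset.mem_sdiff.2 ⟨hb, hbX⟩))
    simpa [ha] using h1
  · intro h x hx h0
    obtain ⟨h1, y, hy, h2⟩ := (mem_del M).1 hx
    rw [h2 a ha]
    apply h y hy
    intro b hb
    rw [Finset.mem_sdiff] at hb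
    rw [← h2 b hb.2, h0 b hb.1]

lemma inCl_con {X Y : Finset α} {a : α} : (M.con X).InCl Y a ↔ M.InCl (Y ∪ X) a := by
  constructor
  · intro h x hx h0
    exact h x ((mem_con M).2 ⟨hx, fun b hb => h0 b (Finset.mem_union_right _ hb)⟩)
      fun b hb => h0 b (Finset.mem_union_left _ hb)
  · intro h x hx h0
    obtain ⟨h1, h2⟩ := (mem_con M).1 hx
    apply h x h1
    intro b hb
    rcases Finset.mem_union.1 hb with hb | hb
    · exact h0 b hb
    · exact h2 b hb

/-! ### the minor relation -/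

lemma IsMinor.refl : M.IsMinor M := ⟨∅, ∅, by simp, by rw [con_empty, del_empty]⟩

lemma IsMinor.E_subset {N M : LM K α} (h : N.IsMinor M) : N.E ⊆ M.E := by
  obtain ⟨C, D, -, rfl⟩ := h
  intro a ha
  simp only [del_E, con_E, Finset.mem_sdiff] at ha
  exact ha.1.1

lemma con_inter (X : Finset α) : M.con (X ∩ M.E) = M.con X := by
  refine D_ext _ (by simp) fun x => ?_
  rw [mem_con, mem_con]
  refine and_congr_right fun hx => ⟨fun h a ha => ?_, fun h a ha => h a (Finset.mem_inter.1 ha).1⟩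
  by_cases haE : a ∈ M.E
  · exact h a (Finset.mem_inter.2 ⟨ha, haE⟩)
  · exact M.supp x hx a haE

lemma del_inter (X : Finset α) : M.del (X ∩ M.E) = M.del X := by
  refine D_ext _ (by simp) fun x => ?_
  show x ∈ M.D.map (res K (M.E \ (X ∩ M.E))) ↔ x ∈ M.D.map (res K (M.E \ X))
  have : M.E \ (X ∩ M.E) = M.E \ X := by ext a; simp
  rw [this]

lemma del_congr {X Y : Finset α} (h : X ∩ M.E = Y ∩ M.E) : M.del X = M.del Y := by
  rw [← del_inter, h, del_inter]

lemma con_congr {X Y : Finset α} (h : X ∩ M.E = Y ∩ M.E) : M.con X = M.con Y := by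
  rw [← con_inter, h, con_inter]

lemma IsMinor.trans {N₁ N₂ N₃ : LM K α} (h : N₁.IsMinor N₂) (h' : N₂.IsMinor N₃) :
    N₁.IsMinor N₃ := by
  obtain ⟨C₁, D₁, h1, rfl⟩ := h
  obtain ⟨C₂, D₂, h2, rfl⟩ := h'
  -- replace `C₁`, `D₁` by their intersections with the ground set
  have hE : ((N₃.con C₂).del D₂).con C₁ = ((N₃.con C₂).del D₂).con (C₁ \ (C₂ ∪ D₂)) := by
    apply con_congr
    ext a
    simp only [del_E, con_E, Finset.mem_inter, Finset.mem_sdiff, Finset.mem_union]
    tauto
  have hd1 : Disjoint (C₁ \ (C₂ ∪ D₂)) D₂ := by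
    rw [Finset.disjoint_left]; intro a ha; simp only [Finset.mem_sdiff, Finset.mem_union] at ha
    tauto
  rw [hE, ← con_del _ hd1, con_con, del_del]
  have h3 : ((N₃.con (C₂ ∪ C₁ \ (C₂ ∪ D₂)))).del (D₂ ∪ D₁) =
      ((N₃.con (C₂ ∪ C₁ \ (C₂ ∪ D₂)))).del ((D₂ ∪ D₁) \ (C₂ ∪ C₁ \ (C₂ ∪ D₂))) := by
    apply del_congr
    ext a
    simp only [con_E, Finset.mem_inter, Finset.mem_sdiff, Finset.mem_union]
    tauto
  rw [h3]
  exact ⟨_, _, Finset.disjoint_sdiff, rfl⟩

lemma isMinor_del (X : Finset α) : (M.del X).IsMinor M :=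
  ⟨∅, X, by simp, by rw [con_empty]⟩

lemma isMinor_con (X : Finset α) : (M.con X).IsMinor M :=
  ⟨X, ∅, by simp, by rw [del_empty]⟩

lemma IsMinor.dual {N M : LM K α} (h : N.IsMinor M) : N.dual.IsMinor M.dual := by
  obtain ⟨C, D, h1, rfl⟩ := h
  refine ⟨D, C, h1.symm, ?_⟩
  rw [dual_del, dual_con, con_del _ h1.symm]

/-- replace a contraction set by a basis of it -/
lemma con_eq_of_basis {B C : Finset α} (hBC : B ⊆ C) (hrk : M.rk B = M.rk C) :
    M.con C = (M.con B).del (C \ B) := by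
  have hcl : ∀ x ∈ M.D, (∀ a ∈ B, x a = 0) → ∀ a ∈ C, x a = 0 := by
    intro x hx h0 a ha
    exact M.inCl_of_rk_le hBC hrk.ge ha x hx h0
  refine D_ext _ (by
    ext a; simp only [con_E, del_E, Finset.mem_sdiff]
    constructor
    · rintro ⟨h1, h2⟩; exact ⟨⟨h1, fun h => h2 (hBC h)⟩, fun h => h2 h.1⟩
    · rintro ⟨⟨h1, h2⟩, h3⟩; exact ⟨h1, fun h => h3 ⟨h, h2⟩⟩) fun x => ?_
  rw [mem_con, mem_del]
  constructor
  · rintro ⟨hx, h0⟩
    exact ⟨fun a ha => h0 a (Finset.mem_sdiff.1 ha).1, x,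
      (mem_con M).2 ⟨hx, fun a ha => h0 a (hBC ha)⟩, fun _ _ => rfl⟩
  · rintro ⟨h1, y, hy, h2⟩
    obtain ⟨hy1, hy2⟩ := (mem_con M).1 hy
    have h3 := hcl y hy1 hy2
    have : x = y := by
      ext a
      by_cases ha : a ∈ C \ B
      · rw [h1 a ha, h3 a (Finset.mem_sdiff.1 ha).1]
      · exact h2 a ha
    rw [this]
    exact ⟨hy1, h3⟩

/-- a minor can be written with an independent contraction set and a coindependent deletion set -/
lemma IsMinor.exists_indep {N M : LM K α} (h : N.IsMinor M) : ∃ C D : Finset α, Disjoint C D ∧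
    C ∪ D = M.E \ N.E ∧ N = (M.con C).del D ∧ M.rk C = C.card ∧ M.rk (M.E \ D) = M.rk M.E := by
  obtain ⟨C, D, hCD, hN⟩ := h
  -- inside the ground set
  obtain ⟨C', D', hCE, hDE, hCD', hN'⟩ : ∃ C' D' : Finset α, C' ⊆ M.E ∧ D' ⊆ M.E ∧
      Disjoint C' D' ∧ N = (M.con C').del D' := by
    refine ⟨C ∩ M.E, D ∩ M.E, Finset.inter_subset_right, Finset.inter_subset_right, ?_, ?_⟩
    · exact Finset.disjoint_of_subset_left Finset.inter_subset_left
        (Finset.disjoint_of_subset_right Finset.inter_subset_left hCD)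
    · rw [con_inter, hN]
      apply del_congr
      ext a
      simp only [con_E, Finset.mem_inter, Finset.mem_sdiff]
      tauto
  -- independent contraction set
  obtain ⟨B, hBC, hBcard, hBrk⟩ := M.exists_basis C'
  have hBE : B ⊆ M.E := hBC.trans hCE
  set D₁ := (C' \ B) ∪ D' with hD₁
  have hBD₁ : Disjoint B D₁ := by
    rw [Finset.disjoint_left]
    intro a ha ha'
    rw [hD₁, Finset.mem_union, Finset.mem_sdiff] at ha'
    rcases ha' with h | h
    · exact h.2 ha
    · exact Finset.disjoint_left.1 hCD' (hBC ha) h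
  have hD₁E : D₁ ⊆ M.E := by
    intro a ha
    rw [hD₁, Finset.mem_union, Finset.mem_sdiff] at ha
    rcases ha with h | h
    · exact hCE h.1
    · exact hDE h
  have hN1 : N = (M.con B).del D₁ := by
    rw [hN', con_eq_of_basis M hBC hBrk, del_del]
  -- coindependent deletion set
  obtain ⟨D₂, hD₂, hD₂card, hD₂rk⟩ := M.dual.exists_basis D₁
  have hD₂E : D₂ ⊆ M.E := hD₂.trans hD₁E
  set C₂ := B ∪ (D₁ \ D₂) with hC₂
  have hC₂D₂ : Disjoint C₂ D₂ := by
    rw [Finset.disjoint_left]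
    intro a ha ha'
    rw [hC₂, Finset.mem_union, Finset.mem_sdiff] at ha
    rcases ha with h | h
    · exact Finset.disjoint_left.1 hBD₁ h (hD₂ ha')
    · exact h.2 ha'
  have hN2 : N = (M.con C₂).del D₂ := by
    have e1 : N.dual = (M.dual.con D₁).del B := by
      rw [hN1, dual_del, dual_con, con_del _ hBD₁.symm]
    have e2 : N.dual = (M.dual.con D₂).del C₂ := by
      rw [e1, con_eq_of_basis M.dual hD₂ hD₂rk, del_del, hC₂, Finset.union_comm]
    have e3 : N = ((M.dual.con D₂).del C₂).dual := by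
      rw [← e2, dual_dual]
    rw [e3, dual_del, dual_con, dual_dual, con_del _ hC₂D₂]
  refine ⟨C₂, D₂, hC₂D₂, ?_, hN2, ?_, ?_⟩
  · rw [hN2]
    have hC₂E : C₂ ⊆ M.E := by
      rw [hC₂]
      exact Finset.union_subset hBE (Finset.sdiff_subset.trans hD₁E)
    ext a
    simp only [del_E, con_E, Finset.mem_union, Finset.mem_sdiff]
    constructor
    · rintro (h | h)
      · exact ⟨hC₂E h, fun h' => h'.1.2 h⟩
      · exact ⟨hD₂E h, fun h' => h'.2 h⟩
    · rintro ⟨h1, h2⟩
      by_contra h3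
      rw [not_or] at h3
      exact h2 ⟨⟨h1, h3.1⟩, h3.2⟩
  · -- independence
    have h1 := M.rk_dual D₁ hD₁E
    have h2 := M.rk_dual D₂ hD₂E
    have hF : (D₁ \ D₂).card + D₂.card = D₁.card := Finset.card_sdiff_add_card_eq_card hD₂
    have hcard : C₂.card = B.card + (D₁ \ D₂).card := by
      rw [hC₂, Finset.card_union_of_disjoint]
      exact Finset.disjoint_of_subset_right Finset.sdiff_subset hBD₁
    have hsub := M.rk_submod C₂ (M.E \ D₁)
    have e1 : C₂ ∪ (M.E \ D₁) = M.E \ D₂ := by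
      ext a
      simp only [hC₂, Finset.mem_union, Finset.mem_sdiff]
      constructor
      · rintro ((h | h) | h)
        · exact ⟨hBE h, fun h' => Finset.disjoint_left.1 hBD₁ h (hD₂ h')⟩
        · exact ⟨hD₁E h.1, h.2⟩
        · exact ⟨h.1, fun h' => h.2 (hD₂ h')⟩
      · rintro ⟨h1, h2⟩
        by_cases h3 : a ∈ D₁
        · exact Or.inl (Or.inr ⟨h3, h2⟩)
        · exact Or.inr ⟨h1, h3⟩
    have e2 : B ⊆ C₂ ∩ (M.E \ D₁) := by
      intro a ha
      rw [Finset.mem_inter, Finset.mem_sdiff, hC₂, Finset.mem_union]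
      exact ⟨Or.inl ha, hBE ha, fun h => Finset.disjoint_left.1 hBD₁ ha h⟩
    have h3 := M.rk_mono e2
    rw [e1] at hsub
    have h4 := M.rk_le_card C₂
    omega
  · have h2 := M.rk_dual D₂ hD₂E
    omega

end Pool.Agent.H63.Sey.LM

namespace Pool.Agent.H63.Sey

universe u
variable {α : Type u} [DecidableEq α]

lemma Regular.minor {N M : BM α} (hM : Regular M) (h : N.IsMinor M) : Regular N := by
  obtain ⟨M3, hE, hrk⟩ := hM
  obtain ⟨C, D, hCD, rfl⟩ := h
  have hrk' : ∀ X : Finset α, M3.rk X = M.rk X := by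
    intro X
    rw [← M3.rk_inter_E, ← M.rk_inter_E, hE]
    exact hrk _ Finset.inter_subset_right
  refine ⟨(M3.con C).del D, by simp [hE], fun X _ => ?_⟩
  rw [LM.rk_del, LM.rk_del]
  have h1 := M3.rk_con C (X \ D)
  have h2 := M.rk_con C (X \ D)
  rw [hrk', hrk'] at h1
  omega

lemma Regular.dual {M : BM α} (hM : Regular M) : Regular M.dual := by
  obtain ⟨M3, hE, hrk⟩ := hM
  refine ⟨M3.dual, hE, fun X hX => ?_⟩
  have hX' : X ⊆ M.E := hX
  have h1 := M3.rk_dual X (hE ▸ hX')
  have h2 := M.rk_dual X hX'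
  rw [hE, hrk _ (Finset.Subset.refl _), hrk _ Finset.sdiff_subset] at h1
  omega

end Pool.Agent.H63.Sey
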