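import Pool.Agent.H63.Sey.PtDef

/-!
# Small cases (job SEY-P2)

`M.evec a : Module.Dual (ZMod 2) M.D` is the coordinate functional, `M.rk_eq_span` says that
`M.rk X` is the dimension of the span of `M.evec '' X`.
-/

set_option autoImplicit false

namespace Pool.Agent.H63.Sey

universe u

variable {α : Type u} [DecidableEq α]

/-- pairs have rank `2` (from `LM.lam_le_rk`, `rk_le_card`) -/
lemma Cl.rk_pair {M : BM α} {Y B : Finset α} (h : Cl M Y) (hB : B ⊆ Y) (h2 : B.card = 2) :
    M.rk B = 2 := by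
  have h1 := h B hB h2.ge
  have h3 := M.lam_le_rk B
  have h4 := M.rk_le_card B
  omega

/-- `Cl` is self dual (`lam_dual`) -/
lemma Cl.dual {M : BM α} {Y : Finset α} (hY : Y ⊆ M.E) (h : Cl M Y) : Cl M.dual Y := by
  intro B hB h2
  rw [M.lam_dual B (hB.trans hY)]
  exact h B hB h2

namespace PtAAux

/-- an injective family in a finite dimensional space over `ZMod 2` -/
lemma card_le_of_inj {Q : Type*} [AddCommGroup Q] [Module (ZMod 2) Q]
    (W : Submodule (ZMod 2) Q) [FiniteDimensional (ZMod 2) W] {Y : Finset α} (f : α → Q)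
    (hf : ∀ y ∈ Y, ∀ z ∈ Y, f y = f z → y = z) (hW : ∀ y ∈ Y, f y ∈ W) :
    Y.card ≤ 2 ^ Module.finrank (ZMod 2) W := by
  have hfin : Finite W := Module.finite_of_finite (ZMod 2)
  have h1 : Nat.card W = 2 ^ Module.finrank (ZMod 2) W := by
    rw [Module.natCard_eq_pow_finrank (K := ZMod 2) (V := W), Nat.card_zmod]
  rw [← h1]
  have h2 : Nat.card Y ≤ Nat.card W :=
    Nat.card_le_card_of_injective (fun y : Y => (⟨f y.1, hW y.1 y.2⟩ : W)) (by
      intro y z hyz
      exact Subtype.ext (hf y.1 y.2 z.1 z.2 (congrArg Subtype.val hyz)))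
  rwa [Nat.card_eq_fintype_card, Fintype.card_coe] at h2

lemma card_lt_of_inj {Q : Type*} [AddCommGroup Q] [Module (ZMod 2) Q]
    (W : Submodule (ZMod 2) Q) [FiniteDimensional (ZMod 2) W] {Y : Finset α} (f : α → Q)
    (hf : ∀ y ∈ Y, ∀ z ∈ Y, f y = f z → y = z) (hW : ∀ y ∈ Y, f y ∈ W)
    (h0 : ∀ y ∈ Y, f y ≠ 0) : Y.card + 1 ≤ 2 ^ Module.finrank (ZMod 2) W := by
  have hfin : Finite W := Module.finite_of_finite (ZMod 2)
  have h1 : Nat.card W = 2 ^ Module.finrank (ZMod 2) W := by
    rw [Module.natCard_eq_pow_finrank (K := ZMod 2) (V := W), Nat.card_zmod]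
  rw [← h1]
  have h2 : Nat.card (Option Y) ≤ Nat.card W :=
    Nat.card_le_card_of_injective (fun y : Option Y => match y with
      | none => (0 : W)
      | some y => (⟨f y.1, hW y.1 y.2⟩ : W)) (by
      intro y z hyz
      rcases y with _ | y <;> rcases z with _ | z
      · rfl
      · exact absurd (congrArg Subtype.val hyz).symm (h0 z.1 z.2)
      · exact absurd (congrArg Subtype.val hyz) (h0 y.1 y.2)
      · exact congrArg some (Subtype.ext (hf y.1 y.2 z.1 z.2 (congrArg Subtype.val hyz))))
  rwa [Nat.card_eq_fintype_card, Fintype.card_option, Fintype.card_coe] at h2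

lemma evec_inj {M : BM α} {Y : Finset α} (h : ∀ B ⊆ Y, B.card = 2 → M.rk B = 2) :
    ∀ y ∈ Y, ∀ z ∈ Y, M.evec y = M.evec z → y = z := by
  intro y hy z hz hyz
  by_contra hne
  have h1 := h {y, z} (by
    intro a ha
    rw [Finset.mem_insert, Finset.mem_singleton] at ha
    rcases ha with rfl | rfl <;> assumption) (Finset.card_pair hne)
  have h2 : M.InCl {z} y := by
    intro x hx hx'
    have h3 : x y = x z := LinearMap.congr_fun hyz ⟨x, hx⟩
    rw [h3]
    exact hx' z (Finset.mem_singleton_self z)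
  have h3 := M.inCl_iff_rk.1 h2
  have h4 := M.rk_le_card {z}
  rw [Finset.card_singleton] at h4
  omega

lemma rk_single {M : BM α} {Y : Finset α} (h : ∀ B ⊆ Y, B.card = 2 → M.rk B = 2)
    (h2 : 2 ≤ Y.card) {y : α} (hy : y ∈ Y) : M.rk {y} = 1 := by
  obtain ⟨z, hz, hzy⟩ := Finset.exists_mem_ne (by omega : 1 < Y.card) y
  have h1 := h {z, y} (by
    intro a ha
    rw [Finset.mem_insert, Finset.mem_singleton] at ha
    rcases ha with rfl | rfl <;> assumption) (Finset.card_pair hzy)
  have h3 := M.rk_insert_le {y} z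
  have h4 := M.rk_le_card {y}
  rw [Finset.card_singleton] at h4
  omega

end PtAAux

open PtAAux Pool.Agent.H87.Sey.PartsAux

/-- A set of rank at most `2` all of whose pairs have rank `2` has at most `3` elements: if
`2 ≤ |Y|` then `evec` is injective on `Y` with nonzero values, and the span of `evec '' Y` has
`2 ^ 2 = 4` elements (`Module.card_eq_pow_finrank`), one of which is `0`. -/
lemma card_le_three {M : BM α} {Y : Finset α} (h : ∀ B ⊆ Y, B.card = 2 → M.rk B = 2)
    (h2 : M.rk Y ≤ 2) : Y.card ≤ 3 := by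
  by_cases hY : Y.card ≤ 1
  · omega
  have h3 := card_lt_of_inj (Submodule.span (ZMod 2) (M.evec '' (Y : Set α))) M.evec
    (evec_inj h) (fun y hy => Submodule.subset_span ⟨y, Finset.mem_coe.2 hy, rfl⟩) (by
      intro y hy h0
      have h4 := rk_single h (by omega) hy
      have h5 : M.InCl ∅ y := by
        intro x hx _
        exact LinearMap.congr_fun h0 ⟨x, hx⟩
      have h6 := M.inCl_iff_rk.1 h5
      rw [M.rk_empty, insert_empty_eq] at h6
      omega)
  rw [← M.rk_eq_span] at h3
  have h4 : 2 ^ M.rk Y ≤ 2 ^ 2 := Nat.pow_le_pow_right (by norm_num) h2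
  omega

/-- `Y = M.E \ A`, `lam Y = 2`, `r E = r A + 1`, all pairs in `Y` have rank `2`, and no element of
`Y` is in the closure of `A`: then `|Y| ≤ 4`.

Proof: the case `|Y| ≤ 1` is clear. Fix `y0 ∈ Y`. For `y ∈ Y` consider
`φ y = M.evec y - M.evec y0` (or `+`). An `x ∈ M.D` vanishing on `A` is `0` or a fixed vector `x1`
(`M.D ⊓ ker (res A)` has dimension `r E - r A = 1`, `LM.rk_add_finrank`, over `ZMod 2`), with
`x1 y = x1 y0 = 1` since `y, y0 ∉ cl A` (`¬ M.InCl A y` gives a vector of `M.D` vanishing on `A`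
but not at `y`). So `φ y` vanishes on all `x ∈ M.D` vanishing on `A`, i.e. `φ y` is in the span of
`evec '' A` (`PartsAux.ev`, `exists_sum_of_vanish` with `Y := {y, y0}`), and it is in the span of
`evec '' (M.E \ A)`. So `φ y ∈ PartsAux.gs M A`, a space of dimension `M.lam A = 2`
(`PartsAux.finrank_gs`, `lam_compl`) having `4` elements. `φ` is injective on `Y` because pairs have
rank `2`. -/
lemma card_le_four {M : BM α} {A : Finset α} (hA : A ⊆ M.E) (hlam : M.lam A = 2)
    (hr : M.rk M.E = M.rk A + 1) (h : ∀ B ⊆ M.E \ A, B.card = 2 → M.rk B = 2)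
    (hcl : ∀ y ∈ M.E \ A, ¬ M.InCl A y) : (M.E \ A).card ≤ 4 := by
  rcases Finset.eq_empty_or_nonempty (M.E \ A) with h0 | ⟨y0, hy0⟩
  · rw [h0, Finset.card_empty]
    omega
  have hker := M.rk_add_finrank A
  rw [← M.rk_E, hr] at hker
  have hker1 : Module.finrank (ZMod 2)
      ↥(M.D ⊓ LinearMap.ker (res (ZMod 2) A) : Submodule (ZMod 2) (α → ZMod 2)) = 1 := by omega
  obtain ⟨v, hv0, hv⟩ := finrank_eq_one_iff'.1 hker1
  have hvy : ∀ y ∈ M.E \ A, v.1 y = 1 := by
    intro y hy
    have h1 := hcl y hy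
    unfold LM.InCl at h1
    push Not at h1
    obtain ⟨x, hx, hx', hxy⟩ := h1
    have hxk : x ∈ M.D ⊓ LinearMap.ker (res (ZMod 2) A) := by
      refine ⟨hx, ?_⟩
      rw [SetLike.mem_coe, LinearMap.mem_ker]
      funext a
      by_cases ha : a ∈ A
      · simp [ha, hx' a ha]
      · simp [ha]
    obtain ⟨c, hc⟩ := hv ⟨x, hxk⟩
    have hc' : c * v.1 y = x y := congrFun (congrArg Subtype.val hc) y
    rcases zmod_cases (v.1 y) with h2 | h2
    · rw [h2, mul_zero] at hc'
      exact absurd hc'.symm hxy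
    · exact h2
  have hvan : ∀ y ∈ M.E \ A, ∀ x ∈ M.D, (∀ b ∈ A, x b = 0) → x y + x y0 = 0 := by
    intro y hy x hx hx'
    have hxk : x ∈ M.D ⊓ LinearMap.ker (res (ZMod 2) A) := by
      refine ⟨hx, ?_⟩
      rw [SetLike.mem_coe, LinearMap.mem_ker]
      funext a
      by_cases ha : a ∈ A
      · simp [ha, hx' a ha]
      · simp [ha]
    obtain ⟨c, hc⟩ := hv ⟨x, hxk⟩
    have h1 : c * v.1 y = x y := congrFun (congrArg Subtype.val hc) y
    have h2 : c * v.1 y0 = x y0 := congrFun (congrArg Subtype.val hc) y0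
    rw [← h1, ← h2, hvy y hy, hvy y0 hy0]
    exact zmod_add_self _
  have hmem : ∀ y ∈ M.E \ A, M.evec y + M.evec y0 ∈ gs M A := by
    intro y hy
    by_cases hyy : y = y0
    · rw [hyy, add_self_dual]
      exact Submodule.zero_mem _
    · have e1 : ev M {y, y0} = M.evec y + M.evec y0 := Finset.sum_pair hyy
      rw [← e1]
      constructor
      · obtain ⟨R, hR, h1⟩ := Pool.Agent.H87.Sey.exists_sum_of_vanish M (X := A) (Y := {y, y0})
          (by
            intro x hx hx'
            rw [Finset.sum_pair hyy]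
            exact hvan y hy x hx hx')
        rw [ev_ext M h1]
        exact ev_mem M hR
      · apply ev_mem M
        intro a ha
        rw [Finset.mem_insert, Finset.mem_singleton] at ha
        rcases ha with rfl | rfl <;> assumption
  have hfd : FiniteDimensional (ZMod 2) (gs M A) := inferInstance
  have h3 := card_le_of_inj (gs M A) (fun y => M.evec y + M.evec y0) (by
    intro y hy z hz hyz
    exact evec_inj h y hy z hz (add_right_cancel hyz)) hmem
  rw [finrank_gs M hA, hlam] at h3
  exact h3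

/-- The case `|Y| = 4`, `Y = M.E \ A`.

Proof. `r Y ≥ 3` by `card_le_three`; dually `r* Y ≥ 3` (`Cl.dual`). By `rk_dual`,
`r* Y + r E = 4 + r A`, and `lam A = 2` says `r Y + r A = r E + 2`. So `r Y + r* Y = 6`,
`r Y = r* Y = 3` and `r E = r A + 1`.

There is `c ∈ Y` with `c ∉ cl A` such that `Y \ c` has the following property (*): `N = M / c`,
`T = Y \ {c}` has `N.rk T = 2` and pairs of `T` have rank `2` in `N`. Indeed:
(1) if all triples in `Y` have rank `3`, choose any `c ∈ Y` with `c ∉ cl A` (it exists as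
`r (A ∪ Y) > r A`, `rk_union_eq_of_inCl`). `N.rk Z = M.rk (Z ∪ {c}) - M.rk {c}` by `rk_con`,
`M.rk {c} = 1` (as pairs have rank `2`), so `N.rk T = 3 - 1`, and for pairs `Z ⊆ T`,
`N.rk Z = 3 - 1`.
(2) if some triple `T ⊆ Y` has rank `≤ 2`, so `= 2`, let `Y = T ∪ {c}`. `lam T ≥ 2` gives
`r T + r (A ∪ {c}) ≥ r E + 2`, so `r (A ∪ {c}) = r E = r A + 1`: `c ∉ cl A`. For a pair `Z ⊆ T`,
`Z` spans `T`, so `r (Z ∪ {c}) = r (T ∪ {c}) = r Y = 3`.
Finally `lam_N A + (r E - 1) = (r (A ∪ {c}) - 1) + 2`, so `lam_N A = 2`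
(`r E = r A + 1 = r (A ∪ {c})`, `inCl_iff_rk`). -/
theorem tMinor_of_four {M : BM α} {A : Finset α} (hA : A ⊆ M.E) (hlam : M.lam A = 2)
    (h : Cl M (M.E \ A)) (h4 : (M.E \ A).card = 4) : TMinor M A := by
  have hYE : M.E \ A ⊆ M.E := Finset.sdiff_subset
  have hpair : ∀ B ⊆ M.E \ A, B.card = 2 → M.rk B = 2 := fun B hB h2 => h.rk_pair hB h2
  have hpair' : ∀ B ⊆ M.E \ A, B.card = 2 → M.dual.rk B = 2 :=
    fun B hB h2 => (h.dual hYE).rk_pair hB h2
  have h3 : 3 ≤ M.rk (M.E \ A) := by
    by_contra hcon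
    have := card_le_three hpair (by omega)
    omega
  have h3' : 3 ≤ M.dual.rk (M.E \ A) := by
    by_contra hcon
    have := card_le_three hpair' (by omega)
    omega
  have h5 := M.rk_dual (M.E \ A) hYE
  rw [Finset.sdiff_sdiff_eq_self hA, h4] at h5
  have h6 := M.lam_add A
  rw [hlam] at h6
  have hrY : M.rk (M.E \ A) = 3 := by omega
  have hrE : M.rk M.E = M.rk A + 1 := by omega
  -- the element to be contracted
  obtain ⟨c, hc, hcA, hcZ⟩ : ∃ c ∈ M.E \ A, M.rk (insert c A) = M.rk M.E ∧
      ∀ Z ⊆ (M.E \ A) \ {c}, Z.card = 2 → M.rk (Z ∪ {c}) = 3 := by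
    by_cases hall : ∀ B ⊆ M.E \ A, B.card = 3 → M.rk B = 3
    · have hex : ∃ c ∈ M.E \ A, ¬ M.InCl A c := by
        by_contra hcon
        push Not at hcon
        have h7 := M.rk_union_eq_of_inCl hcon
        rw [Finset.union_sdiff_of_subset hA] at h7
        omega
      obtain ⟨c, hc, hcA⟩ := hex
      refine ⟨c, hc, ?_, ?_⟩
      · have h7 := M.rk_insert_le A c
        have h8 := M.rk_mono (Finset.subset_insert c A)
        have h9 : M.rk (insert c A) ≠ M.rk A := fun h' => hcA (M.inCl_iff_rk.2 h')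
        omega
      · intro Z hZ hZ2
        apply hall
        · intro a ha
          rw [Finset.mem_union, Finset.mem_singleton] at ha
          rcases ha with ha | rfl
          · exact (Finset.mem_sdiff.1 (hZ ha)).1
          · exact hc
        · rw [Finset.card_union_of_disjoint, hZ2, Finset.card_singleton]
          rw [Finset.disjoint_singleton_right]
          intro hcZ
          exact (Finset.mem_sdiff.1 (hZ hcZ)).2 (Finset.mem_singleton_self c)
    · push Not at hall
      obtain ⟨T, hT, hT3, hTr⟩ := hall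
      have hTr2 : M.rk T ≤ 2 := by
        have := M.rk_le_card T
        omega
      have hc1 : ((M.E \ A) \ T).card = 1 := by
        rw [Finset.card_sdiff_of_subset hT]
        omega
      obtain ⟨c, hc⟩ := Finset.card_eq_one.1 hc1
      have hcm : c ∈ (M.E \ A) \ T := by
        rw [hc]
        exact Finset.mem_singleton_self c
      have hcm' := Finset.mem_sdiff.1 hcm
      have hTc : (M.E \ A) \ {c} = T := by
        rw [← hc, Finset.sdiff_sdiff_eq_self hT]
      refine ⟨c, hcm'.1, ?_, ?_⟩
      · have h7 := h T hT (by omega)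
        have h8 := M.lam_add T
        have h9 : M.E \ T = insert c A := by
          ext a
          rw [Finset.mem_sdiff, Finset.mem_insert]
          constructor
          · rintro ⟨ha, ha'⟩
            by_cases haA : a ∈ A
            · exact Or.inr haA
            · left
              have : a ∈ (M.E \ A) \ T :=
                Finset.mem_sdiff.2 ⟨Finset.mem_sdiff.2 ⟨ha, haA⟩, ha'⟩
              rw [hc] at this
              exact Finset.mem_singleton.1 this
          · rintro (rfl | ha)
            · exact ⟨hYE hcm'.1, hcm'.2⟩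
            · exact ⟨hA ha, fun ha' => (Finset.mem_sdiff.1 (hT ha')).2 ha⟩
        rw [h9] at h8
        have h10 := M.rk_le_E (insert c A)
        omega
      · rw [hTc]
        intro Z hZ hZ2
        have h7 := M.rk_submod (Z ∪ {c}) T
        have h8 : Z ∪ {c} ∪ T = M.E \ A := by
          ext a
          rw [Finset.mem_union, Finset.mem_union, Finset.mem_singleton]
          constructor
          · rintro ((ha | rfl) | ha)
            · exact hT (hZ ha)
            · exact hcm'.1
            · exact hT ha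
          · intro ha
            by_cases haT : a ∈ T
            · exact Or.inr haT
            · left
              right
              have : a ∈ (M.E \ A) \ T := Finset.mem_sdiff.2 ⟨ha, haT⟩
              rw [hc] at this
              exact Finset.mem_singleton.1 this
        have h9 : (Z ∪ {c}) ∩ T = Z := by
          ext a
          rw [Finset.mem_inter, Finset.mem_union, Finset.mem_singleton]
          constructor
          · rintro ⟨ha | rfl, ha'⟩
            · exact ha
            · exact absurd ha' hcm'.2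
          · intro ha
            exact ⟨Or.inl ha, hZ ha⟩
        rw [h8, h9, hrY, hpair Z (hZ.trans hT) hZ2] at h7
        have h10 := M.rk_le_card (Z ∪ {c})
        have h11 := Finset.card_union_le Z {c}
        rw [Finset.card_singleton] at h11
        omega
  have hc1 : M.rk {c} = 1 := rk_single hpair (by omega) hc
  have hcA' : c ∉ A := (Finset.mem_sdiff.1 hc).2
  have hcE : c ∈ M.E := (Finset.mem_sdiff.1 hc).1
  have hTE : (M.E \ A) \ {c} ∪ {c} = M.E \ A := by
    rw [Finset.sdiff_union_of_subset]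
    rwa [Finset.singleton_subset_iff]
  refine ⟨M.con {c}, (M.E \ A) \ {c}, M.isMinor_con {c}, Finset.sdiff_subset, ?_, ?_, ?_, ?_, ?_⟩
  · rw [Finset.card_sdiff_of_subset (Finset.singleton_subset_iff.2 hc), h4,
      Finset.card_singleton]
  · rw [M.con_E]
    ext a
    rw [Finset.mem_sdiff, Finset.mem_union, Finset.mem_sdiff, Finset.mem_sdiff,
      Finset.mem_singleton]
    constructor
    · rintro ⟨ha, ha'⟩
      by_cases haA : a ∈ A
      · exact Or.inl haA
      · exact Or.inr ⟨⟨ha, haA⟩, ha'⟩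
    · rintro (ha | ⟨⟨ha, _⟩, ha'⟩)
      · exact ⟨hA ha, fun h' => hcA' (h' ▸ ha)⟩
      · exact ⟨ha, ha'⟩
  · have l1 := (M.con {c}).lam_add A
    have l2 := M.rk_con {c} A
    have l3 := M.rk_con {c} (M.con {c}).E
    have l4 := M.rk_con {c} ((M.con {c}).E \ A)
    have e1 : A ∪ {c} = insert c A := by
      rw [Finset.insert_eq, Finset.union_comm]
    have e2 : (M.con {c}).E ∪ {c} = M.E := by
      rw [M.con_E, Finset.sdiff_union_of_subset (Finset.singleton_subset_iff.2 hcE)]
    have e3 : (M.con {c}).E \ A ∪ {c} = M.E \ A := by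
      rw [M.con_E, sdiff_right_comm, hTE]
    rw [e1, hcA] at l2
    rw [e2] at l3
    rw [e3, hrY] at l4
    omega
  · have l1 := M.rk_con {c} ((M.E \ A) \ {c})
    rw [hTE, hrY] at l1
    omega
  · intro Z hZ hZ2
    have l1 := M.rk_con {c} Z
    rw [hcZ Z hZ hZ2] at l1
    omega

end Pool.Agent.H63.Sey
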