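import Pool.Agent.H63.Sey.PtDef

/-!
# The reduction step (job SEY-P3)
-/

set_option autoImplicit false

namespace Pool.Agent.H63.Sey

universe u

variable {α : Type u} [DecidableEq α]

/-- a singleton in a `Cl` set with another element has connectivity at least one -/
private lemma one_le_lam_singleton {M : BM α} {Y : Finset α} (h : Cl M Y) {b b' : α} (hb : b ∈ Y)
    (hb' : b' ∈ Y) (hne : b' ≠ b) : 1 ≤ M.lam {b} := by
  have h1 : 2 ≤ M.lam (insert b' {b}) := by
    apply h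
    · intro c hc
      rw [Finset.mem_insert, Finset.mem_singleton] at hc
      rcases hc with rfl | rfl
      · exact hb'
      · exact hb
    · rw [Finset.card_insert_of_notMem (by simpa using hne), Finset.card_singleton]
  have h2 := M.lam_insert_le {b} b'
  omega

private lemma lam_eq_two_of_cl {M N : BM α} {A : Finset α} {y : α} (hA : A ⊆ M.E)
    (hlam : M.lam A = 2) (h6 : 6 ≤ (M.E \ A).card) (hy : y ∈ M.E \ A) (hNE : N.E = M.E \ {y})
    (hle : N.lam (A \ {y}) ≤ M.lam A) (hcl : Cl N (N.E \ A)) : N.lam A = 2 := by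
  rw [Finset.mem_sdiff] at hy
  have hAy : A \ {y} = A := by
    apply Finset.sdiff_eq_self_of_disjoint
    rw [Finset.disjoint_singleton_right]
    exact hy.2
  rw [hAy] at hle
  have hAN : A ⊆ N.E := by
    rw [hNE]
    intro a ha
    rw [Finset.mem_sdiff, Finset.mem_singleton]
    exact ⟨hA ha, fun h => hy.2 (h ▸ ha)⟩
  have h1 := N.lam_compl A hAN
  have h2 : 2 ≤ N.lam (N.E \ A) := by
    apply hcl _ (Finset.Subset.refl _)
    have e : N.E \ A = (M.E \ A).erase y := by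
      rw [hNE]
      ext a
      simp only [Finset.mem_sdiff, Finset.mem_singleton, Finset.mem_erase]
      tauto
    rw [e, Finset.card_erase_of_mem (Finset.mem_sdiff.2 hy)]
    omega
  omega

/-- Let `Y = M.E \ A`, `lam A = 2`, `|Y| ≥ 6`, `Cl M Y`, and suppose that every `B ⊂ Y` with
`|B| ≥ 4` has `lam B ≥ 3`. Then for every `y ∈ Y` one of `N = M \ y`, `N = M / y` satisfies
`N.lam A = 2` and `Cl N (Y \ y)`.

Proof. First, `Cl N (Y \ y)` implies `N.lam A = 2`: `N.lam A ≤ M.lam A` by `lam_del_le` or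
`lam_con_le` (`A \ {y} = A`), and `N.lam A = N.lam (Y \ y) ≥ 2` (`lam_compl`).
Suppose both fail: there are `X, X' ⊆ Y \ y` with at least two elements,
`lam_{M\y} X ≤ 1`, `lam_{M/y} X' ≤ 1`. By `lam_del_single`, `lam_con_single`:
`M.lam X ≤ 2`, `M.lam X' ≤ 2`, so `|X|, |X'| ≤ 3` (they are proper subsets of `Y`).
`bc_ineq` gives `lam (X ∩ X') + lam (X ∪ X' + y) ≤ 3`. `X ∪ X' + y` has at least `3` elements, so
its `lam` is `≥ 2`, so `lam (X ∩ X') ≤ 1` and `|X ∩ X'| ≤ 1`.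
`bc_ineq` for `E \ y \ X` in place of `X` (`lam_compl` in `M \ y`) gives
`lam (X' \ X) + lam (X \ X') ≤ 3` (the complement of `(E \ y \ X) ∪ X' + y` is `X \ X'`), so one of
`X' \ X`, `X \ X'` has at most one element. If it is `X \ X'`, then `|X| ≤ 2`,
so `|X| = 2` and `|X ∩ X'| = 1`; similarly in the other case. So `|X ∩ X'| = 1` and
`|X ∪ X' + y| ≤ 2 + 3 - 1 + 1 = 5 < |Y|`. `lam (X ∩ X') = 1`: a singleton `{b} ⊆ Y` has
`lam ≥ 1` (`lam_insert_le`: `2 ≤ lam {b, b'} ≤ lam {b} + 1`). So `lam (X ∪ X' + y) ≤ 2`; its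
size is `≥ 4` since `|X ∪ X'| ≥ 3` (`|X| ≥ 2`, `|X'| ≥ 2`, `|X ∩ X'| = 1`), contradiction. -/
theorem cl_step {M : BM α} {A : Finset α} (hA : A ⊆ M.E) (hlam : M.lam A = 2)
    (h : Cl M (M.E \ A)) (h6 : 6 ≤ (M.E \ A).card)
    (hmin : ∀ B ⊂ M.E \ A, 4 ≤ B.card → 3 ≤ M.lam B) {y : α} (hy : y ∈ M.E \ A) :
    ∃ N : BM α, N.IsMinor M ∧ N.E = M.E \ {y} ∧ N.lam A = 2 ∧ Cl N (N.E \ A) := by
  have hyM : y ∈ M.E := (Finset.mem_sdiff.1 hy).1
  have hyA : y ∉ A := (Finset.mem_sdiff.1 hy).2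
  -- reduce to `Cl`
  by_cases hd : Cl (M.del {y}) ((M.del {y}).E \ A)
  · exact ⟨M.del {y}, M.isMinor_del {y}, rfl,
      lam_eq_two_of_cl hA hlam h6 hy rfl (M.lam_del_le A {y}) hd, hd⟩
  by_cases hc : Cl (M.con {y}) ((M.con {y}).E \ A)
  · exact ⟨M.con {y}, M.isMinor_con {y}, rfl,
      lam_eq_two_of_cl hA hlam h6 hy rfl (M.lam_con_le A {y}) hc, hc⟩
  exfalso
  unfold Cl at hd hc
  push Not at hd hc
  obtain ⟨X, hXs, hX2, hXl⟩ := hd
  obtain ⟨X', hXs', hX2', hXl'⟩ := hc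
  rw [LM.del_E] at hXs
  rw [LM.con_E] at hXs'
  have sub : ∀ Z : Finset α, Z ⊆ (M.E \ {y}) \ A → Z ⊆ M.E \ A ∧ y ∉ Z ∧ Z ⊆ M.E \ {y} := by
    intro Z hZ
    refine ⟨fun a ha => ?_, fun hyZ => ?_, fun a ha => (Finset.mem_sdiff.1 (hZ ha)).1⟩
    · have h1 := hZ ha
      rw [Finset.mem_sdiff, Finset.mem_sdiff] at h1
      rw [Finset.mem_sdiff]
      exact ⟨h1.1.1, h1.2⟩
    · have h1 := hZ hyZ
      rw [Finset.mem_sdiff, Finset.mem_sdiff, Finset.mem_singleton] at h1
      exact h1.1.2 rfl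
  obtain ⟨hXY, hyX, hXE⟩ := sub X hXs
  obtain ⟨hXY', hyX', hXE'⟩ := sub X' hXs'
  have hXM : X ⊆ M.E := hXY.trans Finset.sdiff_subset
  have hXM' : X' ⊆ M.E := hXY'.trans Finset.sdiff_subset
  have d1 := M.lam_del_single hXM hyX hyM
  have d2 := M.lam_con_single hXM' hyX' hyM
  have hss : ∀ Z : Finset α, Z ⊆ M.E \ A → y ∉ Z → Z ⊂ M.E \ A := fun Z hZ hyZ =>
    Finset.ssubset_iff_subset_ne.2 ⟨hZ, fun he => hyZ (he ▸ hy)⟩
  have hX3 : X.card ≤ 3 := by
    by_contra hcon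
    have := hmin X (hss X hXY hyX) (by omega)
    omega
  have hX3' : X'.card ≤ 3 := by
    by_contra hcon
    have := hmin X' (hss X' hXY' hyX') (by omega)
    omega
  have hUY : insert y (X ∪ X') ⊆ M.E \ A := by
    intro a ha
    rw [Finset.mem_insert, Finset.mem_union] at ha
    rcases ha with rfl | ha | ha
    · exact hy
    · exact hXY ha
    · exact hXY' ha
  have hyU : y ∉ X ∪ X' := by
    rw [Finset.mem_union]
    rintro (h1 | h1)
    · exact hyX h1
    · exact hyX' h1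
  have hUc : (insert y (X ∪ X')).card = (X ∪ X').card + 1 := Finset.card_insert_of_notMem hyU
  have hUX : X.card ≤ (X ∪ X').card := Finset.card_le_card Finset.subset_union_left
  have hlU : 2 ≤ M.lam (insert y (X ∪ X')) := h _ hUY (by omega)
  have b1 := M.bc_ineq hyM hXE hXE'
  have hint : (X ∩ X').card ≤ 1 := by
    by_contra hcon
    have := h (X ∩ X') (Finset.inter_subset_left.trans hXY) (by omega)
    omega
  -- second inequality
  have hX1E : (M.E \ {y}) \ X ⊆ M.E \ {y} := Finset.sdiff_subset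
  have b2 := M.bc_ineq hyM hX1E hXE'
  have hl1 : (M.del {y}).lam ((M.E \ {y}) \ X) = (M.del {y}).lam X :=
    (M.del {y}).lam_compl X hXE
  have e1 : ((M.E \ {y}) \ X) ∩ X' = X' \ X := by
    ext a
    simp only [Finset.mem_inter, Finset.mem_sdiff, Finset.mem_singleton]
    constructor
    · rintro ⟨⟨_, h2⟩, h3⟩
      exact ⟨h3, h2⟩
    · rintro ⟨h2, h3⟩
      exact ⟨⟨⟨hXM' h2, fun he => hyX' (he ▸ h2)⟩, h3⟩, h2⟩
  have e2 : insert y (((M.E \ {y}) \ X) ∪ X') = M.E \ (X \ X') := by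
    ext a
    simp only [Finset.mem_insert, Finset.mem_union, Finset.mem_sdiff, Finset.mem_singleton]
    constructor
    · rintro (rfl | ⟨⟨h2, _⟩, h3⟩ | h2)
      · exact ⟨hyM, fun h3 => hyX h3.1⟩
      · exact ⟨h2, fun h4 => h3 h4.1⟩
      · exact ⟨hXM' h2, fun h3 => h3.2 h2⟩
    · rintro ⟨h2, h3⟩
      by_cases h4 : a = y
      · exact Or.inl h4
      · by_cases h5 : a ∈ X'
        · exact Or.inr (Or.inr h5)
        · exact Or.inr (Or.inl ⟨⟨h2, h4⟩, fun h6 => h3 ⟨h6, h5⟩⟩)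
  rw [e1, e2, M.lam_compl (X \ X') (Finset.sdiff_subset.trans hXM), hl1] at b2
  have hcardX := Finset.card_sdiff_add_card_inter X X'
  have hcardX' := Finset.card_sdiff_add_card_inter X' X
  rw [Finset.inter_comm] at hcardX'
  have hcu := Finset.card_union_add_card_inter X X'
  have hsmall : (X \ X').card ≤ 1 ∨ (X' \ X).card ≤ 1 := by
    by_contra hcon
    push Not at hcon
    have h1 := h (X \ X') (Finset.sdiff_subset.trans hXY) (by omega)
    have h2 := h (X' \ X) (Finset.sdiff_subset.trans hXY') (by omega)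
    omega
  have hone : (X ∩ X').card = 1 := by
    rcases hsmall with h1 | h1 <;> omega
  have h4 : 4 ≤ (insert y (X ∪ X')).card := by omega
  have h5 : (insert y (X ∪ X')).card < (M.E \ A).card := by
    rcases hsmall with h1 | h1 <;> omega
  have hlU3 : 3 ≤ M.lam (insert y (X ∪ X')) := by
    apply hmin _ _ h4
    rw [Finset.ssubset_iff_subset_ne]
    refine ⟨hUY, fun he => ?_⟩
    rw [he] at h5
    omega
  obtain ⟨b, hb⟩ := Finset.card_eq_one.1 hone
  have hbX : b ∈ X ∩ X' := by rw [hb]; exact Finset.mem_singleton_self b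
  have hbX2 := (Finset.mem_inter.1 hbX).1
  have h7 := one_le_lam_singleton h (hXY hbX2) hy (fun he => hyX (he ▸ hbX2))
  rw [← hb] at h7
  omega

/-- Let `B ⊆ Y = M.E \ A`, `2 ≤ |B|`, `lam A = lam B = 2`, `Cl M Y`. Then there is a minor `N` on
`A ∪ B` with `N.lam A = 2`, and `Cl N B`.

Proof. `M.exists_link` with `k = 2`: a set `X` with `A ⊆ X ⊆ M.E \ B` has
`lam X = lam (M.E \ X)` and `B ⊆ M.E \ X ⊆ Y`, so `lam X ≥ 2`. Then `N.lam A = N.lam B`
(`lam_compl`), `N.lam A ≤ M.lam A` (`lam_del_le`, `lam_con_le`, or see `lam_le_of_minor`), so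
`N.lam B = 2 = M.lam B` and `LM.lam_le_of_lam` (for `B`) gives `Cl N B`. -/
theorem cl_link {M : BM α} {A B : Finset α} (hA : A ⊆ M.E) (hlam : M.lam A = 2)
    (h : Cl M (M.E \ A)) (hB : B ⊆ M.E \ A) (hB2 : 2 ≤ B.card) (hlamB : M.lam B = 2) :
    ∃ N : BM α, N.IsMinor M ∧ N.E = A ∪ B ∧ N.lam A = 2 ∧ Cl N (N.E \ A) := by
  have hBM : B ⊆ M.E := hB.trans Finset.sdiff_subset
  have hAB : Disjoint A B := by
    rw [Finset.disjoint_right]
    intro a ha
    exact (Finset.mem_sdiff.1 (hB ha)).2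
  obtain ⟨N, hN, hNE, hN2⟩ := M.exists_link hA hBM hAB (k := 2) (by
    intro X hAX hXB
    have hXM : X ⊆ M.E := hXB.trans Finset.sdiff_subset
    rw [← M.lam_compl X hXM]
    apply h
    · exact Finset.sdiff_subset_sdiff (Finset.Subset.refl _) hAX
    · refine hB2.trans (Finset.card_le_card ?_)
      intro a ha
      rw [Finset.mem_sdiff]
      exact ⟨hBM ha, fun h1 => (Finset.mem_sdiff.1 (hXB h1)).2 ha⟩)
  have hAN : A ⊆ N.E := by rw [hNE]; exact Finset.subset_union_left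
  have hBN : B ⊆ N.E := by rw [hNE]; exact Finset.subset_union_right
  have hNA : N.E \ A = B := by
    rw [hNE]
    ext a
    simp only [Finset.mem_sdiff, Finset.mem_union]
    constructor
    · rintro ⟨h1 | h1, h2⟩
      · exact absurd h1 h2
      · exact h1
    · intro h1
      exact ⟨Or.inr h1, fun h2 => Finset.disjoint_left.1 hAB h2 h1⟩
  have hle : N.lam A ≤ M.lam A := by
    obtain ⟨C, D, hCD, rfl⟩ := hN
    have h1 := (M.con C).lam_del_le A D
    have h2 := M.lam_con_le A C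
    have hAE : A ⊆ (M.E \ C) \ D := hAN
    have e1 : A \ D = A := by
      apply Finset.sdiff_eq_self_of_disjoint
      rw [Finset.disjoint_left]
      intro a ha
      exact (Finset.mem_sdiff.1 (hAE ha)).2
    have e2 : A \ C = A := by
      apply Finset.sdiff_eq_self_of_disjoint
      rw [Finset.disjoint_left]
      intro a ha
      exact (Finset.mem_sdiff.1 (Finset.mem_sdiff.1 (hAE ha)).1).2
    rw [e1] at h1
    rw [e2] at h2
    exact h1.trans h2
  have hNA2 : N.lam A = 2 := by omega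
  have hNB := N.lam_compl A hAN
  rw [hNA] at hNB
  refine ⟨N, hN, hNE, hNA2, ?_⟩
  rw [hNA]
  intro X hX hX2
  refine (h X (hX.trans hB) hX2).trans (M.lam_le_of_lam hN hBN ?_ hX)
  rw [hlamB, hNB, hNA2]

end Pool.Agent.H63.Sey
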