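import Pool.Agent.H63.Sey.PtA
import Pool.Agent.H63.Sey.PtB

/-!
# Existence of a triangle minor (job SEY-P4)
-/

set_option autoImplicit false

namespace Pool.Agent.H63.Sey

universe u

variable {α : Type u} [DecidableEq α]

/-- the case `|Y| = 5` with `r E = r A + 1` -/
lemma PtCAux.five {M : BM α} {A : Finset α} (hA : A ⊆ M.E) (hlam : M.lam A = 2)
    (h : Cl M (M.E \ A)) (h5 : (M.E \ A).card = 5)
    (hmin : ∀ B ⊂ M.E \ A, 4 ≤ B.card → 3 ≤ M.lam B) : M.rk M.E ≠ M.rk A + 1 := by
  intro hr
  have h4 := card_le_four hA hlam hr (fun B hB h2 => h.rk_pair hB h2) (by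
    intro y hy hcl
    rw [LM.inCl_iff_rk] at hcl
    have hss : (M.E \ A).erase y ⊂ M.E \ A := Finset.erase_ssubset hy
    have hc : ((M.E \ A).erase y).card = 4 := by
      rw [Finset.card_erase_of_mem hy, h5]
    have h1 := hmin _ hss (by omega)
    have h2 := M.lam_add ((M.E \ A).erase y)
    have h3 := M.lam_add A
    have e : M.E \ (M.E \ A).erase y = insert y A := by
      ext a
      simp only [Finset.mem_sdiff, Finset.mem_erase, Finset.mem_insert]
      constructor
      · rintro ⟨h1, h2⟩
        by_cases h3 : a = y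
        · exact Or.inl h3
        · exact Or.inr (by_contra fun h4 => h2 ⟨h3, h1, h4⟩)
      · rintro (h1 | h1)
        · rw [h1]
          exact ⟨(Finset.mem_sdiff.1 hy).1, fun h2 => h2.1 rfl⟩
        · exact ⟨hA h1, fun h2 => h2.2.2 h1⟩
    rw [e] at h2
    have h5 : M.rk ((M.E \ A).erase y) ≤ M.rk (M.E \ A) := M.rk_mono (Finset.erase_subset _ _)
    omega)
  omega

/-- a `TMinor` of a minor -/
lemma PtCAux.trans {M N : BM α} {A : Finset α} (hN : N.IsMinor M) (h : TMinor N A) :
    TMinor M A := by
  obtain ⟨N', T, h1, h2, h3, h4, h5, h6, h7⟩ := h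
  exact ⟨N', T, h1.trans hN, h2.trans (Finset.sdiff_subset_sdiff hN.E_subset
    (Finset.Subset.refl _)), h3, h4, h5, h6, h7⟩

/-- Induction on `|M.E \ A|`, `Y = M.E \ A`.
* `|Y| = 4`: `tMinor_of_four`.
* Some `B ⊂ Y` with `|B| ≥ 4` has `lam B ≤ 2`, so `lam B = 2`: take `N` from `cl_link`; `N.E \ A = B`
  is smaller; a `TMinor` of `N` is a `TMinor` of `M` (`IsMinor.trans`).
* `|Y| ≥ 6` and no such `B`: `cl_step` for any `y ∈ Y`; induction for `N`.
* `|Y| = 5` and no such `B` is impossible: for `y ∈ Y`, `lam (Y \ y) ≥ 3` while `lam Y = 2`, i.e.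
  `r (Y \ y) + r (A ∪ {y}) ≥ r E + 3`, `r Y + r A = r E + 2`, `r (Y \ y) ≤ r Y`,
  `r (A ∪ {y}) ≤ r A + 1`: so `r (A ∪ {y}) = r A + 1`, `y ∉ cl A` (`inCl_iff_rk`), for all
  `y ∈ Y`; the hypotheses are self dual (`lam_dual`, `Cl.dual`), so the same holds in `M.dual`.
  `r Y ≥ 3` and `r* Y ≥ 3` by `card_le_three` and `r Y + r* Y = |Y| + lam Y = 7`
  (`rk_dual`: `r* Y + r E = 5 + r A`). So `r Y = 3` or `r* Y = 3`, i.e. `r E = r A + 1` or the same
  in the dual; `card_le_four` gives `|Y| ≤ 4`, contradiction. -/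
theorem tMinor_of_cl {M : BM α} {A : Finset α} (hA : A ⊆ M.E) (hlam : M.lam A = 2)
    (h : Cl M (M.E \ A)) (h4 : 4 ≤ (M.E \ A).card) : TMinor M A := by
  obtain ⟨n, hn⟩ : ∃ n, (M.E \ A).card = n := ⟨_, rfl⟩
  induction n using Nat.strong_induction_on generalizing M with
  | _ n ih =>
  rcases Nat.lt_or_ge 4 (M.E \ A).card with h5 | h5
  · by_cases hB : ∃ B ⊂ M.E \ A, 4 ≤ B.card ∧ M.lam B < 3
    · obtain ⟨B, hBs, hB4, hB3⟩ := hB
      have hB2 := h B hBs.1 (by omega)
      obtain ⟨N, hNM, hNE, hNl, hNc⟩ := cl_link hA hlam h hBs.1 (by omega) (by omega)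
      have e : N.E \ A = B := by
        rw [hNE]
        ext a
        simp only [Finset.mem_sdiff, Finset.mem_union]
        constructor
        · rintro ⟨h1 | h1, h2⟩
          · exact absurd h1 h2
          · exact h1
        · intro h1
          exact ⟨Or.inr h1, (Finset.mem_sdiff.1 (hBs.1 h1)).2⟩
      have hlt := Finset.card_lt_card hBs
      have hAN : A ⊆ N.E := by
        rw [hNE]
        exact Finset.subset_union_left
      refine PtCAux.trans hNM (ih B.card (by omega) hAN hNl hNc ?_ ?_)
      · rw [e]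
        exact hB4
      · rw [e]
    · have hmin : ∀ B ⊂ M.E \ A, 4 ≤ B.card → 3 ≤ M.lam B := by
        intro B h1 h2
        by_contra h3
        exact hB ⟨B, h1, h2, by omega⟩
      rcases Nat.lt_or_ge 5 (M.E \ A).card with h6 | h6
      · obtain ⟨y, hy⟩ : (M.E \ A).Nonempty := by
          rw [← Finset.card_pos]
          omega
        obtain ⟨N, hNM, hNE, hNl, hNc⟩ := cl_step hA hlam h (by omega) hmin hy
        have e : N.E \ A = (M.E \ A).erase y := by
          rw [hNE]
          ext a
          simp only [Finset.mem_sdiff, Finset.mem_erase, Finset.mem_singleton]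
          tauto
        have hc : (N.E \ A).card = (M.E \ A).card - 1 := by
          rw [e, Finset.card_erase_of_mem hy]
        have hAN : A ⊆ N.E := by
          rw [hNE]
          intro a ha
          rw [Finset.mem_sdiff, Finset.mem_singleton]
          refine ⟨hA ha, ?_⟩
          rintro rfl
          exact (Finset.mem_sdiff.1 hy).2 ha
        exact PtCAux.trans hNM (ih _ (by omega) hAN hNl hNc (by omega) rfl)
      · exfalso
        have h55 : (M.E \ A).card = 5 := by omega
        have hd : Cl M.dual (M.E \ A) := h.dual Finset.sdiff_subset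
        have r1 : 3 ≤ M.rk (M.E \ A) := by
          by_contra hcon
          have := card_le_three (M := M) (Y := M.E \ A) (fun B hB h2 => h.rk_pair hB h2)
            (by omega)
          omega
        have r2 : 3 ≤ M.dual.rk (M.E \ A) := by
          by_contra hcon
          have := card_le_three (M := M.dual) (Y := M.E \ A) (fun B hB h2 => hd.rk_pair hB h2)
            (by omega)
          omega
        have r3 := M.rk_dual (M.E \ A) Finset.sdiff_subset
        rw [Finset.sdiff_sdiff_eq_self hA] at r3
        have r4 := M.lam_add A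
        have r5 := M.dual.lam_add A
        have r6 := M.lam_dual A hA
        rw [LM.dual_E] at r5
        have f1 := PtCAux.five hA hlam h h55 hmin
        have f2 := PtCAux.five (M := M.dual) (A := A) hA (by omega) hd h55 (by
          intro B hB hB4
          rw [M.lam_dual B (hB.1.trans Finset.sdiff_subset)]
          exact hmin B hB hB4)
        rw [LM.dual_E] at f2
        omega
  · exact tMinor_of_four hA hlam h (by omega)

end Pool.Agent.H63.Sey
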