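import Pool.Agent.H63.Sey.Link
import Pool.Agent.H87.Sey.Parts

/-!
# Definitions for the parts of a 3-separation (MP_dbe88a)
-/

set_option autoImplicit false

namespace Pool.Agent.H63.Sey

universe u

variable {α : Type u} [DecidableEq α]

/-- `Y` has connectivity at least `2` on all its subsets with at least two elements -/
def Cl (M : BM α) (Y : Finset α) : Prop := ∀ B ⊆ Y, 2 ≤ B.card → 2 ≤ M.lam B

/-- `N` is a minor of `M` on `A ∪ T`, where `T` is a triangle spanning the guts of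
`(A, M.E \ A)` -/
def TMinor (M : BM α) (A : Finset α) : Prop :=
  ∃ (N : BM α) (T : Finset α), N.IsMinor M ∧ T ⊆ M.E \ A ∧ T.card = 3 ∧ N.E = A ∪ T ∧
    N.lam A = 2 ∧ N.rk T = 2 ∧ ∀ Z ⊆ T, Z.card = 2 → N.rk Z = 2

end Pool.Agent.H63.Sey
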