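import Pool.Agent.H63.Sey.FinalDef
import Pool.Agent.H63.Sey.FinC
import Pool.Agent.H87.Sey.GraphBasic

/-!
# R10 is neither graphic nor cographic (job SEY-T1)
-/

set_option autoImplicit false

namespace Pool.Agent.H63.Sey

open Pool.Agent.H87.Sey

universe u

variable {α : Type u} [DecidableEq α]

private theorem r10_inj_aux : ∀ φ : Fin 5 → ZMod 2, (∀ i, ∑ j, φ j * r10 i j = 0) → φ = 0 := by
  decide +kernel

private theorem r10_cog_aux : ∀ φ : Fin 5 → ZMod 2, φ ≠ 0 →
    4 ≤ (Finset.univ.filter fun i : Fin 10 => ∑ j, φ j * r10 i j ≠ 0).card := by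
  decide +kernel

/-- `|E| = 10`, rank `5` (the map `concMap r10 ι` is injective, `decide`; `LM.rk_E`) -/
lemma r10_card_rk {M : BM α} (h : IsR10 M) : M.E.card = 10 ∧ M.rk M.E = 5 := by
  obtain ⟨ι, hι, rfl⟩ := h
  constructor
  · rw [conc_E, Finset.card_image_of_injective _ hι, Finset.card_univ, Fintype.card_fin]
  · rw [LM.rk_E]
    have hinj : Function.Injective (concMap r10 ι) := by
      rw [injective_iff_map_eq_zero]
      intro φ hφ
      refine r10_inj_aux φ fun i => ?_
      rw [← concMap_mem r10 hι, hφ]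
      rfl
    show Module.finrank (ZMod 2) (LinearMap.range (concMap r10 ι)) = 5
    rw [LinearMap.finrank_range_of_inj hinj]
    simp

/-- all nonzero cocycles of `R10` have at least four elements: for `φ ≠ 0` (`φ : Fin 5 → ZMod 2`)
at least four of the `10` sums `∑ j, φ j * r10 i j` are nonzero (`decide`); transport with
`concMap_mem` -/
lemma r10_cogirth {M : BM α} (h : IsR10 M) {x : α → ZMod 2} (hx : x ∈ M.D) (h0 : x ≠ 0) :
    4 ≤ (M.E.filter fun a => x a ≠ 0).card := by
  obtain ⟨ι, hι, rfl⟩ := h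
  obtain ⟨φ, rfl⟩ := hx
  have hφ : φ ≠ 0 := by
    rintro rfl
    exact h0 (map_zero _)
  have h1 := r10_cog_aux φ hφ
  rw [← Finset.card_image_of_injective _ hι] at h1
  refine h1.trans (Finset.card_le_card ?_)
  intro a ha
  obtain ⟨i, hi, rfl⟩ := Finset.mem_image.1 ha
  rw [Finset.mem_filter]
  refine ⟨Finset.mem_image.2 ⟨i, Finset.mem_univ _, rfl⟩, ?_⟩
  rw [concMap_mem r10 hι]
  exact (Finset.mem_filter.1 hi).2

/-- Let `M` be graphic such that all nonzero cocycles have at least four elements. Then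
`2 (r + 1) ≤ |E|` if `r = rk E ≥ 1`.

Proof. `M = cyc M.E f g`, `f g : α → Fin n`. Let `s v` be the cocycle of the function
`Pi.single v 1`, so `s v a = [f a = v] + [g a = v]` for `a ∈ E`. The `s v` span `M.D` and
`∑ v, s v = 0`. Let `W` be the (finite) set of `v` with `s v ≠ 0`; it is nonempty as `r ≥ 1`.
The `s v`, `v ∈ W`, span `M.D` and their sum is zero, so for a fixed `v₀ ∈ W` the `s v`,
`v ∈ W \ {v₀}`, span `M.D`: `r ≤ |W| - 1` (`LM.rk_E`, `finrank_span_finset_le_card`).
Every `a ∈ E` is in at most two of the supports of the `s v`, so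
`4 |W| ≤ ∑ v ∈ W, |supp (s v)| ≤ 2 |E|` (double counting). -/
theorem graphic_card_of_cogirth {M : BM α} (h : Graphic M)
    (h4 : ∀ x ∈ M.D, x ≠ 0 → 4 ≤ (M.E.filter fun a => x a ≠ 0).card) (hr : 1 ≤ M.rk M.E) :
    2 * (M.rk M.E + 1) ≤ M.E.card := by
  classical
  obtain ⟨n, f, g, hM⟩ := h
  have hD : M.D = LinearMap.range (cob M.E f g) := by
    conv_lhs => rw [hM]
    rfl
  let s : Fin n → (α → ZMod 2) := fun v => cob M.E f g (Pi.single v 1)
  let W : Finset (Fin n) := Finset.univ.filter fun v => s v ≠ 0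
  have hsD : ∀ v, s v ∈ M.D := fun v => by
    rw [hD]; exact ⟨_, rfl⟩
  have hsum : ∑ v, s v = 0 := by
    have h1 : ∑ v, s v = cob M.E f g (∑ v, Pi.single v 1) := (map_sum _ _ _).symm
    rw [h1]
    ext a
    rw [cob_apply]
    have h2 : ∀ w : Fin n, (∑ v, Pi.single v (1 : ZMod 2) : Fin n → ZMod 2) w = 1 := by
      intro w
      rw [Finset.sum_apply, Finset.sum_eq_single w]
      · simp
      · intro b _ hb
        exact Pi.single_eq_of_ne (Ne.symm hb) _
      · intro h
        exact absurd (Finset.mem_univ _) h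
    rw [h2, h2]
    split_ifs
    · show (1 : ZMod 2) + 1 = 0
      decide
    · rfl
  have hWsum : ∑ v ∈ W, s v = 0 := by
    rw [← hsum]
    refine Finset.sum_subset (Finset.subset_univ _) fun v _ hv => ?_
    by_contra h
    exact hv (Finset.mem_filter.2 ⟨Finset.mem_univ _, h⟩)
  have hspanD : ∀ x ∈ M.D, x ∈ Submodule.span (ZMod 2) (s '' (W : Set (Fin n))) := by
    intro x hx
    rw [hD] at hx
    obtain ⟨φ, rfl⟩ := hx
    have h1 : φ = ∑ v, φ v • (Pi.single v 1 : Fin n → ZMod 2) := by
      ext w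
      rw [Finset.sum_apply, Finset.sum_eq_single w]
      · simp
      · intro b _ hb
        simp [Pi.single_eq_of_ne (Ne.symm hb)]
      · intro h
        exact absurd (Finset.mem_univ _) h
    rw [h1, map_sum]
    refine Submodule.sum_mem _ fun v _ => ?_
    rw [map_smul]
    refine Submodule.smul_mem _ _ ?_
    by_cases hv : v ∈ W
    · exact Submodule.subset_span ⟨v, hv, rfl⟩
    · have : s v = 0 := by
        by_contra h
        exact hv (Finset.mem_filter.2 ⟨Finset.mem_univ _, h⟩)
      show s v ∈ _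
      rw [this]
      exact Submodule.zero_mem _
  have hWne : W.Nonempty := by
    by_contra hW
    rw [Finset.not_nonempty_iff_eq_empty] at hW
    have : M.D = ⊥ := by
      rw [eq_bot_iff]
      intro x hx
      have := hspanD x hx
      rw [hW] at this
      simpa using this
    rw [LM.rk_E, this] at hr
    simp at hr
  obtain ⟨v₀, hv₀⟩ := hWne
  have hle : M.D ≤ Submodule.span (ZMod 2) (((W.erase v₀).image s : Finset (α → ZMod 2)) :
      Set (α → ZMod 2)) := by
    intro x hx
    have h1 := hspanD x hx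
    refine Submodule.span_le.2 ?_ h1
    rintro _ ⟨v, hv, rfl⟩
    by_cases hvv : v = v₀
    · subst hvv
      have h2 : s v = -∑ w ∈ W.erase v, s w := by
        rw [← Finset.add_sum_erase W s hv] at hWsum
        exact eq_neg_of_add_eq_zero_left hWsum
      rw [h2]
      refine Submodule.neg_mem _ (Submodule.sum_mem _ fun w hw => ?_)
      exact Submodule.subset_span (Finset.mem_coe.2 (Finset.mem_image_of_mem _ hw))
    · exact Submodule.subset_span (Finset.mem_coe.2 (Finset.mem_image_of_mem _
        (Finset.mem_erase.2 ⟨hvv, hv⟩)))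
  have hrank : M.rk M.E + 1 ≤ W.card := by
    rw [LM.rk_E]
    have h1 : Module.finrank (ZMod 2) M.D ≤ (W.erase v₀).card := by
      refine (Submodule.finrank_mono hle).trans ?_
      exact (finrank_span_finset_le_card _).trans Finset.card_image_le
    have h2 := Finset.card_erase_add_one hv₀
    omega
  have hdc : ∑ v ∈ W, (M.E.filter fun a => s v a ≠ 0).card =
      ∑ a ∈ M.E, (W.filter fun v => s v a ≠ 0).card := by
    simp only [Finset.card_filter]
    exact Finset.sum_comm
  have hlow : W.card * 4 ≤ ∑ v ∈ W, (M.E.filter fun a => s v a ≠ 0).card := by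
    rw [← smul_eq_mul, ← Finset.sum_const]
    exact Finset.sum_le_sum fun v hv => h4 _ (hsD v) (Finset.mem_filter.1 hv).2
  have hup : ∑ a ∈ M.E, (W.filter fun v => s v a ≠ 0).card ≤ M.E.card * 2 := by
    rw [← smul_eq_mul, ← Finset.sum_const]
    refine Finset.sum_le_sum fun a _ => ?_
    have : (W.filter fun v => s v a ≠ 0) ⊆ {f a, g a} := by
      intro v hv
      have h1 := (Finset.mem_filter.1 hv).2
      rw [Finset.mem_insert, Finset.mem_singleton]
      by_contra h2
      push Not at h2
      apply h1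
      show cob M.E f g (Pi.single v 1) a = 0
      rw [cob_apply, Pi.single_eq_of_ne (Ne.symm h2.1), Pi.single_eq_of_ne (Ne.symm h2.2)]
      simp
    exact (Finset.card_le_card this).trans Finset.card_le_two
  omega

/-- `12 ≤ 10` is false -/
theorem not_graphic_of_isR10 {M : BM α} (h : IsR10 M) : ¬ Graphic M := by
  intro hg
  obtain ⟨h1, h2⟩ := r10_card_rk h
  have h3 := graphic_card_of_cogirth hg (fun x hx h0 => r10_cogirth h hx h0) (by omega)
  omega

/-- `isR10_dual` -/
theorem not_cographic_of_isR10 {M : BM α} (h : IsR10 M) : ¬ Cographic M :=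
  not_graphic_of_isR10 (isR10_dual h)

/-- `graphic_minor`, `cographic_minor` (`H87/Sey/GraphBasic.lean`) -/
theorem HasR10.not_graphic {M : BM α} (h : HasR10 M) : ¬ Graphic M := by
  obtain ⟨N, hN, hR⟩ := h
  exact fun hg => not_graphic_of_isR10 hR (graphic_minor hg hN)

theorem HasR10.not_cographic {M : BM α} (h : HasR10 M) : ¬ Cographic M := by
  obtain ⟨N, hN, hR⟩ := h
  exact fun hg => not_cographic_of_isR10 hR (cographic_minor hg hN)

lemma HasR10.card {M : BM α} (h : HasR10 M) : 10 ≤ M.E.card := by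
  obtain ⟨N, hN, hR⟩ := h
  rw [← (r10_card_rk hR).1]
  exact Finset.card_le_card hN.E_subset

lemma HasR10.dual {M : BM α} (h : HasR10 M) : HasR10 M.dual := by
  obtain ⟨N, hN, hR⟩ := h
  exact ⟨N.dual, hN.dual, isR10_dual hR⟩

lemma HasR10.mono {M N : BM α} (h : HasR10 N) (hN : N.IsMinor M) : HasR10 M := by
  obtain ⟨L, hL, hR⟩ := h
  exact ⟨L, hL.trans hN, hR⟩

end Pool.Agent.H63.Sey
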