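import Pool.Agent.H63.Sey.Defs

/-!
# Rank function of a linear matroid (job SEY-B1)

Everything by linear algebra: `M.rk X = finrank (M.D.map (res K X))`. `M.D` is finite-dimensional
(its elements vanish outside the finite set `E`; restriction to `E` is injective on it).
* `rk_mono`, `rk_empty`, `rk_insert_le`, `rk_le_card`: `res X` factors through `res Y` for `X ⊆ Y`;
* `rk_add_finrank`: rank-nullity for `res X` on `D`;
* `inCl_iff_rk`: `a ∈ cl X` iff the kernels of `res X` and `res (insert a X)` on `D` agree;
* `rk_submod`: with `ρ a ∈ Dual D` (evaluation at `a`) one has `rk X = finrank span (ρ '' X)`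
  (`rk_eq_span`), and submodularity is the dimension formula for sums of subspaces.
-/

set_option autoImplicit false

namespace Pool.Agent.H63.Sey.LM

universe u

variable {K : Type} [Field K] {α : Type u} [DecidableEq α] (M : LM K α)

instance finiteDimensional_D : FiniteDimensional K M.D := by
  let f : M.D →ₗ[K] (M.E → K) :=
    { toFun := fun x a => x.1 a
      map_add' := fun _ _ => rfl
      map_smul' := fun _ _ => rfl }
  have hf : Function.Injective f := by
    intro x y hxy
    apply Subtype.ext
    funext a
    by_cases ha : a ∈ M.E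
    · exact congrFun hxy ⟨a, ha⟩
    · rw [M.supp x.1 x.2 a ha, M.supp y.1 y.2 a ha]
  exact FiniteDimensional.of_injective f hf

lemma rk_add_finrank (X : Finset α) :
    M.rk X + Module.finrank K ↥(M.D ⊓ LinearMap.ker (res K X) : Submodule K (α → K)) =
      Module.finrank K M.D := by
  have h1 := LinearMap.finrank_range_add_finrank_ker ((res K X).domRestrict M.D)
  rw [LinearMap.range_domRestrict, LinearMap.ker_domRestrict] at h1
  have h2 : Module.finrank K ↥(M.D ⊓ LinearMap.ker (res K X) : Submodule K (α → K)) =
      Module.finrank K ↥((LinearMap.ker (res K X)).comap M.D.subtype) := by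
    rw [← Submodule.map_comap_subtype]
    exact Submodule.finrank_map_subtype_eq _ _
  rw [h2]
  exact h1

lemma rk_E : M.rk M.E = Module.finrank K M.D := by
  have h : M.D.map (res K M.E) = M.D := by
    ext x
    constructor
    · rintro ⟨y, hy, rfl⟩
      have : res K M.E y = y := by
        funext a
        by_cases ha : a ∈ M.E
        · simp [ha]
        · simp [ha, M.supp y hy a ha]
      rw [this]
      exact hy
    · intro hx
      refine ⟨x, hx, ?_⟩
      funext a
      by_cases ha : a ∈ M.E
      · simp [ha]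
      · simp [ha, M.supp x hx a ha]
  unfold rk
  rw [h]

/-- the evaluation vector of an element -/
def evec (a : α) : Module.Dual K M.D where
  toFun x := x.1 a
  map_add' _ _ := rfl
  map_smul' _ _ := rfl

lemma evec_apply (a : α) (x : M.D) : M.evec a x = x.1 a := rfl

lemma span_apply_eq_zero {X : Finset α} {φ : Module.Dual K M.D}
    (hφ : φ ∈ Submodule.span K (M.evec '' (X : Set α))) {x : M.D} (hx : ∀ a ∈ X, x.1 a = 0) :
    φ x = 0 := by
  have h1 : Submodule.span K (M.evec '' (X : Set α)) ≤
      LinearMap.ker (Module.Dual.eval K M.D x) := by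
    rw [Submodule.span_le]
    rintro _ ⟨a, ha, rfl⟩
    exact hx a ha
  exact h1 hφ

lemma coann_eq (X : Finset α) :
    (Submodule.span K (M.evec '' (X : Set α))).dualCoannihilator =
      (LinearMap.ker (res K X)).comap M.D.subtype := by
  ext x
  rw [Submodule.mem_dualCoannihilator, Submodule.mem_comap, LinearMap.mem_ker]
  constructor
  · intro h
    funext a
    by_cases ha : a ∈ X
    · have := h (M.evec a) (Submodule.subset_span ⟨a, ha, rfl⟩)
      rw [evec_apply] at this
      simp [ha, this]
    · simp [ha]
  · intro h φ hφ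
    refine M.span_apply_eq_zero hφ fun a ha => ?_
    have := congrFun h a
    simpa [ha] using this

lemma rk_eq_span (X : Finset α) :
    M.rk X = Module.finrank K (Submodule.span K (M.evec '' (X : Set α))) := by
  have h1 := M.rk_add_finrank X
  have h3 := Subspace.finrank_add_finrank_dualCoannihilator_eq
    (Submodule.span K (M.evec '' (X : Set α)))
  rw [coann_eq] at h3
  have h2 : Module.finrank K ↥(M.D ⊓ LinearMap.ker (res K X) : Submodule K (α → K)) =
      Module.finrank K ↥((LinearMap.ker (res K X)).comap M.D.subtype) := by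
    rw [← Submodule.map_comap_subtype]
    exact Submodule.finrank_map_subtype_eq _ _
  rw [h2] at h1
  omega

lemma inCl_iff_mem_span {X : Finset α} {a : α} :
    M.InCl X a ↔ M.evec a ∈ Submodule.span K (M.evec '' (X : Set α)) := by
  constructor
  · intro h
    rw [← Subspace.dualCoannihilator_dualAnnihilator_eq
      (W := Submodule.span K (M.evec '' (X : Set α))), Submodule.mem_dualAnnihilator]
    intro x hx
    rw [coann_eq, Submodule.mem_comap, LinearMap.mem_ker] at hx
    refine h x.1 x.2 fun b hb => ?_
    have := congrFun hx b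
    simpa [hb] using this
  · intro h x hx hx'
    exact M.span_apply_eq_zero (x := ⟨x, hx⟩) h hx'

lemma rk_empty : M.rk ∅ = 0 := by
  rw [rk_eq_span]
  simp

lemma rk_mono {X Y : Finset α} (h : X ⊆ Y) : M.rk X ≤ M.rk Y := by
  rw [rk_eq_span, rk_eq_span]
  exact Submodule.finrank_mono (Submodule.span_mono (Set.image_mono (Finset.coe_subset.2 h)))

lemma rk_inter_E (X : Finset α) : M.rk (X ∩ M.E) = M.rk X := by
  have h : M.D.map (res K (X ∩ M.E)) = M.D.map (res K X) := by
    have h1 : ∀ y ∈ M.D, res K (X ∩ M.E) y = res K X y := by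
      intro y hy
      funext a
      by_cases ha : a ∈ M.E
      · simp [ha]
      · simp [ha, M.supp y hy a ha]
    ext x
    constructor
    · rintro ⟨y, hy, rfl⟩
      exact ⟨y, hy, (h1 y hy).symm⟩
    · rintro ⟨y, hy, rfl⟩
      exact ⟨y, hy, h1 y hy⟩
  unfold rk
  rw [h]

lemma rk_le_E (X : Finset α) : M.rk X ≤ M.rk M.E := by
  rw [← rk_inter_E]
  exact M.rk_mono Finset.inter_subset_right

lemma rk_le_card (X : Finset α) : M.rk X ≤ X.card := by
  classical
  rw [rk_eq_span, ← Finset.coe_image]
  exact (finrank_span_finset_le_card _).trans Finset.card_image_le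

lemma rk_submod (X Y : Finset α) : M.rk (X ∪ Y) + M.rk (X ∩ Y) ≤ M.rk X + M.rk Y := by
  have h2 := Submodule.finrank_sup_add_finrank_inf_eq
    (Submodule.span K (M.evec '' (X : Set α))) (Submodule.span K (M.evec '' (Y : Set α)))
  rw [rk_eq_span, rk_eq_span, rk_eq_span, rk_eq_span, Finset.coe_union, Set.image_union,
    Submodule.span_union, ← h2]
  have h1 : Submodule.span K (M.evec '' ((X ∩ Y : Finset α) : Set α)) ≤
      Submodule.span K (M.evec '' (X : Set α)) ⊓ Submodule.span K (M.evec '' (Y : Set α)) := by
    refine le_inf (Submodule.span_mono (Set.image_mono ?_))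
      (Submodule.span_mono (Set.image_mono ?_))
    · exact Finset.coe_subset.2 Finset.inter_subset_left
    · exact Finset.coe_subset.2 Finset.inter_subset_right
  exact Nat.add_le_add_left (Submodule.finrank_mono h1) _

lemma rk_union_le (X Y : Finset α) : M.rk (X ∪ Y) ≤ M.rk X + M.rk Y :=
  (Nat.le_add_right _ _).trans (M.rk_submod X Y)

lemma rk_insert_le (X : Finset α) (a : α) : M.rk (insert a X) ≤ M.rk X + 1 := by
  have h1 := M.rk_union_le {a} X
  have h2 := M.rk_le_card {a}
  rw [Finset.card_singleton] at h2
  rw [Finset.insert_eq]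
  omega

/-- if all of `Y` is in the closure of `X`, adding `Y` does not change the rank -/
lemma rk_union_eq_of_inCl {X Y : Finset α} (h : ∀ b ∈ Y, M.InCl X b) : M.rk (X ∪ Y) = M.rk X := by
  rw [rk_eq_span, rk_eq_span, Finset.coe_union, Set.image_union, Submodule.span_union]
  have h1 : Submodule.span K (M.evec '' (Y : Set α)) ≤
      Submodule.span K (M.evec '' (X : Set α)) := by
    rw [Submodule.span_le]
    rintro _ ⟨b, hb, rfl⟩
    exact M.inCl_iff_mem_span.1 (h b hb)
  rw [sup_eq_left.2 h1]

lemma inCl_iff_rk {X : Finset α} {a : α} : M.InCl X a ↔ M.rk (insert a X) = M.rk X := by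
  constructor
  · intro h
    have h1 := M.rk_union_eq_of_inCl (X := X) (Y := {a}) (by
      intro b hb
      rw [Finset.mem_singleton] at hb
      rw [hb]
      exact h)
    rw [Finset.insert_eq, Finset.union_comm]
    exact h1
  · intro h
    rw [rk_eq_span, rk_eq_span] at h
    have h1 : Submodule.span K (M.evec '' (X : Set α)) ≤
        Submodule.span K (M.evec '' ((insert a X : Finset α) : Set α)) :=
      Submodule.span_mono (Set.image_mono (Finset.coe_subset.2 (Finset.subset_insert a X)))
    have h2 := Submodule.eq_of_le_of_finrank_eq h1 h.symm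
    rw [inCl_iff_mem_span, h2]
    exact Submodule.subset_span ⟨a, Finset.mem_coe.2 (Finset.mem_insert_self a X), rfl⟩

lemma inCl_of_mem {X : Finset α} {a : α} (h : a ∈ X) : M.InCl X a :=
  fun _ _ h' => h' a h

lemma inCl_of_notMem_E {X : Finset α} {a : α} (h : a ∉ M.E) : M.InCl X a :=
  fun x hx _ => M.supp x hx a h

lemma InCl.mono {M : LM K α} {X Y : Finset α} {a : α} (h : M.InCl X a) (hXY : X ⊆ Y) :
    M.InCl Y a := fun x hx h' => h x hx fun b hb => h' b (hXY hb)

lemma InCl.trans {M : LM K α} {X Y : Finset α} {a : α} (h : M.InCl Y a)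
    (hXY : ∀ b ∈ Y, M.InCl X b) : M.InCl X a :=
  fun x hx h' => h x hx fun b hb => hXY b hb x hx h'

/-- exchange property -/
lemma InCl.exchange {M : LM K α} {X : Finset α} {a b : α} (h : M.InCl (insert b X) a)
    (h' : ¬ M.InCl X a) : M.InCl (insert a X) b := by
  rw [inCl_iff_mem_span, Finset.coe_insert, Set.image_insert_eq] at h ⊢
  rw [inCl_iff_mem_span] at h'
  exact mem_span_insert_exchange h h'

lemma inCl_of_rk_le {X Y : Finset α} (h : X ⊆ Y) (h' : M.rk Y ≤ M.rk X) {b : α} (hb : b ∈ Y) :
    M.InCl X b := by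
  rw [inCl_iff_rk]
  have h1 : M.rk (insert b X) ≤ M.rk Y := M.rk_mono (Finset.insert_subset hb h)
  have h2 : M.rk X ≤ M.rk (insert b X) := M.rk_mono (Finset.subset_insert b X)
  omega

/-- extend an independent set inside a bigger set -/
lemma exists_basis_extend {I X : Finset α} (hI : M.rk I = I.card) (hIX : I ⊆ X) :
    ∃ B, I ⊆ B ∧ B ⊆ X ∧ B.card = M.rk X ∧ M.rk B = M.rk X := by
  classical
  obtain ⟨B, hB, hmax⟩ := (X.powerset.filter fun B => I ⊆ B ∧ M.rk B = B.card).exists_max_image
    Finset.card ⟨I, by
      rw [Finset.mem_filter, Finset.mem_powerset]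
      exact ⟨hIX, Finset.Subset.refl I, hI⟩⟩
  rw [Finset.mem_filter, Finset.mem_powerset] at hB
  obtain ⟨hBX, hIB, hrk⟩ := hB
  have h1 : ∀ b ∈ X, M.InCl B b := by
    intro b hb
    by_contra hcon
    have hbB : b ∉ B := fun h => hcon (M.inCl_of_mem h)
    have h2 := M.rk_insert_le B b
    have h3 : M.rk B ≤ M.rk (insert b B) := M.rk_mono (Finset.subset_insert b B)
    have h4 : M.rk (insert b B) ≠ M.rk B := fun h => hcon (M.inCl_iff_rk.2 h)
    have h5 : (insert b B).card = B.card + 1 := Finset.card_insert_of_notMem hbB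
    have h6 := hmax (insert b B) (by
      rw [Finset.mem_filter, Finset.mem_powerset]
      exact ⟨Finset.insert_subset hb hBX, hIB.trans (Finset.subset_insert b B), by omega⟩)
    omega
  have h2 := M.rk_union_eq_of_inCl h1
  rw [Finset.union_eq_right.2 hBX] at h2
  exact ⟨B, hIB, hBX, by omega, h2.symm⟩

/-- every set contains a subset of full rank of size its rank -/
lemma exists_basis (X : Finset α) : ∃ B ⊆ X, B.card = M.rk X ∧ M.rk B = M.rk X := by
  obtain ⟨B, _, h2, h3, h4⟩ := M.exists_basis_extend (I := ∅) (X := X)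
    (by rw [rk_empty, Finset.card_empty]) (Finset.empty_subset X)
  exact ⟨B, h2, h3, h4⟩

end Pool.Agent.H63.Sey.LM
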