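import Pool.Agent.H63.Sey.GdDef

/-!
# From regular matroids (Mathlib) to the framework (job SEY-G4)
-/

set_option autoImplicit false

namespace Pool.Agent.H63.Sey

open H63Mat

universe u v

variable {α : Type u} [DecidableEq α]

/-- rank in the matroid of a vector configuration: the functional `evec a` on `(ofVec E ρ).D`
(`a ∈ E`) satisfies `∑ c a • evec a = 0 ↔ ∑ c a • ρ a = 0` (`Module.forall_dual_apply_eq_zero_iff`) -/
lemma linearIndepOn_evec {K : Type} [Field K] {W : Type v} [AddCommGroup W] [Module K W]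
    {E : Finset α} {ρ : α → W} {I : Set α} (hI : I ⊆ E) :
    LinearIndepOn K (LM.ofVec (K := K) E ρ).evec I ↔ LinearIndepOn K ρ I := by
  have hrow : ∀ (φ : W →ₗ[K] K) (i : I), LM.rowMap E ρ φ i = φ (ρ i) := by
    intro φ i
    have : (i : α) ∈ E := hI i.2
    simp [LM.rowMap, this]
  have key : ∀ (s : Finset I) (g : I → K),
      ∑ i ∈ s, g i • (LM.ofVec (K := K) E ρ).evec i = 0 ↔ ∑ i ∈ s, g i • ρ i = 0 := by
    intro s g
    rw [← Module.forall_dual_apply_eq_zero_iff K (∑ i ∈ s, g i • ρ i)]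
    constructor
    · intro h φ
      have h1 := LinearMap.congr_fun h ⟨LM.rowMap E ρ φ, ⟨φ, rfl⟩⟩
      rw [LinearMap.sum_apply, LinearMap.zero_apply] at h1
      rw [map_sum, ← h1]
      refine Finset.sum_congr rfl fun i _ => ?_
      rw [LinearMap.smul_apply, LM.evec_apply, map_smul]
      simp only
      rw [hrow]
    · intro h
      refine LinearMap.ext fun x => ?_
      obtain ⟨x, φ, rfl⟩ := x
      have h1 := h φ
      rw [map_sum] at h1
      rw [LinearMap.sum_apply, LinearMap.zero_apply, ← h1]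
      refine Finset.sum_congr rfl fun i _ => ?_
      rw [LinearMap.smul_apply, LM.evec_apply, map_smul]
      simp only
      rw [hrow]
  unfold LinearIndepOn
  rw [linearIndependent_iff', linearIndependent_iff']
  constructor
  · intro h s g hg
    exact h s g ((key s g).2 hg)
  · intro h s g hg
    exact h s g ((key s g).1 hg)

/-- `LM.rk_eq_span`, `finrank_span_eq_card` -/
lemma rk_eq_card_iff {K : Type} [Field K] (M : LM K α) (B : Finset α) :
    M.rk B = B.card ↔ LinearIndepOn K M.evec (B : Set α) := by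
  unfold LinearIndepOn
  rw [linearIndependent_iff_card_eq_finrank_span, M.rk_eq_span]
  have h1 : Set.range (fun x : (B : Set α) => M.evec x) = M.evec '' (B : Set α) := by
    ext y
    constructor
    · rintro ⟨x, rfl⟩
      exact ⟨x, x.2, rfl⟩
    · rintro ⟨x, hx, rfl⟩
      exact ⟨⟨x, hx⟩, rfl⟩
  have h2 : Fintype.card ((B : Set α) : Type u) = B.card := by simp
  rw [h1, h2]
  exact eq_comm

/-- Two representations of the same matroid have the same rank function. Let `B ⊆ X` be a basis of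
`X` for `M₁` (`LM.exists_basis`: `B.card = M₁.rk X`, `M₁.rk B = M₁.rk X`), so `B` is independent in
`M₁`, hence in `M₂`: `M₁.rk X = B.card = M₂.rk B ≤ M₂.rk X`; and conversely. -/
lemma rk_eq_of_indep {K L : Type} [Field K] [Field L] {M₁ : LM K α} {M₂ : LM L α}
    {X : Finset α} (h : ∀ B ⊆ X, (LinearIndepOn K M₁.evec (B : Set α) ↔
      LinearIndepOn L M₂.evec (B : Set α))) : M₁.rk X = M₂.rk X := by
  apply le_antisymm
  · obtain ⟨B, hB, h1, h2⟩ := M₁.exists_basis X
    have h3 := (rk_eq_card_iff M₂ B).2 ((h B hB).1 ((rk_eq_card_iff M₁ B).1 (h2.trans h1.symm)))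
    rw [← h1, ← h3]
    exact M₂.rk_mono hB
  · obtain ⟨B, hB, h1, h2⟩ := M₂.exists_basis X
    have h3 := (rk_eq_card_iff M₁ B).2 ((h B hB).2 ((rk_eq_card_iff M₂ B).1 (h2.trans h1.symm)))
    rw [← h1, ← h3]
    exact M₁.rk_mono hB

/-- A matroid with a representation over `GF(2)` and one over `GF(3)`: `LM.ofVec E ρ₂` is regular
and represents `M`. -/
theorem exists_regular {M : Matroid α} (hfin : M.E.Finite)
    {W₂ : Type v} [AddCommGroup W₂] [Module (ZMod 2) W₂] {ρ₂ : α → W₂}
    {W₃ : Type v} [AddCommGroup W₃] [Module (ZMod 3) W₃] {ρ₃ : α → W₃}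
    (h₂ : ∀ I ⊆ M.E, (M.Indep I ↔ LinearIndepOn (ZMod 2) ρ₂ I))
    (h₃ : ∀ I ⊆ M.E, (M.Indep I ↔ LinearIndepOn (ZMod 3) ρ₃ I)) :
    ∃ N : BM α, Regular N ∧ (N.E : Set α) = M.E ∧ Represents N.evec M := by
  have hE : ((hfin.toFinset : Finset α) : Set α) = M.E := hfin.coe_toFinset
  refine ⟨LM.ofVec hfin.toFinset ρ₂, ⟨LM.ofVec hfin.toFinset ρ₃, rfl, fun X hX => ?_⟩, hE, ?_⟩
  · refine rk_eq_of_indep fun B hB => ?_
    have hBE : (B : Set α) ⊆ (hfin.toFinset : Finset α) := fun a ha => hX (hB ha)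
    rw [linearIndepOn_evec hBE, linearIndepOn_evec hBE]
    rw [hE] at hBE
    rw [← h₂ _ hBE, ← h₃ _ hBE]
  · intro I hI
    rw [h₂ I hI]
    rw [← hE] at hI
    exact (linearIndepOn_evec hI).symm

/-- `Repd` from `GoodB`: `Q = Module.Dual (ZMod 2) N.D`, `q = N.evec`, `rep_of_dep`,
`dep_iff_of_represents`. -/
theorem repd_of_goodB {M : Matroid α} {N : BM α} (hE : (N.E : Set α) = M.E)
    (hr : Represents N.evec M) {k : ℕ} (h : GoodB N k) : Repd M k := by
  obtain ⟨V, h1, h2⟩ := h
  have hfin : M.E.Finite := by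
    rw [← hE]
    exact N.E.finite_toSet
  refine ⟨Module.Dual (ZMod 2) N.D, inferInstance, N.evec, V, ?_, hfin, ?_, h2, ?_⟩
  · intro x
    refine LinearMap.ext fun y => ?_
    rw [LinearMap.add_apply, LinearMap.zero_apply]
    exact CharTwo.add_self_eq_zero (x y)
  · intro e he
    rw [← hE] at he
    exact h1 e he
  · exact rep_of_dep N.evec M hfin fun X hX => dep_iff_of_represents hr X hX

end Pool.Agent.H63.Sey
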